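import Pool.Agent.Helper392_GT.Depth

namespace Pool.Agent.Helper392_GT

open Polynomial

universe u v

set_option linter.unusedSimpArgs false
set_option linter.unusedVariables false

attribute [local instance 100] LieRing.ofAssociativeRing

section cocycle

variable {k : Type u} [CommRing k] {K : Type u} [CommRing K] [Algebra k K]

/-- no two-step path -/
structure NoPath (A B : Matrix (Fin 4) (Fin 4) K) : Prop where
  c1 : (A 0 1 = 0 ∧ B 0 1 = 0) ∨ (A 1 3 = 0 ∧ B 1 3 = 0)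
  c2 : (A 0 2 = 0 ∧ B 0 2 = 0) ∨ (A 2 3 = 0 ∧ B 2 3 = 0)

theorem NoPath.aux {A B : Matrix (Fin 4) (Fin 4) K} (h : NoPath A B) (hA : Dia A) (hB : Dia B) :
    ⁅A, B⁆ 0 1 * ⁅A, B⁆ 1 3 = 0 ∧ ⁅A, B⁆ 0 2 * ⁅A, B⁆ 2 3 = 0 ∧
    A 0 1 * ⁅A, B⁆ 1 3 = 0 ∧ ⁅A, B⁆ 0 1 * A 1 3 = 0 ∧ A 0 2 * ⁅A, B⁆ 2 3 = 0 ∧
    ⁅A, B⁆ 0 2 * A 2 3 = 0 ∧
    B 0 1 * ⁅A, B⁆ 1 3 = 0 ∧ ⁅A, B⁆ 0 1 * B 1 3 = 0 ∧ B 0 2 * ⁅A, B⁆ 2 3 = 0 ∧
    ⁅A, B⁆ 0 2 * B 2 3 = 0 := by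
  have h01 := hA.lie01 hB
  have h02 := hA.lie02 hB
  have h13 := hA.lie13 hB
  have h23 := hA.lie23 hB
  rcases h.c1 with ⟨p, q⟩ | ⟨p, q⟩ <;> rcases h.c2 with ⟨r, s⟩ | ⟨r, s⟩ <;>
  · simp only [p, q, r, s, mul_zero, sub_zero] at h01 h02 h13 h23
    simp [h01, h02, h13, h23, p, q, r, s]

theorem f03 {A B : Matrix (Fin 4) (Fin 4) K} (hA : Dia A) (hB : Dia B) (h : NoPath A B)
    (f : P2 k) :
    subst k A B (gm k f) 0 3 = ev2 (A 0 0 - A 3 3) (B 0 0 - B 3 3) f * ⁅A, B⁆ 0 3 := by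
  obtain ⟨z1, z2, a1, a2, a3, a4, b1, b2, b3, b4⟩ := h.aux hA hB
  have hc : subst k A B (gc k) = ⁅A, B⁆ := by
    rw [LieHom.map_lie, subst_x, subst_y]
  refine P2_ind (fun f => subst k A B (gm k f) 0 3 =
    ev2 (A 0 0 - A 3 3) (B 0 0 - B 3 3) f * ⁅A, B⁆ 0 3) ?_ ?_ ?_ ?_ f
  · intro p q hp hq
    simp only [map_add, Matrix.add_apply, hp, hq, add_mul]
  · intro a
    simp only [gm_algebraMap, map_smul, hc, Matrix.smul_apply, AlgHom.commutes, Algebra.smul_def]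
  · intro p hp
    have hd : subst k A B (gm k (px * p)) =
        subst k A B (gm k (px * p) - ⁅gx k, gm k p⁆) + ⁅A, subst k A B (gm k p)⁆ := by
      rw [map_sub, LieHom.map_lie, subst_x]; abel
    obtain ⟨P, _, hE⟩ := exists_P (gm_px_mul p)
    obtain ⟨p0, p1, p2, p3⟩ := zd_D1 (k := k) hA hB (gm_mem p)
    obtain ⟨f0, f1, f2, f3⟩ := gm_entries (k := k) hA hB p
    rw [hd, Matrix.add_apply, hE K A B hA hB, z1, z2, Dia.lie03, p0, p3, hp, f0, f1, f2, f3]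
    simp only [map_mul, ev2_px]
    linear_combination (ev2 (A 1 1 - A 3 3) (B 1 1 - B 3 3) p) * a1
      - (ev2 (A 0 0 - A 1 1) (B 0 0 - B 1 1) p) * a2
      + (ev2 (A 2 2 - A 3 3) (B 2 2 - B 3 3) p) * a3
      - (ev2 (A 0 0 - A 2 2) (B 0 0 - B 2 2) p) * a4
  · intro p hp
    obtain ⟨p0, p1, p2, p3⟩ := zd_D1 (k := k) hA hB (gm_mem p)
    obtain ⟨f0, f1, f2, f3⟩ := gm_entries (k := k) hA hB p
    rw [gm_py_mul, LieHom.map_lie, subst_y, Dia.lie03, p0, p3, hp, f0, f1, f2, f3]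
    simp only [map_mul, ev2_py]
    linear_combination (ev2 (A 1 1 - A 3 3) (B 1 1 - B 3 3) p) * b1
      - (ev2 (A 0 0 - A 1 1) (B 0 0 - B 1 1) p) * b2
      + (ev2 (A 2 2 - A 3 3) (B 2 2 - B 3 3) p) * b3
      - (ev2 (A 0 0 - A 2 2) (B 0 0 - B 2 2) p) * b4

theorem f03' {A B : Matrix (Fin 4) (Fin 4) K} (hA : Dia A) (hB : Dia B) (h : NoPath A B)
    {u : F2 k} {f : P2 k} (hu : u - gm k f ∈ D2 k) :
    subst k A B u 0 3 = ev2 (A 0 0 - A 3 3) (B 0 0 - B 3 3) f * ⁅A, B⁆ 0 3 := by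
  obtain ⟨z1, z2, _⟩ := h.aux hA hB
  obtain ⟨P, _, hE⟩ := exists_P hu
  have e := hE K A B hA hB
  rw [z1, z2, map_sub, Matrix.sub_apply, mul_zero, mul_zero, add_zero, sub_eq_zero] at e
  rw [e, f03 hA hB h]

theorem f03_mk {u : F2 k} {f : P2 k} (hu : u - gm k f ∈ D2 k)
    (a b c d e f' g h i a' b' c' d' e' f'' g' h' i' : K)
    (c1 : (e = 0 ∧ e' = 0) ∨ (g = 0 ∧ g' = 0)) (c2 : (f' = 0 ∧ f'' = 0) ∨ (h = 0 ∧ h' = 0)) :
    subst k (mkM a b c d e f' g h i) (mkM a' b' c' d' e' f'' g' h' i') u 0 3 =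
      ev2 (a - d) (a' - d') f * ((a - d) * i' - (a' - d') * i) := by
  rw [f03' (mkM_dia _ _ _ _ _ _ _ _ _) (mkM_dia _ _ _ _ _ _ _ _ _) ⟨c1, c2⟩ hu, mkM_lie]
  simp only [mkM_00, mkM_01, mkM_02, mkM_03, mkM_11, mkM_13, mkM_22, mkM_23, mkM_33]
  have z1 : e * g' - e' * g = 0 := by
    rcases c1 with ⟨p, q⟩ | ⟨p, q⟩ <;> rw [p, q] <;> ring
  have z2 : f' * h' - f'' * h = 0 := by
    rcases c2 with ⟨p, q⟩ | ⟨p, q⟩ <;> rw [p, q] <;> ring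
  rw [z1, z2, add_zero, add_zero]

/-- third representation: the additive cocycle relation -/
theorem relF {ψ : F2 k} (hp : Pentagon k ψ) (hψ : ψ ∈ D1 k) {f : P2 k}
    (hf : ψ - gm k f ∈ D2 k) (a b c : K) :
    a * b * ev2 a b f + (a + b) * c * ev2 (a + b) c f
      = b * c * ev2 b c f + a * (b + c) * ev2 a (b + c) f := by
  have h := five hp hψ
    (mkM (0 : K) 0 0 (-a) 0 0 0 (-a * (a + b)) a)
    (mkM 0 (-b) 0 (-b) 0 0 0 0 0)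
    (mkM 0 (-c) (-c) (-c) 1 0 0 0 c)
    (mkM 0 (-b) (-(a + b)) (-(a + b)) 0 1 0 0 0)
    (mkM 0 0 (-c) (-(b + c)) 0 0 (c * (b + c)) 0 0)
    (by rw [mkM_lie]; apply mkM_eq_zero <;> ring)
    (by rw [mkM_lie]; apply mkM_eq_zero <;> ring)
    (by rw [mkM_lie]; apply mkM_eq_zero <;> ring)
    (by rw [mkM_lie]; apply mkM_eq_zero <;> ring)
    (by rw [mkM_lie]; apply mkM_eq_zero <;> ring)
    (by rw [mkM_lie, mkM_lie, mkM_lie, mkM_lie, mkM_lie, mkM_add, mkM_add, mkM_add, mkM_add]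
        apply mkM_eq_zero <;> ring)
  have h2 := congrFun (congrFun h 0) 3
  simp only [Matrix.add_apply] at h2
  rw [f03_mk hf _ _ _ _ _ _ _ _ _ _ _ _ _ _ _ _ _ _ (by simp) (by simp),
    f03_mk hf _ _ _ _ _ _ _ _ _ _ _ _ _ _ _ _ _ _ (by simp) (by simp),
    f03_mk hf _ _ _ _ _ _ _ _ _ _ _ _ _ _ _ _ _ _ (by simp) (by simp),
    f03_mk hf _ _ _ _ _ _ _ _ _ _ _ _ _ _ _ _ _ _ (by simp) (by simp),
    f03_mk hf _ _ _ _ _ _ _ _ _ _ _ _ _ _ _ _ _ _ (by simp) (by simp)] at h2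
  have e1 : ∀ c : K, (0 : K) - -c = c := fun c => by ring
  simp only [e1] at h2
  linear_combination h2

end cocycle

end Pool.Agent.Helper392_GT
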