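import Pool.Agent.Helper392_GT.QSym

namespace Pool.Agent.Helper392_GT

open Polynomial

universe u v

set_option linter.unusedSimpArgs false
set_option linter.unusedVariables false

attribute [local instance 100] LieRing.ofAssociativeRing

section dual

variable {k : Type u} [CommRing k] {K K' : Type u} [CommRing K] [Algebra k K] [CommRing K']
  [Algebra k K']

/-- base change of matrices -/
def mm (a : K →ₐ[k] K') (M : Matrix (Fin 4) (Fin 4) K) : Matrix (Fin 4) (Fin 4) K' := M.map a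

theorem mm_apply (a : K →ₐ[k] K') (M : Matrix (Fin 4) (Fin 4) K) (i j : Fin 4) :
    mm a M i j = a (M i j) := rfl

theorem mm_add (a : K →ₐ[k] K') (M N : Matrix (Fin 4) (Fin 4) K) :
    mm a (M + N) = mm a M + mm a N := by
  ext i j; simp [mm_apply]

theorem mm_sub (a : K →ₐ[k] K') (M N : Matrix (Fin 4) (Fin 4) K) :
    mm a (M - N) = mm a M - mm a N := by
  ext i j; simp [mm_apply]

theorem mm_zero (a : K →ₐ[k] K') : mm a (0 : Matrix (Fin 4) (Fin 4) K) = 0 := by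
  ext i j; simp [mm_apply]

theorem mm_smul (a : K →ₐ[k] K') (c : k) (M : Matrix (Fin 4) (Fin 4) K) :
    mm a (c • M) = c • mm a M := by
  ext i j; simp [mm_apply]

theorem mm_mul (a : K →ₐ[k] K') (M N : Matrix (Fin 4) (Fin 4) K) :
    mm a (M * N) = mm a M * mm a N := by
  ext i j; simp [mm_apply, Matrix.mul_apply]

theorem mm_lie (a : K →ₐ[k] K') (M N : Matrix (Fin 4) (Fin 4) K) :
    mm a ⁅M, N⁆ = ⁅mm a M, mm a N⁆ := by
  rw [Ring.lie_def, Ring.lie_def, mm_sub, mm_mul, mm_mul]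

theorem mm_dia (a : K →ₐ[k] K') {M : Matrix (Fin 4) (Fin 4) K} (h : Dia M) : Dia (mm a M) := by
  constructor <;> simp [mm_apply, h.h10, h.h20, h.h30, h.h21, h.h12, h.h31, h.h32]

theorem mm_subst (a : K →ₐ[k] K') (A B : Matrix (Fin 4) (Fin 4) K) (u : F2 k) :
    subst k (mm a A) (mm a B) u = mm a (subst k A B u) := by
  refine free_ind (fun u => subst k (mm a A) (mm a B) u = mm a (subst k A B u)) ?_ ?_ ?_ ?_ ?_ ?_ u
  · rw [map_zero, map_zero, mm_zero]
  · intro u v hu hv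
    rw [map_add, map_add, hu, hv, mm_add]
  · intro c u hu
    rw [map_smul, map_smul, hu, mm_smul]
  · intro u v hu hv
    rw [LieHom.map_lie, LieHom.map_lie, hu, hv, mm_lie]
  · rw [subst_x, subst_x]
  · rw [subst_y, subst_y]

theorem dual_subst (a : K →ₐ[k] K') (ε : K') (hε : ε * ε = 0) (A B : Matrix (Fin 4) (Fin 4) K)
    (D : LieDerivation k (F2 k) (F2 k)) (hx : D (gx k) = 0) (u : F2 k) :
    subst k (mm a A) (mm a B + ε • mm a (subst k A B (D (gy k)))) u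
      = mm a (subst k A B u) + ε • mm a (subst k A B (D u)) := by
  refine free_ind (fun u => subst k (mm a A) (mm a B + ε • mm a (subst k A B (D (gy k)))) u
      = mm a (subst k A B u) + ε • mm a (subst k A B (D u))) ?_ ?_ ?_ ?_ ?_ ?_ u
  · simp [mm_zero]
  · intro u v hu hv
    rw [map_add, map_add, map_add, map_add, hu, hv, mm_add, mm_add, smul_add]
    abel
  · intro c u hu
    rw [map_smul, map_smul, map_smul, map_smul, hu, mm_smul, mm_smul, smul_add, smul_comm]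
  · intro u v hu hv
    rw [LieHom.map_lie, LieHom.map_lie, hu, hv, LieDerivation.apply_lie_eq_sub, map_sub,
      LieHom.map_lie, LieHom.map_lie, mm_sub, mm_lie, mm_lie, mm_lie]
    obtain ⟨U, hU⟩ : ∃ U, U = mm a (subst k A B u) := ⟨_, rfl⟩
    obtain ⟨V, hV⟩ : ∃ V, V = mm a (subst k A B v) := ⟨_, rfl⟩
    obtain ⟨U', hU'⟩ : ∃ U', U' = mm a (subst k A B (D u)) := ⟨_, rfl⟩
    obtain ⟨V', hV'⟩ : ∃ V', V' = mm a (subst k A B (D v)) := ⟨_, rfl⟩
    rw [← hU, ← hV, ← hU', ← hV']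
    simp only [Ring.lie_def, add_mul, mul_add, smul_mul_assoc, mul_smul_comm, smul_add, smul_sub,
      smul_smul, hε, zero_smul]
    abel
  · rw [subst_x, subst_x, hx, map_zero, mm_zero, smul_zero, add_zero]
  · rw [subst_y, subst_y]

/-- the matrix `e E₀₃` -/
def cE (e : K) : Matrix (Fin 4) (Fin 4) K := mkM 0 0 0 0 0 0 0 0 e

theorem cE_zero : cE (0 : K) = 0 := mkM_zero

theorem cE_add (e f : K) : cE (e + f) = cE e + cE f := by
  rw [cE, cE, cE, mkM_add]; simp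

theorem cE_smul (c : k) (e : K) : cE (c • e) = c • cE e := by
  rw [cE, cE, ← algebraMap_smul K c (mkM (0 : K) 0 0 0 0 0 0 0 e), mkM_smul]
  simp only [← smul_eq_mul, algebraMap_smul, smul_zero]

theorem cE_neg (e : K) : cE (-e) = - cE e := by
  have := cE_add e (-e)
  rw [add_neg_cancel, cE_zero] at this
  exact (neg_eq_of_add_eq_zero_right this.symm).symm

theorem lie_cE {U : Matrix (Fin 4) (Fin 4) K} (hU : Dia U) (e : K) :
    ⁅U, cE e⁆ = cE ((U 0 0 - U 3 3) * e) := lie_corner hU e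

theorem cE_lie {U : Matrix (Fin 4) (Fin 4) K} (hU : Dia U) (e : K) :
    ⁅cE e, U⁆ = cE (-((U 0 0 - U 3 3) * e)) := by
  rw [← lie_skew, lie_cE hU, cE_neg]

theorem cE_dia (e : K) : Dia (cE e) := mkM_dia _ _ _ _ _ _ _ _ _

theorem cE_cE (e f : K) : ⁅cE e, cE f⁆ = 0 := by
  rw [lie_cE (cE_dia e)]
  have : ((cE e) 0 0 - (cE e) 3 3) * f = 0 := by simp [cE]
  rw [this, cE_zero]

theorem corner_subst {A B : Matrix (Fin 4) (Fin 4) K} (hA : Dia A) (hB : Dia B) (e : K) (u : F2 k) :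
    subst k A (B + cE e) u = subst k A B u
      + cE (subst k (mkM (A 0 0) (A 3 3) 0 0 0 0 0 0 0)
        (mkM (B 0 0) (B 3 3) 0 0 e 0 0 0 0) u 0 1) ∧
    subst k (mkM (A 0 0) (A 3 3) 0 0 0 0 0 0 0) (mkM (B 0 0) (B 3 3) 0 0 e 0 0 0 0) u 0 0
      = subst k A B u 0 0 ∧
    subst k (mkM (A 0 0) (A 3 3) 0 0 0 0 0 0 0) (mkM (B 0 0) (B 3 3) 0 0 e 0 0 0 0) u 1 1
      = subst k A B u 3 3 := by
  have hA' := mkM_dia (A 0 0) (A 3 3) 0 0 0 0 0 0 0
  have hB' := mkM_dia (B 0 0) (B 3 3) 0 0 e 0 0 0 0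
  obtain ⟨A', hA1⟩ : ∃ A', A' = mkM (A 0 0) (A 3 3) 0 0 0 0 0 0 0 := ⟨_, rfl⟩
  obtain ⟨B', hB1⟩ : ∃ B', B' = mkM (B 0 0) (B 3 3) 0 0 e 0 0 0 0 := ⟨_, rfl⟩
  rw [← hA1] at hA' ⊢
  rw [← hB1] at hB' ⊢
  refine free_ind (fun u => subst k A (B + cE e) u = subst k A B u
      + cE (subst k A' B' u 0 1) ∧ subst k A' B' u 0 0 = subst k A B u 0 0 ∧
    subst k A' B' u 1 1 = subst k A B u 3 3) ?_ ?_ ?_ ?_ ?_ ?_ u
  · simp [cE_zero]
  · rintro u v ⟨h1, h2, h3⟩ ⟨g1, g2, g3⟩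
    refine ⟨?_, ?_, ?_⟩
    · rw [map_add, map_add, map_add, h1, g1, Matrix.add_apply, cE_add]
      abel
    · rw [map_add, map_add, Matrix.add_apply, Matrix.add_apply, h2, g2]
    · rw [map_add, map_add, Matrix.add_apply, Matrix.add_apply, h3, g3]
  · rintro c u ⟨h1, h2, h3⟩
    refine ⟨?_, ?_, ?_⟩
    · rw [map_smul, map_smul, map_smul, h1, Matrix.smul_apply, smul_add, cE_smul]
    · rw [map_smul, map_smul, Matrix.smul_apply, Matrix.smul_apply, h2]
    · rw [map_smul, map_smul, Matrix.smul_apply, Matrix.smul_apply, h3]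
  · rintro u v ⟨h1, h2, h3⟩ ⟨g1, g2, g3⟩
    have dU := dia_subst (k := k) hA hB u
    have dV := dia_subst (k := k) hA hB v
    have dU' := dia_subst (k := k) hA' hB' u
    have dV' := dia_subst (k := k) hA' hB' v
    refine ⟨?_, ?_, ?_⟩
    · rw [LieHom.map_lie, LieHom.map_lie, LieHom.map_lie, h1, g1, dU'.lie01 dV', h2, h3, g2, g3,
        add_lie, lie_add, lie_add, lie_cE dU, cE_lie dV, cE_cE, add_zero, add_assoc, ← cE_add]
      congr 2
      ring
    · rw [LieHom.map_lie, LieHom.map_lie, dU'.lie00 dV', dU.lie00 dV]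
    · rw [LieHom.map_lie, LieHom.map_lie, dU'.lie11 dV', dU.lie33 dV]
  · rw [subst_x, subst_x, subst_x, hA1]
    refine ⟨?_, rfl, rfl⟩
    rw [mkM_01, cE_zero, add_zero]
  · rw [subst_y, subst_y, subst_y, hB1]
    exact ⟨rfl, rfl, rfl⟩

end dual

end Pool.Agent.Helper392_GT
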