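import Pool.Agent.Helper392_GT.Act

namespace Pool.Agent.Helper392_GT

open Polynomial

universe u v

set_option linter.unusedSimpArgs false
set_option linter.unusedVariables false

attribute [local instance 100] LieRing.ofAssociativeRing

section act

variable {k : Type u} [CommRing k]

/-- the multiplier attached to `f` -/
noncomputable def ps (F : P2 k) : K0 k := C (C F) + sg F - ev2 vs vt F

theorem ev2_comp {K K' : Type*} [CommRing K] [Algebra k K] [CommRing K'] [Algebra k K']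
    (φ : K →ₐ[k] K') (a b : K) (f : P2 k) : φ (ev2 a b f) = ev2 (φ a) (φ b) f := by
  have : φ.comp (ev2 (k := k) a b) = ev2 (φ a) (φ b) := by
    apply P2_hom_ext <;> simp
  exact congrArg (fun h : P2 k →ₐ[k] K' => h f) this

theorem snd_mul_inl {K : Type u} [CommRing K] (p c c' d d' q e e' g g' u u' : K)
    (h : (TrivSqZeroExt.inl u + TrivSqZeroExt.inr 1 * TrivSqZeroExt.inl u' : TrivSqZeroExt K K) =
      TrivSqZeroExt.inl p * ((TrivSqZeroExt.inl c + TrivSqZeroExt.inr 1 * TrivSqZeroExt.inl c')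
        * (TrivSqZeroExt.inl d + TrivSqZeroExt.inr 1 * TrivSqZeroExt.inl d'))
      + TrivSqZeroExt.inl q * ((TrivSqZeroExt.inl e + TrivSqZeroExt.inr 1 * TrivSqZeroExt.inl e')
        * (TrivSqZeroExt.inl g + TrivSqZeroExt.inr 1 * TrivSqZeroExt.inl g'))) :
    u' = p * (c' * d + c * d') + q * (e' * g + e * g') := by
  have := congrArg TrivSqZeroExt.snd h
  simp only [TrivSqZeroExt.snd_add, TrivSqZeroExt.snd_mul, TrivSqZeroExt.snd_inl,
    TrivSqZeroExt.fst_inl, TrivSqZeroExt.snd_inr, TrivSqZeroExt.fst_inr, TrivSqZeroExt.fst_mul,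
    TrivSqZeroExt.fst_add, smul_eq_mul, MulOpposite.smul_eq_mul_unop, MulOpposite.unop_op, mul_zero, zero_mul,
    add_zero, zero_add, mul_one, one_mul] at this
  rw [this]; ring

theorem eq_cE {K : Type u} [CommRing K] {M : Matrix (Fin 4) (Fin 4) K} (hM : Dia M) (h1 : ZD M)
    (h2 : ZO M) : M = cE (M 0 3) := by
  obtain ⟨p0, p1, p2, p3⟩ := h1
  obtain ⟨q0, q1, q2, q3⟩ := h2
  apply dia_ext hM (cE_dia _)
  · rw [p0]; rfl
  · rw [p1]; rfl
  · rw [p2]; rfl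
  · rw [p3]; rfl
  · rw [q0]; rfl
  · rw [q1]; rfl
  · rw [q2]; rfl
  · rw [q3]; rfl
  · rfl

theorem f_entries {K : Type u} [CommRing K] [Algebra k K] {A B : Matrix (Fin 4) (Fin 4) K}
    (hA : Dia A) (hB : Dia B) {σ : F2 k} {f : P2 k} (hf : σ - gm k f ∈ D2 k) :
    subst k A B σ 0 1 = ev2 (A 0 0 - A 1 1) (B 0 0 - B 1 1) f * ⁅A, B⁆ 0 1 ∧
    subst k A B σ 0 2 = ev2 (A 0 0 - A 2 2) (B 0 0 - B 2 2) f * ⁅A, B⁆ 0 2 ∧
    subst k A B σ 1 3 = ev2 (A 1 1 - A 3 3) (B 1 1 - B 3 3) f * ⁅A, B⁆ 1 3 ∧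
    subst k A B σ 2 3 = ev2 (A 2 2 - A 3 3) (B 2 2 - B 3 3) f * ⁅A, B⁆ 2 3 := by
  obtain ⟨a0, a1, a2, a3⟩ := zo_D2 (k := k) hA hB hf
  obtain ⟨f0, f1, f2, f3⟩ := gm_entries (k := k) hA hB f
  rw [map_sub, Matrix.sub_apply, sub_eq_zero] at a0 a1 a2 a3
  exact ⟨by rw [a0, f0], by rw [a1, f1], by rw [a2, f2], by rw [a3, f3]⟩

theorem act_entry {σ φ : F2 k} {f : P2 k} (hσ : σ ∈ D1 k) (hf : σ - gm k f ∈ D2 k)
    (hφ : φ ∈ D2 k) {P : K0 k} (hE : Entry φ P) (D E : LieDerivation k (F2 k) (F2 k))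
    (hDx : D (gx k) = 0) (hDy : D (gy k) = ⁅gy k, σ⁆) (hEx : E (gx k) = 0)
    (hEy : E (gy k) = ⁅gy k, φ⁆) :
    Entry (⁅σ, φ⁆ + D φ - E σ) (ps (px * py * f) * P) := by
  intro K _ _ A B hA hB
  let a : K →ₐ[k] TrivSqZeroExt K K := TrivSqZeroExt.inlAlgHom k K K
  have ha : ∀ z, a z = TrivSqZeroExt.inl z := fun z => rfl
  obtain ⟨ε, hεd⟩ : ∃ ε : TrivSqZeroExt K K, ε = TrivSqZeroExt.inr 1 := ⟨_, rfl⟩
  have hε : ε * ε = 0 := by rw [hεd]; exact TrivSqZeroExt.inr_mul_inr K 1 1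
  have dσ := dia_subst (k := k) hA hB σ
  have dφ := dia_subst (k := k) hA hB φ
  obtain ⟨s0, s1, s2, s3⟩ := zd_D1 (k := k) hA hB hσ
  obtain ⟨s01, s02, s13, s23⟩ := f_entries hA hB hf
  have zφ := zd_D1 (k := k) hA hB (D2_le_D1 hφ)
  obtain ⟨p0, p1, p2, p3⟩ := zφ
  obtain ⟨p01, p02, p13, p23⟩ := zo_D2 (k := k) hA hB hφ
  -- the bracket
  have t1 : subst k A B ⁅σ, φ⁆ 0 3 = 0 := by
    rw [LieHom.map_lie, Dia.lie03, s0, s3, p0, p3, p01, p02, p13, p23]; ring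
  -- the derivation applied to φ
  obtain ⟨N, hN⟩ : ∃ N, N = ⁅B, subst k A B σ⁆ := ⟨_, rfl⟩
  have dN : Dia N := by rw [hN]; exact hB.lie dσ
  have n00 : N 0 0 = 0 := by rw [hN, hB.lie00 dσ]
  have n11 : N 1 1 = 0 := by rw [hN, hB.lie11 dσ]
  have n22 : N 2 2 = 0 := by rw [hN, hB.lie22 dσ]
  have n33 : N 3 3 = 0 := by rw [hN, hB.lie33 dσ]
  have n01 : ⁅A, N⁆ 0 1 = ev2 (A 0 0 - A 1 1) (B 0 0 - B 1 1) (px * py * f) * ⁅A, B⁆ 0 1 := by
    rw [hA.lie01 dN, n00, n11, hN, hB.lie01 dσ, s0, s1, s01, map_mul, map_mul, ev2_px, ev2_py]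
    ring
  have n02 : ⁅A, N⁆ 0 2 = ev2 (A 0 0 - A 2 2) (B 0 0 - B 2 2) (px * py * f) * ⁅A, B⁆ 0 2 := by
    rw [hA.lie02 dN, n00, n22, hN, hB.lie02 dσ, s0, s2, s02, map_mul, map_mul, ev2_px, ev2_py]
    ring
  have n13 : ⁅A, N⁆ 1 3 = ev2 (A 1 1 - A 3 3) (B 1 1 - B 3 3) (px * py * f) * ⁅A, B⁆ 1 3 := by
    rw [hA.lie13 dN, n11, n33, hN, hB.lie13 dσ, s1, s3, s13, map_mul, map_mul, ev2_px, ev2_py]
    ring
  have n23 : ⁅A, N⁆ 2 3 = ev2 (A 2 2 - A 3 3) (B 2 2 - B 3 3) (px * py * f) * ⁅A, B⁆ 2 3 := by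
    rw [hA.lie23 dN, n22, n33, hN, hB.lie23 dσ, s2, s3, s23, map_mul, map_mul, ev2_px, ev2_py]
    ring
  have hd := dual_subst a ε hε A B D hDx φ
  rw [hDy, LieHom.map_lie, subst_y, ← hN] at hd
  have dA' := mm_dia a hA
  have dB' : Dia (mm a B + ε • mm a N) := (mm_dia a hB).add ((mm_dia a dN).smul ε)
  have hd2 := hE (TrivSqZeroExt K K) (mm a A) (mm a B + ε • mm a N) dA' dB'
  have hlie : ⁅mm a A, mm a B + ε • mm a N⁆ = mm a ⁅A, B⁆ + ε • mm a ⁅A, N⁆ := by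
    rw [lie_add, mm_lie, mm_lie]
    congr 1
    simp only [Ring.lie_def, mul_smul_comm, smul_mul_assoc, smul_sub]
  rw [hd, hlie] at hd2
  simp only [Matrix.add_apply, Matrix.smul_apply, mm_apply, n00, n11, n22, n33, map_zero, smul_zero,
    mul_zero, add_zero, smul_eq_mul] at hd2
  rw [← map_sub, ← map_sub, ← map_sub, ← map_sub, ← map_sub, ← map_sub, ← ev4_nat, ← ev4_nat] at hd2
  simp only [ha, hεd] at hd2
  have t2 := snd_mul_inl _ _ _ _ _ _ _ _ _ _ _ _ hd2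
  -- the derivation applied to σ
  have e3 : ⁅B, subst k A B φ⁆ = cE ((B 0 0 - B 3 3) * subst k A B φ 0 3) := by
    have := eq_cE dφ ⟨p0, p1, p2, p3⟩ ⟨p01, p02, p13, p23⟩
    conv_lhs => rw [this]
    rw [lie_cE hB]
  have hd3 := dual_subst a ε hε A B E hEx σ
  have e4 : ε • mm a (cE ((B 0 0 - B 3 3) * subst k A B φ 0 3)) =
      cE (ε * a ((B 0 0 - B 3 3) * subst k A B φ 0 3)) := by
    refine Matrix.ext fun i j => ?_
    fin_cases i <;> fin_cases j <;> simp [mm_apply, cE, mkM]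
  rw [hEy, LieHom.map_lie, subst_y, e3, e4, (corner_subst dA' (mm_dia a hB) _ σ).1, mm_subst] at hd3
  have hd4 := congrFun (congrFun hd3 0) 3
  simp only [Matrix.add_apply] at hd4
  replace hd4 := add_left_cancel hd4
  have f0 := (f_entries (k := k) (mkM_dia ((mm a A) 0 0) ((mm a A) 3 3) 0 0 0 0 0 0 0)
    (mkM_dia ((mm a B) 0 0) ((mm a B) 3 3) 0 0 (ε * a ((B 0 0 - B 3 3) * subst k A B φ 0 3)) 0 0 0 0)
    hf).1
  rw [f0, mkM_lie] at hd4
  simp only [cE, mkM_00, mkM_11, mkM_01, mkM_03, mul_zero, sub_zero, mm_apply, Matrix.smul_apply,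
    smul_eq_mul] at hd4
  rw [← map_sub, ← map_sub, ← ev2_comp] at hd4
  have t3 : subst k A B (E σ) 0 3 = ev2 (A 0 0 - A 3 3) (B 0 0 - B 3 3) (px * py * f)
      * subst k A B φ 0 3 := by
    have := congrArg TrivSqZeroExt.snd hd4
    simp only [ha, hεd, TrivSqZeroExt.snd_mul, TrivSqZeroExt.snd_inl,
      TrivSqZeroExt.fst_inl, TrivSqZeroExt.snd_inr, TrivSqZeroExt.fst_inr, TrivSqZeroExt.fst_mul,
      smul_eq_mul, MulOpposite.smul_eq_mul_unop, MulOpposite.unop_op, mul_zero, zero_mul,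
      add_zero, zero_add, mul_one, one_mul] at this
    rw [← this, map_mul, map_mul, ev2_px, ev2_py]
    ring
  have h03 := hE K A B hA hB
  rw [map_sub, map_add, Matrix.sub_apply, Matrix.add_apply, t1, t2, t3, h03, n01, n02, n13, n23]
  simp only [map_mul, ps, map_sub, map_add, ev4_CC, ev4_sg]
  have e5 : ∀ x y s t : K, ev4 (k := k) x y s t (ev2 (vs : K0 k) vt f) = ev2 s t f := by
    intro x y s t
    have : (ev4 (k := k) x y s t).comp (ev2 (vs : K0 k) vt) = ev2 s t := by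
      apply P2_hom_ext <;> simp
    exact congrArg (fun h : P2 k →ₐ[k] K => h f) this
  simp only [e5, ev2_px, ev2_py, ev4_vs, ev4_vt]
  have s1 : A 0 0 - A 3 3 - (A 0 0 - A 1 1) = A 1 1 - A 3 3 := by ring
  have s2 : B 0 0 - B 3 3 - (B 0 0 - B 1 1) = B 1 1 - B 3 3 := by ring
  have s3 : A 0 0 - A 3 3 - (A 0 0 - A 2 2) = A 2 2 - A 3 3 := by ring
  have s4 : B 0 0 - B 3 3 - (B 0 0 - B 2 2) = B 2 2 - B 3 3 := by ring
  rw [s1, s2, s3, s4]
  ring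

end act

end Pool.Agent.Helper392_GT
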