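import Pool.Agent.Helper392_GT.Coefs

namespace Pool.Agent.Helper392_GT

open Polynomial

universe u v

set_option linter.unusedSimpArgs false
set_option linter.unusedVariables false

attribute [local instance 100] LieRing.ofAssociativeRing

section base

variable {k : Type u} [Field k]

/-- the odd alternating polynomials -/
structure OA (q : P2 k) : Prop where
  swap : ev2 py px q = -q
  rot : ev2 pz py q = -q
  par : ev2 (-px) (-py) q = -q

theorem OA.zero : OA (0 : P2 k) := ⟨by simp, by simp, by simp⟩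

theorem sc_pz : sc (pz : P2 k) = X * C pz := by
  rw [pz, map_sub, map_neg, sc_px, sc_py, C_sub, C_neg]; ring

theorem sc_alt (i j : ℕ) : sc (alt (px ^ i * py ^ j : P2 k)) =
    X ^ (i + j) * C (alt (px ^ i * py ^ j)) := by
  simp only [alt_apply, map_sub, map_add, map_mul, map_pow, ev2_px, ev2_py, sc_px, sc_py, sc_pz,
    mul_pow]
  ring

/-- the homogeneous part of the span -/
noncomputable def Sph (k : Type u) [Field k] (n : ℕ) : Submodule k (P2 k) :=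
  Submodule.span k {G | ∃ i j : ℕ, 1 ≤ i ∧ 1 ≤ j ∧ 2 * i + 2 * j + 2 = n ∧
    G = alt (px ^ (2 * i) * py ^ (2 * j))}

theorem mem_Sph {G : P2 k} (hG : G ∈ Sp k) {n : ℕ} (h : X ^ 2 * sc G = X ^ n * C G) :
    G ∈ Sph k n := by
  have hall : ∀ G ∈ Sp k, (X ^ 2 * sc G).coeff n ∈ Sph k n := by
    intro G hG
    induction hG using Submodule.span_induction with
    | mem x hx =>
      obtain ⟨i, j, hi, hj, rfl⟩ := hx
      rw [sc_alt, ← mul_assoc, ← pow_add, mul_comm, coeff_C_mul_X_pow]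
      split_ifs with hn
      · exact Submodule.subset_span ⟨i, j, hi, hj, by omega, rfl⟩
      · exact Submodule.zero_mem _
    | zero => rw [map_zero, mul_zero, coeff_zero]; exact Submodule.zero_mem _
    | add a b _ _ ha hb =>
      rw [map_add, mul_add, coeff_add]; exact Submodule.add_mem _ ha hb
    | smul r a _ ha =>
      rw [map_smul, mul_smul_comm, coeff_smul]; exact Submodule.smul_mem _ _ ha
  have h1 := hall G hG
  rw [h, mul_comm, coeff_C_mul_X_pow, if_pos rfl] at h1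
  exact h1

theorem gx_pow_wt (m : ℕ) : vm k m ∈ wt k (m + 1) := by
  induction m with
  | zero => exact gy_wt
  | succ m ih => rw [vm_succ]; exact x_lie_wt ih

/-- `TT` level -/
theorem key_h [CharZero k] (𝔤 : Submodule k (F2 k)) (hgrt : ∀ φ ∈ 𝔤, IsGRT k φ)
    (hbr : ∀ σ ∈ 𝔤, ∀ τ ∈ 𝔤, ∀ D E : LieDerivation k (F2 k) (F2 k),
      D (gx k) = 0 → D (gy k) = ⁅gy k, σ⁆ → E (gx k) = 0 → E (gy k) = ⁅gy k, τ⁆ →
      ⁅σ, τ⁆ + D τ - E σ ∈ 𝔤)
    (hσ : ∀ n, Odd n → 3 ≤ n → ∃ σ ∈ 𝔤, σ ∈ wt k n ∧ DepthGE k 2 (σ - vm k (n - 1)))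
    {n : ℕ} {G : P2 k} (hG : G ∈ Sph k n) :
    ∃ φ ∈ 𝔤, φ ∈ wt k n ∧ TT φ = G ∧ DepthGE k 2 φ := by
  induction hG using Submodule.span_induction with
  | mem x hx =>
    obtain ⟨i, j, hi, hj, hn, rfl⟩ := hx
    obtain ⟨σ, hσ1, hσw, hσ2⟩ := hσ (2 * i + 1) ⟨i, rfl⟩ (by omega)
    obtain ⟨τ, hτ1, hτw, hτ2⟩ := hσ (2 * j + 1) ⟨j, rfl⟩ (by omega)
    rw [Nat.add_sub_cancel] at hσ2 hτ2
    obtain ⟨D, hDx, hDy⟩ := exists_der ⁅gy k, σ⁆
    obtain ⟨E, hEx, hEy⟩ := exists_der ⁅gy k, τ⁆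
    have hmem := hbr σ hσ1 τ hτ1 D E hDx hDy hEx hEy
    obtain ⟨h1, h2⟩ := TT_bracket (even_two_mul i) (even_two_mul j) hσ2 hτ2 D E hDx hDy hEx hEy
    refine ⟨_, hmem, ?_, h1, depth_two_of_entry (hgrt _ hmem) h2⟩
    have e : n = (2 * i + 1) + (2 * j + 1) := by omega
    rw [e]
    refine Submodule.sub_mem _ (Submodule.add_mem _ (lie_wt hσw hτw) ?_) ?_
    · exact der_wt hσw D hDx hDy hτw
    · have := der_wt hτw E hEx hEy hσw
      rwa [add_comm (2 * j + 1)] at this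
  | zero => exact ⟨0, 𝔤.zero_mem, Submodule.zero_mem _, TT_zero, DepthGE.zero 2⟩
  | add a b _ _ ha hb =>
    obtain ⟨φ, h1, w1, h2, h3⟩ := ha
    obtain ⟨φ', g1, w2, g2, g3⟩ := hb
    exact ⟨φ + φ', 𝔤.add_mem h1 g1, Submodule.add_mem _ w1 w2, by rw [TT_add, h2, g2], h3.add g3⟩
  | smul r a _ ha =>
    obtain ⟨φ, h1, w1, h2, h3⟩ := ha
    exact ⟨r • φ, 𝔤.smul_mem r h1, Submodule.smul_mem _ _ w1, by rw [TT_smul, h2], h3.smul r⟩

theorem cf_ts (Q : K0 k) : cf ((vt + vs) * Q) 1 0 = cf Q 0 0 := by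
  rw [add_mul, cf_add]
  simp only [cf]
  rw [coeff_X_mul_zero, coeff_zero, zero_add, coeff_C_mul, show (1 : ℕ) = 0 + 1 from rfl,
    coeff_X_mul]

theorem ld_zero_eq (Q : K0 k) : ld 0 Q = C (C (cf Q 0 0)) := by
  rw [ld_eq_sum]
  simp

theorem pz_ne : (pz : P2 k) ≠ 0 := by
  intro h
  apply sum_ne (k := k)
  rw [pz] at h
  linear_combination -h

theorem sc_sub (q : P2 k) : sc (ev2 (px : P2 k) pz q) = ev2 (X * C px : (P2 k)[X]) (X * C pz) q := by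
  rw [ev2_comp, sc_px, sc_pz]

theorem hom_sub {q : P2 k} {e n : ℕ} (h : X ^ e * sc q = X ^ n * C q) :
    X ^ e * sc (ev2 (px : P2 k) pz q) = X ^ n * C (ev2 (px : P2 k) pz q) := by
  have h1 := congrArg (mapAlgHom (ev2 (px : P2 k) pz)) h
  rw [map_mul, map_mul, map_pow, map_pow, sc, ev2_comp] at h1
  simp only [map_mul, coe_mapAlgHom, map_X, map_C, RingHom.coe_coe, ev2_px, ev2_py] at h1
  rw [sc_sub]
  exact h1

theorem base_even [CharZero k] {q : P2 k} (hq : OA q) :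
    (-(px * py * pz) * ev2 (px : P2 k) pz q) ∈ Sp k := by
  have hv' : ∀ a b : P2 k, ev2 (-a - b) b q = - ev2 a b q := by
    intro a b
    have := congrArg (ev2 a b : P2 k →ₐ[k] P2 k) hq.rot
    rw [ev2_ev2, ev2_pz, ev2_py, map_neg] at this
    exact this
  have hiv' : ∀ a b : P2 k, ev2 b a q = - ev2 a b q := by
    intro a b
    have := congrArg (ev2 a b : P2 k →ₐ[k] P2 k) hq.swap
    rw [ev2_ev2, ev2_py, ev2_px, map_neg] at this
    exact this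
  have hiii' : ∀ a b : P2 k, ev2 (-a) (-b) q = - ev2 a b q := by
    intro a b
    have := congrArg (ev2 a b : P2 k →ₐ[k] P2 k) hq.par
    rw [ev2_ev2, map_neg, map_neg, ev2_py, ev2_px, map_neg] at this
    exact this
  apply mem_Sp
  · simp only [map_mul, map_neg, ev2_ev2, ev2_px, ev2_py, ev2_pz, e_yxz]
    have := hv' px pz
    rw [e_xzy] at this
    rw [this]
    ring
  · simp only [map_mul, map_neg, ev2_ev2, ev2_px, ev2_py, ev2_pz, e_zyx]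
    rw [hiv' px pz]
    ring
  · simp only [map_mul, map_neg, ev2_ev2, ev2_px, ev2_py, ev2_pz]
    have e : (- -(px : P2 k) - -(py : P2 k) : P2 k) = -pz := by rw [pz]; ring
    rw [e, hiii' px pz]
    ring

theorem base [CharZero k] (𝔤 : Submodule k (F2 k)) (hgrt : ∀ φ ∈ 𝔤, IsGRT k φ)
    (hbr : ∀ σ ∈ 𝔤, ∀ τ ∈ 𝔤, ∀ D E : LieDerivation k (F2 k) (F2 k),
      D (gx k) = 0 → D (gy k) = ⁅gy k, σ⁆ → E (gx k) = 0 → E (gy k) = ⁅gy k, τ⁆ →
      ⁅σ, τ⁆ + D τ - E σ ∈ 𝔤)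
    (hσ : ∀ n, Odd n → 3 ≤ n → ∃ σ ∈ 𝔤, σ ∈ wt k n ∧ DepthGE k 2 (σ - vm k (n - 1)))
    {n : ℕ} {q : P2 k} (hq : OA q) (hh : X ^ 5 * sc q = X ^ n * C q) :
    ∃ φ ∈ 𝔤, φ ∈ wt k n ∧ φ ∈ D2 k ∧ ∃ Q, Rel φ Q ∧ ld 0 Q = C (C q) := by
  have h1 := base_even hq
  have h2 := hom_sub hh
  have h3 : X ^ 2 * sc (-(px * py * pz) * ev2 (px : P2 k) pz q) =
      X ^ n * C (-(px * py * pz) * ev2 (px : P2 k) pz q) := by
    rw [map_mul, map_neg, map_mul, map_mul, sc_px, sc_py, sc_pz, C_mul, C_neg, C_mul, C_mul]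
    linear_combination (-(C px * C py * C pz : (P2 k)[X])) * h2
  obtain ⟨φ, hφ, hw, hT, hd⟩ := key_h 𝔤 hgrt hbr hσ (mem_Sph h1 h3)
  have hp := (hgrt φ hφ).pent
  have hD := mem_D2_of_depth hp hd
  obtain ⟨P, _, hE⟩ := exists_P hD
  obtain ⟨Q, hQ, _⟩ := exists_Q hp hD hE
  refine ⟨φ, hφ, hw, hD, Q, ?_, ?_⟩
  · rw [Rel, ← hQ]; exact hE
  · rw [ld_zero_eq]
    have h4 := TT_eq hp hD hE hd
    rw [hQ, cf_ts, hT] at h4
    have h5 := mul_left_cancel₀ (neg_ne_zero.mpr (mul_ne_zero (mul_ne_zero px_ne py_ne) pz_ne)) h4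
    have h6 := congrArg (ev2 px pz : P2 k →ₐ[k] P2 k) h5
    rw [ev2_ev2, ev2_ev2, ev2_px, ev2_pz, e_xzy, ev2_id, ev2_id] at h6
    rw [h6]

end base

end Pool.Agent.Helper392_GT
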