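import Pool.Agent.Helper392_GT.TLevel

namespace Pool.Agent.Helper392_GT

open Polynomial

universe u v

set_option linter.unusedSimpArgs false
set_option linter.unusedVariables false

attribute [local instance 100] LieRing.ofAssociativeRing

section br

variable {k : Type u} [Field k]

theorem mkM_smul' {K : Type u} [CommRing K] [Algebra k K] (r : k) (a b c d e f g h i : K) :
    r • mkM a b c d e f g h i = mkM (r • a) (r • b) (r • c) (r • d) (r • e) (r • f) (r • g) (r • h)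
      (r • i) := by
  rw [← algebraMap_smul K r (mkM a b c d e f g h i), mkM_smul]
  simp only [← smul_eq_mul, algebraMap_smul]

theorem lie_corner {K : Type u} [CommRing K] {U : Matrix (Fin 4) (Fin 4) K} (hU : Dia U) (e : K) :
    ⁅U, mkM 0 0 0 0 0 0 0 0 e⁆ = mkM 0 0 0 0 0 0 0 0 ((U 0 0 - U 3 3) * e) := by
  have hE := mkM_dia (0 : K) 0 0 0 0 0 0 0 e
  apply dia_ext (hU.lie hE) (mkM_dia _ _ _ _ _ _ _ _ _)
  · rw [hU.lie00 hE]; simp
  · rw [hU.lie11 hE]; simp
  · rw [hU.lie22 hE]; simp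
  · rw [hU.lie33 hE]; simp
  · rw [hU.lie01 hE]; simp
  · rw [hU.lie02 hE]; simp
  · rw [hU.lie13 hE]; simp
  · rw [hU.lie23 hE]; simp
  · rw [Dia.lie03]; simp

/-- the matrix `E₀₃` -/
noncomputable abbrev tN (k : Type u) [Field k] : Matrix (Fin 4) (Fin 4) (P2 k) :=
  mkM 0 0 0 0 0 0 0 0 1

theorem der_formula {σ : F2 k} (D : LieDerivation k (F2 k) (F2 k)) (hx : D (gx k) = 0)
    (hy : D (gy k) = ⁅gy k, σ⁆) (κ : P2 k)
    (hκ : ⁅tB k, subst k (tA k) (tB k) σ⁆ = mkM 0 0 0 0 0 0 0 0 κ) (u : F2 k) :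
    ∃ α τ : P2 k, subst k (tA k) (tN k) u = mkM 0 (α * -px) 0 (α * (-px - py)) 0 0 0 0 τ ∧
      (subst k (tA k) (tB k) u 0 0 = 0 ∧ subst k (tA k) (tB k) u 1 1 = α * -px ∧
        subst k (tA k) (tB k) u 2 2 = 0 ∧ subst k (tA k) (tB k) u 3 3 = α * (-px - py)) ∧
      subst k (tA k) (tB k) (D u) = mkM 0 0 0 0 0 0 0 0 (κ * τ) := by
  refine free_ind (fun u => ∃ α τ : P2 k,
      subst k (tA k) (tN k) u = mkM 0 (α * -px) 0 (α * (-px - py)) 0 0 0 0 τ ∧
      (subst k (tA k) (tB k) u 0 0 = 0 ∧ subst k (tA k) (tB k) u 1 1 = α * -px ∧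
        subst k (tA k) (tB k) u 2 2 = 0 ∧ subst k (tA k) (tB k) u 3 3 = α * (-px - py)) ∧
      subst k (tA k) (tB k) (D u) = mkM 0 0 0 0 0 0 0 0 (κ * τ)) ?_ ?_ ?_ ?_ ?_ ?_ u
  · refine ⟨0, 0, ?_, ?_, ?_⟩
    · rw [map_zero]; simp [mkM_zero]
    · rw [map_zero]; simp
    · rw [map_zero, map_zero]; simp [mkM_zero]
  · rintro a b ⟨α, τ, h1, ⟨h20, h21, h22, h23⟩, h3⟩ ⟨β, υ, g1, ⟨g20, g21, g22, g23⟩, g3⟩
    refine ⟨α + β, τ + υ, ?_, ⟨?_, ?_, ?_, ?_⟩, ?_⟩
    · rw [map_add, h1, g1, mkM_add]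
      congr 1 <;> ring
    · rw [map_add, Matrix.add_apply, h20, g20, add_zero]
    · rw [map_add, Matrix.add_apply, h21, g21]; ring
    · rw [map_add, Matrix.add_apply, h22, g22, add_zero]
    · rw [map_add, Matrix.add_apply, h23, g23]; ring
    · rw [map_add, map_add, h3, g3, mkM_add]
      congr 1 <;> ring
  · rintro r a ⟨α, τ, h1, ⟨h20, h21, h22, h23⟩, h3⟩
    refine ⟨r • α, r • τ, ?_, ⟨?_, ?_, ?_, ?_⟩, ?_⟩
    · rw [map_smul, h1, mkM_smul']
      simp only [smul_zero, smul_mul_assoc]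
    · rw [map_smul, Matrix.smul_apply, h20, smul_zero]
    · rw [map_smul, Matrix.smul_apply, h21, smul_mul_assoc]
    · rw [map_smul, Matrix.smul_apply, h22, smul_zero]
    · rw [map_smul, Matrix.smul_apply, h23, smul_mul_assoc]
    · rw [map_smul, map_smul, h3, mkM_smul']
      simp only [smul_zero, mul_smul_comm]
  · rintro a b ⟨α, τ, h1, ⟨h20, h21, h22, h23⟩, h3⟩ ⟨β, υ, g1, ⟨g20, g21, g22, g23⟩, g3⟩
    have hA := mkM_dia (0 : P2 k) (-px) 0 (-px - py) 0 0 0 0 0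
    have hB := mkM_dia (0 : P2 k) 0 0 0 1 0 1 0 0
    have da := dia_subst (k := k) hA hB a
    have db := dia_subst (k := k) hA hB b
    refine ⟨0, (0 - α * (-px - py)) * υ - (0 - β * (-px - py)) * τ, ?_, ⟨?_, ?_, ?_, ?_⟩, ?_⟩
    · rw [LieHom.map_lie, h1, g1, mkM_lie]
      congr 1 <;> ring
    · rw [LieHom.map_lie, da.lie00 db]
    · rw [LieHom.map_lie, da.lie11 db]; ring
    · rw [LieHom.map_lie, da.lie22 db]
    · rw [LieHom.map_lie, da.lie33 db]; ring
    · rw [LieDerivation.apply_lie_eq_sub, map_sub, LieHom.map_lie, LieHom.map_lie, h3, g3,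
        lie_corner da, lie_corner db, h20, h23, g20, g23, sub_eq_add_neg]
      have := mkM_smul (0 : P2 k) 0 0 0 0 0 0 0 ((0 - β * (-px - py)) * (κ * τ)) (-1)
      rw [neg_one_smul] at this
      rw [this, mkM_add]
      congr 1 <;> ring
  · refine ⟨1, 0, ?_, ⟨?_, ?_, ?_, ?_⟩, ?_⟩
    · rw [subst_x]; simp
    · rw [subst_x]; rfl
    · rw [subst_x]; simp
    · rw [subst_x]; rfl
    · rw [subst_x]; simp
    · rw [hx, map_zero, mul_zero, mkM_zero]
  · refine ⟨0, 1, ?_, ⟨?_, ?_, ?_, ?_⟩, ?_⟩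
    · rw [subst_y]; simp
    · rw [subst_y]; rfl
    · rw [subst_y]; simp
    · rw [subst_y]; rfl
    · rw [subst_y]; simp
    · rw [hy, LieHom.map_lie, subst_y, hκ, mul_one]

/-- entries of an element congruent to `ad(x)^m y` modulo depth two, in the chain -/
theorem sigma_entries {σ : F2 k} {m : ℕ} (hσ : DepthGE k 2 (σ - vm k m)) :
    subst k (tA k) (tB k) σ 0 0 = 0 ∧ subst k (tA k) (tB k) σ 1 1 = 0 ∧
    subst k (tA k) (tB k) σ 2 2 = 0 ∧ subst k (tA k) (tB k) σ 3 3 = 0 ∧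
    subst k (tA k) (tB k) σ 0 1 = px ^ m ∧ subst k (tA k) (tB k) σ 1 3 = py ^ m ∧
    subst k (tA k) (tB k) σ 0 2 = 0 ∧ subst k (tA k) (tB k) σ 2 3 = 0 ∧
    subst k (tA k) (tN k) σ 0 3 = (px + py) ^ m := by
  have hz := fun i j h => subst_graded (k := k) (A := tA k) (B := tB k) ![0, 1, 0, 2]
    (by intro i j h; fin_cases i <;> fin_cases j <;> first | rfl | exact absurd rfl h)
    (by intro i j h; fin_cases i <;> fin_cases j <;> first | rfl | exact absurd rfl h)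
    hσ i j h
  have hz' := fun i j h => subst_graded (k := k) (A := tA k) (B := tN k) ![0, 0, 0, 1]
    (by intro i j h; fin_cases i <;> fin_cases j <;> first | rfl | exact absurd rfl h)
    (by intro i j h; fin_cases i <;> fin_cases j <;> first | rfl | exact absurd rfl h)
    hσ i j h
  have hd : ∀ i j : Fin 4, i ≠ j → tA k i j = 0 := by
    intro i j h; fin_cases i <;> fin_cases j <;> first | rfl | exact absurd rfl h
  have e : ∀ i j : Fin 4, (![0, 1, 0, 2] : Fin 4 → ℕ) j < (![0, 1, 0, 2] : Fin 4 → ℕ) i + 2 →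
      subst k (tA k) (tB k) σ i j = (tA k i i - tA k j j) ^ m * tB k i j := by
    intro i j h
    have h1 := hz i j h
    rw [map_sub, Matrix.sub_apply, sub_eq_zero] at h1
    rw [h1, vm_entry hd]
  have e' : ∀ i j : Fin 4, (![0, 0, 0, 1] : Fin 4 → ℕ) j < (![0, 0, 0, 1] : Fin 4 → ℕ) i + 2 →
      subst k (tA k) (tN k) σ i j = (tA k i i - tA k j j) ^ m * tN k i j := by
    intro i j h
    have h1 := hz' i j h
    rw [map_sub, Matrix.sub_apply, sub_eq_zero] at h1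
    rw [h1, vm_entry hd]
  have hI := inv_entry (k := k) (A := tA k) (B := tB k) (fun i : Fin 4 => i ≠ 2)
    (by intro i j hi hj; fin_cases i <;> fin_cases j <;> revert hi hj <;> simp [tA, mkM])
    (by intro i j hi hj; fin_cases i <;> fin_cases j <;> revert hi hj <;> simp [tB, mkM]) σ
  have hI2 := inv_entry (k := k) (A := tA k) (B := tB k) (fun i : Fin 4 => i = 2)
    (by intro i j hi hj; fin_cases i <;> fin_cases j <;> revert hi hj <;> simp [tA, mkM])
    (by intro i j hi hj; fin_cases i <;> fin_cases j <;> revert hi hj <;> simp [tB, mkM]) σ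
  refine ⟨?_, ?_, ?_, ?_, ?_, ?_, ?_, ?_, ?_⟩
  · rw [e 0 0 (by decide)]; simp
  · rw [e 1 1 (by decide)]; simp
  · rw [e 2 2 (by decide)]
    have : tB k 2 2 = 0 := rfl
    rw [this, mul_zero]
  · rw [e 3 3 (by decide)]; simp
  · rw [e 0 1 (by decide)]; simp
  · rw [e 1 3 (by decide)]; simp
  · exact hI 0 2 (by decide) (by decide)
  · exact hI2 2 3 rfl (by decide)
  · rw [e' 0 3 (by decide)]
    simp only [mkM_00, mkM_33, mkM_03, mul_one]
    congr 1
    ring

end br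

end Pool.Agent.Helper392_GT
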