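import Pool.Agent.Helper392_GT.Expand

namespace Pool.Agent.Helper392_GT

open Polynomial

universe u v

set_option linter.unusedSimpArgs false
set_option linter.unusedVariables false

section coefs

variable {k : Type u} [Field k]

/-- scaling in two variables -/
noncomputable def sc : P2 k →ₐ[k] (P2 k)[X] := ev2 (X * C px) (X * C py)

theorem two_ne [CharZero k] : (2 : P2 k) ≠ 0 := by
  intro h
  have h2 : algebraMap k (P2 k) 2 = 0 := by rw [map_ofNat]; exact h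
  have h3 := (map_eq_zero_iff _ (algebraMap k (P2 k)).injective).mp h2
  exact two_ne_zero h3

theorem lin_ne {a b : k} (h : a ≠ 0 ∨ b ≠ 0) :
    (algebraMap k (P2 k) a * px + algebraMap k (P2 k) b * py : P2 k) ≠ 0 := by
  intro h0
  have h1 := congrArg (ev2 (1 : k) 0 : P2 k →ₐ[k] k) h0
  have h2 := congrArg (ev2 (0 : k) 1 : P2 k →ₐ[k] k) h0
  simp at h1 h2
  rcases h with h | h
  · exact h h1
  · exact h h2

theorem lin1_ne [CharZero k] : (2 * px + py : P2 k) ≠ 0 := by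
  have := lin_ne (k := k) (a := 2) (b := 1) (Or.inl two_ne_zero)
  rw [map_ofNat, map_one, one_mul] at this
  exact this
theorem lin2_ne [CharZero k] : (px + 2 * py : P2 k) ≠ 0 := by
  have := lin_ne (k := k) (a := 1) (b := 2) (Or.inl one_ne_zero)
  rw [map_ofNat, map_one, one_mul] at this
  exact this
theorem lin3_ne : (py - px : P2 k) ≠ 0 := by
  have := lin_ne (k := k) (a := -1) (b := 1) (Or.inr one_ne_zero)
  intro h
  apply this
  rw [map_neg, map_one]
  linear_combination h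

theorem Dp_ne [CharZero k] : (Dp : P2 k) ≠ 0 := by
  rw [Dp, Fq]
  exact mul_ne_zero (mul_ne_zero (mul_ne_zero (mul_ne_zero (mul_ne_zero px_ne py_ne) sum_ne)
    lin1_ne) lin2_ne) lin3_ne

theorem ev2_two {K : Type v} [CommRing K] [Algebra k K] (a b : K) :
    ev2 (k := k) a b 2 = 2 := map_ofNat _ 2
theorem C_two' : (C 2 : (P2 k)[X]) = 2 := map_ofNat C 2

theorem EE_map {K : Type u} [CommRing K] [Algebra k K] (a b : K) (Θ : K0 k) {d b' g a' : K}
    (h1 : ev2 a b (de : P2 k) = d) (h2 : ev2 a b (be : P2 k) = b') (h3 : ev2 a b (ga : P2 k) = g)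
    (h4 : ev2 a b (al : P2 k) = a') :
    (EE Θ).map (ev2 (k := k) a b : P2 k →+* K) =
      ev4 (k := k) (C a) (C b) (C d - C b' * X) (-C g + C a' * X) Θ := by
  have := ev4_comp (k := k) (mapAlgHom (ev2 (k := k) a b)) (C px) (C py)
    (C de + C (-be) * X) (C (-ga) + C al * X) Θ
  simp only [coe_mapAlgHom] at this
  rw [EE, this, ← h1, ← h2, ← h3, ← h4]
  have e1 : map (ev2 (k := k) a b : P2 k →+* K) (C px) = C a := by simp
  have e2 : map (ev2 (k := k) a b : P2 k →+* K) (C py) = C b := by simp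
  have e3 : map (ev2 (k := k) a b : P2 k →+* K) (C de + C (-be) * X) =
      C (ev2 a b (de : P2 k)) - C (ev2 a b (be : P2 k)) * X := by
    rw [Polynomial.map_add, Polynomial.map_mul, map_C, map_C, map_X]
    simp only [RingHom.coe_coe, map_neg, neg_mul, ← sub_eq_add_neg]
  have e4 : map (ev2 (k := k) a b : P2 k →+* K) (C (-ga) + C al * X) =
      -C (ev2 a b (ga : P2 k)) + C (ev2 a b (al : P2 k)) * X := by
    rw [Polynomial.map_add, Polynomial.map_mul, map_C, map_C, map_X]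
    simp only [RingHom.coe_coe, map_neg, neg_mul, ← sub_eq_add_neg]
  rw [e1, e2, e3, e4]

theorem EE_eq (Θ : K0 k) :
    EE Θ = ev4 (C px) (C py) (C de - C be * X) (-C ga + C al * X) Θ := by
  rw [EE, C_neg, C_neg, neg_mul, ← sub_eq_add_neg]

theorem EE_swap {n r : ℕ} {Θ : K0 k} (hΘ : Lf n r Θ) (i : ℕ) :
    ev2 (py : P2 k) px ((EE Θ).coeff i) = -((-1) ^ r * (EE Θ).coeff i) := by
  have e1 : ev2 (py : P2 k) px (de : P2 k) = ga := by
    simp only [de, ga, Fq, map_mul, map_add, ev2_two, ev2_px, ev2_py]; ring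
  have e2 : ev2 (py : P2 k) px (ga : P2 k) = de := by
    simp only [de, ga, Fq, map_mul, map_add, ev2_two, ev2_px, ev2_py]; ring
  have e3 : ev2 (py : P2 k) px (al : P2 k) = be := by
    simp only [al, be, Fq, map_mul, map_add, ev2_two, ev2_px, ev2_py]; ring
  have e4' : ev2 (py : P2 k) px (be : P2 k) = al := by
    simp only [al, be, Fq, map_mul, map_add, ev2_two, ev2_px, ev2_py]; ring
  have h1 := EE_map (k := k) (K := P2 k) py px Θ e1 e4' e2 e3
  have h2 := hΘ.swp (P2 k)[X] (C px) (C py) (-C de + C be * X) (C ga - C al * X)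
  have h3 := hΘ.fm (P2 k)[X] (-1) (C px) (C py) (C de - C be * X) (-C ga + C al * X)
  have f1 : (-1 : (P2 k)[X]) * (C de - C be * X) = -C de + C be * X := by ring
  have f2 : (-1 : (P2 k)[X]) * (-C ga + C al * X) = C ga - C al * X := by ring
  rw [f1, f2] at h3
  rw [h2, h3, ← EE_eq] at h1
  have h5 := congrArg (fun p => coeff p i) h1
  have g1 : ((-1 : (P2 k)[X]) ^ r) = C ((-1) ^ r) := by rw [C_pow, C_neg, C_1]
  simp only [coeff_neg, g1, coeff_map, coeff_C_mul] at h5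
  exact h5

theorem coef_swap [CharZero k] {n r : ℕ} {Θ : K0 k} {Ψ : (P2 k)[X]} (hΘ : Lf n r Θ)
    (hΨ : EE Θ = C Dp ^ r * Ψ) (i : ℕ) : ev2 py px (Ψ.coeff i) = -Ψ.coeff i := by
  have e5 : ev2 (py : P2 k) px (Dp : P2 k) = -Dp := by
    simp only [Dp, Fq, map_mul, map_add, map_sub, ev2_two, ev2_px, ev2_py]; ring
  have h6 := EE_swap hΘ i
  rw [hΨ, ← C_pow, coeff_C_mul] at h6
  rw [map_mul, map_pow, e5, neg_pow] at h6
  have hne : ((-1) ^ r * Dp ^ r : P2 k) ≠ 0 :=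
    mul_ne_zero (pow_ne_zero _ (neg_ne_zero.mpr one_ne_zero)) (pow_ne_zero _ Dp_ne)
  refine mul_left_cancel₀ hne ?_
  rw [h6]; ring

theorem EE_rot {n r : ℕ} {Θ : K0 k} (hΘ : Lf n r Θ) (i : ℕ) :
    ev2 (pz : P2 k) py ((EE Θ).coeff i) = -((-1) ^ r * (EE Θ).coeff i) := by
  have e1 : ev2 (pz : P2 k) py (de : P2 k) = de - ga := by
    simp only [de, ga, Fq, map_mul, map_add, ev2_two, ev2_px, ev2_py, pz]; ring
  have e2 : ev2 (pz : P2 k) py (ga : P2 k) = -ga := by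
    simp only [de, ga, Fq, map_mul, map_add, ev2_two, ev2_px, ev2_py, pz]; ring
  have e3 : ev2 (pz : P2 k) py (al : P2 k) = -al := by
    simp only [al, be, Fq, map_mul, map_add, ev2_two, ev2_px, ev2_py, pz]; ring
  have e4' : ev2 (pz : P2 k) py (be : P2 k) = be - al := by
    simp only [al, be, Fq, map_mul, map_add, ev2_two, ev2_px, ev2_py, pz]; ring
  have h1 := EE_map (k := k) (K := P2 k) pz py Θ e1 e4' e2 e3
  have h2 := hΘ.rot (P2 k)[X] (C px) (C py) (-C de + C be * X) (C ga - C al * X)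
  have h3 := hΘ.fm (P2 k)[X] (-1) (C px) (C py) (C de - C be * X) (-C ga + C al * X)
  have f1 : (-1 : (P2 k)[X]) * (C de - C be * X) = -C de + C be * X := by ring
  have f2 : (-1 : (P2 k)[X]) * (-C ga + C al * X) = C ga - C al * X := by ring
  have f3 : (-C px - C py : (P2 k)[X]) = C pz := by rw [pz, C_sub, C_neg]
  have f4 : (-(-C de + C be * X) - (C ga - C al * X) : (P2 k)[X]) =
      C (de - ga) - C (be - al) * X := by
    simp only [C_sub]; ring
  have f5 : (C ga - C al * X : (P2 k)[X]) = -C (-ga) + C (-al) * X := by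
    simp only [C_neg]; ring
  rw [f1, f2] at h3
  rw [f3, f4, h3] at h2
  rw [← f5, h2, ← EE_eq] at h1
  have h5 := congrArg (fun p => coeff p i) h1
  have g1 : ((-1 : (P2 k)[X]) ^ r) = C ((-1) ^ r) := by rw [C_pow, C_neg, C_1]
  simp only [coeff_neg, g1, coeff_map, coeff_C_mul] at h5
  exact h5

theorem coef_rot [CharZero k] {n r : ℕ} {Θ : K0 k} {Ψ : (P2 k)[X]} (hΘ : Lf n r Θ)
    (hΨ : EE Θ = C Dp ^ r * Ψ) (i : ℕ) : ev2 pz py (Ψ.coeff i) = -Ψ.coeff i := by
  have e5 : ev2 (pz : P2 k) py (Dp : P2 k) = -Dp := by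
    simp only [Dp, Fq, map_mul, map_add, map_sub, ev2_two, ev2_px, ev2_py, pz]; ring
  have h6 := EE_rot hΘ i
  rw [hΨ, ← C_pow, coeff_C_mul] at h6
  rw [map_mul, map_pow, e5, neg_pow] at h6
  have hne : ((-1) ^ r * Dp ^ r : P2 k) ≠ 0 :=
    mul_ne_zero (pow_ne_zero _ (neg_ne_zero.mpr one_ne_zero)) (pow_ne_zero _ Dp_ne)
  refine mul_left_cancel₀ hne ?_
  rw [h6]; ring

theorem pm_of {G G' : P2 k} {r : ℕ} (h : G' = -((-1) ^ r * G)) : G' = G ∨ G' = -G := by
  rcases neg_one_pow_eq_or (P2 k) r with h1 | h1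
  · right; rw [h, h1, one_mul]
  · left; rw [h, h1]; ring

theorem coef_par [CharZero k] {n r : ℕ} {Θ : K0 k} {Ψ : (P2 k)[X]} (hΘ : Lf n r Θ)
    (hΨ : EE Θ = C Dp ^ r * Ψ) (i : ℕ) :
    ev2 (-px) (-py) (Ψ.coeff i) = -Ψ.coeff i := by
  have e1 : ev2 (-px : P2 k) (-py) (de : P2 k) = de := by
    simp only [de, ga, Fq, map_mul, map_add, ev2_two, ev2_px, ev2_py]; ring
  have e2 : ev2 (-px : P2 k) (-py) (ga : P2 k) = ga := by
    simp only [de, ga, Fq, map_mul, map_add, ev2_two, ev2_px, ev2_py]; ring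
  have e3 : ev2 (-px : P2 k) (-py) (al : P2 k) = al := by
    simp only [al, be, Fq, map_mul, map_add, ev2_two, ev2_px, ev2_py]; ring
  have e4' : ev2 (-px : P2 k) (-py) (be : P2 k) = be := by
    simp only [al, be, Fq, map_mul, map_add, ev2_two, ev2_px, ev2_py]; ring
  have e5 : ev2 (-px : P2 k) (-py) (Dp : P2 k) = Dp := by
    simp only [Dp, Fq, map_mul, map_add, map_sub, ev2_two, ev2_px, ev2_py]; ring
  have h1 := EE_map (k := k) (K := P2 k) (-px) (-py) Θ e1 e4' e2 e3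
  rw [C_neg (a := px), C_neg (a := py)] at h1
  have h2 := hΘ.par (P2 k)[X] (C px) (C py) (C de - C be * X) (-C ga + C al * X)
  rw [h2, ← EE_eq, hΨ] at h1
  have h5 := congrArg (fun p => coeff p i) h1
  simp only [coeff_neg, ← C_pow, coeff_map, coeff_C_mul] at h5
  have h6 : ev2 (-px : P2 k) (-py) (Dp ^ r * Ψ.coeff i) = -(Dp ^ r * Ψ.coeff i) := h5
  rw [map_mul, map_pow, e5] at h6
  refine mul_left_cancel₀ (pow_ne_zero r Dp_ne) ?_
  rw [h6]; ring

theorem sc_px : sc (px : P2 k) = X * C px := by rw [sc, ev2_px]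
theorem sc_py : sc (py : P2 k) = X * C py := by rw [sc, ev2_py]
theorem sc_two : sc (2 : P2 k) = 2 := map_ofNat _ 2

theorem sc_Fq : sc (Fq : P2 k) = X ^ 3 * C Fq := by
  simp only [Fq, map_mul, map_add, sc_px, sc_py]; ring
theorem sc_al : sc (al : P2 k) = X ^ 2 * C al := by
  simp only [al, map_mul, map_add, sc_px, sc_py, sc_two, C_two']; ring
theorem sc_be : sc (be : P2 k) = X ^ 2 * C be := by
  simp only [be, map_mul, map_add, sc_px, sc_py, sc_two, C_two']; ring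
theorem sc_ga : sc (ga : P2 k) = X ^ 4 * C ga := by
  simp only [ga, map_mul, map_add, sc_px, sc_py, sc_two, C_two', sc_Fq]; ring
theorem sc_de : sc (de : P2 k) = X ^ 4 * C de := by
  simp only [de, map_mul, map_add, sc_px, sc_py, sc_two, C_two', sc_Fq]; ring
theorem sc_Dp : sc (Dp : P2 k) = X ^ 6 * C Dp := by
  simp only [Dp, map_mul, map_add, map_sub, sc_px, sc_py, sc_two, C_two', sc_Fq]; ring

theorem coef_hom [CharZero k] {n r : ℕ} {Θ : K0 k} {Ψ : (P2 k)[X]} (hΘ : Lf n r Θ)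
    (hΨ : EE Θ = C Dp ^ r * Ψ) (i : ℕ) :
    X ^ (5 + 3 * r + 2 * i) * sc (Ψ.coeff i) = X ^ n * C (Ψ.coeff i) := by
  have h1 := EE_map (k := k) (K := (P2 k)[X]) (X * C px) (X * C py) Θ sc_de sc_be sc_ga sc_al
  -- substitute `X ↦ λ² X`
  let ξ : K0 k →ₐ[k] K0 k :=
    (aeval (R := (P2 k)[X]) (C (X ^ 2) * X : K0 k)).restrictScalars k
  have hξ : ∀ p, ξ p = p.comp (C (X ^ 2) * X) := fun p => rfl
  have hξC : ∀ z, ξ (C z) = C z := fun z => by rw [hξ, C_comp]
  have hξX : ξ X = C (X ^ 2) * X := by rw [hξ, X_comp]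
  have h2 := congrArg ξ h1
  rw [ev4_comp] at h2
  have c1 : ξ (C (X * C px)) = C X * C (C px) := by rw [hξC, C_mul]
  have c2 : ξ (C (X * C py)) = C X * C (C py) := by rw [hξC, C_mul]
  have c3 : ξ (C (X ^ 4 * C de) - C (X ^ 2 * C be) * X) =
      C X * (C X ^ 3 * (C (C de) - C (C be) * X)) := by
    rw [map_sub, map_mul ξ, hξC, hξC, hξX, C_mul, C_mul, C_pow, C_pow]; ring
  have c4 : ξ (-C (X ^ 4 * C ga) + C (X ^ 2 * C al) * X) =
      C X * (C X ^ 3 * (-C (C ga) + C (C al) * X)) := by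
    rw [map_add, map_neg, map_mul ξ, hξC, hξC, hξX, C_mul, C_mul, C_pow, C_pow]; ring
  rw [c1, c2, c3, c4] at h2
  have h3 := hΘ.hom (K0 k) (C X) (C (C px)) (C (C py))
    (C X ^ 3 * (C (C de) - C (C be) * X)) (C X ^ 3 * (-C (C ga) + C (C al) * X))
  rw [← h2, hΘ.fm] at h3
  have h4 : ev4 (C (C px)) (C (C py)) (C (C de) - C (C be) * X) (-C (C ga) + C (C al) * X) Θ =
      (EE Θ).map (C : P2 k →+* (P2 k)[X]) := by
    have h6 := ev4_comp (k := k) (mapAlgHom (IsScalarTower.toAlgHom k (P2 k) (P2 k)[X]))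
      (C px) (C py) (C de - C be * X) (-C ga + C al * X) Θ
    rw [← EE_eq] at h6
    simp only [map_sub, map_add, map_mul, map_neg, coe_mapAlgHom, map_C, map_X] at h6
    exact h6.symm
  rw [h4, hξ] at h3
  have h5 := congrArg (fun p => coeff p i) h3
  have e1 : (C X : K0 k) ^ 5 = C (X ^ 5) := by rw [C_pow]
  have e2 : (C X : K0 k) ^ n * ((C X ^ 3) ^ r * (EE Θ).map (C : P2 k →+* (P2 k)[X])) =
      C (X ^ (n + 3 * r)) * (EE Θ).map (C : P2 k →+* (P2 k)[X]) := by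
    rw [C_pow]; ring
  rw [e2, e1] at h5
  simp only [coeff_C_mul, comp_C_mul_X_coeff, coeff_map] at h5
  rw [hΨ, ← C_pow, coeff_C_mul] at h5
  have h7 : X ^ 5 * (sc (Dp ^ r * Ψ.coeff i) * (X ^ 2) ^ i) =
      X ^ (n + 3 * r) * C (Dp ^ r * Ψ.coeff i) := h5
  rw [map_mul, map_pow, sc_Dp, C_mul, C_pow] at h7
  have hne : (C Dp ^ r * (X ^ 3) ^ r : (P2 k)[X]) ≠ 0 :=
    mul_ne_zero (pow_ne_zero _ (C_ne_zero.mpr Dp_ne)) (pow_ne_zero _ (pow_ne_zero _ X_ne_zero))
  refine mul_left_cancel₀ hne ?_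
  linear_combination h7

end coefs

end Pool.Agent.Helper392_GT
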