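import Pool.Agent.Helper392_GT.MainC

namespace Pool.Agent.Helper392_GT

open Polynomial

universe u v

set_option linter.unusedSimpArgs false
set_option linter.unusedVariables false

attribute [local instance 100] LieRing.ofAssociativeRing

section main

variable {k : Type u} [Field k]

theorem mem_final [CharZero k] {n m : ℕ} {χ : F2 k} (h : χ ∈ Vr k n (m - 1)) :
    χ ∈ LieSubmodule.lcs m (D2 k) ⊔ DN k := by
  obtain ⟨h1, h2, h3, Q, hQ, hO⟩ := h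
  rcases Nat.eq_zero_or_pos m with rfl | hm
  · exact (le_sup_left : LieSubmodule.lcs 0 (D2 k) ≤ LieSubmodule.lcs 0 (D2 k) ⊔ DN k) h3
  obtain ⟨P, hP, hE⟩ := exists_P h3
  have hPQ : P = (vt + vs) * Q := Entry.unique hE hQ
  have hO1 : Ord 1 (vt + vs : K0 k) := by
    rw [Ord_iff]
    intro i j hij
    have h1 : i = 0 := by omega
    have h2 : j = 0 := by omega
    subst h1 h2
    simp [cf]
  have hOP : Ord m P := by
    have := hO1.mul hO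
    rw [← hPQ, show 1 + (m - 1) = m by omega] at this
    exact this
  rw [Ord_iff] at hOP
  have hb := bt_lcs P m hOP
  have e : (2 : k)⁻¹ • bt k P + (2 : k)⁻¹ • ((2 : k) • χ - bt k P) = χ := by
    rw [smul_sub, smul_smul, inv_mul_cancel₀ two_ne_zero, one_smul]; abel
  rw [← e]
  exact add_mem ((le_sup_left : LieSubmodule.lcs m (D2 k) ≤ LieSubmodule.lcs m (D2 k) ⊔ DN k)
    (SMulMemClass.smul_mem _ hb)) ((le_sup_right : DN k ≤ LieSubmodule.lcs m (D2 k) ⊔ DN k)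
    (SMulMemClass.smul_mem _ hP))

/-- the number of functionals -/
def Nn (n r : ℕ) : ℕ := ∑ i ∈ Finset.range r, if i % 2 = n % 2 then i * (i + 1) / 2 else 0

theorem Nn_succ (n r : ℕ) :
    Nn n (r + 1) = Nn n r + if r % 2 = n % 2 then r * (r + 1) / 2 else 0 := by
  rw [Nn, Finset.sum_range_succ]; rfl

theorem sum_LB [CharZero k] (𝔤 : Submodule k (F2 k)) (hLB : ∀ i j, LBP 𝔤 i j) {n r : ℕ}
    {g : ℕ → P2 k} (hg : ∀ i ≤ r, OA (g i) ∧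
      X ^ (5 + 3 * (r - i) + 5 * i) * sc (g i) = X ^ n * C (g i)) (m : ℕ) (hm : m ≤ r + 1) :
    ∃ φ ∈ 𝔤, φ ∈ wt k n ∧ φ ∈ D2 k ∧ ∃ Q, Rel φ Q ∧ Ord r Q ∧
      ld r Q = ∑ i ∈ Finset.range m, C (C (g i)) * w3 ^ (r - i) * w5 ^ i := by
  induction m with
  | zero =>
    refine ⟨0, 𝔤.zero_mem, Submodule.zero_mem _, (D2 k).zero_mem, 0, Rel.zero, Ord.zero _, ?_⟩
    rw [ld_zero]; simp
  | succ m ih =>
    obtain ⟨φ, h1, h2, h3, Q, h4, h5, h6⟩ := ih (by omega)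
    obtain ⟨φ', g1, g2, g3, Q', g4, g5, g6⟩ := hLB m (r - m) n (g m) (hg m (by omega)).1
      (hg m (by omega)).2
    rw [show m + (r - m) = r by omega] at g5 g6
    refine ⟨φ + φ', 𝔤.add_mem h1 g1, Submodule.add_mem _ h2 g2, (D2 k).add_mem h3 g3, Q + Q',
      h4.add g4, h5.add g5, ?_⟩
    rw [ld_add, h6, g6, Finset.sum_range_succ]

theorem level_step [CharZero k] (𝔤 : Submodule k (F2 k)) (hgrt : ∀ φ ∈ 𝔤, IsGRT k φ)
    (hLB : ∀ i j, LBP 𝔤 i j) {n r : ℕ} {v : F2 k} (hv : v ∈ Vr k n r) {Q : K0 k} (hQ : Rel v Q)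
    (hO : Ord r Q) (hz : ∀ i ≤ r, ∀ l < i, ell r i l Q = 0) :
    v ∈ (𝔤 ⊓ wt k n) ⊔ Vr k n (r + 1) := by
  obtain ⟨g, hg, hsum⟩ := upper (lf_of_mem hv hQ hO) hz
  obtain ⟨φ, h1, h2, h3, Q', h4, h5, h6⟩ := sum_LB 𝔤 hLB hg (r + 1) le_rfl
  rw [← hsum] at h6
  refine Submodule.mem_sup.mpr ⟨φ, ⟨h1, h2⟩, v - φ, ?_, by abel⟩
  refine ⟨hv.1.sub (hgrt φ h1), Submodule.sub_mem _ hv.2.1 h2, (D2 k).sub_mem hv.2.2.1 h3,
    Q - Q', hQ.sub h4, (hO.sub h5).succ ?_⟩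
  rw [ld_sub, h6, sub_self]

theorem levels [CharZero k] (𝔤 : Submodule k (F2 k)) (hgrt : ∀ φ ∈ 𝔤, IsGRT k φ)
    (hbr : ∀ σ ∈ 𝔤, ∀ τ ∈ 𝔤, ∀ D E : LieDerivation k (F2 k) (F2 k),
      D (gx k) = 0 → D (gy k) = ⁅gy k, σ⁆ → E (gx k) = 0 → E (gy k) = ⁅gy k, τ⁆ →
      ⁅σ, τ⁆ + D τ - E σ ∈ 𝔤)
    (hσ : ∀ n, Odd n → 3 ≤ n → ∃ σ ∈ 𝔤, σ ∈ wt k n ∧ DepthGE k 2 (σ - vm k (n - 1)))
    (n r : ℕ) : ∃ L : F2 k →ₗ[k] (Fin (Nn n r) → k), ∀ ψ, IsGRT k ψ → ψ ∈ wt k n → L ψ = 0 →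
      ψ ∈ (𝔤 ⊓ wt k n) ⊔ Vr k n r := by
  have hLB := LBP_all 𝔤 hgrt hbr hσ
  induction r with
  | zero =>
    refine ⟨0, fun ψ hψ hn _ => ?_⟩
    obtain ⟨φ, h1, h2, h3⟩ := base0 𝔤 hgrt hσ hψ hn
    have hG := hψ.sub (hgrt φ h1)
    obtain ⟨P, _, hE⟩ := exists_P h3
    obtain ⟨Q, hQ, _⟩ := exists_Q hG.pent h3 hE
    refine Submodule.mem_sup.mpr ⟨φ, ⟨h1, h2⟩, ψ - φ, ?_, by abel⟩
    exact ⟨hG, Submodule.sub_mem _ hn h2, h3, Q, by rw [Rel, ← hQ]; exact hE, ord_zero_any Q⟩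
  | succ r ih =>
    obtain ⟨L, hL⟩ := ih
    have hsup : ∀ ψ, ψ ∈ (𝔤 ⊓ wt k n) ⊔ Vr k n r →
        ψ ∈ ((𝔤 ⊓ wt k n) ⊔ Vr k n (r + 1)) ⊔ Vr k n r := by
      intro ψ h
      exact (sup_le_sup_right le_sup_left (Vr k n r)) h
    by_cases hpar : r % 2 = n % 2
    · let e : Fin (r * (r + 1) / 2) ≃ Σ i : Fin (r + 1), Fin (i : ℕ) :=
        Fintype.equivOfCardEq (by
          rw [Fintype.card_sigma]
          simp only [Fintype.card_fin]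
          rw [Fin.sum_univ_eq_sum_range (fun i => i) (r + 1), Finset.sum_range_id,
            Nat.add_sub_cancel, mul_comm])
      let g : Vr k n r →ₗ[k] (Fin (r * (r + 1) / 2) → k) :=
        LinearMap.pi fun t => ell r (e t).1 (e t).2 ∘ₗ Qm n r
      obtain ⟨L', hL'⟩ := linalg ((𝔤 ⊓ wt k n) ⊔ Vr k n (r + 1)) (Vr k n r) g (by
        intro v hv
        obtain ⟨s1, s2⟩ := Qm_spec n r v
        refine level_step 𝔤 hgrt hLB v.2 s1 s2 ?_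
        intro i hi l hl
        have ht : ∀ t : (Σ i : Fin (r + 1), Fin (i : ℕ)),
            ell r t.1 t.2 (Qm n r v) = 0 := by
          intro t
          have h2 : ell r (e (e.symm t)).1 (e (e.symm t)).2 (Qm n r v) = 0 :=
            congrFun hv (e.symm t)
          rwa [e.apply_symm_apply] at h2
        exact ht ⟨⟨i, by omega⟩, ⟨l, hl⟩⟩)
      have hN : Nn n (r + 1) = Nn n r + r * (r + 1) / 2 := by rw [Nn_succ, if_pos hpar]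
      rw [hN]
      refine ⟨LinearMap.pi (Fin.addCases (fun i => (LinearMap.proj i) ∘ₗ L)
        (fun i => (LinearMap.proj i) ∘ₗ L')), fun ψ hψ hn h0 => ?_⟩
      have h1 : L ψ = 0 := by
        ext i
        have := congrFun h0 (Fin.castAdd _ i)
        simpa using this
      have h2 : L' ψ = 0 := by
        ext i
        have := congrFun h0 (Fin.natAdd _ i)
        simpa using this
      exact hL' ψ (hsup ψ (hL ψ hψ hn h1)) h2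
    · have hN : Nn n (r + 1) = Nn n r := by rw [Nn_succ, if_neg hpar, add_zero]
      rw [hN]
      refine ⟨L, fun ψ hψ hn h0 => ?_⟩
      have h1 := hL ψ hψ hn h0
      refine (sup_le_sup_left ?_ (𝔤 ⊓ wt k n)) h1
      intro v hv
      obtain ⟨Q, hQ, hO⟩ := hv.2.2.2
      exact succ_mem hv hQ hO (parity (lf_of_mem hv hQ hO) (Ne.symm hpar))

/-- The main theorem. -/
theorem bounded_codim [CharZero k] (𝔤 : Submodule k (F2 k)) (hgrt : ∀ φ ∈ 𝔤, IsGRT k φ)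
    (hbr : ∀ σ ∈ 𝔤, ∀ τ ∈ 𝔤, ∀ D E : LieDerivation k (F2 k) (F2 k),
      D (gx k) = 0 → D (gy k) = ⁅gy k, σ⁆ → E (gx k) = 0 → E (gy k) = ⁅gy k, τ⁆ →
      ⁅σ, τ⁆ + D τ - E σ ∈ 𝔤)
    (hσ : ∀ n, Odd n → 3 ≤ n → ∃ σ ∈ 𝔤, σ ∈ wt k n ∧ DepthGE k 2 (σ - vm k (n - 1)))
    (n m : ℕ) : ∃ L : F2 k →ₗ[k] (Fin (Nn n (m - 1)) → k), ∀ ψ, IsGRT k ψ → ψ ∈ wt k n → L ψ = 0 →
      ∃ φ ∈ 𝔤, φ ∈ wt k n ∧ ψ - φ ∈ LieSubmodule.lcs m (D2 k) ⊔ DN k := by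
  obtain ⟨L, hL⟩ := levels 𝔤 hgrt hbr hσ n (m - 1)
  refine ⟨L, fun ψ hψ hn h0 => ?_⟩
  obtain ⟨φ, ⟨h1, h2⟩, v, hv, rfl⟩ := Submodule.mem_sup.mp (hL ψ hψ hn h0)
  refine ⟨φ, h1, h2, ?_⟩
  rw [add_sub_cancel_left]
  exact mem_final hv

end main

end Pool.Agent.Helper392_GT
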