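import Pool.Agent.Helper392_GT.Inv
import Pool.Agent.Helper392_GT.MainD

namespace Pool.Agent.Helper392_GT

universe u v

set_option linter.unusedSectionVars false
set_option linter.unusedSimpArgs false
set_option linter.unusedVariables false

open MvPolynomial

attribute [local instance 100] LieRing.ofAssociativeRing

section hom

variable {k : Type u} [Field k]


/-- the scaling -/
noncomputable def sca : (MvPolynomial (Fin 4) k) →ₐ[k] Polynomial (MvPolynomial (Fin 4) k) :=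
  aeval fun i => Polynomial.X * Polynomial.C (X i)

theorem sca_mono (e : Fin 4 →₀ ℕ) (c : k) :
    sca (monomial e c : (MvPolynomial (Fin 4) k)) = Polynomial.X ^ e.degree * Polynomial.C (monomial e c) := by
  rw [sca, aeval_monomial]
  simp only [mul_pow]
  rw [Finsupp.prod_mul]
  have h1 : (e.prod fun (_ : Fin 4) (b : ℕ) => (Polynomial.X : Polynomial (MvPolynomial (Fin 4) k)) ^ b) =
      Polynomial.X ^ e.degree := by
    rw [Finsupp.prod, Finset.prod_pow_eq_pow_sum]; rfl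
  have h2 : (e.prod fun (a : Fin 4) (b : ℕ) => (Polynomial.C (X a) : Polynomial (MvPolynomial (Fin 4) k)) ^ b) =
      Polynomial.C (monomial e 1) := by
    rw [Finsupp.prod]
    simp only [← Polynomial.C_pow]
    rw [← map_prod]
    congr 1
    rw [monomial_eq, C_1, one_mul, Finsupp.prod]
  rw [h1, h2]
  have h3 : (monomial e c : (MvPolynomial (Fin 4) k)) = C c * monomial e 1 := by
    rw [C_mul_monomial, mul_one]
  rw [h3, Polynomial.C_mul, IsScalarTower.algebraMap_apply k (MvPolynomial (Fin 4) k) (Polynomial (MvPolynomial (Fin 4) k))]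
  simp only [algebraMap_eq, Polynomial.algebraMap_eq]
  ring

theorem sca_coeff (p : (MvPolynomial (Fin 4) k)) (j : ℕ) : (sca p).coeff j = homogeneousComponent j p := by
  conv_lhs => rw [p.as_sum]
  rw [map_sum, Polynomial.finsetSum_coeff, homogeneousComponent_apply, Finset.sum_filter]
  refine Finset.sum_congr rfl fun e _ => ?_
  rw [sca_mono, mul_comm, Polynomial.coeff_C_mul_X_pow]
  by_cases h : j = e.degree
  · rw [if_pos h, if_pos h.symm]
  · rw [if_neg h, if_neg (Ne.symm h)]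

theorem hom_of_Hm {Q : K0 k} {n : ℕ} (h : Hm 5 n Q) : (qq Q).IsHomogeneous (n - 5) := by
  have h1 := h (Polynomial (MvPolynomial (Fin 4) k)) Polynomial.X (Polynomial.C (X 0)) (Polynomial.C (X 1))
    (Polynomial.C (X 0 + X 2)) (Polynomial.C (X 1 + X 3))
  have e1 : ev4 (k := k) (Polynomial.C (X 0 : (MvPolynomial (Fin 4) k))) (Polynomial.C (X 1 : (MvPolynomial (Fin 4) k)))
      (Polynomial.C (X 0 + X 2 : (MvPolynomial (Fin 4) k))) (Polynomial.C (X 1 + X 3 : (MvPolynomial (Fin 4) k))) Q = Polynomial.C (qq Q) := by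
    rw [qq]
    exact (ev4_comp (IsScalarTower.toAlgHom k (MvPolynomial (Fin 4) k) (Polynomial (MvPolynomial (Fin 4) k))) _ _ _ _ Q).symm
  have e2 : ev4 (k := k) (Polynomial.X * Polynomial.C (X 0 : (MvPolynomial (Fin 4) k)))
      (Polynomial.X * Polynomial.C (X 1 : (MvPolynomial (Fin 4) k)))
      (Polynomial.X * Polynomial.C (X 0 + X 2 : (MvPolynomial (Fin 4) k))) (Polynomial.X * Polynomial.C (X 1 + X 3 : (MvPolynomial (Fin 4) k))) Q
      = sca (qq Q) := by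
    rw [qq, ev4_comp]
    simp only [sca, map_add, aeval_X, Polynomial.C_add, mul_add]
  rw [e1, e2] at h1
  by_cases hq : qq Q = 0
  · rw [hq]; exact isHomogeneous_zero _ _ _
  have h2 : (Polynomial.X ^ 5 * sca (qq Q)).coeff n =
    (Polynomial.X ^ n * Polynomial.C (qq Q)).coeff n := by rw [h1]
  rw [mul_comm (Polynomial.X ^ n), Polynomial.coeff_C_mul_X_pow, if_pos rfl, mul_comm,
    Polynomial.coeff_mul_X_pow'] at h2
  split_ifs at h2 with h5
  · rw [sca_coeff] at h2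
    rw [← h2]
    exact homogeneousComponent_isHomogeneous _ _
  · exact absurd h2.symm hq

end hom

section alt

variable {k : Type u} [Field k] [CharZero k]


/-- alternating polynomials -/
structure Alt (q : (MvPolynomial (Fin 4) k)) : Prop where
  perm : ∀ σ τ : Equiv.Perm (Fin 3), atArray q ((genArray k).submatrix σ τ) =
    (Equiv.Perm.sign σ * Equiv.Perm.sign τ) • q
  tr : atArray q (genArray k).transpose = q

theorem atArray_mul (q q' : (MvPolynomial (Fin 4) k)) (N : Matrix (Fin 3) (Fin 3) (MvPolynomial (Fin 4) k)) :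
    atArray (q * q') N = atArray q N * atArray q' N := by
  rw [atArray, map_mul]; rfl

theorem sgn_mul (ε : ℤˣ) (q q' : (MvPolynomial (Fin 4) k)) : (ε • q) * (ε • q') = q * q' := by
  rcases Int.units_eq_one_or ε with rfl | rfl
  · simp
  · simp

theorem Alt.mul {q q' : (MvPolynomial (Fin 4) k)} (h : Alt q) (h' : Alt q') : WInv (q * q') := by
  constructor
  · intro σ τ
    rw [atArray_mul, h.perm, h'.perm, sgn_mul]
  · rw [atArray_mul, h.tr, h'.tr]

theorem Alt.inv_mul {q q' : (MvPolynomial (Fin 4) k)} (h : WInv q) (h' : Alt q') : Alt (q * q') := by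
  constructor
  · intro σ τ
    rw [atArray_mul, h.perm, h'.perm, mul_smul_comm]
  · rw [atArray_mul, h.tr, h'.tr]

theorem WInv.mul {q q' : (MvPolynomial (Fin 4) k)} (h : WInv q) (h' : WInv q') : WInv (q * q') := by
  constructor
  · intro σ τ
    rw [atArray_mul, h.perm, h'.perm]
  · rw [atArray_mul, h.tr, h'.tr]

/-- The symbol of a homogeneous element. -/
theorem exists_q {ψ : F2 k} (hp : Pentagon k ψ) (hψ : ψ ∈ D2 k) {n : ℕ} (hn : ψ ∈ wt k n) :
    ∃ q : (MvPolynomial (Fin 4) k), ψ - symbolMap k (genArray k 2 2 * q) ∈ DN k ∧ Alt q ∧ q.IsHomogeneous (n - 5) := by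
  obtain ⟨P, hP, hE⟩ := exists_P hψ
  obtain ⟨Q, hQ, hr, hk, hρ⟩ := exists_Q hp hψ hE
  have hR : Rel ψ Q := by rw [Rel, ← hQ]; exact hE
  have hS := sy_of hr hk hρ (transp_D hp hψ hR)
  have hlin : ∀ (c : k) (N : Matrix (Fin 3) (Fin 3) (MvPolynomial (Fin 4) k)),
      atArray (c • qq Q) N = c • vl Q N := by
    intro c N
    rw [← atArray_qq, atArray, map_smul]; rfl
  refine ⟨(2 : k)⁻¹ • qq Q, ?_, ⟨?_, ?_⟩, ?_⟩
  · have h1 := iot_bt (qq P)
    rw [iot_qq] at h1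
    have h2 : genArray k 2 2 * ((2 : k)⁻¹ • qq Q) = (2 : k)⁻¹ • qq P := by
      rw [mul_smul_comm, hQ]
      congr 1
      rw [qq, qq, map_mul, map_add, ev4_vt, ev4_vs]
      congr 1
      simp [genArray]
      ring
    rw [h2, map_smul]
    have h3 : ψ - (2 : k)⁻¹ • symbolMap k (qq P) =
        (2 : k)⁻¹ • (((2 : k) • ψ - bt k P) + (bt k P - symbolMap k (qq P))) := by
      rw [sub_add_sub_cancel, smul_sub, smul_smul, inv_mul_cancel₀ two_ne_zero, one_smul]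
    rw [h3]
    exact (DN k).smul_mem _ ((DN k).add_mem hP h1)
  · intro σ τ
    rw [hlin, vl_all hS σ τ genArray_ZS, vl_gen, smul_comm]
  · rw [hlin, vl_tr hS genArray_ZS, vl_gen]
  · exact (homogeneousSubmodule (Fin 4) k (n - 5)).smul_mem _ (hom_of_Hm (rel_Hm hR hn))

/-- being the symbol of an element of `𝔤` of weight `n` -/
def GM (𝔤 : Submodule k (F2 k)) (n : ℕ) (p : (MvPolynomial (Fin 4) k)) : Prop :=
  ∃ φ ∈ 𝔤, φ ∈ wt k n ∧ φ ∈ D2 k ∧ φ - symbolMap k p ∈ DN k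

theorem GM.zero (𝔤 : Submodule k (F2 k)) (n : ℕ) : GM 𝔤 n (0 : (MvPolynomial (Fin 4) k)) :=
  ⟨0, 𝔤.zero_mem, Submodule.zero_mem _, (D2 k).zero_mem, by simp⟩

theorem GM.add {𝔤 : Submodule k (F2 k)} {n : ℕ} {p q : (MvPolynomial (Fin 4) k)} (h : GM 𝔤 n p) (h' : GM 𝔤 n q) :
    GM 𝔤 n (p + q) := by
  obtain ⟨φ, a1, a2, a3, a4⟩ := h
  obtain ⟨φ', b1, b2, b3, b4⟩ := h'
  refine ⟨φ + φ', 𝔤.add_mem a1 b1, Submodule.add_mem _ a2 b2, (D2 k).add_mem a3 b3, ?_⟩
  have e : φ + φ' - symbolMap k (p + q) = (φ - symbolMap k p) + (φ' - symbolMap k q) := by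
    rw [map_add]; abel
  rw [e]
  exact (DN k).add_mem a4 b4

theorem GM.smul {𝔤 : Submodule k (F2 k)} {n : ℕ} {p : (MvPolynomial (Fin 4) k)} (c : k) (h : GM 𝔤 n p) :
    GM 𝔤 n (c • p) := by
  obtain ⟨φ, a1, a2, a3, a4⟩ := h
  refine ⟨c • φ, 𝔤.smul_mem c a1, Submodule.smul_mem _ _ a2, (D2 k).smul_mem c a3, ?_⟩
  rw [map_smul, ← smul_sub]
  exact (DN k).smul_mem c a4

/-- multipliers of degree `m` -/
def RM (𝔤 : Submodule k (F2 k)) (m : ℕ) (r : (MvPolynomial (Fin 4) k)) : Prop :=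
  r.IsHomogeneous m ∧ ∀ n p, GM 𝔤 n p → GM 𝔤 (n + m) (r * p)

theorem RM.mul {𝔤 : Submodule k (F2 k)} {m m' : ℕ} {r r' : (MvPolynomial (Fin 4) k)} (h : RM 𝔤 m r) (h' : RM 𝔤 m' r') :
    RM 𝔤 (m + m') (r * r') := by
  refine ⟨h.1.mul h'.1, fun n p hp => ?_⟩
  have := h.2 _ _ (h'.2 n p hp)
  rwa [← mul_assoc, add_assoc, add_comm m'] at this

theorem RM.add {𝔤 : Submodule k (F2 k)} {m : ℕ} {r r' : (MvPolynomial (Fin 4) k)} (h : RM 𝔤 m r) (h' : RM 𝔤 m r') :
    RM 𝔤 m (r + r') := by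
  refine ⟨h.1.add h'.1, fun n p hp => ?_⟩
  rw [add_mul]
  exact (h.2 n p hp).add (h'.2 n p hp)

theorem RM.zero (𝔤 : Submodule k (F2 k)) (m : ℕ) : RM 𝔤 m (0 : (MvPolynomial (Fin 4) k)) :=
  ⟨isHomogeneous_zero _ _ _, fun n p _ => by rw [zero_mul]; exact GM.zero _ _⟩

theorem RM.const (𝔤 : Submodule k (F2 k)) (c : k) : RM 𝔤 0 (C c : (MvPolynomial (Fin 4) k)) := by
  refine ⟨isHomogeneous_C _ _, fun n p hp => ?_⟩
  rw [C_mul', add_zero]
  exact hp.smul c

theorem gen_hom (i j : Fin 3) : (genArray k i j).IsHomogeneous 1 := by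
  have h : ∀ i : Fin 4, (X i : (MvPolynomial (Fin 4) k)).IsHomogeneous 1 := fun i => isHomogeneous_X _ _
  fin_cases i <;> fin_cases j
  · exact h 0
  · exact h 1
  · exact (h 0).neg.sub (h 1)
  · exact h 2
  · exact h 3
  · exact (h 2).neg.sub (h 3)
  · exact (h 0).neg.sub (h 2)
  · exact (h 1).neg.sub (h 3)
  · exact (((h 0).add (h 1)).add (h 2)).add (h 3)

theorem PB_hom (n : ℕ) : (PB n : (MvPolynomial (Fin 4) k)).IsHomogeneous n := by
  rw [PB]
  refine IsHomogeneous.sum _ _ _ fun p _ => ?_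
  have := (gen_hom (k := k) p.1 p.2).pow n
  rwa [one_mul] at this

theorem PB_one : (PB 1 : (MvPolynomial (Fin 4) k)) = 0 := by
  rw [PB_eq]; ring

variable (𝔤 : Submodule k (F2 k)) (hgrt : ∀ φ ∈ 𝔤, IsGRT k φ)
    (hbr : ∀ σ ∈ 𝔤, ∀ τ ∈ 𝔤, ∀ D E : LieDerivation k (F2 k) (F2 k),
      D (gx k) = 0 → D (gy k) = ⁅gy k, σ⁆ → E (gx k) = 0 → E (gy k) = ⁅gy k, τ⁆ →
      ⁅σ, τ⁆ + D τ - E σ ∈ 𝔤)
    (hσ : ∀ n, Odd n → 3 ≤ n → ∃ σ ∈ 𝔤, σ ∈ wt k n ∧ DepthGE k 2 (σ - vm k (n - 1)))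

include hgrt hbr hσ

theorem RM_PB (j : ℕ) : RM 𝔤 (2 * j + 1) (PB (2 * j + 1) : (MvPolynomial (Fin 4) k)) := by
  refine ⟨PB_hom _, fun n p hp => ?_⟩
  rcases Nat.eq_zero_or_pos j with rfl | hj
  · rw [show 2 * 0 + 1 = 1 from rfl, PB_one, zero_mul]
    exact GM.zero _ _
  obtain ⟨σ, hs, hw, hd⟩ := hσ (2 * j + 1) ⟨j, rfl⟩ (by omega)
  obtain ⟨φ, a1, a2, a3, a4⟩ := hp
  obtain ⟨D, hDx, hDy⟩ := exists_der ⁅gy k, σ⁆
  obtain ⟨E, hEx, hEy⟩ := exists_der ⁅gy k, φ⁆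
  have h1 := power_sum_action (n := 2 * j + 1) ⟨j, rfl⟩ (by omega) (1 : k) (hgrt σ hs).pent
    (by rwa [one_smul]) a3 a4 D E hDx hDy hEx hEy
  have hm := hbr σ hs φ a1 D E hDx hDy hEx hEy
  have hj0 : (((2 * j + 1 : ℕ) : k)) ≠ 0 := Nat.cast_ne_zero.mpr (by omega)
  refine ⟨-(((2 * j + 1 : ℕ) : k)) • (⁅σ, φ⁆ + D φ - E σ), 𝔤.smul_mem _ hm,
    Submodule.smul_mem _ _ ?_, (D2 k).smul_mem _ (act_D2 (pentagon_mem_D1 (hgrt σ hs).pent) a3 D E
      hDx hDy hEx hEy), ?_⟩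
  · have h2 : ⁅σ, φ⁆ ∈ wt k (n + (2 * j + 1)) := by
      have := lie_wt hw a2
      rwa [add_comm] at this
    refine Submodule.sub_mem _ (Submodule.add_mem _ h2 ?_) ?_
    · have := der_wt hw D hDx hDy a2
      rwa [add_comm] at this
    · exact der_wt a2 E hEx hEy hw
  · have h3 := (DN k).smul_mem (-(((2 * j + 1 : ℕ) : k))) h1
    have e1 : (PB (2 * j + 1) : (MvPolynomial (Fin 4) k)) = ∑ i, ∑ j', genArray k i j' ^ (2 * j + 1) := by
      rw [PB, Fintype.sum_prod_type]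
    rw [e1]
    rw [smul_add, smul_smul, neg_mul, mul_one_div_cancel hj0, neg_smul (1 : k), one_smul,
      ← sub_eq_add_neg] at h3
    exact h3

theorem RM_aeval {r : (MvPolynomial (Fin 4) k)} (F : MvPolynomial ℕ k)
    (hr : r = aeval (fun j : ℕ => (PB (2 * j + 1) : (MvPolynomial (Fin 4) k))) F) {m : ℕ} (hm : r.IsHomogeneous m) :
    RM 𝔤 m r := by
  have h1 : r = ∑ e ∈ F.support, aeval (fun j : ℕ => (PB (2 * j + 1) : (MvPolynomial (Fin 4) k)))
      (monomial e (F.coeff e)) := by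
    rw [hr, ← map_sum, ← F.as_sum]
  have h2 : ∀ e ∈ F.support, ∃ d, RM 𝔤 d (aeval (fun j : ℕ => (PB (2 * j + 1) : (MvPolynomial (Fin 4) k)))
      (monomial e (F.coeff e))) := by
    intro e _
    rw [aeval_monomial, Finsupp.prod]
    have h3 : ∃ d, RM 𝔤 d (∏ a ∈ e.support, (PB (2 * a + 1) : (MvPolynomial (Fin 4) k)) ^ e a) := by
      refine Finset.prod_induction _ (fun r => ∃ d, RM 𝔤 d r) ?_ ?_ ?_
      · rintro a b ⟨d, hd⟩ ⟨d', hd'⟩
        exact ⟨_, hd.mul hd'⟩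
      · exact ⟨0, by have := RM.const 𝔤 (1 : k); rwa [C_1] at this⟩
      · intro j _
        induction (e j) with
        | zero => exact ⟨0, by have := RM.const 𝔤 (1 : k); rwa [C_1] at this⟩
        | succ n ih =>
          obtain ⟨d, hd⟩ := ih
          rw [pow_succ]
          exact ⟨_, hd.mul (RM_PB 𝔤 hgrt hbr hσ j)⟩
    obtain ⟨d, hd⟩ := h3
    exact ⟨_, (RM.const 𝔤 (F.coeff e)).mul hd⟩
  have h4 : r = ∑ e ∈ F.support, homogeneousComponent m (aeval
      (fun j : ℕ => (PB (2 * j + 1) : (MvPolynomial (Fin 4) k))) (monomial e (F.coeff e))) := by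
    rw [← map_sum, ← h1, homogeneousComponent_of_mem hm, if_pos rfl]
  rw [h4]
  refine Finset.sum_induction _ (fun r => RM 𝔤 m r) (fun a b => RM.add) (RM.zero _ _) ?_
  intro e he
  obtain ⟨d, hd⟩ := h2 e he
  rw [homogeneousComponent_of_mem hd.1]
  split_ifs with hmd
  · rw [hmd]; exact hd
  · exact RM.zero _ _

end alt

end Pool.Agent.Helper392_GT
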