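import Pool.Agent.Helper392_GT.Cond

namespace Pool.Agent.Helper392_GT

universe u v

set_option linter.unusedSectionVars false
set_option linter.unusedSimpArgs false
set_option linter.unusedVariables false

open MvPolynomial

attribute [local instance 100] LieRing.ofAssociativeRing

section cond2

variable {k : Type u} [Field k] [CharZero k]


theorem gB_hom : (gB : (MvPolynomial (Fin 4) k)).IsHomogeneous 36 := by
  rw [gB]
  have h := IsHomogeneous.prod ((Finset.univ : Finset (Fin 3 × Fin 3)).powersetCard 2)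
    (fun t => ∑ p ∈ t, genArray k p.1 p.2) (fun _ => 1)
    (fun t _ => IsHomogeneous.sum _ _ _ fun p _ => gen_hom (k := k) p.1 p.2)
  have e : ∑ _t ∈ (Finset.univ : Finset (Fin 3 × Fin 3)).powersetCard 2, 1 = 36 := by
    rw [Finset.sum_const, Finset.card_powersetCard]; rfl
  rwa [e] at h

/-- the product of the differences -/
noncomputable def q3 : P2 k := (px - py) * ((2 * px + py) * (px + 2 * py))

theorem q3_OA : OA (q3 : P2 k) := by
  refine ⟨?_, ?_, ?_⟩ <;>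
  · simp only [q3, pz, map_mul, map_sub, map_add, ev2_px, ev2_py, map_ofNat]
    ring

theorem q3_sc : Polynomial.X ^ 5 * sc (q3 : P2 k) = Polynomial.X ^ 8 * Polynomial.C q3 := by
  simp only [q3, map_mul, map_sub, map_add, sc_px, sc_py, map_ofNat]
  ring

theorem q3_ne : (q3 : P2 k) ≠ 0 := by
  have h2 : (2 : k) ≠ 0 := two_ne_zero
  have hx : (ev2 (k := k) (1 : k) (0 : k)) q3 = 2 := by
    simp only [q3, map_mul, map_sub, map_add, ev2_px, ev2_py, map_ofNat]; ring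
  intro h
  rw [h, map_zero] at hx
  exact h2 hx.symm

variable (𝔤 : Submodule k (F2 k)) (hgrt : ∀ φ ∈ 𝔤, IsGRT k φ)
    (hbr : ∀ σ ∈ 𝔤, ∀ τ ∈ 𝔤, ∀ D E : LieDerivation k (F2 k) (F2 k),
      D (gx k) = 0 → D (gy k) = ⁅gy k, σ⁆ → E (gx k) = 0 → E (gy k) = ⁅gy k, τ⁆ →
      ⁅σ, τ⁆ + D τ - E σ ∈ 𝔤)
    (hσ : ∀ n, Odd n → 3 ≤ n → ∃ σ ∈ 𝔤, σ ∈ wt k n ∧ DepthGE k 2 (σ - vm k (n - 1)))

include hgrt hbr hσ

theorem base8 : ∃ q : (MvPolynomial (Fin 4) k), q ≠ 0 ∧ Alt q ∧ q.IsHomogeneous 3 ∧ GM 𝔤 8 (genArray k 2 2 * q) := by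
  obtain ⟨φ, h1, h2, h3, Q, h4, h5⟩ := base 𝔤 hgrt hbr hσ q3_OA q3_sc
  obtain ⟨q, e1, e2, e3⟩ := exists_q (hgrt φ h1).pent h3 h2
  refine ⟨q, ?_, e2, e3, φ, h1, h2, h3, e1⟩
  rintro rfl
  rw [mul_zero, map_zero, sub_zero] at e1
  have h6 : Rel φ 0 := by rw [Rel, mul_zero]; exact entry_DN e1
  rw [h4.unique h6, ld_zero] at h5
  exact q3_ne (Polynomial.C_eq_zero.mp (Polynomial.C_eq_zero.mp h5.symm))

/-- the multiples of the base symbol -/
theorem exists_lower : ∃ q : (MvPolynomial (Fin 4) k), q ≠ 0 ∧ Alt q ∧ q.IsHomogeneous 3 ∧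
    ∀ m (h : (MvPolynomial (Fin 4) k)), WInv h → h.IsHomogeneous m → GM 𝔤 (44 + m) (genArray k 2 2 * (gB * h * q)) := by
  obtain ⟨q, h1, h2, h3, h4⟩ := base8 𝔤 hgrt hbr hσ
  refine ⟨q, h1, h2, h3, fun m h hh hm => ?_⟩
  obtain ⟨F, hF⟩ := inv_odd hh
  have := (RM_aeval 𝔤 hgrt hbr hσ F hF (gB_hom.mul hm)).2 8 _ h4
  have e : genArray k 2 2 * (gB * h * q) = gB * h * (genArray k 2 2 * q) := by ring
  rw [e, show 44 + m = 8 + (36 + m) by ring]
  exact this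

end cond2

end Pool.Agent.Helper392_GT
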