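import Pool.Agent.Helper392_GT.Main

namespace Pool.Agent.Helper392_GT

open Polynomial

universe u v

set_option linter.unusedSimpArgs false
set_option linter.unusedVariables false

attribute [local instance 100] LieRing.ofAssociativeRing

section inter

variable {k : Type u} [CommRing k] {K : Type v} [CommRing K] [Algebra k K] {n m : ℕ}

theorem inv_entry {A B : Matrix (Fin n) (Fin n) K} (I : Fin n → Prop)
    (hA : ∀ i j, I i → ¬ I j → A i j = 0) (hB : ∀ i j, I i → ¬ I j → B i j = 0) (u : F2 k) :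
    ∀ i j, I i → ¬ I j → subst k A B u i j = 0 := by
  have hmul : ∀ M N : Matrix (Fin n) (Fin n) K, (∀ i j, I i → ¬ I j → M i j = 0) →
      (∀ i j, I i → ¬ I j → N i j = 0) → ∀ i j, I i → ¬ I j → (M * N) i j = 0 := by
    intro M N hM hN i j hi hj
    rw [Matrix.mul_apply]
    refine Finset.sum_eq_zero fun l _ => ?_
    by_cases hl : I l
    · rw [hN l j hl hj, mul_zero]
    · rw [hM i l hi hl, zero_mul]
  refine free_ind (fun u => ∀ i j, I i → ¬ I j → subst k A B u i j = 0) ?_ ?_ ?_ ?_ ?_ ?_ u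
  · intro i j _ _
    rw [map_zero]; rfl
  · intro a b ha hb i j hi hj
    rw [map_add, Matrix.add_apply, ha i j hi hj, hb i j hi hj, add_zero]
  · intro c a ha i j hi hj
    rw [map_smul, Matrix.smul_apply, ha i j hi hj, smul_zero]
  · intro a b ha hb i j hi hj
    rw [LieHom.map_lie, Ring.lie_def, Matrix.sub_apply, hmul _ _ ha hb i j hi hj,
      hmul _ _ hb ha i j hi hj, sub_zero]
  · rw [subst_x]; exact hA
  · rw [subst_y]; exact hB

theorem inter_left {A B : Matrix (Fin n) (Fin n) K} {A' B' : Matrix (Fin m) (Fin m) K}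
    (R : Matrix (Fin m) (Fin n) K) (hA : R * A = A' * R) (hB : R * B = B' * R) (u : F2 k) :
    R * subst k A B u = subst k A' B' u * R := by
  refine free_ind (fun u => R * subst k A B u = subst k A' B' u * R) ?_ ?_ ?_ ?_ ?_ ?_ u
  · rw [map_zero, map_zero, Matrix.mul_zero, Matrix.zero_mul]
  · intro a b ha hb
    rw [map_add, map_add, Matrix.mul_add, Matrix.add_mul, ha, hb]
  · intro c a ha
    rw [map_smul, map_smul, Matrix.mul_smul, Matrix.smul_mul, ha]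
  · intro a b ha hb
    rw [LieHom.map_lie, LieHom.map_lie, Ring.lie_def, Ring.lie_def, Matrix.mul_sub,
      Matrix.sub_mul, ← Matrix.mul_assoc, ← Matrix.mul_assoc, ha, hb, Matrix.mul_assoc,
      Matrix.mul_assoc, ha, hb, Matrix.mul_assoc, Matrix.mul_assoc]
  · rw [subst_x, subst_x]; exact hA
  · rw [subst_y, subst_y]; exact hB

theorem inter_right {A B : Matrix (Fin n) (Fin n) K} {A' B' : Matrix (Fin m) (Fin m) K}
    (S : Matrix (Fin n) (Fin m) K) (hA : A * S = S * A') (hB : B * S = S * B') (u : F2 k) :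
    subst k A B u * S = S * subst k A' B' u := by
  refine free_ind (fun u => subst k A B u * S = S * subst k A' B' u) ?_ ?_ ?_ ?_ ?_ ?_ u
  · rw [map_zero, map_zero, Matrix.mul_zero, Matrix.zero_mul]
  · intro a b ha hb
    rw [map_add, map_add, Matrix.mul_add, Matrix.add_mul, ha, hb]
  · intro c a ha
    rw [map_smul, map_smul, Matrix.mul_smul, Matrix.smul_mul, ha]
  · intro a b ha hb
    rw [LieHom.map_lie, LieHom.map_lie, Ring.lie_def, Ring.lie_def, Matrix.mul_sub,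
      Matrix.sub_mul, Matrix.mul_assoc, Matrix.mul_assoc, ha, hb, ← Matrix.mul_assoc,
      ← Matrix.mul_assoc, ha, hb, Matrix.mul_assoc, Matrix.mul_assoc]
  · rw [subst_x, subst_x]; exact hA
  · rw [subst_y, subst_y]; exact hB

end inter

section mats

variable {K : Type v} [CommRing K] (p0 p1 q0 q2 : K)

def dX1 : Matrix (Fin 6) (Fin 6) K :=
  !![-q0, 1, 0, -1, 0, 0;
    0, p1 - p0 - q0, 1, 0, -1, 0;
    0, 0, 0, 0, 0, 0;
    0, 0, 0, 0, 0, 0;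
    0, 0, 0, 0, 0, 0;
    0, 0, 0, 0, 0, 0]

/-- `x₁ + a` -/
def dX2' : Matrix (Fin 6) (Fin 6) K :=
  !![-p0, -1, 0, 1, 0, 0;
    0, 0, 0, 0, 0, 0;
    0, 0, q2 - p0 - q0, 0, 0, -1;
    0, 0, 0, - p0 - q0, 0, 0;
    0, 0, 0, 0, - p0 - q0, 0;
    0, 0, 0, 0, 0, - p0 - q0]

/-- `y₀ + a` -/
def dX3' : Matrix (Fin 6) (Fin 6) K :=
  !![0, 0, 0, 1, 0, 0;
    0, 0, 0, 0, 1, 0;
    0, 0, 0, 0, 0, 0;
    0, 0, 0, - q0, 1, 0;
    0, 0, 0, 0, p1 - p0 - q0, 0;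
    0, 0, 0, 0, 0, - p0 - q0]

def dX4 : Matrix (Fin 6) (Fin 6) K :=
  !![0, 0, 0, -1, 0, 0;
    0, 0, 0, 0, 0, 0;
    0, 0, 0, 0, 0, 1;
    0, 0, 0, q0, 0, 0;
    0, 0, 0, 0, 0, 1;
    0, 0, 0, 0, 0, q2]

def dX5 : Matrix (Fin 6) (Fin 6) K :=
  !![0, 0, 0, 0, 0, 0;
    0, 0, 0, 0, 0, 0;
    0, 0, 0, 0, 0, 0;
    0, 0, 0, - p0 - q0, 0, 0;
    0, 0, 0, 0, - p0 - q0, 0;
    0, 0, 0, 0, 0, - p0 - q0]

end mats

section rel

variable {K : Type v} [CommRing K] (p0 p1 q0 q2 : K)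

theorem lie6 (A B : Matrix (Fin 6) (Fin 6) K) (i j : Fin 6) :
    ⁅A, B⁆ i j = (A i 0 * B 0 j + A i 1 * B 1 j + A i 2 * B 2 j + A i 3 * B 3 j + A i 4 * B 4 j
      + A i 5 * B 5 j)
      - (B i 0 * A 0 j + B i 1 * A 1 j + B i 2 * A 2 j + B i 3 * A 3 j + B i 4 * A 4 j
      + B i 5 * A 5 j) := by
  rw [Ring.lie_def, Matrix.sub_apply, Matrix.mul_apply, Matrix.mul_apply, Fin.sum_univ_six,
    Fin.sum_univ_six]

theorem d14 : ⁅dX4 q0 q2, dX1 p0 p1 q0⁆ = 0 := by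
  ext i j
  rw [lie6]
  fin_cases i <;> fin_cases j <;> simp [dX4, dX1]

theorem d13 : ⁅dX3' p0 p1 q0, dX1 p0 p1 q0⁆ = 0 := by
  ext i j
  rw [lie6]
  fin_cases i <;> fin_cases j <;> simp [dX3', dX1]

theorem d24 : ⁅dX2' p0 q0 q2, dX4 q0 q2⁆ = 0 := by
  ext i j
  rw [lie6]
  fin_cases i <;> fin_cases j <;> simp [dX2', dX4] <;> ring

theorem d35 : ⁅dX3' p0 p1 q0 + dX1 p0 p1 q0, dX5 p0 q0⁆ = 0 := by
  ext i j
  rw [lie6]
  fin_cases i <;> fin_cases j <;> simp [dX3', dX1, dX5] <;> ring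

theorem d25 : ⁅dX5 p0 q0, dX2' p0 q0 q2 + dX4 q0 q2⁆ = 0 := by
  ext i j
  rw [lie6]
  fin_cases i <;> fin_cases j <;> simp [dX2', dX4, dX5] <;> ring

theorem dsum : ⁅dX1 p0 p1 q0, dX2' p0 q0 q2 + dX4 q0 q2⁆
    + ⁅dX2' p0 q0 q2 + dX4 q0 q2, dX3' p0 p1 q0 + dX1 p0 p1 q0⁆
    + ⁅dX3' p0 p1 q0 + dX1 p0 p1 q0, dX4 q0 q2⁆ + ⁅dX4 q0 q2, dX5 p0 q0⁆
    + ⁅dX5 p0 q0, dX1 p0 p1 q0⁆ = 0 := by
  ext i j
  simp only [Matrix.add_apply, lie6]
  fin_cases i <;> fin_cases j <;> simp [dX2', dX4, dX5, dX1, dX3'] <;> ring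

end rel

section relD

variable {k : Type u} [CommRing k] {K : Type u} [CommRing K] [Algebra k K]

/-- `(0,5)` entry on the face `(X₄, X₃)` -/
theorem faceL {ψ : F2 k} {P : (P2 k)[X][X]} (hE : Entry ψ P) (p0 p1 q0 q2 : K) :
    q0 * subst k (dX4 q0 q2) (dX3' p0 p1 q0) ψ 0 5 =
      q0 * p1 * ev4 q0 (p0 - p1) (q0 - q2) p0 P := by
  have h1 := inter_left (k := k) (A := dX4 q0 q2) (B := dX3' p0 p1 q0)
    (A' := mkM 0 0 0 q2 0 0 1 0 0) (B' := mkM 0 (p1 - p0 - q0) 0 (-p0 - q0) 1 0 0 0 0)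
    (!![q0, 0, 0, 1, 0, 0; 0, 0, 0, 0, 1, 0; 0, 0, 0, 0, 0, 0; 0, 0, 0, 0, 0, 1])
    (by
      ext i j
      simp only [Matrix.mul_apply, Fin.sum_univ_six, Fin.sum_univ_four]
      fin_cases i <;> fin_cases j <;> simp [dX4, dX3', mkM] <;> ring)
    (by
      ext i j
      simp only [Matrix.mul_apply, Fin.sum_univ_six, Fin.sum_univ_four]
      fin_cases i <;> fin_cases j <;> simp [dX4, dX3', mkM] <;> ring) ψ
  have h2 := inter_left (k := k) (A := dX4 q0 q2) (B := dX3' p0 p1 q0)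
    (A' := mkM q0 0 0 q2 0 0 1 0 0) (B' := mkM (-q0) (p1 - p0 - q0) 0 (-p0 - q0) 1 0 0 0 0)
    (!![0, 0, 0, 1, 0, 0; 0, 0, 0, 0, 1, 0; 0, 0, 0, 0, 0, 0; 0, 0, 0, 0, 0, 1])
    (by
      ext i j
      simp only [Matrix.mul_apply, Fin.sum_univ_six, Fin.sum_univ_four]
      fin_cases i <;> fin_cases j <;> simp [dX4, dX3', mkM] <;> ring)
    (by
      ext i j
      simp only [Matrix.mul_apply, Fin.sum_univ_six, Fin.sum_univ_four]
      fin_cases i <;> fin_cases j <;> simp [dX4, dX3', mkM] <;> ring) ψ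
  have e1 := congrFun (congrFun h1 0) 5
  have e2 := congrFun (congrFun h2 0) 5
  simp only [Matrix.mul_apply, Fin.sum_univ_six, Fin.sum_univ_four] at e1 e2
  simp at e1 e2
  rw [entry_mk hE] at e1 e2
  rw [e2] at e1
  have s1 : q0 - q2 - (q0 - q2) = 0 := by ring
  have s3 : -q0 - (p1 - p0 - q0) = p0 - p1 := by ring
  have s4 : -q0 - (-p0 - q0) = p0 := by ring
  rw [s3, s4] at e1
  simp only [sub_zero, sub_self] at e1
  linear_combination e1

/-- `(0,5)` entry on the face `(X₁, X₂)` -/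
theorem faceR {ψ : F2 k} {P : (P2 k)[X][X]} (hE : Entry ψ P) (p0 p1 q0 q2 : K) :
    q2 * subst k (dX1 p0 p1 q0) (dX2' p0 q0 q2) ψ 0 5 =
      p1 * ((-p0 - q0) * ev4 (p0 - p1) (-p0) (-q0) q0 P
        - (q2 - p0 - q0) * ev4 (p0 - p1) (-p0) (-q0) (q0 - q2) P) := by
  have h1 := inter_right (k := k) (A := dX1 p0 p1 q0) (B := dX2' p0 q0 q2)
    (A' := mkM (-q0) (p1 - p0 - q0) 0 0 1 0 1 0 0) (B' := mkM (-p0) 0 0 (-p0 - q0) (-1) 0 0 0 0)
    (!![1, 0, 0, 0; 0, 1, 0, 0; 0, 0, 0, 1; 0, 0, 0, 0; 0, 0, 0, 0; 0, 0, 0, q2])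
    (by
      ext i j
      simp only [Matrix.mul_apply, Fin.sum_univ_six, Fin.sum_univ_four]
      fin_cases i <;> fin_cases j <;> simp [dX1, dX2', mkM] <;> ring)
    (by
      ext i j
      simp only [Matrix.mul_apply, Fin.sum_univ_six, Fin.sum_univ_four]
      fin_cases i <;> fin_cases j <;> simp [dX1, dX2', mkM] <;> ring) ψ
  have h2 := inter_right (k := k) (A := dX1 p0 p1 q0) (B := dX2' p0 q0 q2)
    (A' := mkM (-q0) (p1 - p0 - q0) 0 0 1 0 1 0 0)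
    (B' := mkM (-p0) 0 0 (q2 - p0 - q0) (-1) 0 0 0 0)
    (!![1, 0, 0, 0; 0, 1, 0, 0; 0, 0, 0, 1; 0, 0, 0, 0; 0, 0, 0, 0; 0, 0, 0, 0])
    (by
      ext i j
      simp only [Matrix.mul_apply, Fin.sum_univ_six, Fin.sum_univ_four]
      fin_cases i <;> fin_cases j <;> simp [dX1, dX2', mkM] <;> ring)
    (by
      ext i j
      simp only [Matrix.mul_apply, Fin.sum_univ_six, Fin.sum_univ_four]
      fin_cases i <;> fin_cases j <;> simp [dX1, dX2', mkM] <;> ring) ψ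
  have e1 := congrFun (congrFun h1 0) 3
  have e2 := congrFun (congrFun h2 0) 3
  simp only [Matrix.mul_apply, Fin.sum_univ_six, Fin.sum_univ_four] at e1 e2
  simp at e1 e2
  rw [entry_mk hE] at e1 e2
  rw [e2] at e1
  have s1 : -q0 - (p1 - p0 - q0) = p0 - p1 := by ring
  have s2 : -p0 - (-p0 - q0) = q0 := by ring
  have s3 : -p0 - (q2 - p0 - q0) = q0 - q2 := by ring
  rw [s1, s2, s3] at e1
  simp only [sub_zero, sub_self] at e1
  linear_combination e1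

theorem relD0 {ψ : F2 k} (hp : Pentagon k ψ) (hψ : ψ ∈ D1 k) {P : (P2 k)[X][X]} (hE : Entry ψ P)
    (p0 p1 q0 q2 : K) :
    q0 * p1 * (q2 * ev4 q0 (p0 - p1) (q0 - q2) p0 P
      + (p0 + q0) * ev4 (p0 - p1) (-p0) (-q0) q0 P
      - (p0 + q0 - q2) * ev4 (p0 - p1) (-p0) (-q0) (q0 - q2) P) = 0 := by
  have c14 := d14 p0 p1 q0 q2
  have c41 : ⁅dX1 p0 p1 q0, dX4 q0 q2⁆ = 0 := by rw [← lie_skew, c14, neg_zero]
  have c13 := d13 p0 p1 q0
  have c31 : ⁅dX1 p0 p1 q0, dX3' p0 p1 q0⁆ = 0 := by rw [← lie_skew, c13, neg_zero]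
  have c24 := d24 p0 q0 q2
  have h := five hp hψ
    (dX1 p0 p1 q0) (dX2' p0 q0 q2 + dX4 q0 q2) (dX3' p0 p1 q0 + dX1 p0 p1 q0) (dX4 q0 q2)
    (dX5 p0 q0)
    (by rw [lie_add, c31, lie_self, add_zero])
    (by rw [add_lie, c24, lie_self, add_zero])
    (d35 p0 p1 q0) c14 (d25 p0 q0 q2) (dsum p0 p1 q0 q2)
  have f1 : subst k (dX4 q0 q2) (dX3' p0 p1 q0 + dX1 p0 p1 q0) ψ
      = subst k (dX4 q0 q2) (dX3' p0 p1 q0) ψ := by
    have := subst_shift (k := k) (A := dX4 q0 q2) (B := dX3' p0 p1 q0) (Z := 0)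
      (W := dX1 p0 p1 q0) (by simp) (by simp) c14 c13 (by simp) hψ
    rwa [add_zero] at this
  have f2 : subst k (dX1 p0 p1 q0) (dX2' p0 q0 q2 + dX4 q0 q2) ψ
      = subst k (dX1 p0 p1 q0) (dX2' p0 q0 q2) ψ := by
    have := subst_shift (k := k) (A := dX1 p0 p1 q0) (B := dX2' p0 q0 q2) (Z := 0)
      (W := dX4 q0 q2) (by simp) (by simp) c41 c24 (by simp) hψ
    rwa [add_zero] at this
  have z1 : subst k (dX2' p0 q0 q2 + dX4 q0 q2) (dX3' p0 p1 q0 + dX1 p0 p1 q0) ψ 0 5 = 0 := by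
    refine inv_entry (k := k) (fun i : Fin 6 => i = 0 ∨ i = 1 ∨ i = 2) ?_ ?_ ψ 0 5 (by simp)
      (by decide)
    · intro i j hi hj
      fin_cases i <;> fin_cases j <;> revert hi hj <;> simp [dX2', dX4]
    · intro i j hi hj
      fin_cases i <;> fin_cases j <;> revert hi hj <;> simp [dX3', dX1]
  have z2 : subst k (dX4 q0 q2) (dX5 p0 q0) ψ 0 5 = 0 := by
    refine inv_entry (k := k) (fun i : Fin 6 => i = 0 ∨ i = 3) ?_ ?_ ψ 0 5 (by simp)
      (by decide)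
    · intro i j hi hj
      fin_cases i <;> fin_cases j <;> revert hi hj <;> simp [dX5, dX4]
    · intro i j hi hj
      fin_cases i <;> fin_cases j <;> revert hi hj <;> simp [dX5, dX1]
  have z3 : subst k (dX1 p0 p1 q0) (dX5 p0 q0) ψ 0 5 = 0 := by
    refine inv_entry (k := k) (fun i : Fin 6 => i ≠ 5) ?_ ?_ ψ 0 5 (by simp)
      (by decide)
    · intro i j hi hj
      fin_cases i <;> fin_cases j <;> revert hi hj <;> simp [dX5, dX1]
    · intro i j hi hj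
      fin_cases i <;> fin_cases j <;> revert hi hj <;> simp [dX5, dX1]
  rw [f1, f2] at h
  have h2 := congrFun (congrFun h 0) 5
  simp only [Matrix.add_apply, z1, z2, z3, zero_add, add_zero] at h2
  have hL := faceL hE p0 p1 q0 q2
  have hR := faceR hE p0 p1 q0 q2
  rw [h2] at hL
  linear_combination q0 * hR - q2 * hL

end relD

end Pool.Agent.Helper392_GT
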