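import Mathlib

/-!
# Definitions: the pentagon equation in the infinitesimal braid Lie algebra, and depth
-/

namespace Pool.Agent.Helper392_GT

universe u

attribute [local instance 100] LieRing.ofAssociativeRing

/-- The free Lie algebra over `k` on the two generators `x = of 0` and `y = of 1`. -/
abbrev F2 (k : Type u) [CommRing k] : Type u := FreeLieAlgebra k (Fin 2)

/-- Substitution: `subst k a b ψ` is `ψ(a, b)`, i.e. the image of `ψ(x, y)` under the Lie algebra
homomorphism with `x ↦ a`, `y ↦ b`. -/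
noncomputable def subst (k : Type u) [CommRing k] {g : Type*} [LieRing g] [LieAlgebra k g]
    (a b : g) : F2 k →ₗ⁅k⁆ g :=
  FreeLieAlgebra.lift k ![a, b]

/-- The free Lie algebra on symbols `t i j`, `i, j ∈ {0,1,2,3}`. -/
abbrev FreeT (k : Type u) [CommRing k] : Type u := FreeLieAlgebra k (Fin 4 × Fin 4)

/-- The symbol `t i j`. -/
noncomputable def tt (k : Type u) [CommRing k] (i j : Fin 4) : FreeT k :=
  FreeLieAlgebra.of k (i, j)

/-- The relators of the infinitesimal braid Lie algebra on four strands. -/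
noncomputable def t4Rel (k : Type u) [CommRing k] : Set (FreeT k) :=
  {r | (∃ i, r = tt k i i) ∨ (∃ i j, r = tt k i j - tt k j i) ∨
    (∃ i j l m, i ≠ j ∧ i ≠ l ∧ i ≠ m ∧ j ≠ l ∧ j ≠ m ∧ l ≠ m ∧ r = ⁅tt k i j, tt k l m⁆) ∨
    (∃ i j l, i ≠ j ∧ i ≠ l ∧ j ≠ l ∧ r = ⁅tt k i j, tt k i l + tt k j l⁆)}

/-- The ideal generated by the relators. -/
noncomputable def t4Ideal (k : Type u) [CommRing k] : LieIdeal k (FreeT k) :=
  LieSubmodule.lieSpan k (FreeT k) (t4Rel k)

/-- The infinitesimal braid Lie algebra `𝔱₄`. -/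
abbrev T4 (k : Type u) [CommRing k] : Type u := FreeT k ⧸ t4Ideal k

/-- The generator `t i j` of `𝔱₄`. -/
noncomputable def T4.t (k : Type u) [CommRing k] (i j : Fin 4) : T4 k :=
  LieSubmodule.Quotient.mk (tt k i j)

/-- Drinfeld's (infinitesimal) pentagon equation in `𝔱₄`:
`ψ(t₁₂, t₂₃+t₂₄) + ψ(t₁₃+t₂₃, t₃₄) = ψ(t₂₃, t₃₄) + ψ(t₁₂+t₁₃, t₂₄+t₃₄) + ψ(t₁₂, t₂₃)`
(strands are numbered `0, 1, 2, 3` below). -/
def Pentagon (k : Type u) [CommRing k] (ψ : F2 k) : Prop :=
  subst k (T4.t k 0 1) (T4.t k 1 2 + T4.t k 1 3) ψ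
    + subst k (T4.t k 0 2 + T4.t k 1 2) (T4.t k 2 3) ψ
  = subst k (T4.t k 1 2) (T4.t k 2 3) ψ
    + subst k (T4.t k 0 1 + T4.t k 0 2) (T4.t k 1 3 + T4.t k 2 3) ψ
    + subst k (T4.t k 0 1) (T4.t k 1 2) ψ

/-- The embedding of the free Lie algebra in the free associative algebra. -/
noncomputable def toAssoc (k : Type u) [CommRing k] : F2 k →ₗ⁅k⁆ FreeAlgebra k (Fin 2) :=
  FreeLieAlgebra.lift k (FreeAlgebra.ι k)

/-- The coefficient of the word `w` in `ψ`, expanded as a noncommutative polynomial in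
`x, y`. -/
noncomputable def wordCoeff (k : Type u) [CommRing k] (ψ : F2 k) (w : FreeMonoid (Fin 2)) : k :=
  (FreeAlgebra.equivMonoidAlgebraFreeMonoid (toAssoc k ψ)).coeff w

/-- `ψ` has depth at least `d`: every word occurring in `ψ` has at least `d` letters `y`. -/
def DepthGE (k : Type u) [CommRing k] (d : ℕ) (ψ : F2 k) : Prop :=
  ∀ w : FreeMonoid (Fin 2), w.toList.count 1 < d → wordCoeff k ψ w = 0

end Pool.Agent.Helper392_GT
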