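import Pool.Agent.Helper392_GT.Defs

/-!
# The Grothendieck-Teichmüller Lie algebra
-/

namespace Pool.Agent.Helper392_GT

universe u

/-- The defining equations of `𝔤𝔯𝔱₁`: antisymmetry, the (infinitesimal) hexagon and the pentagon.
Here `x = of 0` and `y = of 1` are the generators of the free Lie algebra. -/
structure IsGRT (k : Type u) [CommRing k] (ψ : F2 k) : Prop where
  /-- `ψ(y, x) = -ψ(x, y)` -/
  anti : subst k (FreeLieAlgebra.of k 1 : F2 k) (FreeLieAlgebra.of k 0) ψ = -ψ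
  /-- `ψ(x, y) + ψ(y, -x-y) + ψ(-x-y, x) = 0` -/
  hexa : subst k (FreeLieAlgebra.of k 0 : F2 k) (FreeLieAlgebra.of k 1) ψ
    + subst k (FreeLieAlgebra.of k 1 : F2 k) (-FreeLieAlgebra.of k 0 - FreeLieAlgebra.of k 1) ψ
    + subst k (-FreeLieAlgebra.of k 0 - FreeLieAlgebra.of k 1 : F2 k) (FreeLieAlgebra.of k 0) ψ = 0
  pent : Pentagon k ψ

end Pool.Agent.Helper392_GT
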