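import Pool.Agent.Helper392_GT.Defs2

/-!
# Weights
-/

namespace Pool.Agent.Helper392_GT

universe u

/-- The weight `n` part of the free Lie algebra on `x = of 0` and `y = of 1`: the span of the
`n`-fold brackets `[z₁, [z₂, …, [z_{n-1}, z_n]]]` with all `z_i ∈ {x, y}`. -/
noncomputable def wt (k : Type u) [CommRing k] : ℕ → Submodule k (F2 k)
  | 0 => ⊥
  | 1 => Submodule.span k {FreeLieAlgebra.of k 0, FreeLieAlgebra.of k 1}
  | (n + 2) => Submodule.span k
      {v | ∃ u ∈ wt k (n + 1), v = ⁅(FreeLieAlgebra.of k 0 : F2 k), u⁆ ∨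
        v = ⁅(FreeLieAlgebra.of k 1 : F2 k), u⁆}

end Pool.Agent.Helper392_GT
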