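import Pool.Agent.Helper392_GT.Defs

/-!
# The symbol of an element of the second derived ideal, and 3×3 arrays
-/

namespace Pool.Agent.Helper392_GT

universe u

open MvPolynomial

/-- `ad(x)^i ad(y)^j [x, y]` in the free Lie algebra on `x = of 0` and `y = of 1`. -/
noncomputable def adxy (k : Type u) [CommRing k] (i j : ℕ) : F2 k :=
  ((LieAlgebra.ad k (F2 k) (FreeLieAlgebra.of k 0)) ^ i)
    (((LieAlgebra.ad k (F2 k) (FreeLieAlgebra.of k 1)) ^ j)
      ⁅(FreeLieAlgebra.of k 0 : F2 k), FreeLieAlgebra.of k 1⁆)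

/-- The linear map from polynomials in four variables `x₁ = X 0`, `y₁ = X 1`, `x₂ = X 2`,
`y₂ = X 3` to the free Lie algebra which sends `x₁^i y₁^j x₂^i' y₂^j'` to
`[ad(x)^i ad(y)^j [x, y], ad(x)^i' ad(y)^j' [x, y]]`. -/
noncomputable def symbolMap (k : Type u) [CommRing k] : MvPolynomial (Fin 4) k →ₗ[k] F2 k :=
  (MvPolynomial.basisMonomials (Fin 4) k).constr k
    fun e => ⁅adxy k (e 0) (e 1), adxy k (e 2) (e 3)⁆

/-- The generic `3 × 3` array with zero row and column sums, with first two rows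
`(x₁, y₁, -x₁-y₁)` and `(x₂, y₂, -x₂-y₂)`. -/
noncomputable def genArray (k : Type u) [CommRing k] :
    Matrix (Fin 3) (Fin 3) (MvPolynomial (Fin 4) k) :=
  !![X 0, X 1, -X 0 - X 1;
     X 2, X 3, -X 2 - X 3;
     -X 0 - X 2, -X 1 - X 3, X 0 + X 1 + X 2 + X 3]

/-- The polynomial `q(x₁, y₁, x₂, y₂)`, evaluated at the upper left corner of an array. -/
noncomputable def atArray {k : Type u} [CommRing k] (q : MvPolynomial (Fin 4) k)
    (N : Matrix (Fin 3) (Fin 3) (MvPolynomial (Fin 4) k)) : MvPolynomial (Fin 4) k :=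
  aeval ![N 0 0, N 0 1, N 1 0, N 1 1] q

end Pool.Agent.Helper392_GT
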