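import Pool.Agent.Helper392_GT.Rel

/-!
# The space `𝔤𝔯𝔱₁`, the Ihara bracket, and dimensions in the quotient by `[L', L'']`
-/

namespace Pool.Agent.Helper392_GT

universe u

/-- The space of the solutions of the defining equations of `𝔤𝔯𝔱₁`. -/
noncomputable def grtSub (k : Type u) [CommRing k] : Submodule k (F2 k) where
  carrier := {ψ | IsGRT k ψ}
  zero_mem' := IsGRT.zero
  add_mem' := fun ha hb => IsGRT.add ha hb
  smul_mem' := fun c _ ha => IsGRT.smul c ha

/-- `D` is the derivation `D_σ` with `x ↦ 0`, `y ↦ [y, σ]`. -/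
def IsIharaDer {k : Type u} [CommRing k] (D : LieDerivation k (F2 k) (F2 k)) (σ : F2 k) : Prop :=
  D (FreeLieAlgebra.of k 0) = 0 ∧ D (FreeLieAlgebra.of k 1) = ⁅(FreeLieAlgebra.of k 1 : F2 k), σ⁆

/-- `V` is closed under the Ihara bracket `[σ, τ] + D_σ τ - D_τ σ`. -/
def IharaClosed {k : Type u} [CommRing k] (V : Submodule k (F2 k)) : Prop :=
  ∀ σ ∈ V, ∀ τ ∈ V, ∀ D E : LieDerivation k (F2 k) (F2 k), IsIharaDer D σ → IsIharaDer E τ →
    ⁅σ, τ⁆ + D τ - E σ ∈ V

/-- `V` contains, for each odd `n ≥ 3`, an element of weight `n` congruent to `ad(x)^(n-1) y`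
modulo depth two. -/
def HasSoule {k : Type u} [CommRing k] (V : Submodule k (F2 k)) : Prop :=
  ∀ n, Odd n → 3 ≤ n → ∃ σ ∈ V, σ ∈ wt k n ∧ DepthGE k 2
    (σ - ((LieAlgebra.ad k (F2 k) (FreeLieAlgebra.of k 0)) ^ (n - 1)) (FreeLieAlgebra.of k 1))

/-- The projection `L → L / [L', L'']`. -/
noncomputable def projN (k : Type u) [CommRing k] :
    F2 k →ₗ[k] (F2 k ⧸ (⁅LieAlgebra.derivedSeries k (F2 k) 1,
      LieAlgebra.derivedSeries k (F2 k) 2⁆ : LieIdeal k (F2 k)).toSubmodule) :=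
  Submodule.mkQ _

/-- The dimension of the image of the weight `n` part of `V` in `L / [L', L'']`. -/
noncomputable def dimN {k : Type u} [Field k] (V : Submodule k (F2 k)) (n : ℕ) : ℕ :=
  Module.finrank k ((V ⊓ wt k n).map (projN k))

end Pool.Agent.Helper392_GT
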