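import Pool.Agent.Helper392_GT.Bracket

namespace Pool.Agent.Helper392_GT

open Polynomial

universe u v

set_option linter.unusedSimpArgs false
set_option linter.unusedVariables false

attribute [local instance 100] LieRing.ofAssociativeRing

section fin

variable {k : Type u} [Field k]

theorem kappa_eq {σ : F2 k} {m : ℕ} (hσ : DepthGE k 2 (σ - vm k m)) :
    ⁅tB k, subst k (tA k) (tB k) σ⁆ = mkM 0 0 0 0 0 0 0 0 (py ^ m - px ^ m) := by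
  obtain ⟨s0, s1, s2, s3, s01, s13, s02, s23, _⟩ := sigma_entries hσ
  have hA := mkM_dia (0 : P2 k) (-px) 0 (-px - py) 0 0 0 0 0
  have hB := mkM_dia (0 : P2 k) 0 0 0 1 0 1 0 0
  have hS := dia_subst (k := k) hA hB σ
  apply dia_ext (hB.lie hS) (mkM_dia _ _ _ _ _ _ _ _ _)
  · rw [hB.lie00 hS]; simp
  · rw [hB.lie11 hS]; simp
  · rw [hB.lie22 hS]; simp
  · rw [hB.lie33 hS]; simp
  · rw [hB.lie01 hS, s0, s1]; simp
  · rw [hB.lie02 hS, s0, s2]; simp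
  · rw [hB.lie13 hS, s1, s3]; simp
  · rw [hB.lie23 hS, s2, s3]; simp
  · rw [Dia.lie03, s0, s3, s01, s13, s02, s23]; simp

theorem TT_bracket {σ τ : F2 k} {m n : ℕ} (hm : Even m) (hn : Even n)
    (hσ : DepthGE k 2 (σ - vm k m)) (hτ : DepthGE k 2 (τ - vm k n))
    (D E : LieDerivation k (F2 k) (F2 k)) (hDx : D (gx k) = 0) (hDy : D (gy k) = ⁅gy k, σ⁆)
    (hEx : E (gx k) = 0) (hEy : E (gy k) = ⁅gy k, τ⁆) :
    TT (⁅σ, τ⁆ + D τ - E σ) = alt (px ^ m * py ^ n) ∧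
      subst k (tA k) (tB k) (⁅σ, τ⁆ + D τ - E σ) 0 1 = 0 := by
  obtain ⟨s0, s1, s2, s3, s01, s13, s02, s23, sN⟩ := sigma_entries hσ
  obtain ⟨t0, t1, t2, t3, t01, t13, t02, t23, tN'⟩ := sigma_entries hτ
  have hA := mkM_dia (0 : P2 k) (-px) 0 (-px - py) 0 0 0 0 0
  have hB := mkM_dia (0 : P2 k) 0 0 0 1 0 1 0 0
  have hS := dia_subst (k := k) hA hB σ
  have hT := dia_subst (k := k) hA hB τ
  obtain ⟨α, υ, h1, _, h3⟩ := der_formula D hDx hDy _ (kappa_eq hσ) τ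
  obtain ⟨β, ω, g1, _, g3⟩ := der_formula E hEx hEy _ (kappa_eq hτ) σ
  have hυ : υ = (px + py) ^ n := by
    rw [← tN', h1]; rfl
  have hω : ω = (px + py) ^ m := by
    rw [← sN, g1]; rfl
  have hz : ∀ {r : ℕ}, Even r → (px + py : P2 k) ^ r = pz ^ r := by
    intro r hr
    have : (px + py : P2 k) = -pz := by rw [pz]; ring
    rw [this, hr.neg_pow]
  constructor
  · rw [TT, map_sub, map_add, Matrix.sub_apply, Matrix.add_apply, h3, g3, LieHom.map_lie,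
      Dia.lie03, s0, s3, s01, s13, s02, s23, t0, t3, t01, t13, t02, t23, hυ, hω, hz hm, hz hn]
    simp only [mkM_03, alt_apply, map_mul, map_pow, ev2_px, ev2_py]
    ring
  · rw [map_sub, map_add, Matrix.sub_apply, Matrix.add_apply, h3, g3, LieHom.map_lie,
      hS.lie01 hT, s0, s1, t0, t1]
    simp only [mkM_01]
    ring

theorem Pentagon.sub {ψ φ : F2 k} (h1 : Pentagon k ψ) (h2 : Pentagon k φ) :
    Pentagon k (ψ - φ) := by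
  unfold Pentagon at *
  simp only [map_sub]
  have e : ∀ a b c d e a' b' c' d' e' : T4 k, a + b = c + d + e → a' + b' = c' + d' + e' →
      a - a' + (b - b') = c - c' + (d - d') + (e - e') := by
    intro a b c d e a' b' c' d' e' h h'
    have : a - a' + (b - b') = (a + b) - (a' + b') := by abel
    rw [this, h, h']; abel
  exact e _ _ _ _ _ _ _ _ _ _ h1 h2

/-- Any Lie subalgebra of `𝔤𝔯𝔱₁` containing elements congruent to `ad(x)^(n-1) y` modulo depth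
two for all odd `n ≥ 3` has the same image as `𝔤𝔯𝔱₁` modulo `[L, [L, L'']]`. -/
theorem density2 [CharZero k] (𝔤 : Submodule k (F2 k)) (hgrt : ∀ φ ∈ 𝔤, IsGRT k φ)
    (hbr : ∀ σ ∈ 𝔤, ∀ τ ∈ 𝔤, ∀ D E : LieDerivation k (F2 k) (F2 k),
      D (gx k) = 0 → D (gy k) = ⁅gy k, σ⁆ → E (gx k) = 0 → E (gy k) = ⁅gy k, τ⁆ →
      ⁅σ, τ⁆ + D τ - E σ ∈ 𝔤)
    (hσ : ∀ n, Odd n → 3 ≤ n → ∃ σ ∈ 𝔤, DepthGE k 2 (σ - vm k (n - 1)))
    (ψ : F2 k) (hψ : IsGRT k ψ) : ∃ φ ∈ 𝔤, ψ - φ ∈ LieSubmodule.lcs 2 (D2 k) := by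
  obtain ⟨φ₁, hφ₁, hd₁⟩ := depth1_span hψ 𝔤 hσ
  have hp₁ := hψ.pent.sub (hgrt φ₁ hφ₁).pent
  have hT := TT_mem hp₁ hd₁
  have key : ∀ G ∈ Sp k, ∃ φ ∈ 𝔤, TT φ = G ∧ DepthGE k 2 φ := by
    intro G hG
    induction hG using Submodule.span_induction with
    | mem x hx =>
      obtain ⟨i, j, hi, hj, rfl⟩ := hx
      obtain ⟨σ, hσ1, hσ2⟩ := hσ (2 * i + 1) ⟨i, rfl⟩ (by omega)
      obtain ⟨τ, hτ1, hτ2⟩ := hσ (2 * j + 1) ⟨j, rfl⟩ (by omega)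
      rw [Nat.add_sub_cancel] at hσ2 hτ2
      obtain ⟨D, hDx, hDy⟩ := exists_der ⁅gy k, σ⁆
      obtain ⟨E, hEx, hEy⟩ := exists_der ⁅gy k, τ⁆
      have hmem := hbr σ hσ1 τ hτ1 D E hDx hDy hEx hEy
      obtain ⟨h1, h2⟩ := TT_bracket (even_two_mul i) (even_two_mul j) hσ2 hτ2 D E hDx hDy hEx hEy
      exact ⟨_, hmem, h1, depth_two_of_entry (hgrt _ hmem) h2⟩
    | zero => exact ⟨0, 𝔤.zero_mem, TT_zero, DepthGE.zero 2⟩
    | add a b _ _ ha hb =>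
      obtain ⟨φ, h1, h2, h3⟩ := ha
      obtain ⟨φ', g1, g2, g3⟩ := hb
      exact ⟨φ + φ', 𝔤.add_mem h1 g1, by rw [TT_add, h2, g2], h3.add g3⟩
    | smul r a _ ha =>
      obtain ⟨φ, h1, h2, h3⟩ := ha
      exact ⟨r • φ, 𝔤.smul_mem r h1, by rw [TT_smul, h2], h3.smul r⟩
  obtain ⟨φ₂, hφ₂, hT₂, hd₂⟩ := key _ hT
  refine ⟨φ₁ + φ₂, 𝔤.add_mem hφ₁ hφ₂, ?_⟩
  have e : ψ - (φ₁ + φ₂) = ψ - φ₁ - φ₂ := by abel
  rw [e]
  refine mem_lcs2_of_TT (hp₁.sub (hgrt φ₂ hφ₂).pent) (hd₁.sub hd₂) ?_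
  rw [TT_sub, hT₂, sub_self]

end fin

end Pool.Agent.Helper392_GT
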