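import Pool.Agent.Helper392_GT.Dim3

namespace Pool.Agent.Helper392_GT

universe u

attribute [local instance 100] LieRing.ofAssociativeRing

variable {k : Type u} [Field k] [CharZero k]

theorem density_all (𝔤 : Submodule k (F2 k)) (hgrt : ∀ φ ∈ 𝔤, IsGRT k φ)
    (hbr : ∀ σ ∈ 𝔤, ∀ τ ∈ 𝔤, ∀ D E : LieDerivation k (F2 k) (F2 k),
      D (gx k) = 0 → D (gy k) = ⁅gy k, σ⁆ → E (gx k) = 0 → E (gy k) = ⁅gy k, τ⁆ →
      ⁅σ, τ⁆ + D τ - E σ ∈ 𝔤)
    (hσ : ∀ n, Odd n → 3 ≤ n → ∃ σ ∈ 𝔤, σ ∈ wt k n ∧ DepthGE k 2 (σ - vm k (n - 1))) (n : ℕ) :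
    Module.Finite k (wt k n) ∧
    (n - 112).choose 3 ≤
      72 * Module.finrank k ((𝔤 ⊓ wt k n).map (DN k).toSubmodule.mkQ) ∧
    Module.finrank k ((𝔤 ⊓ wt k n).map (DN k).toSubmodule.mkQ) ≤
      Module.finrank k ((grtSub k ⊓ wt k n).map (DN k).toSubmodule.mkQ) ∧
    72 * Module.finrank k ((grtSub k ⊓ wt k n).map (DN k).toSubmodule.mkQ) ≤
      (n + 70).choose 3 := by
  refine ⟨inferInstance, density_lower 𝔤 hgrt hbr hσ n, ?_, density_upper 𝔤 hgrt hbr hσ n⟩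
  have hfin : Module.Finite k ((grtSub k ⊓ wt k n).map (DN k).toSubmodule.mkQ) := by
    have : Module.Finite k (grtSub k ⊓ wt k n : Submodule k (F2 k)) :=
      Submodule.finiteDimensional_of_le (S₂ := wt k n) inf_le_right
    exact Module.Finite.map _ _
  exact Submodule.finrank_mono (Submodule.map_mono (inf_le_inf_right _ hgrt))

end Pool.Agent.Helper392_GT
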