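import Pool.Agent.Helper392_GT.Main2

namespace Pool.Agent.Helper392_GT

open Polynomial

universe u v

set_option linter.unusedSimpArgs false
set_option linter.unusedVariables false

attribute [local instance 100] LieRing.ofAssociativeRing

section dep

variable {k : Type u} [CommRing k]

/-- the free associative algebra over `k[X]`, as a monoid algebra -/
abbrev SS (k : Type u) [CommRing k] : Type u := MonoidAlgebra k[X] (FreeMonoid (Fin 2))

/-- the letters -/
noncomputable def sA : SS k := MonoidAlgebra.single (FreeMonoid.of 0) 1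
noncomputable def sB : SS k := MonoidAlgebra.single (FreeMonoid.of 1) 1

theorem lift_single (w : FreeMonoid (Fin 2)) :
    FreeMonoid.lift ![(sA : SS k), sB] w = MonoidAlgebra.single w 1 := by
  induction w using FreeMonoid.recOn with
  | one => rw [map_one]; rfl
  | of_mul i w ih =>
    rw [map_mul, ih, FreeMonoid.lift_eval_of]
    fin_cases i
    · simp [sA, MonoidAlgebra.single_mul_single]
    · simp [sB, MonoidAlgebra.single_mul_single]

theorem subst_SS (ψ : F2 k) (w : FreeMonoid (Fin 2)) :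
    (subst k (sA : SS k) ((X : k[X]) • sB) ψ).coeff w =
      C (wordCoeff k ψ w) * X ^ (w.toList.count 1) := by
  classical
  rw [subst_eq_sum]
  have h : ∀ w' : FreeMonoid (Fin 2), ∀ c : k,
      (c • FreeMonoid.lift ![(sA : SS k), (X : k[X]) • sB] w').coeff w =
        if w' = w then C c * X ^ (w.toList.count 1) else 0 := by
    intro w' c
    rw [lift_word (K := k[X]), lift_single, MonoidAlgebra.coeff_smul_apply,
      MonoidAlgebra.coeff_smul_apply, MonoidAlgebra.coeff_single, Finsupp.single_apply]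
    split_ifs with h
    · subst h
      rw [smul_eq_mul, mul_one, ← smul_eq_C_mul]
    · simp
  rw [Finsupp.sum, MonoidAlgebra.coeff_sum, Finset.sum_apply']
  simp only [h]
  rw [Finset.sum_ite_eq']
  split_ifs with hw
  · rfl
  · rw [Finsupp.notMem_support_iff] at hw
    have : wordCoeff k ψ w = 0 := hw
    rw [this, C_0, zero_mul]

theorem depth_iff {d : ℕ} {ψ : F2 k} : DepthGE k d ψ ↔
    ∃ M : SS k, subst k (sA : SS k) ((X : k[X]) • sB) ψ = (X : k[X]) ^ d • M := by
  constructor
  · intro h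
    exact depth_dvd (K := k[X]) h sA sB X
  · rintro ⟨M, hM⟩ w hw
    have h1 := subst_SS ψ w
    rw [hM, MonoidAlgebra.coeff_smul_apply, smul_eq_mul] at h1
    have h2 := congrArg (fun p => coeff p (w.toList.count 1)) h1
    simp only [coeff_X_pow_mul', if_neg (not_le.mpr hw), coeff_C_mul, coeff_X_pow_self,
      mul_one] at h2
    exact h2.symm

theorem DepthGE.lie {d e : ℕ} {a b : F2 k} (ha : DepthGE k d a) (hb : DepthGE k e b) :
    DepthGE k (d + e) ⁅a, b⁆ := by
  rw [depth_iff] at *
  obtain ⟨M, hM⟩ := ha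
  obtain ⟨N, hN⟩ := hb
  refine ⟨⁅M, N⁆, ?_⟩
  rw [LieHom.map_lie, hM, hN, Ring.lie_def, Ring.lie_def, smul_mul_smul_comm, smul_mul_smul_comm,
    mul_comm (X ^ e : k[X]), ← smul_sub, pow_add]

theorem DepthGE.zero (d : ℕ) : DepthGE k d 0 := by
  rw [depth_iff]; exact ⟨0, by simp⟩

theorem DepthGE.add {d : ℕ} {a b : F2 k} (ha : DepthGE k d a) (hb : DepthGE k d b) :
    DepthGE k d (a + b) := by
  rw [depth_iff] at *
  obtain ⟨M, hM⟩ := ha
  obtain ⟨N, hN⟩ := hb
  exact ⟨M + N, by rw [map_add, hM, hN, smul_add]⟩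

theorem DepthGE.smul {d : ℕ} {a : F2 k} (c : k) (ha : DepthGE k d a) : DepthGE k d (c • a) := by
  rw [depth_iff] at *
  obtain ⟨M, hM⟩ := ha
  exact ⟨c • M, by rw [map_smul, hM, smul_comm]⟩

theorem DepthGE.neg {d : ℕ} {a : F2 k} (ha : DepthGE k d a) : DepthGE k d (-a) := by
  simpa using ha.smul (-1)

theorem DepthGE.sub {d : ℕ} {a b : F2 k} (ha : DepthGE k d a) (hb : DepthGE k d b) :
    DepthGE k d (a - b) := by
  rw [sub_eq_add_neg]; exact ha.add hb.neg

theorem depth_all (a : F2 k) : DepthGE k 0 a := fun w hw => absurd hw (Nat.not_lt_zero _)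

theorem depth_y : DepthGE k 1 (gy k) := by
  rw [depth_iff]; exact ⟨sB, by rw [subst_y, pow_one]⟩

/-- the submodule of elements of depth `≥ d` -/
def dep (k : Type u) [CommRing k] (d : ℕ) : Submodule k (F2 k) where
  carrier := {a | DepthGE k d a}
  zero_mem' := DepthGE.zero d
  add_mem' := fun ha hb => DepthGE.add ha hb
  smul_mem' := fun c _ ha => DepthGE.smul c ha

theorem mem_dep {d : ℕ} {a : F2 k} : a ∈ dep k d ↔ DepthGE k d a := Iff.rfl

theorem depth_D1 {a : F2 k} (ha : a ∈ D1 k) : DepthGE k 1 a := by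
  -- modulo depth one, everything is a multiple of `x`
  have key : ∀ a : F2 k, ∃ c : k, DepthGE k 1 (a - c • gx k) := by
    intro a
    refine free_ind (fun a => ∃ c : k, DepthGE k 1 (a - c • gx k)) ?_ ?_ ?_ ?_ ?_ ?_ a
    · exact ⟨0, by simpa using DepthGE.zero 1⟩
    · rintro a b ⟨c, hc⟩ ⟨d, hd⟩
      refine ⟨c + d, ?_⟩
      have : a + b - (c + d) • gx k = (a - c • gx k) + (b - d • gx k) := by
        rw [add_smul]; abel
      rw [this]; exact hc.add hd
    · rintro r a ⟨c, hc⟩
      refine ⟨r * c, ?_⟩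
      have : r • a - (r * c) • gx k = r • (a - c • gx k) := by
        rw [smul_sub, smul_smul]
      rw [this]; exact hc.smul r
    · rintro a b ⟨c, hc⟩ ⟨d, hd⟩
      refine ⟨0, ?_⟩
      have : ⁅a, b⁆ - (0 : k) • gx k = ⁅a - c • gx k, b⁆ + ⁅c • gx k, b - d • gx k⁆ := by
        simp only [sub_lie, lie_sub, smul_lie, lie_smul, lie_self, smul_zero, zero_smul]
        abel
      rw [this]
      refine DepthGE.add ?_ ?_
      · simpa using hc.lie (depth_all b)
      · simpa using (depth_all (c • gx k)).lie hd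
    · exact ⟨1, by simpa using DepthGE.zero 1⟩
    · exact ⟨0, by simpa using depth_y⟩
  refine lie_ind ⊤ ⊤ (fun a => DepthGE k 1 a) (DepthGE.zero 1) (fun a b => DepthGE.add)
    (fun c a => DepthGE.smul c) ?_ ha
  intro a _ b _
  obtain ⟨c, hc⟩ := key a
  obtain ⟨d, hd⟩ := key b
  have : ⁅a, b⁆ = ⁅a - c • gx k, b⁆ + ⁅c • gx k, b - d • gx k⁆ := by
    simp only [sub_lie, lie_sub, smul_lie, lie_smul, lie_self, smul_zero]
    abel
  rw [this]
  refine DepthGE.add ?_ ?_
  · simpa using hc.lie (depth_all b)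
  · simpa using (depth_all (c • gx k)).lie hd

theorem depth_D2 {a : F2 k} (ha : a ∈ D2 k) : DepthGE k 2 a := by
  refine lie_ind (D1 k) (D1 k) (fun a => DepthGE k 2 a) (DepthGE.zero 2) (fun a b => DepthGE.add)
    (fun c a => DepthGE.smul c) ?_ ha
  intro a ha b hb
  exact (depth_D1 ha).lie (depth_D1 hb)

theorem depth_gc : DepthGE k 1 (gc k) := by
  simpa using (depth_all (gx k)).lie (depth_y (k := k))

theorem depth_gam1 (f : k[X]) : DepthGE k 1 (gam1 k f) := by
  refine poly_ind (fun f => DepthGE k 1 (gam1 k f)) ?_ ?_ ?_ f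
  · intro p q hp hq
    rw [map_add]; exact hp.add hq
  · intro a
    rw [gam1_C]; exact depth_gc.smul a
  · intro p hp
    rw [gam1_X_mul]
    simpa using (depth_all (gx k)).lie hp

end dep

end Pool.Agent.Helper392_GT
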