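import Pool.Agent.Helper392_GT.Reps

namespace Pool.Agent.Helper392_GT

open Polynomial

universe u v

set_option linter.unusedSimpArgs false
set_option linter.unusedVariables false

attribute [local instance 100] LieRing.ofAssociativeRing

section depth

variable {k : Type u} [CommRing k] {K : Type u} [CommRing K] [Algebra k K]

theorem subst_eq_lift {S : Type*} [Ring S] [Algebra k S] (A B : S) (ψ : F2 k) :
    subst k A B ψ = FreeAlgebra.lift k ![A, B] (toAssoc k ψ) := by
  have h : subst k A B =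
      ((FreeAlgebra.lift k ![A, B] : FreeAlgebra k (Fin 2) →ₐ[k] S) :
        FreeAlgebra k (Fin 2) →ₗ⁅k⁆ S).comp (toAssoc k) := by
    ext i
    fin_cases i <;> simp [subst, toAssoc]
  exact congrArg (fun f : F2 k →ₗ⁅k⁆ S => f ψ) h

theorem subst_eq_sum {S : Type*} [Ring S] [Algebra k S] (A B : S) (ψ : F2 k) :
    subst k A B ψ = (FreeAlgebra.equivMonoidAlgebraFreeMonoid (toAssoc k ψ)).coeff.sum
      (fun w c => c • FreeMonoid.lift ![A, B] w) := by
  rw [subst_eq_lift]
  set p := FreeAlgebra.equivMonoidAlgebraFreeMonoid (toAssoc k ψ) with hp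
  have h1 : toAssoc k ψ = FreeAlgebra.equivMonoidAlgebraFreeMonoid.symm p := by
    rw [hp, AlgEquiv.symm_apply_apply]
  rw [h1]
  have h2 : ((FreeAlgebra.lift k ![A, B]).comp
      (FreeAlgebra.equivMonoidAlgebraFreeMonoid (R := k) (X := Fin 2)).symm.toAlgHom) =
      MonoidAlgebra.lift k S (FreeMonoid (Fin 2)) (FreeMonoid.lift ![A, B]) := by
    apply MonoidAlgebra.algHom_ext'
    · apply FreeMonoid.hom_eq
      intro i
      simp [FreeAlgebra.equivMonoidAlgebraFreeMonoid]
    · ext
  have h3 := congrArg (fun f : MonoidAlgebra k (FreeMonoid (Fin 2)) →ₐ[k] S => f p) h2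
  have h4 : (FreeAlgebra.lift k ![A, B]) (FreeAlgebra.equivMonoidAlgebraFreeMonoid.symm p) =
    MonoidAlgebra.lift k S (FreeMonoid (Fin 2)) (FreeMonoid.lift ![A, B]) p := h3
  rw [h4, MonoidAlgebra.lift_apply]

theorem lift_word {S : Type*} [Ring S] [Algebra K S] (A B : S) (s : K)
    (w : FreeMonoid (Fin 2)) :
    FreeMonoid.lift ![A, s • B] w = s ^ (w.toList.count 1) • FreeMonoid.lift ![A, B] w := by
  induction w using FreeMonoid.recOn with
  | one => simp
  | of_mul i w ih =>
    have e1 : ∀ f : Fin 2 → S, FreeMonoid.lift f (FreeMonoid.of i * w) =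
        f i * FreeMonoid.lift f w := fun f => by rw [MonoidHom.map_mul, FreeMonoid.lift_eval_of]
    rw [e1, e1, ih, FreeMonoid.toList_of_mul]
    fin_cases i
    · simp
    · have e2 : List.count 1 ((1 : Fin 2) :: FreeMonoid.toList w) =
          List.count 1 (FreeMonoid.toList w) + 1 := by simp
      change (s • B) * (s ^ List.count 1 (FreeMonoid.toList w) • FreeMonoid.lift ![A, B] w) =
        s ^ List.count 1 ((1 : Fin 2) :: FreeMonoid.toList w) • (B * FreeMonoid.lift ![A, B] w)
      rw [e2, pow_succ', mul_smul, smul_mul_assoc, mul_smul_comm]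

theorem depth_dvd {d : ℕ} {ψ : F2 k} (h : DepthGE k d ψ) {S : Type*} [Ring S] [Algebra k S]
    [Algebra K S] [IsScalarTower k K S] (A B : S) (s : K) :
    ∃ M : S, subst k A (s • B) ψ = s ^ d • M := by
  classical
  rw [subst_eq_sum]
  refine ⟨(FreeAlgebra.equivMonoidAlgebraFreeMonoid (toAssoc k ψ)).coeff.sum
      (fun w c => c • s ^ (w.toList.count 1 - d) • FreeMonoid.lift ![A, B] w), ?_⟩
  rw [Finsupp.smul_sum]
  apply Finsupp.sum_congr
  intro w hw
  have hd : d ≤ w.toList.count 1 := by
    by_contra hlt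
    have := h w (not_le.mp hlt)
    rw [wordCoeff] at this
    exact (Finsupp.mem_support_iff.mp hw) this
  rw [lift_word, smul_comm (s ^ d), smul_smul, ← pow_add, Nat.add_sub_cancel' hd]

end depth

end Pool.Agent.Helper392_GT
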