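import Pool.Agent.Helper392_GT.FLevel

namespace Pool.Agent.Helper392_GT

open Polynomial

universe u v

set_option linter.unusedSimpArgs false
set_option linter.unusedVariables false

attribute [local instance 100] LieRing.ofAssociativeRing

section d1

variable {k : Type u} [Field k]

theorem subst_00 {ψ : F2 k} {c d : k} (hcd : ψ - c • gx k - d • gy k ∈ D1 k) (a b : k) :
    subst k (mkM a 0 0 0 0 0 0 0 0) (mkM b 0 0 0 0 0 0 0 0) ψ 0 0 = c * a + d * b := by
  have e : ψ = (ψ - c • gx k - d • gy k) + c • gx k + d • gy k := by abel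
  have z := zd_D1 (k := k) (mkM_dia a 0 0 0 0 0 0 0 0) (mkM_dia b 0 0 0 0 0 0 0 0) hcd
  rw [e, map_add, map_add, map_smul, map_smul, subst_x, subst_y, Matrix.add_apply,
    Matrix.add_apply, z.1, zero_add, Matrix.smul_apply, Matrix.smul_apply, mkM_00, mkM_00,
    smul_eq_mul, smul_eq_mul]

theorem pentagon_mem_D1 {ψ : F2 k} (hp : Pentagon k ψ) : ψ ∈ D1 k := by
  obtain ⟨c, d, hcd⟩ := lin_decomp ψ
  have hc : ∀ a b : k, ⁅mkM a 0 0 0 0 0 0 0 0, mkM b 0 0 0 0 0 0 0 0⁆ = 0 := by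
    intro a b
    rw [mkM_lie]; apply mkM_eq_zero <;> ring
  have key : ∀ s : Fin 4 → Fin 4 → k, (∀ i, s i i = 0) → (∀ i j, s i j = s j i) →
      c * s 0 1 + d * (s 1 2 + s 1 3) + (c * (s 0 2 + s 1 2) + d * s 2 3) =
        (c * s 1 2 + d * s 2 3) + (c * (s 0 1 + s 0 2) + d * (s 1 3 + s 2 3))
          + (c * s 0 1 + d * s 1 2) := by
    intro s h1 h2
    have hadd : ∀ a b : k, mkM a 0 0 0 0 0 0 0 0 + mkM b 0 0 0 0 0 0 0 0 =
        mkM (a + b) 0 0 0 0 0 0 0 0 := by
      intro a b; rw [mkM_add]; simp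
    have h := pentagon_apply hp (fun i j => mkM (s i j) 0 0 0 0 0 0 0 0)
      (fun i => by rw [h1 i]; exact mkM_zero) (fun i j => by rw [h2 i j])
      (fun i j l m _ _ _ _ _ _ => hc _ _) (fun i j l _ _ _ => by rw [hadd]; exact hc _ _)
    have h' := congrFun (congrFun h 0) 0
    simp only [hadd, Matrix.add_apply, subst_00 hcd] at h'
    exact h'
  have c0' : c = 0 := by
    have := key (fun i j => if (i = 0 ∧ j = 1) ∨ (i = 1 ∧ j = 0) then 1 else 0)
      (by intro i; fin_cases i <;> simp) (by intro i j; fin_cases i <;> fin_cases j <;> simp)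
    simp at this
    exact this
  have d0 : d = 0 := by
    have := key (fun i j => if (i = 2 ∧ j = 3) ∨ (i = 3 ∧ j = 2) then 1 else 0)
      (by intro i; fin_cases i <;> simp) (by intro i j; fin_cases i <;> fin_cases j <;> simp)
    simp at this
    exact this
  rw [c0', d0] at hcd
  simpa using hcd

theorem gam_depth (F : k[X][X]) : DepthGE k 2 (gam k F - gam1 k (F.coeff 0)) := by
  have hall : ∀ F : k[X][X], DepthGE k 1 (gam k F) := by
    intro F
    refine poly_ind (fun F => DepthGE k 1 (gam k F)) ?_ ?_ ?_ F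
    · intro p q hp hq
      rw [map_add]; exact hp.add hq
    · intro a
      rw [gam_C]; exact depth_gam1 a
    · intro p hp
      rw [gam_X_mul]
      exact (depth_y.lie hp).mono (by omega)
  refine poly_ind (fun F => DepthGE k 2 (gam k F - gam1 k (F.coeff 0))) ?_ ?_ ?_ F
  · intro p q hp hq
    have : gam k (p + q) - gam1 k ((p + q).coeff 0) =
        (gam k p - gam1 k (p.coeff 0)) + (gam k q - gam1 k (q.coeff 0)) := by
      rw [map_add, coeff_add, map_add]; abel
    rw [this]; exact hp.add hq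
  · intro a
    rw [gam_C, coeff_C_zero, sub_self]; exact DepthGE.zero 2
  · intro p hp
    rw [gam_X_mul, coeff_X_mul_zero, map_zero, sub_zero]
    exact depth_y.lie (hall p)

theorem depth1_reduce [CharZero k] {ψ : F2 k} (hg : IsGRT k ψ) :
    ∃ c : k[X], (∀ i, Even i → c.coeff i = 0) ∧ DepthGE k 2 (ψ - gam1 k c) := by
  have hψ := pentagon_mem_D1 hg.pent
  obtain ⟨f, hf⟩ := exists_gam hψ
  refine ⟨c0 f, fun i hi => c0_even hg hψ hf i hi, ?_⟩
  have h1 := depth_D2 hf
  have h2 : DepthGE k 2 (gm k f - gam1 k (c0 f)) := gam_depth ((sl (k := k)).symm f)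
  have : ψ - gam1 k (c0 f) = (ψ - gm k f) + (gm k f - gam1 k (c0 f)) := by abel
  rw [this]
  exact h1.add h2

theorem gam1_eq (c : k[X]) : gam1 k c = c.sum fun i a =>
    a • ((LieAlgebra.ad k (F2 k) (gx k)) ^ (i + 1)) (gy k) := by
  rw [gam1, pext_apply]
  refine Finset.sum_congr rfl fun i _ => ?_
  change ((LieAlgebra.ad k (F2 k) (gx k)) ^ i) (LinearMap.toSpanSingleton k (F2 k) (gc k) (c.coeff i))
    = c.coeff i • ((LieAlgebra.ad k (F2 k) (gx k)) ^ (i + 1)) (gy k)
  rw [pow_succ, LinearMap.toSpanSingleton_apply, map_smul]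
  rfl

theorem depth1_span [CharZero k] {ψ : F2 k} (hg : IsGRT k ψ) (𝔤 : Submodule k (F2 k))
    (hσ : ∀ n, Odd n → 3 ≤ n → ∃ σ ∈ 𝔤,
      DepthGE k 2 (σ - ((LieAlgebra.ad k (F2 k) (gx k)) ^ (n - 1)) (gy k))) :
    ∃ φ ∈ 𝔤, DepthGE k 2 (ψ - φ) := by
  obtain ⟨c, hc, hd⟩ := depth1_reduce hg
  have h1 : ∃ φ ∈ 𝔤, DepthGE k 2 (gam1 k c - φ) := by
    rw [gam1_eq, Polynomial.sum]
    have : ∀ s : Finset ℕ, ∃ φ ∈ 𝔤, DepthGE k 2 ((∑ i ∈ s, c.coeff i •
        ((LieAlgebra.ad k (F2 k) (gx k)) ^ (i + 1)) (gy k)) - φ) := by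
      intro s
      induction s using Finset.induction_on with
      | empty => exact ⟨0, 𝔤.zero_mem, by simpa using DepthGE.zero 2⟩
      | insert i s hi ih =>
        obtain ⟨φ, hφ, hd'⟩ := ih
        rcases Nat.even_or_odd i with he | ho
        · refine ⟨φ, hφ, ?_⟩
          rw [Finset.sum_insert hi, hc i he, zero_smul, zero_add]
          exact hd'
        · obtain ⟨σ, hσ1, hσ2⟩ := hσ (i + 2) (by
            obtain ⟨r, hr⟩ := ho
            exact ⟨r + 1, by omega⟩) (by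
            obtain ⟨r, hr⟩ := ho
            omega)
          refine ⟨c.coeff i • σ + φ, 𝔤.add_mem (𝔤.smul_mem _ hσ1) hφ, ?_⟩
          rw [Finset.sum_insert hi]
          have e : i + 2 - 1 = i + 1 := by omega
          rw [e] at hσ2
          have : c.coeff i • ((LieAlgebra.ad k (F2 k) (gx k)) ^ (i + 1)) (gy k)
              + (∑ j ∈ s, c.coeff j • ((LieAlgebra.ad k (F2 k) (gx k)) ^ (j + 1)) (gy k))
              - (c.coeff i • σ + φ) =
              ((∑ j ∈ s, c.coeff j • ((LieAlgebra.ad k (F2 k) (gx k)) ^ (j + 1)) (gy k)) - φ)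
              - c.coeff i • (σ - ((LieAlgebra.ad k (F2 k) (gx k)) ^ (i + 1)) (gy k)) := by
            rw [smul_sub]; abel
          rw [this]
          exact hd'.sub (hσ2.smul _)
    exact this _
  obtain ⟨φ, hφ, h2⟩ := h1
  refine ⟨φ, hφ, ?_⟩
  have : ψ - φ = (ψ - gam1 k c) + (gam1 k c - φ) := by abel
  rw [this]
  exact hd.add h2

end d1

end Pool.Agent.Helper392_GT
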