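import Pool.Agent.Helper392_GT.Eval

namespace Pool.Agent.Helper392_GT

open Polynomial

universe u v

attribute [local instance 100] LieRing.ofAssociativeRing

section dia

variable {K : Type v} [CommRing K]

/-- diamond-shaped upper triangular `4 × 4` matrices -/
structure Dia (M : Matrix (Fin 4) (Fin 4) K) : Prop where
  h10 : M 1 0 = 0
  h20 : M 2 0 = 0
  h30 : M 3 0 = 0
  h21 : M 2 1 = 0
  h12 : M 1 2 = 0
  h31 : M 3 1 = 0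
  h32 : M 3 2 = 0

theorem lie_apply (A B : Matrix (Fin 4) (Fin 4) K) (i j : Fin 4) :
    ⁅A, B⁆ i j = (A i 0 * B 0 j + A i 1 * B 1 j + A i 2 * B 2 j + A i 3 * B 3 j)
      - (B i 0 * A 0 j + B i 1 * A 1 j + B i 2 * A 2 j + B i 3 * A 3 j) := by
  rw [Ring.lie_def, Matrix.sub_apply, Matrix.mul_apply, Matrix.mul_apply, Fin.sum_univ_four,
    Fin.sum_univ_four]

variable {A B : Matrix (Fin 4) (Fin 4) K}

theorem Dia.lie00 (hA : Dia A) (hB : Dia B) : ⁅A, B⁆ 0 0 = 0 := by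
  rw [lie_apply, hA.h10, hB.h10, hA.h20, hB.h20, hA.h30, hB.h30]; ring
theorem Dia.lie11 (hA : Dia A) (hB : Dia B) : ⁅A, B⁆ 1 1 = 0 := by
  rw [lie_apply, hA.h10, hB.h10, hA.h21, hB.h21, hA.h31, hB.h31]; ring
theorem Dia.lie22 (hA : Dia A) (hB : Dia B) : ⁅A, B⁆ 2 2 = 0 := by
  rw [lie_apply, hA.h20, hB.h20, hA.h21, hB.h21, hA.h32, hB.h32]; ring
theorem Dia.lie33 (hA : Dia A) (hB : Dia B) : ⁅A, B⁆ 3 3 = 0 := by
  rw [lie_apply, hA.h30, hB.h30, hA.h31, hB.h31, hA.h32, hB.h32]; ring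
theorem Dia.lie01 (hA : Dia A) (hB : Dia B) :
    ⁅A, B⁆ 0 1 = (A 0 0 - A 1 1) * B 0 1 - (B 0 0 - B 1 1) * A 0 1 := by
  rw [lie_apply, hA.h21, hB.h21, hA.h31, hB.h31]; ring
theorem Dia.lie02 (hA : Dia A) (hB : Dia B) :
    ⁅A, B⁆ 0 2 = (A 0 0 - A 2 2) * B 0 2 - (B 0 0 - B 2 2) * A 0 2 := by
  rw [lie_apply, hA.h12, hB.h12, hA.h32, hB.h32]; ring
theorem Dia.lie13 (hA : Dia A) (hB : Dia B) :
    ⁅A, B⁆ 1 3 = (A 1 1 - A 3 3) * B 1 3 - (B 1 1 - B 3 3) * A 1 3 := by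
  rw [lie_apply, hA.h10, hB.h10, hA.h12, hB.h12]; ring
theorem Dia.lie23 (hA : Dia A) (hB : Dia B) :
    ⁅A, B⁆ 2 3 = (A 2 2 - A 3 3) * B 2 3 - (B 2 2 - B 3 3) * A 2 3 := by
  rw [lie_apply, hA.h20, hB.h20, hA.h21, hB.h21]; ring
theorem Dia.lie03 :
    ⁅A, B⁆ 0 3 = (A 0 0 - A 3 3) * B 0 3 - (B 0 0 - B 3 3) * A 0 3
      + (A 0 1 * B 1 3 - B 0 1 * A 1 3) + (A 0 2 * B 2 3 - B 0 2 * A 2 3) := by
  rw [lie_apply]; ring

theorem Dia.lie (hA : Dia A) (hB : Dia B) : Dia ⁅A, B⁆ where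
  h10 := by rw [lie_apply, hA.h10, hB.h10, hA.h20, hB.h20, hA.h30, hB.h30, hA.h12, hB.h12]; ring
  h20 := by rw [lie_apply, hA.h10, hB.h10, hA.h20, hB.h20, hA.h30, hB.h30, hA.h21, hB.h21]; ring
  h30 := by rw [lie_apply, hA.h10, hB.h10, hA.h20, hB.h20, hA.h30, hB.h30]; ring
  h21 := by rw [lie_apply, hA.h20, hB.h20, hA.h21, hB.h21, hA.h31, hB.h31]; ring
  h12 := by rw [lie_apply, hA.h10, hB.h10, hA.h12, hB.h12, hA.h32, hB.h32]; ring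
  h31 := by rw [lie_apply, hA.h30, hB.h30, hA.h31, hB.h31, hA.h32, hB.h32, hA.h21, hB.h21]; ring
  h32 := by rw [lie_apply, hA.h30, hB.h30, hA.h31, hB.h31, hA.h32, hB.h32, hA.h12, hB.h12]; ring

theorem Dia.zero : Dia (0 : Matrix (Fin 4) (Fin 4) K) :=
  ⟨rfl, rfl, rfl, rfl, rfl, rfl, rfl⟩

theorem Dia.add (hA : Dia A) (hB : Dia B) : Dia (A + B) := by
  constructor <;> simp [hA.h10, hB.h10, hA.h20, hB.h20, hA.h30, hB.h30, hA.h21, hB.h21, hA.h12,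
    hB.h12, hA.h31, hB.h31, hA.h32, hB.h32]

theorem Dia.smul {k : Type u} [CommRing k] [Algebra k K] (c : k) (hA : Dia A) : Dia (c • A) := by
  constructor <;> simp [hA.h10, hA.h20, hA.h30, hA.h21, hA.h12, hA.h31, hA.h32]

end dia

section rho

variable {k : Type u} [CommRing k] {K : Type v} [CommRing K] [Algebra k K]
  {A B : Matrix (Fin 4) (Fin 4) K}

theorem subst_x {g : Type*} [LieRing g] [LieAlgebra k g] (a b : g) :
    subst k a b (gx k) = a := by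
  simp [subst]

theorem subst_y {g : Type*} [LieRing g] [LieAlgebra k g] (a b : g) :
    subst k a b (gy k) = b := by
  simp [subst]

theorem dia_subst (hA : Dia A) (hB : Dia B) (u : F2 k) : Dia (subst k A B u) := by
  refine free_ind (fun u => Dia (subst k A B u)) ?_ ?_ ?_ ?_ ?_ ?_ u
  · rw [map_zero]; exact Dia.zero
  · intro a b ha hb
    rw [map_add]; exact ha.add hb
  · intro c a ha
    rw [map_smul]; exact ha.smul c
  · intro a b ha hb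
    rw [LieHom.map_lie]; exact ha.lie hb
  · rw [subst_x]; exact hA
  · rw [subst_y]; exact hB

/-- zero diagonal -/
def ZD (M : Matrix (Fin 4) (Fin 4) K) : Prop :=
  M 0 0 = 0 ∧ M 1 1 = 0 ∧ M 2 2 = 0 ∧ M 3 3 = 0

theorem zd_D1 (hA : Dia A) (hB : Dia B) {u : F2 k} (hu : u ∈ D1 k) : ZD (subst k A B u) := by
  refine lie_ind ⊤ ⊤ (fun u => ZD (subst k A B u)) ?_ ?_ ?_ ?_ hu
  · simp [ZD]
  · rintro a b ⟨h0, h1, h2, h3⟩ ⟨g0, g1, g2, g3⟩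
    simp [ZD, h0, h1, h2, h3, g0, g1, g2, g3]
  · rintro c a ⟨h0, h1, h2, h3⟩
    simp [ZD, h0, h1, h2, h3]
  · intro a _ b _
    rw [LieHom.map_lie]
    have ha := dia_subst (k := k) hA hB a
    have hb := dia_subst (k := k) hA hB b
    exact ⟨ha.lie00 hb, ha.lie11 hb, ha.lie22 hb, ha.lie33 hb⟩

/-- zero first-step entries -/
def ZO (M : Matrix (Fin 4) (Fin 4) K) : Prop :=
  M 0 1 = 0 ∧ M 0 2 = 0 ∧ M 1 3 = 0 ∧ M 2 3 = 0

theorem zo_D2 (hA : Dia A) (hB : Dia B) {u : F2 k} (hu : u ∈ D2 k) : ZO (subst k A B u) := by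
  refine lie_ind (D1 k) (D1 k) (fun u => ZO (subst k A B u)) ?_ ?_ ?_ ?_ hu
  · simp [ZO]
  · rintro a b ⟨h0, h1, h2, h3⟩ ⟨g0, g1, g2, g3⟩
    simp [ZO, h0, h1, h2, h3, g0, g1, g2, g3]
  · rintro c a ⟨h0, h1, h2, h3⟩
    simp [ZO, h0, h1, h2, h3]
  · intro a ha b hb
    rw [LieHom.map_lie]
    have h1 := dia_subst (k := k) hA hB a
    have h2 := dia_subst (k := k) hA hB b
    obtain ⟨p0, p1, p2, p3⟩ := zd_D1 (k := k) hA hB ha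
    obtain ⟨q0, q1, q2, q3⟩ := zd_D1 (k := k) hA hB hb
    refine ⟨?_, ?_, ?_, ?_⟩
    · rw [h1.lie01 h2, p0, p1, q0, q1]; ring
    · rw [h1.lie02 h2, p0, p2, q0, q2]; ring
    · rw [h1.lie13 h2, p1, p3, q1, q3]; ring
    · rw [h1.lie23 h2, p2, p3, q2, q3]; ring

/-- entries of `f·[x,y]` -/
theorem gm_entries (hA : Dia A) (hB : Dia B) (f : P2 k) :
    subst k A B (gm k f) 0 1 = ev2 (A 0 0 - A 1 1) (B 0 0 - B 1 1) f * ⁅A, B⁆ 0 1 ∧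
    subst k A B (gm k f) 0 2 = ev2 (A 0 0 - A 2 2) (B 0 0 - B 2 2) f * ⁅A, B⁆ 0 2 ∧
    subst k A B (gm k f) 1 3 = ev2 (A 1 1 - A 3 3) (B 1 1 - B 3 3) f * ⁅A, B⁆ 1 3 ∧
    subst k A B (gm k f) 2 3 = ev2 (A 2 2 - A 3 3) (B 2 2 - B 3 3) f * ⁅A, B⁆ 2 3 := by
  have hc : subst k A B (gc k) = ⁅A, B⁆ := by
    rw [LieHom.map_lie, subst_x, subst_y]
  refine P2_ind (fun f => 
    subst k A B (gm k f) 0 1 = ev2 (A 0 0 - A 1 1) (B 0 0 - B 1 1) f * ⁅A, B⁆ 0 1 ∧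
    subst k A B (gm k f) 0 2 = ev2 (A 0 0 - A 2 2) (B 0 0 - B 2 2) f * ⁅A, B⁆ 0 2 ∧
    subst k A B (gm k f) 1 3 = ev2 (A 1 1 - A 3 3) (B 1 1 - B 3 3) f * ⁅A, B⁆ 1 3 ∧
    subst k A B (gm k f) 2 3 = ev2 (A 2 2 - A 3 3) (B 2 2 - B 3 3) f * ⁅A, B⁆ 2 3) ?_ ?_ ?_ ?_ f
  · rintro p q ⟨h0, h1, h2, h3⟩ ⟨g0, g1, g2, g3⟩
    simp only [map_add, Matrix.add_apply, h0, h1, h2, h3, g0, g1, g2, g3, add_mul, and_self]
  · intro a
    simp only [gm_algebraMap, map_smul, hc, Matrix.smul_apply, AlgHom.commutes, Algebra.smul_def,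
      and_self]
  · intro p ⟨h0, h1, h2, h3⟩
    have hd : subst k A B (gm k (px * p)) = 
        subst k A B (gm k (px * p) - ⁅gx k, gm k p⁆) + ⁅A, subst k A B (gm k p)⁆ := by
      rw [map_sub, LieHom.map_lie, subst_x]; abel
    obtain ⟨o0, o1, o2, o3⟩ := zo_D2 (k := k) hA hB (gm_px_mul p)
    have hU := dia_subst (k := k) hA hB (gm k p)
    obtain ⟨p0, p1, p2, p3⟩ := zd_D1 (k := k) hA hB (gm_mem p)
    rw [hd]
    simp only [Matrix.add_apply, o0, o1, o2, o3, zero_add]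
    rw [hA.lie01 hU, hA.lie02 hU, hA.lie13 hU, hA.lie23 hU, p0, p1, p2, p3, h0, h1, h2, h3]
    simp only [map_mul, ev2_px]
    refine ⟨?_, ?_, ?_, ?_⟩ <;> ring
  · intro p ⟨h0, h1, h2, h3⟩
    have hU := dia_subst (k := k) hA hB (gm k p)
    obtain ⟨p0, p1, p2, p3⟩ := zd_D1 (k := k) hA hB (gm_mem p)
    rw [gm_py_mul, LieHom.map_lie, subst_y, hB.lie01 hU, hB.lie02 hU, hB.lie13 hU, hB.lie23 hU,
      p0, p1, p2, p3, h0, h1, h2, h3]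
    simp only [map_mul, ev2_py]
    refine ⟨?_, ?_, ?_, ?_⟩ <;> ring

end rho

end Pool.Agent.Helper392_GT
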