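import Pool.Agent.Helper392_GT.Cond2

namespace Pool.Agent.Helper392_GT

universe u v

set_option linter.unusedSectionVars false
set_option linter.unusedSimpArgs false
set_option linter.unusedVariables false

open MvPolynomial

attribute [local instance 100] LieRing.ofAssociativeRing

section grp

/-- the group of order 72, as a set -/
abbrev WI := Equiv.Perm (Fin 3) × Equiv.Perm (Fin 3) × Bool

/-- permuted arrays -/
def Nw {R : Type*} (w : WI) (N : Matrix (Fin 3) (Fin 3) R) : Matrix (Fin 3) (Fin 3) R :=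
  if w.2.2 then (N.submatrix w.1 w.2.1).transpose else N.submatrix w.1 w.2.1

/-- an array -/
def Zm : Matrix (Fin 3) (Fin 3) ℤ := !![5, 5, -10; 2, 3, -5; -7, -8, 15]

def thZ (w : WI) : ℤ := 2 * Nw w Zm 0 0 + 2 * Nw w Zm 0 1 + Nw w Zm 1 0
def etZ (w : WI) : ℤ := 2 * Nw w Zm 0 0 - Nw w Zm 1 0 - Nw w Zm 1 1

theorem etZ_ne : ∀ w, etZ w ≠ 0 := by decide +kernel

theorem Z_inj : ∀ w w', thZ w * etZ w' = thZ w' * etZ w → w = w' := by decide +kernel

theorem card_WI : Fintype.card WI = 72 := by decide +kernel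

end grp

section dim

variable {k : Type u} [Field k] [CharZero k]


theorem finrank_hom (n : ℕ) :
    Module.finrank k (homogeneousSubmodule (Fin 4) k n) = (n + 3).choose 3 := by
  rw [homogeneousSubmodule_eq_finsupp_supported]
  have h1 : {d : Fin 4 →₀ ℕ | d.degree = n} =
      ((Finset.univ : Finset (Fin 4)).finsuppAntidiag n : Set (Fin 4 →₀ ℕ)) := by
    ext d
    simp [Finset.mem_finsuppAntidiag, Finsupp.degree_eq_sum]
  rw [h1]
  have b := basisRestrictSupport k ((Finset.univ : Finset (Fin 4)).finsuppAntidiag n : Set (Fin 4 →₀ ℕ))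
  have h2 := Module.finrank_eq_card_basis b
  rw [restrictSupport] at h2
  rw [h2]
  simp only [Fintype.card_coe, SetLike.coe_sort_coe, Finset.coe_sort_coe]
  rw [Finset.card_finsuppAntidiag_nat_eq_choose]
  simp only [Finset.card_univ, Fintype.card_fin]
  rw [show 4 + n - 1 = n + 3 by omega]
  exact (Nat.choose_symm_add (a := n) (b := 3))

/-- the action -/
noncomputable def rhW (w : WI) : (MvPolynomial (Fin 4) k) →ₐ[k] (MvPolynomial (Fin 4) k) := arr (Nw w (genArray k))

theorem arr_gen {N : Matrix (Fin 3) (Fin 3) (MvPolynomial (Fin 4) k)} (h : ZS N) (i j : Fin 3) :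
    arr N (genArray k i j) = N i j := by
  have r0 := h.1 0
  have r1 := h.1 1
  have c0 := h.2 0
  have c1 := h.2 1
  have c2 := h.2 2
  simp only [Fin.sum_univ_three] at r0 r1 c0 c1 c2
  fin_cases i <;> fin_cases j <;> simp [arr, genArray]
  · linear_combination -r0
  · linear_combination -r1
  · linear_combination -c0
  · linear_combination -c1
  · linear_combination r0 + r1 - c2

theorem ZS.nw {R : Type*} [CommRing R] {N : Matrix (Fin 3) (Fin 3) R} (h : ZS N) (w : WI) :
    ZS (Nw w N) := by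
  have h1 : ZS (N.submatrix w.1 w.2.1) := by
    have h2 : ZS (N.submatrix w.1 id) := (h.tr.col w.1).tr
    exact h2.col w.2.1
  rw [Nw]
  split_ifs
  · exact h1.tr
  · exact h1

theorem arr_arr {N M : Matrix (Fin 3) (Fin 3) (MvPolynomial (Fin 4) k)} (b : (MvPolynomial (Fin 4) k)) :
    arr N (arr M b) = arr (M.map (arr N)) b := by
  rw [arr, arr, arr, ← AlgHom.comp_apply]
  congr 1
  apply MvPolynomial.algHom_ext
  intro i
  fin_cases i <;> simp

theorem nw_map {R S : Type*} (w : WI) (N : Matrix (Fin 3) (Fin 3) R) (f : R → S) :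
    (Nw w N).map f = Nw w (N.map f) := by
  rw [Nw, Nw]
  split_ifs <;> rfl

theorem arr_rho {N : Matrix (Fin 3) (Fin 3) (MvPolynomial (Fin 4) k)} (h : ZS N) (w : WI) (b : (MvPolynomial (Fin 4) k)) :
    arr N (rhW w b) = arr (Nw w N) b := by
  rw [rhW, arr_arr, nw_map]
  have e : (genArray k).map (arr N) = N := Matrix.ext fun i j => arr_gen h i j
  rw [e]

theorem nw_comp {R : Type*} (σ τ : Equiv.Perm (Fin 3)) (w : WI) (N : Matrix (Fin 3) (Fin 3) R) :
    Nw w (N.submatrix σ τ) = Nw (σ * w.1, τ * w.2.1, w.2.2) N := by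
  rw [Nw, Nw]
  rfl

theorem nw_tr {R : Type*} (w : WI) (N : Matrix (Fin 3) (Fin 3) R) :
    Nw w N.transpose = Nw (w.2.1, w.1, !w.2.2) N := by
  obtain ⟨σ, τ, e⟩ := w
  cases e <;> rfl

/-- the average -/
noncomputable def av : (MvPolynomial (Fin 4) k) →ₗ[k] (MvPolynomial (Fin 4) k) := ∑ w : WI, (rhW (k := k) w).toLinearMap

theorem av_apply (b : (MvPolynomial (Fin 4) k)) : av b = ∑ w : WI, rhW w b := by
  rw [av, LinearMap.sum_apply]; rfl

/-- left translation -/
def eL (σ τ : Equiv.Perm (Fin 3)) : WI ≃ WI :=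
  (Equiv.mulLeft σ).prodCongr ((Equiv.mulLeft τ).prodCongr (Equiv.refl Bool))

/-- transposition -/
def eT : WI ≃ WI where
  toFun w := (w.2.1, w.1, !w.2.2)
  invFun w := (w.2.1, w.1, !w.2.2)
  left_inv w := by obtain ⟨a, b, c⟩ := w; simp
  right_inv w := by obtain ⟨a, b, c⟩ := w; simp

theorem av_inv (b : (MvPolynomial (Fin 4) k)) : WInv (av b) := by
  constructor
  · intro σ τ
    show arr ((genArray k).submatrix σ τ) (av b) = av b
    rw [av_apply, map_sum]
    have hz : ZS ((genArray k).submatrix σ τ) := by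
      have h2 : ZS ((genArray k).submatrix σ id) := (genArray_ZS.tr.col σ).tr
      exact h2.col τ
    simp only [arr_rho hz, nw_comp]
    exact Equiv.sum_comp (eL σ τ) (fun w => rhW w b)
  · show arr (genArray k).transpose (av b) = av b
    rw [av_apply, map_sum]
    simp only [arr_rho genArray_ZS.tr, nw_tr]
    exact Equiv.sum_comp eT (fun w => rhW w b)

theorem rho_hom (w : WI) {b : (MvPolynomial (Fin 4) k)} {n : ℕ} (h : b.IsHomogeneous n) : (rhW w b).IsHomogeneous n := by
  have hN : ∀ i j, (Nw w (genArray k) i j).IsHomogeneous 1 := by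
    intro i j
    rw [Nw]
    split_ifs
    · exact gen_hom _ _
    · exact gen_hom _ _
  have := IsHomogeneous.aeval h (![Nw w (genArray k) 0 0, Nw w (genArray k) 0 1,
    Nw w (genArray k) 1 0, Nw w (genArray k) 1 1]) (n := 1) (by
      intro i; fin_cases i
      · exact hN 0 0
      · exact hN 0 1
      · exact hN 1 0
      · exact hN 1 1)
  rwa [one_mul] at this

theorem av_hom {b : (MvPolynomial (Fin 4) k)} {n : ℕ} (h : b.IsHomogeneous n) : (av b).IsHomogeneous n := by
  rw [av_apply]
  exact IsHomogeneous.sum _ _ _ fun w _ => rho_hom w h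

/-- the linear forms -/
noncomputable def thf : (MvPolynomial (Fin 4) k) := 2 * X 0 + 2 * X 1 + X 2
noncomputable def etf : (MvPolynomial (Fin 4) k) := 2 * X 0 - X 2 - X 3

theorem th_hom : (thf : (MvPolynomial (Fin 4) k)).IsHomogeneous 1 := by
  have h2 : (2 : (MvPolynomial (Fin 4) k)) = C (2 : k) := by rw [map_ofNat]
  rw [thf, h2]
  exact (((isHomogeneous_X _ _).C_mul _).add ((isHomogeneous_X _ _).C_mul _)).add
    (isHomogeneous_X _ _)

theorem et_hom : (etf : (MvPolynomial (Fin 4) k)).IsHomogeneous 1 := by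
  have h2 : (2 : (MvPolynomial (Fin 4) k)) = C (2 : k) := by rw [map_ofNat]
  rw [etf, h2]
  exact (((isHomogeneous_X _ _).C_mul _).sub (isHomogeneous_X _ _)).sub (isHomogeneous_X _ _)

noncomputable def evZ : (MvPolynomial (Fin 4) k) →ₐ[k] k := aeval ![5, 5, 2, 3]

theorem evZ_gen (i j : Fin 3) : evZ (genArray k i j) = ((Zm i j : ℤ) : k) := by
  fin_cases i <;> fin_cases j <;> simp [evZ, genArray, Zm] <;> norm_num

theorem evZ_nw (w : WI) (i j : Fin 3) : evZ (Nw w (genArray k) i j) = ((Nw w Zm i j : ℤ) : k) := by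
  rw [Nw, Nw]
  split_ifs
  · exact evZ_gen _ _
  · exact evZ_gen _ _

theorem rho_X (w : WI) : rhW w (X 0 : (MvPolynomial (Fin 4) k)) = Nw w (genArray k) 0 0 ∧
    rhW w (X 1 : (MvPolynomial (Fin 4) k)) = Nw w (genArray k) 0 1 ∧ rhW w (X 2 : (MvPolynomial (Fin 4) k)) = Nw w (genArray k) 1 0 ∧
    rhW w (X 3 : (MvPolynomial (Fin 4) k)) = Nw w (genArray k) 1 1 := by
  simp [rhW, arr]

theorem evZ_th (w : WI) : evZ (rhW w (thf : (MvPolynomial (Fin 4) k))) = ((thZ w : ℤ) : k) := by
  obtain ⟨h0, h1, h2, h3⟩ := rho_X (k := k) w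
  rw [thf, thZ]
  simp only [map_add, map_mul, map_ofNat, h0, h1, h2, evZ_nw]
  push_cast
  ring

theorem evZ_et (w : WI) : evZ (rhW w (etf : (MvPolynomial (Fin 4) k))) = ((etZ w : ℤ) : k) := by
  obtain ⟨h0, h1, h2, h3⟩ := rho_X (k := k) w
  rw [etf, etZ]
  simp only [map_sub, map_mul, map_ofNat, h0, h2, h3, evZ_nw]
  push_cast
  ring

theorem et_ne (w : WI) : rhW w (etf : (MvPolynomial (Fin 4) k)) ≠ 0 := by
  intro h
  have h1 := evZ_et (k := k) w
  rw [h, map_zero] at h1
  exact etZ_ne w (Int.cast_eq_zero.mp h1.symm)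

/-- the ratios -/
noncomputable def rat (w : WI) : FractionRing (MvPolynomial (Fin 4) k) :=
  algebraMap (MvPolynomial (Fin 4) k) (FractionRing (MvPolynomial (Fin 4) k)) (rhW w thf) / algebraMap (MvPolynomial (Fin 4) k) (FractionRing (MvPolynomial (Fin 4) k)) (rhW w etf)

theorem am_ne (w : WI) : algebraMap (MvPolynomial (Fin 4) k) (FractionRing (MvPolynomial (Fin 4) k)) (rhW w etf) ≠ 0 := by
  intro h
  exact et_ne w ((map_eq_zero_iff _ (IsFractionRing.injective (MvPolynomial (Fin 4) k) (FractionRing (MvPolynomial (Fin 4) k)))).mp h)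

theorem rat_inj : Function.Injective (rat (k := k)) := by
  intro w w' h
  rw [rat, rat, div_eq_div_iff (am_ne w) (am_ne w'), ← map_mul, ← map_mul] at h
  have h1 := congrArg evZ (IsFractionRing.injective (MvPolynomial (Fin 4) k) (FractionRing (MvPolynomial (Fin 4) k)) h)
  rw [map_mul, map_mul, evZ_th, evZ_et, evZ_th, evZ_et] at h1
  exact Z_inj w w' (by exact_mod_cast h1)

/-- enumeration -/
noncomputable def en : Fin 72 ≃ WI := (finCongr card_WI.symm).trans (Fintype.equivFin WI).symm

/-- the basis elements -/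
noncomputable def er (r : Fin 72) : (MvPolynomial (Fin 4) k) := thf ^ (r : ℕ) * etf ^ (71 - (r : ℕ))

theorem er_hom (r : Fin 72) : (er r : (MvPolynomial (Fin 4) k)).IsHomogeneous 71 := by
  have h := (th_hom (k := k)).pow (r : ℕ)
  have h2 := (et_hom (k := k)).pow (71 - (r : ℕ))
  have h3 := h.mul h2
  rw [one_mul, one_mul, show (r : ℕ) + (71 - (r : ℕ)) = 71 by omega] at h3
  exact h3

theorem rho_er (w : WI) (r : Fin 72) :
    algebraMap (MvPolynomial (Fin 4) k) (FractionRing (MvPolynomial (Fin 4) k)) (rhW w (er r)) =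
      rat w ^ (r : ℕ) * algebraMap (MvPolynomial (Fin 4) k) (FractionRing (MvPolynomial (Fin 4) k)) (rhW w etf) ^ 71 := by
  have h := am_ne (k := k) w
  rw [er, rat, map_mul, map_pow, map_pow, map_mul, map_pow, map_pow, div_pow]
  have e : algebraMap (MvPolynomial (Fin 4) k) (FractionRing (MvPolynomial (Fin 4) k)) (rhW w etf) ^ 71 =
      algebraMap (MvPolynomial (Fin 4) k) (FractionRing (MvPolynomial (Fin 4) k)) (rhW w etf) ^ (r : ℕ) *
      algebraMap (MvPolynomial (Fin 4) k) (FractionRing (MvPolynomial (Fin 4) k)) (rhW w etf) ^ (71 - (r : ℕ)) := by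
    rw [← pow_add]; congr 1; omega
  rw [e]
  field_simp

/-- the averages determine the polynomial -/
theorem av_inj {b : (MvPolynomial (Fin 4) k)} (h : ∀ r : Fin 72, av (b * er r) = 0) : b = 0 := by
  have h1 : (fun i : Fin 72 => algebraMap (MvPolynomial (Fin 4) k) (FractionRing (MvPolynomial (Fin 4) k)) (rhW (en i) b) *
      algebraMap (MvPolynomial (Fin 4) k) (FractionRing (MvPolynomial (Fin 4) k)) (rhW (en i) etf) ^ 71) = 0 := by
    refine Matrix.eq_zero_of_forall_pow_sum_mul_pow_eq_zero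
      (f := fun i : Fin 72 => rat (k := k) (en i)) (fun i j hij => en.injective (rat_inj hij)) ?_
    intro r
    have h2 := congrArg (algebraMap (MvPolynomial (Fin 4) k) (FractionRing (MvPolynomial (Fin 4) k))) (h r)
    rw [av_apply, map_sum, map_zero, ← Equiv.sum_comp en] at h2
    rw [← h2]
    refine Finset.sum_congr rfl fun i _ => ?_
    rw [map_mul, map_mul, rho_er]
    ring
  have h2 := congrFun h1 (en.symm (1, 1, false))
  simp only [Equiv.apply_symm_apply, Pi.zero_apply] at h2
  have h3 := (mul_eq_zero.mp h2).resolve_right (pow_ne_zero _ (am_ne _))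
  have h4 := (map_eq_zero_iff _ (IsFractionRing.injective (MvPolynomial (Fin 4) k) (FractionRing (MvPolynomial (Fin 4) k)))).mp h3
  have h5 : rhW ((1, 1, false) : WI) b = b := by
    have : rhW (k := k) ((1, 1, false) : WI) = AlgHom.id k (MvPolynomial (Fin 4) k) := by
      apply MvPolynomial.algHom_ext
      intro i
      fin_cases i <;> simp [rhW, arr, Nw, genArray]
    rw [this]; rfl
  rwa [h5] at h4

theorem alt_rho {u : (MvPolynomial (Fin 4) k)} (h : Alt u) (w : WI) :
    rhW w u = (Equiv.Perm.sign w.1 * Equiv.Perm.sign w.2.1) • u := by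
  obtain ⟨σ, τ, e⟩ := w
  have h0 : ∀ σ τ : Equiv.Perm (Fin 3), rhW (σ, τ, false) u =
      (Equiv.Perm.sign σ * Equiv.Perm.sign τ) • u := fun σ τ => h.perm σ τ
  cases e with
  | false => exact h0 σ τ
  | true =>
    have h1 : rhW (σ, τ, true) u = arr (genArray k).transpose (rhW (τ, σ, false) u) := by
      rw [arr_rho genArray_ZS.tr, nw_tr]; rfl
    have h2 : arr (genArray k).transpose u = u := h.tr
    rw [h1, h0]
    rcases Int.units_eq_one_or (Equiv.Perm.sign τ * Equiv.Perm.sign σ) with h3 | h3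
    · rw [mul_comm (Equiv.Perm.sign σ), h3, one_smul, h2]
    · rw [mul_comm (Equiv.Perm.sign σ), h3]
      simp [h2]

/-- alternating polynomials are independent over the powers -/
theorem alt_inj {u : Fin 72 → (MvPolynomial (Fin 4) k)} (hu : ∀ r, Alt (u r))
    (h : ∑ r, u r * er r = 0) : u = 0 := by
  have h1 : (fun r : Fin 72 => algebraMap (MvPolynomial (Fin 4) k) (FractionRing (MvPolynomial (Fin 4) k)) (u r)) = 0 := by
    refine Matrix.eq_zero_of_forall_index_sum_mul_pow_eq_zero
      (f := fun i : Fin 72 => rat (k := k) (en i)) (fun i j hij => en.injective (rat_inj hij)) ?_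
    intro i
    have h2 := congrArg (fun z => algebraMap (MvPolynomial (Fin 4) k) (FractionRing (MvPolynomial (Fin 4) k)) (rhW (en i) z)) h
    simp only [map_sum, map_zero, map_mul, rho_er] at h2
    have h3 : ∑ r : Fin 72, algebraMap (MvPolynomial (Fin 4) k) (FractionRing (MvPolynomial (Fin 4) k)) (rhW (en i) (u r)) *
        rat (en i) ^ (r : ℕ) = 0 := by
      have h4 : (∑ r : Fin 72, algebraMap (MvPolynomial (Fin 4) k) (FractionRing (MvPolynomial (Fin 4) k)) (rhW (en i) (u r)) *
        rat (en i) ^ (r : ℕ)) * algebraMap (MvPolynomial (Fin 4) k) (FractionRing (MvPolynomial (Fin 4) k)) (rhW (en i) etf) ^ 71 = 0 := by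
        rw [Finset.sum_mul, ← h2]
        refine Finset.sum_congr rfl fun r _ => ?_
        ring
      exact (mul_eq_zero.mp h4).resolve_right (pow_ne_zero _ (am_ne _))
    have h5 : ∀ r, rhW (en i) (u r) = (Equiv.Perm.sign (en i).1 * Equiv.Perm.sign (en i).2.1) • u r :=
      fun r => alt_rho (hu r) _
    simp only [h5] at h3
    rcases Int.units_eq_one_or (Equiv.Perm.sign (en i).1 * Equiv.Perm.sign (en i).2.1) with h6 | h6
    · simpa [h6] using h3
    · rw [h6] at h3
      simpa using h3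
  funext r
  exact (map_eq_zero_iff _ (IsFractionRing.injective (MvPolynomial (Fin 4) k) (FractionRing (MvPolynomial (Fin 4) k)))).mp (congrFun h1 r)

end dim

end Pool.Agent.Helper392_GT
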