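import Pool.Agent.Helper392_GT.Dim

namespace Pool.Agent.Helper392_GT

universe u v

set_option linter.unusedSectionVars false
set_option linter.unusedSimpArgs false
set_option linter.unusedVariables false

attribute [local instance 100] LieRing.ofAssociativeRing

section fin

variable {k : Type u} [Field k]

instance wt_fin (n : ℕ) : Module.Finite k (wt k n) := by
  have h : ∀ n, Module.Finite k (wt k (n + 1)) := by
    intro n
    induction n with
    | zero =>
      change Module.Finite k (Submodule.span k {FreeLieAlgebra.of k 0, FreeLieAlgebra.of k 1} : Submodule k (F2 k))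
      exact Module.Finite.span_of_finite k (by simp)
    | succ n ih =>
      have h1 : Module.Finite k ((wt k (n + 1)).map (LieAlgebra.ad k (F2 k) (gx k)) : Submodule k (F2 k)) :=
        Module.Finite.map _ _
      have h2 : Module.Finite k ((wt k (n + 1)).map (LieAlgebra.ad k (F2 k) (gy k)) : Submodule k (F2 k)) :=
        Module.Finite.map _ _
      have h3 : wt k (n + 1 + 1) ≤ (wt k (n + 1)).map (LieAlgebra.ad k (F2 k) (gx k)) ⊔
          (wt k (n + 1)).map (LieAlgebra.ad k (F2 k) (gy k)) := by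
        change Submodule.span k _ ≤ _
        rw [Submodule.span_le]
        rintro v ⟨u, hu, rfl | rfl⟩
        · exact Submodule.mem_sup_left ⟨u, hu, rfl⟩
        · exact Submodule.mem_sup_right ⟨u, hu, rfl⟩
      exact Submodule.finiteDimensional_of_le h3
  cases n with
  | zero =>
    change Module.Finite k ((⊥ : Submodule k (F2 k)))
    infer_instance
  | succ n => exact h n

end fin

section base0

open Polynomial

variable {k : Type u} [Field k] [CharZero k]

theorem base0' (𝔤 : Submodule k (F2 k)) (hgrt : ∀ φ ∈ 𝔤, IsGRT k φ)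
    (hσ : ∀ n, Odd n → 3 ≤ n → ∃ σ ∈ 𝔤, σ ∈ wt k n ∧ DepthGE k 2 (σ - vm k (n - 1))) (n : ℕ) :
    ∃ σ ∈ 𝔤, σ ∈ wt k n ∧ ∀ ψ : F2 k, IsGRT k ψ → ψ ∈ wt k n → ∃ γ : k, ψ - γ • σ ∈ D2 k := by
  by_cases hcase : n % 2 = 1 ∧ 3 ≤ n
  · obtain ⟨hodd, h3⟩ := hcase
    obtain ⟨σ, hs1, hs2, hs3⟩ := hσ n (Nat.odd_iff.mpr hodd) h3
    refine ⟨σ, hs1, hs2, fun ψ hψ hn => ?_⟩
    have hψ1 := pentagon_mem_D1 hψ.pent
    obtain ⟨f, hf⟩ := exists_gam hψ1
    have hh := c0_hom hn hf
    obtain ⟨γ, hγ⟩ : ∃ γ, γ = (c0 f).eval 1 := ⟨_, rfl⟩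
    rw [← hγ] at hh
    have hev := c0_even hψ hψ1 hf
    have hco : ∀ i, (c0 f).coeff i = if i + 2 = n then γ else 0 := by
      intro i
      have := congrArg (fun p => coeff p (i + 2)) hh
      simp only [coeff_X_pow_mul] at this
      rw [this, mul_comm, coeff_C_mul_X_pow]
    obtain ⟨fσ, hfσ⟩ := exists_gam (pentagon_mem_D1 (hgrt σ hs1).pent)
    have hc := sigma_c0 h3 hs3 hfσ
    refine ⟨γ, ?_⟩
    refine D2_of_c0 (f := f - γ • fσ) (hψ.sub ((hgrt σ hs1).smul γ)).pent ?_ ?_
    · have : ψ - γ • σ - gm k (f - γ • fσ) = (ψ - gm k f) - γ • (σ - gm k fσ) := by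
        rw [map_sub, map_smul, smul_sub]; abel
      rw [this]
      exact (D2 k).sub_mem hf ((D2 k).smul_mem _ hfσ)
    · have e1 : c0 (f - γ • fσ) = c0 f - C γ * c0 fσ := by
        rw [Algebra.smul_def]
        have hs : ∀ a b : P2 k, c0 (a - b) = c0 a - c0 b := fun a b => by simp [c0]
        rw [hs, c0_mul, c0_algebraMap]
      rw [e1, hc]
      ext i
      rw [coeff_sub, coeff_C_mul_X_pow, hco, coeff_zero]
      by_cases hi : i = n - 2
      · rw [if_pos (by omega), if_pos hi, sub_self]
      · rw [if_neg (by omega), if_neg hi, sub_self]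
  · refine ⟨0, 𝔤.zero_mem, Submodule.zero_mem _, fun ψ hψ hn => ⟨0, ?_⟩⟩
    have hψ1 := pentagon_mem_D1 hψ.pent
    obtain ⟨f, hf⟩ := exists_gam hψ1
    have hh := c0_hom hn hf
    obtain ⟨γ, hγ⟩ : ∃ γ, γ = (c0 f).eval 1 := ⟨_, rfl⟩
    rw [← hγ] at hh
    have hev := c0_even hψ hψ1 hf
    have hco : ∀ i, (c0 f).coeff i = if i + 2 = n then γ else 0 := by
      intro i
      have := congrArg (fun p => coeff p (i + 2)) hh
      simp only [coeff_X_pow_mul] at this
      rw [this, mul_comm, coeff_C_mul_X_pow]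
    rw [smul_zero, sub_zero]
    refine D2_of_c0 hψ.pent hf ?_
    ext i
    rw [coeff_zero]
    by_cases hi : i + 2 = n
    · exact hev i (Nat.even_iff.mpr (by omega))
    · rw [hco, if_neg hi]

end base0

section dims

open MvPolynomial

variable {k : Type u} [Field k] [CharZero k]


theorem atArray_add (q q' : (MvPolynomial (Fin 4) k)) (N : Matrix (Fin 3) (Fin 3) (MvPolynomial (Fin 4) k)) :
    atArray (q + q') N = atArray q N + atArray q' N := by
  rw [atArray, map_add]; rfl

theorem atArray_smul (c : k) (q : (MvPolynomial (Fin 4) k)) (N : Matrix (Fin 3) (Fin 3) (MvPolynomial (Fin 4) k)) :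
    atArray (c • q) N = c • atArray q N := by
  rw [atArray, map_smul]; rfl

theorem atArray_zero (N : Matrix (Fin 3) (Fin 3) (MvPolynomial (Fin 4) k)) : atArray (0 : (MvPolynomial (Fin 4) k)) N = 0 := by
  rw [atArray, map_zero]

variable (k) in
/-- homogeneous invariants -/
def AD (m : ℕ) : Submodule k (MvPolynomial (Fin 4) k) where
  carrier := {h | WInv h ∧ h.IsHomogeneous m}
  zero_mem' := ⟨⟨fun _ _ => atArray_zero _, atArray_zero _⟩, isHomogeneous_zero _ _ _⟩
  add_mem' := by
    rintro a b ⟨h1, h2⟩ ⟨g1, g2⟩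
    exact ⟨⟨fun σ τ => by rw [atArray_add, h1.perm, g1.perm], by rw [atArray_add, h1.tr, g1.tr]⟩,
      h2.add g2⟩
  smul_mem' := by
    rintro c a ⟨h1, h2⟩
    exact ⟨⟨fun σ τ => by rw [atArray_smul, h1.perm], by rw [atArray_smul, h1.tr]⟩,
      (homogeneousSubmodule (Fin 4) k m).smul_mem c h2⟩

variable (k) in
/-- homogeneous alternating polynomials -/
def UD (m : ℕ) : Submodule k (MvPolynomial (Fin 4) k) where
  carrier := {h | Alt h ∧ h.IsHomogeneous m}
  zero_mem' := ⟨⟨fun _ _ => by rw [atArray_zero, smul_zero], atArray_zero _⟩,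
    isHomogeneous_zero _ _ _⟩
  add_mem' := by
    rintro a b ⟨h1, h2⟩ ⟨g1, g2⟩
    exact ⟨⟨fun σ τ => by rw [atArray_add, h1.perm, g1.perm, smul_add],
      by rw [atArray_add, h1.tr, g1.tr]⟩, h2.add g2⟩
  smul_mem' := by
    rintro c a ⟨h1, h2⟩
    exact ⟨⟨fun σ τ => by rw [atArray_smul, h1.perm, smul_comm],
      by rw [atArray_smul, h1.tr]⟩, (homogeneousSubmodule (Fin 4) k m).smul_mem c h2⟩

instance hom_fin (m : ℕ) : Module.Finite k (homogeneousSubmodule (Fin 4) k m) :=
  Module.Finite.iff_fg.mpr (homogeneousSubmodule_fg _ _ m)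

instance AD_fin (m : ℕ) : Module.Finite k (AD k m) :=
  Submodule.finiteDimensional_of_le (S₂ := homogeneousSubmodule (Fin 4) k m) fun _ h => h.2

instance UD_fin (m : ℕ) : Module.Finite k (UD k m) :=
  Submodule.finiteDimensional_of_le (S₂ := homogeneousSubmodule (Fin 4) k m) fun _ h => h.2

/-- multiplication and averaging -/
noncomputable def avm (e : (MvPolynomial (Fin 4) k)) : (MvPolynomial (Fin 4) k) →ₗ[k] (MvPolynomial (Fin 4) k) where
  toFun b := av (b * e)
  map_add' a b := by rw [add_mul, map_add]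
  map_smul' c a := by rw [smul_mul_assoc, map_smul]; rfl

theorem avm_apply (e b : (MvPolynomial (Fin 4) k)) : avm e b = av (b * e) := by
  simp only [avm, LinearMap.coe_mk, AddHom.coe_mk]

theorem avm_mem (j : ℕ) (r : Fin 72) (b : (MvPolynomial (Fin 4) k)) (hb : b ∈ homogeneousSubmodule (Fin 4) k j) :
    avm (er r) b ∈ AD k (j + 71) := by
  have h1 : (b * er r).IsHomogeneous (j + 71) := IsHomogeneous.mul hb (er_hom r)
  rw [avm_apply]
  exact And.intro (av_inv (b * er r)) (av_hom h1)

theorem AD_ge (j : ℕ) : (j + 3).choose 3 ≤ 72 * Module.finrank k (AD k (j + 71)) := by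
  let f : homogeneousSubmodule (Fin 4) k j →ₗ[k] (Fin 72 → AD k (j + 71)) :=
    LinearMap.pi fun r => (avm (er r)).restrict (avm_mem j r)
  have hf : Function.Injective f := by
    rw [← LinearMap.ker_eq_bot, LinearMap.ker_eq_bot']
    intro b hb
    have h0 : (b : (MvPolynomial (Fin 4) k)) = 0 := by
      refine av_inj fun r => ?_
      have h1 := congrArg Subtype.val (congrFun hb r)
      rw [LinearMap.pi_apply, LinearMap.coe_restrict_apply, avm_apply, Pi.zero_apply,
        Submodule.coe_zero] at h1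
      rw [h1]
    exact Subtype.ext h0
  have h := LinearMap.finrank_le_finrank_of_injective hf
  rw [finrank_hom, Module.finrank_pi_fintype] at h
  simpa using h

theorem UD_le (D : ℕ) : 72 * Module.finrank k (UD k D) ≤ (D + 74).choose 3 := by
  let f : (Fin 72 → UD k D) →ₗ[k] homogeneousSubmodule (Fin 4) k (D + 71) :=
    { toFun := fun u => ⟨∑ r, (u r : (MvPolynomial (Fin 4) k)) * er r,
        IsHomogeneous.sum _ _ _ fun r _ => (u r).2.2.mul (er_hom r)⟩
      map_add' := fun a b => Subtype.ext (by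
        show ∑ r, ((a r + b r : UD k D) : (MvPolynomial (Fin 4) k)) * er r = ∑ r, (a r : (MvPolynomial (Fin 4) k)) * er r + ∑ r, (b r : (MvPolynomial (Fin 4) k)) * er r
        rw [← Finset.sum_add_distrib]
        exact Finset.sum_congr rfl fun r _ => by rw [Submodule.coe_add, add_mul])
      map_smul' := fun c a => Subtype.ext (by
        show ∑ r, ((c • a r : UD k D) : (MvPolynomial (Fin 4) k)) * er r = c • ∑ r, (a r : (MvPolynomial (Fin 4) k)) * er r
        rw [Finset.smul_sum]
        exact Finset.sum_congr rfl fun r _ => by rw [Submodule.coe_smul, smul_mul_assoc]) }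
  have hf : Function.Injective f := by
    rw [← LinearMap.ker_eq_bot, LinearMap.ker_eq_bot']
    intro u hu
    have h1 : ∑ r, (u r : (MvPolynomial (Fin 4) k)) * er r = 0 := congrArg Subtype.val hu
    have h2 := alt_inj (u := fun r => (u r : (MvPolynomial (Fin 4) k))) (fun r => (u r).2.1) h1
    funext r
    exact Subtype.ext (congrFun h2 r)
  have h := LinearMap.finrank_le_finrank_of_injective hf
  rw [finrank_hom, Module.finrank_pi_fintype] at h
  simpa [add_assoc] using h

theorem UD_zero : UD k 0 = ⊥ := by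
  rw [eq_bot_iff]
  rintro u ⟨h1, h2⟩
  have h3 : u = C (coeff 0 u) := by
    rw [← homogeneousComponent_zero]
    exact ((homogeneousComponent_of_mem h2).trans (if_pos rfl)).symm
  have h4 := h1.perm (Equiv.swap 0 1) 1
  rw [Equiv.Perm.sign_swap (by decide), Equiv.Perm.sign_one, mul_one] at h4
  have h5 : atArray u ((genArray k).submatrix (Equiv.swap (0 : Fin 3) 1) (1 : Equiv.Perm (Fin 3))) = u := by
    rw [h3, atArray]
    simp
  rw [h5] at h4
  have h6 : u = -u := by simpa using h4
  have h7 : (2 : k) • u = 0 := by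
    rw [two_smul]; nth_rewrite 2 [h6]; rw [add_neg_cancel]
  exact (smul_eq_zero.mp h7).resolve_left two_ne_zero

/-- alternating polynomials are determined by their symbols -/
theorem alt_sym {u : (MvPolynomial (Fin 4) k)} (hu : Alt u) (h : symbolMap k (genArray k 2 2 * u) ∈ DN k) : u = 0 := by
  have h1 := (entry_symbol (genArray k 2 2 * u)).unique (entry_DN h)
  -- the row swap
  have hg5 : ∀ b : (MvPolynomial (Fin 4) k), rr (iot b) = iot (g5 b) := by
    intro b
    have : (rr (k := k)).comp iot = (iot (k := k)).comp g5 := by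
      apply MvPolynomial.algHom_ext
      intro i
      obtain ⟨a0, a1, a2, a3⟩ := g5_X (k := k)
      rw [AlgHom.comp_apply, AlgHom.comp_apply]
      fin_cases i
      · show rr (iot (X 0)) = iot (g5 (X 0))
        rw [a0]; simp [iot, rr]
      · show rr (iot (X 1)) = iot (g5 (X 1))
        rw [a1]; simp [iot, rr]
      · show rr (iot (X 2)) = iot (g5 (X 2))
        rw [a2]; simp [iot, rr]
      · show rr (iot (X 3)) = iot (g5 (X 3))
        rw [a3]; simp [iot, rr]
    exact congrArg (fun f : (MvPolynomial (Fin 4) k) →ₐ[k] K0 k => f b) this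
  have h2 : g5 (genArray k 2 2 * u) = -(genArray k 2 2 * u) := by
    have e1 : g5 u = -u := by
      have := hu.perm (Equiv.swap 0 1) 1
      rw [Equiv.Perm.sign_swap (by decide), Equiv.Perm.sign_one, mul_one] at this
      have e : g5 u = atArray u ((genArray k).submatrix (Equiv.swap (0 : Fin 3) 1) (1 : Equiv.Perm (Fin 3))) := rfl
      rw [e, this]
      simp
    have e2 : g5 (genArray k 2 2) = genArray k 2 2 := by
      obtain ⟨a0, a1, a2, a3⟩ := g5_X (k := k)
      have : genArray k 2 2 = X 0 + X 1 + X 2 + X 3 := by simp [genArray]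
      rw [this, map_add, map_add, map_add, a0, a1, a2, a3]; ring
    rw [map_mul, e1, e2]; ring
  rw [hg5, h2, map_neg, sub_neg_eq_add, ← map_add] at h1
  have h3 : ∀ b : (MvPolynomial (Fin 4) k), qq (iot b) = b := by
    intro b
    have : (ev4 (k := k) (X 0 : (MvPolynomial (Fin 4) k)) (X 1) (X 0 + X 2) (X 1 + X 3)).comp iot = AlgHom.id k (MvPolynomial (Fin 4) k) := by
      apply MvPolynomial.algHom_ext
      intro i
      fin_cases i <;> simp [iot]
    exact congrArg (fun f : (MvPolynomial (Fin 4) k) →ₐ[k] (MvPolynomial (Fin 4) k) => f b) this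
  have h4 := congrArg qq h1
  rw [h3] at h4
  have h5 : (2 : k) • (genArray k 2 2 * u) = 0 := by
    rw [two_smul, h4, qq, map_zero]
  have h6 := (smul_eq_zero.mp h5).resolve_left two_ne_zero
  refine (mul_eq_zero.mp h6).resolve_left ?_
  intro h7
  have h8 := evp_gen (k := k) 2 2
  rw [h7, map_zero] at h8
  have h9 : ((40 : ℤ) : k) = 0 := h8.symm
  have h10 : (40 : ℤ) = 0 := Int.cast_eq_zero.mp h9
  omega

end dims

end Pool.Agent.Helper392_GT
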