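import Pool.Agent.Helper392_GT.Dim2
import Pool.Agent.Helper392_GT.Defs5

namespace Pool.Agent.Helper392_GT

universe u v

set_option linter.unusedSectionVars false
set_option linter.unusedSimpArgs false
set_option linter.unusedVariables false

open MvPolynomial

attribute [local instance 100] LieRing.ofAssociativeRing

section density

variable {k : Type u} [Field k] [CharZero k]


variable (k) in
/-- the symbols -/
noncomputable def sy : (MvPolynomial (Fin 4) k) →ₗ[k] (F2 k ⧸ (DN k).toSubmodule) :=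
  (DN k).toSubmodule.mkQ ∘ₗ symbolMap k

theorem sy_eq_zero {p : (MvPolynomial (Fin 4) k)} : sy k p = 0 ↔ symbolMap k p ∈ DN k := by
  rw [sy, LinearMap.comp_apply, Submodule.mkQ_apply, Submodule.Quotient.mk_eq_zero]
  rfl

theorem sy_eq {p : (MvPolynomial (Fin 4) k)} {φ : F2 k} (h : φ - symbolMap k p ∈ DN k) :
    sy k p = (DN k).toSubmodule.mkQ φ := by
  rw [sy, LinearMap.comp_apply, Submodule.mkQ_apply, Submodule.mkQ_apply, eq_comm,
    Submodule.Quotient.eq]
  exact h

/-- multiplication as a linear map -/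
noncomputable def mlt (c : (MvPolynomial (Fin 4) k)) : (MvPolynomial (Fin 4) k) →ₗ[k] (MvPolynomial (Fin 4) k) where
  toFun b := c * b
  map_add' a b := by rw [mul_add]
  map_smul' d a := by rw [mul_smul_comm]; rfl

theorem mlt_apply (c b : (MvPolynomial (Fin 4) k)) : mlt c b = c * b := by
  simp only [mlt, LinearMap.coe_mk, AddHom.coe_mk]

theorem gen22_ne : (genArray k 2 2 : (MvPolynomial (Fin 4) k)) ≠ 0 := by
  intro h7
  have h8 := evp_gen (k := k) 2 2
  rw [h7, map_zero] at h8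
  have h9 : ((40 : ℤ) : k) = 0 := h8.symm
  have h10 : (40 : ℤ) = 0 := Int.cast_eq_zero.mp h9
  omega

theorem gB_inv : WInv (gB : (MvPolynomial (Fin 4) k)) := by
  have key : ∀ (e : Fin 3 × Fin 3 ≃ Fin 3 × Fin 3) (N : Matrix (Fin 3) (Fin 3) (MvPolynomial (Fin 4) k)),
      (∀ p, N p.1 p.2 = genArray k (e p).1 (e p).2) → ZS N → atArray gB N = gB := by
    intro e N hN hz
    have h1 : atArray gB N = arr N gB := rfl
    rw [h1, gB, map_prod]
    have h2 : ∀ t : Finset (Fin 3 × Fin 3), arr N (∑ p ∈ t, genArray k p.1 p.2) =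
        ∑ p ∈ t.map e.toEmbedding, genArray k p.1 p.2 := by
      intro t
      rw [map_sum, Finset.sum_map]
      refine Finset.sum_congr rfl fun p _ => ?_
      rw [arr_gen hz, hN]
      rfl
    simp only [h2]
    refine Finset.prod_bij (fun t _ => t.map e.toEmbedding) ?_ ?_ ?_ ?_
    · intro t ht
      rw [Finset.mem_powersetCard] at ht ⊢
      exact ⟨Finset.subset_univ _, by rw [Finset.card_map]; exact ht.2⟩
    · intro t _ t' _ h
      exact Finset.map_injective _ h
    · intro t ht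
      refine ⟨t.map e.symm.toEmbedding, ?_, ?_⟩
      · rw [Finset.mem_powersetCard] at ht ⊢
        exact ⟨Finset.subset_univ _, by rw [Finset.card_map]; exact ht.2⟩
      · ext p
        simp
    · intro t _; rfl
  constructor
  · intro σ τ
    have h2 : ZS ((genArray k).submatrix σ id) := (genArray_ZS.tr.col σ).tr
    exact key (σ.prodCongr τ) _ (fun p => rfl) (h2.col τ)
  · exact key (Equiv.prodComm _ _) _ (fun p => rfl) genArray_ZS.tr

variable (𝔤 : Submodule k (F2 k)) (hgrt : ∀ φ ∈ 𝔤, IsGRT k φ)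
    (hbr : ∀ σ ∈ 𝔤, ∀ τ ∈ 𝔤, ∀ D E : LieDerivation k (F2 k) (F2 k),
      D (gx k) = 0 → D (gy k) = ⁅gy k, σ⁆ → E (gx k) = 0 → E (gy k) = ⁅gy k, τ⁆ →
      ⁅σ, τ⁆ + D τ - E σ ∈ 𝔤)
    (hσ : ∀ n, Odd n → 3 ≤ n → ∃ σ ∈ 𝔤, σ ∈ wt k n ∧ DepthGE k 2 (σ - vm k (n - 1)))

include hgrt hbr hσ

theorem density_lower (n : ℕ) : (n - 112).choose 3 ≤
    72 * Module.finrank k ((𝔤 ⊓ wt k n).map (DN k).toSubmodule.mkQ) := by
  rcases Nat.lt_or_ge n 115 with hn | hn
  · rw [Nat.choose_eq_zero_of_lt (by omega)]; exact Nat.zero_le _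
  obtain ⟨j, rfl⟩ := Nat.exists_eq_add_of_le hn
  obtain ⟨q, hq0, hq, hq3, H⟩ := exists_lower 𝔤 hgrt hbr hσ
  have hfin : Module.Finite k ((𝔤 ⊓ wt k (115 + j)).map (DN k).toSubmodule.mkQ) := by
    have : Module.Finite k (𝔤 ⊓ wt k (115 + j) : Submodule k (F2 k)) :=
      Submodule.finiteDimensional_of_le (S₂ := wt k (115 + j)) inf_le_right
    exact Module.Finite.map _ _
  have hmem : ∀ h ∈ AD k (j + 71), (sy k ∘ₗ mlt (genArray k 2 2 * (gB * q))) h ∈
      (𝔤 ⊓ wt k (115 + j)).map (DN k).toSubmodule.mkQ := by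
    rintro h ⟨h1, h2⟩
    obtain ⟨φ, a1, a2, a3, a4⟩ := H _ h h1 h2
    rw [LinearMap.comp_apply, mlt_apply]
    have e : genArray k 2 2 * (gB * q) * h = genArray k 2 2 * (gB * h * q) := by ring
    rw [e, sy_eq a4]
    refine Submodule.mem_map_of_mem ⟨a1, ?_⟩
    rwa [show 115 + j = 44 + (j + 71) by ring]
  let f := (sy k ∘ₗ mlt (genArray k 2 2 * (gB * q))).restrict hmem
  have hf : Function.Injective f := by
    rw [← LinearMap.ker_eq_bot, LinearMap.ker_eq_bot']
    intro h hh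
    have h0 : (h : (MvPolynomial (Fin 4) k)) = 0 := by
      have h1 := congrArg Subtype.val hh
      rw [LinearMap.coe_restrict_apply, LinearMap.comp_apply, mlt_apply, Submodule.coe_zero] at h1
      have e : genArray k 2 2 * (gB * q) * (h : (MvPolynomial (Fin 4) k)) = genArray k 2 2 * (gB * (h : (MvPolynomial (Fin 4) k)) * q) := by ring
      rw [e, sy_eq_zero] at h1
      have h2 := alt_sym (Alt.inv_mul (gB_inv.mul h.2.1) hq) h1
      exact (mul_eq_zero.mp ((mul_eq_zero.mp h2).resolve_right hq0)).resolve_left gB_ne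
    exact Subtype.ext h0
  have h1 := LinearMap.finrank_le_finrank_of_injective hf
  have h2 := AD_ge (k := k) j
  rw [show 115 + j - 112 = j + 3 by omega]
  omega

omit hgrt hbr hσ in
theorem density_upper0 (n : ℕ) :
    72 * Module.finrank k ((grtSub k ⊓ wt k n ⊓ (D2 k).toSubmodule).map (DN k).toSubmodule.mkQ) ≤
      (n + 69).choose 3 := by
  have hle : (grtSub k ⊓ wt k n ⊓ (D2 k).toSubmodule).map (DN k).toSubmodule.mkQ ≤
      (UD k (n - 5)).map (sy k ∘ₗ mlt (genArray k 2 2)) := by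
    rintro _ ⟨ψ, ⟨⟨h1, h2⟩, h3⟩, rfl⟩
    obtain ⟨q, e1, e2, e3⟩ := exists_q (IsGRT.pent h1) h3 h2
    refine ⟨q, ⟨e2, e3⟩, ?_⟩
    rw [LinearMap.comp_apply, mlt_apply, sy_eq e1]
  have h1 := Submodule.finrank_mono hle
  have h2 := Submodule.finrank_map_le (sy k ∘ₗ mlt (genArray k 2 2)) (UD k (n - 5))
  rcases Nat.lt_or_ge n 5 with hn | hn
  · rw [show n - 5 = 0 by omega, UD_zero, finrank_bot] at h2
    rw [show n - 5 = 0 by omega, UD_zero] at h1
    omega
  · have h3 := UD_le (k := k) (n - 5)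
    rw [show n - 5 + 74 = n + 69 by omega] at h3
    omega

theorem density_upper (n : ℕ) :
    72 * Module.finrank k ((grtSub k ⊓ wt k n).map (DN k).toSubmodule.mkQ) ≤
      (n + 70).choose 3 := by
  obtain ⟨σ, s1, s2, s3⟩ := base0' 𝔤 hgrt hσ n
  have hfin : Module.Finite k ((grtSub k ⊓ wt k n ⊓ (D2 k).toSubmodule).map (DN k).toSubmodule.mkQ) := by
    have : Module.Finite k (grtSub k ⊓ wt k n ⊓ (D2 k).toSubmodule : Submodule k (F2 k)) :=
      Submodule.finiteDimensional_of_le (S₂ := wt k n) (inf_le_left.trans inf_le_right)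
    exact Module.Finite.map _ _
  have hle : (grtSub k ⊓ wt k n).map (DN k).toSubmodule.mkQ ≤
      Submodule.span k {(DN k).toSubmodule.mkQ σ} ⊔
      (grtSub k ⊓ wt k n ⊓ (D2 k).toSubmodule).map (DN k).toSubmodule.mkQ := by
    rintro _ ⟨ψ, ⟨h1, h2⟩, rfl⟩
    obtain ⟨γ, hγ⟩ := s3 ψ h1 h2
    refine Submodule.mem_sup.mpr ⟨γ • (DN k).toSubmodule.mkQ σ,
      Submodule.smul_mem _ _ (Submodule.mem_span_singleton_self _), (DN k).toSubmodule.mkQ (ψ - γ • σ),
      ⟨ψ - γ • σ, ⟨⟨(grtSub k).sub_mem h1 ((grtSub k).smul_mem γ (hgrt σ s1)),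
        (wt k n).sub_mem h2 ((wt k n).smul_mem γ s2)⟩, hγ⟩, rfl⟩, ?_⟩
    rw [map_sub, map_smul]; abel
  have h1 := Submodule.finrank_mono hle
  have h2 := Submodule.finrank_add_le_finrank_add_finrank
    (Submodule.span k {(DN k).toSubmodule.mkQ σ})
    ((grtSub k ⊓ wt k n ⊓ (D2 k).toSubmodule).map (DN k).toSubmodule.mkQ)
  have h3 : Module.finrank k (Submodule.span k {(DN k).toSubmodule.mkQ σ}) ≤ 1 := by
    by_cases hv : (DN k).toSubmodule.mkQ σ = 0
    · rw [hv, Submodule.span_zero_singleton, finrank_bot]; exact Nat.zero_le _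
    · rw [finrank_span_singleton hv]
  have h4 := density_upper0 (k := k) n
  have h5 : (n + 70).choose 3 = (n + 69).choose 2 + (n + 69).choose 3 := Nat.choose_succ_succ' _ _
  have h6 : (69).choose 2 ≤ (n + 69).choose 2 := Nat.choose_le_choose 2 (by omega)
  have h7 : (69).choose 2 = 2346 := by decide
  omega

end density

end Pool.Agent.Helper392_GT
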