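import Pool.Agent.Helper392_GT.LB

namespace Pool.Agent.Helper392_GT

open Polynomial

universe u v

set_option linter.unusedSimpArgs false
set_option linter.unusedVariables false

section prime

variable {k : Type u} [Field k]

instance : IsDomain (P2 k) := inferInstanceAs (IsDomain k[X][X])

/-- linear forms -/
noncomputable def lf (a b : k) : P2 k := algebraMap k (P2 k) a * px + algebraMap k (P2 k) b * py

theorem lf_prime {a b : k} (hb : b ≠ 0) : Prime (lf a b) := by
  have h1 : lf a b = sl (C (C b) * (X - C (C (-(b⁻¹ * a)) * X))) := by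
    have e1 : ∀ c, algebraMap k (P2 k) c = sl (C (C c)) := fun c => rfl
    rw [lf, e1, e1, px, py, ← map_mul (sl (k := k)), ← map_mul (sl (k := k)),
      ← map_add (sl (k := k))]
    congr 1
    have e2 : C b * (C (-(b⁻¹ * a)) * X) = -(C a * X) := by
      rw [← mul_assoc, ← C_mul, mul_neg, ← mul_assoc, mul_inv_cancel₀ hb, one_mul, C_neg, neg_mul]
    rw [mul_sub, ← C_mul (a := C b), e2, C_neg, C_mul (a := C a)]
    ring
  rw [h1]
  have h2 : Prime (C (C b) * (X - C (C (-(b⁻¹ * a)) * X)) : k[X][X]) := by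
    have hu : IsUnit (C (C b) : k[X][X]) := by
      rw [isUnit_C, isUnit_C]; exact isUnit_iff_ne_zero.mpr hb
    have ha : Associated (X - C (C (-(b⁻¹ * a)) * X) : k[X][X])
        (C (C b) * (X - C (C (-(b⁻¹ * a)) * X))) :=
      (associated_isUnit_mul_left_iff hu).mpr (Associated.refl _) |>.symm
    exact ha.prime (prime_X_sub_C _)
  exact (MulEquiv.prime_iff (sl (k := k)).toMulEquiv).mpr h2

theorem lf_not_dvd {a b c d : k} (h : c * b - d * a ≠ 0) : ¬ lf a b ∣ lf c d := by
  rintro ⟨t, ht⟩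
  have h1 := congrArg (ev2 (k := k) b (-a)) ht
  simp only [lf, map_mul, map_add, AlgHom.commutes, ev2_px, ev2_py] at h1
  apply h
  simp only [Algebra.algebraMap_self, RingHom.id_apply] at h1
  linear_combination h1

theorem step_dvd {R : Type*} [CommRing R] [IsDomain R] {p q Θ : R} (hp : Prime p) {r : ℕ}
    (h1 : q ^ r ∣ Θ) (h2 : p ^ r ∣ Θ) (hpq : ¬ p ∣ q) : (q * p) ^ r ∣ Θ := by
  obtain ⟨Θ', rfl⟩ := h1
  have h3 : p ^ r ∣ Θ' := by
    refine hp.pow_dvd_of_dvd_mul_left r ?_ h2
    intro h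
    exact hpq (hp.dvd_of_dvd_pow h)
  rw [mul_pow]
  exact mul_dvd_mul_left _ h3

theorem dvd_neg_gen {R : Type*} [CommRing R] {a b : R} (h : a ∣ -b) : a ∣ b := by
  obtain ⟨c, hc⟩ := h
  exact ⟨-c, by linear_combination -hc⟩

theorem neg_pow_gen {R : Type*} [CommRing R] {a b : R} {r : ℕ} (h : (-a) ^ r ∣ b) : a ^ r ∣ b := by
  rw [neg_pow] at h
  exact (dvd_mul_left _ _).trans h

theorem dvd_of_symm {f : P2 k →ₐ[k] P2 k} {G p q : P2 k} {r : ℕ} (hf : f G = G ∨ f G = -G)
    (h : p ^ r ∣ G) (hpq : f p = q) : q ^ r ∣ G := by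
  have h1 := map_dvd f h
  rw [map_pow, hpq] at h1
  rcases hf with hf | hf
  · rwa [hf] at h1
  · rw [hf] at h1
    exact dvd_neg_gen h1

theorem six_dvd [CharZero k] {r : ℕ} {G : P2 k} (hs : ev2 py px G = G ∨ ev2 py px G = -G)
    (hρ : ev2 pz py G = G ∨ ev2 pz py G = -G)
    (h1 : lf (0 : k) 1 ^ r ∣ G) (h2 : lf (-1 : k) 1 ^ r ∣ G) : Dp ^ r ∣ G := by
  have two : (2 : k) ≠ 0 := two_ne_zero
  have kl : ∀ a b : k, ev2 (py : P2 k) px (lf a b) = lf b a := by
    intro a b
    simp only [lf, map_add, map_mul, AlgHom.commutes, ev2_px, ev2_py]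
    ring
  have rl : ∀ a b : k, ev2 (pz : P2 k) py (lf a b) = lf (-a) (b - a) := by
    intro a b
    simp only [lf, map_add, map_mul, AlgHom.commutes, ev2_px, ev2_py, map_neg, map_sub, pz]
    ring
  have d1 : lf (1 : k) 0 ^ r ∣ G := dvd_of_symm hs h1 (kl 0 1)
  have d2 : lf (-1 : k) (-1) ^ r ∣ G := dvd_of_symm hρ d1 (by rw [rl]; norm_num)
  have d3 : lf (1 : k) 2 ^ r ∣ G := dvd_of_symm hρ h2 (by rw [rl]; norm_num)
  have d4 : lf (2 : k) 1 ^ r ∣ G := dvd_of_symm hs d3 (kl 1 2)
  have p1 : Prime (lf (0 : k) 1) := lf_prime one_ne_zero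
  have p2 : Prime (lf (-1 : k) 1) := lf_prime one_ne_zero
  have p3 : Prime (lf (-1 : k) (-1)) := lf_prime (neg_ne_zero.mpr one_ne_zero)
  have p4 : Prime (lf (1 : k) 2) := lf_prime two
  have p5 : Prime (lf (2 : k) 1) := lf_prime one_ne_zero
  have c1 := step_dvd p1 d1 h1 (lf_not_dvd (by norm_num))
  have c2 := step_dvd p2 c1 h2 (by
    intro h
    rcases p2.dvd_or_dvd h with h | h
    · exact lf_not_dvd (by norm_num) h
    · exact lf_not_dvd (by norm_num) h)
  have c3 := step_dvd p3 c2 d2 (by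
    intro h
    rcases p3.dvd_or_dvd h with h | h
    · rcases p3.dvd_or_dvd h with h | h
      · exact lf_not_dvd (by norm_num) h
      · exact lf_not_dvd (by norm_num) h
    · exact lf_not_dvd (by norm_num) h)
  have c4 := step_dvd p4 c3 d3 (by
    intro h
    rcases p4.dvd_or_dvd h with h | h
    · rcases p4.dvd_or_dvd h with h | h
      · rcases p4.dvd_or_dvd h with h | h
        · exact lf_not_dvd (by norm_num) h
        · exact lf_not_dvd (by norm_num) h
      · exact lf_not_dvd (by norm_num) h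
    · exact lf_not_dvd (by norm_num) h)
  have c5 := step_dvd p5 c4 d4 (by
    intro h
    rcases p5.dvd_or_dvd h with h | h
    · rcases p5.dvd_or_dvd h with h | h
      · rcases p5.dvd_or_dvd h with h | h
        · rcases p5.dvd_or_dvd h with h | h
          · exact lf_not_dvd (by norm_num) h
          · exact lf_not_dvd (by norm_num) h
        · exact lf_not_dvd (by norm_num) h
      · exact lf_not_dvd (by norm_num) h
    · exact lf_not_dvd (by norm_num) h)
  have e : lf (1 : k) 0 * lf 0 1 * lf (-1) 1 * lf (-1) (-1) * lf 1 2 * lf 2 1 = -Dp := by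
    simp only [lf, Dp, Fq, map_zero, map_one, map_neg, map_ofNat]
    ring
  rw [e] at c5
  exact neg_pow_gen c5

end prime

end Pool.Agent.Helper392_GT
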