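import Pool.Agent.Helper392_GT.Struct

namespace Pool.Agent.Helper392_GT

open Polynomial

universe u v

attribute [local instance 100] LieRing.ofAssociativeRing

section ev

variable {k : Type u} [CommRing k] {K : Type v} [CommRing K] [Algebra k K]

/-- evaluation of `f(x,y)` at `(a,b)` -/
noncomputable def ev2 (a b : K) : P2 k →ₐ[k] K :=
  (eval₂AlgHom (aeval (R := k) a) b (fun _ => Commute.all _ _)).comp
    (sl (k := k)).symm.toAlgHom

@[simp] theorem ev2_px (a b : K) : ev2 (k := k) a b px = a := by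
  simp [ev2, px]

@[simp] theorem ev2_py (a b : K) : ev2 (k := k) a b py = b := by
  simp [ev2, py]

theorem P2_hom_ext {f g : P2 k →ₐ[k] K} (hx : f px = g px) (hy : f py = g py) : f = g := by
  ext p
  refine P2_ind (fun p => f p = g p) ?_ ?_ ?_ ?_ p
  · intro p q hp hq
    rw [map_add, map_add, hp, hq]
  · intro a
    rw [AlgHom.commutes, AlgHom.commutes]
  · intro p hp
    rw [map_mul, map_mul, hp, hx]
  · intro p hp
    rw [map_mul, map_mul, hp, hy]

/-- evaluation of `P(x,y,X,Y)` at `(a,b,s,t)`; `X` is the inner variable -/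
noncomputable def ev4 (a b s t : K) : (P2 k)[X][X] →ₐ[k] K :=
  eval₂AlgHom (eval₂AlgHom (ev2 a b) s (fun _ => Commute.all _ _)) t (fun _ => Commute.all _ _)

@[simp] theorem ev4_X (a b s t : K) : ev4 (k := k) a b s t X = t := by
  simp [ev4]

@[simp] theorem ev4_CX (a b s t : K) : ev4 (k := k) a b s t (C X) = s := by
  simp [ev4]

@[simp] theorem ev4_CC (a b s t : K) (f : P2 k) : ev4 (k := k) a b s t (C (C f)) = ev2 a b f := by
  simp [ev4]

/-- `g(x,y) ↦ g(X - x, Y - y)` -/
noncomputable def sg : P2 k →ₐ[k] (P2 k)[X][X] :=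
  ev2 (C X - C (C px)) (X - C (C py))

theorem ev4_sg (a b s t : K) (g : P2 k) : ev4 (k := k) a b s t (sg g) = ev2 (s - a) (t - b) g := by
  have : (ev4 (k := k) a b s t).comp sg = ev2 (s - a) (t - b) := by
    apply P2_hom_ext
    · simp [sg]
    · simp [sg]
  exact congrArg (fun h : P2 k →ₐ[k] K => h g) this

theorem key_bt (f g : P2 k) : bt k (C (C f) * sg g) - ⁅gm k f, gm k g⁆ ∈ DN k := by
  refine P2_ind (fun g => ∀ f, bt k (C (C f) * sg g) - ⁅gm k f, gm k g⁆ ∈ DN k)
    ?_ ?_ ?_ ?_ g f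
  · intro p q hp hq f
    have : bt k (C (C f) * sg (p + q)) - ⁅gm k f, gm k (p + q)⁆ =
      (bt k (C (C f) * sg p) - ⁅gm k f, gm k p⁆) + (bt k (C (C f) * sg q) - ⁅gm k f, gm k q⁆) := by
      rw [map_add, mul_add, map_add, map_add, lie_add]; abel
    rw [this]
    exact (DN k).add_mem (hp f) (hq f)
  · intro a f
    have h : bt k (C (C f) * sg (algebraMap k (P2 k) a)) = a • bt k (C (C f)) := by
      rw [AlgHom.commutes, ← map_smul, mul_comm, Algebra.smul_def]
    rw [h, bt_C, bt1_C, gm_algebraMap, lie_smul, sub_self]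
    exact (DN k).zero_mem
  · intro p hp f
    have h : C (C f) * sg (px * p) = C X * (C (C f) * sg p) - C (C (px * f)) * sg p := by
      have : (sg (px : P2 k)) = C X - C (C px) := by simp [sg]
      rw [map_mul, this, C_mul, C_mul]; ring
    rw [h, map_sub]
    have e : bt k (C X * (C (C f) * sg p)) - bt k (C (C (px * f)) * sg p) - ⁅gm k f, gm k (px * p)⁆
      = (bt k (C X * (C (C f) * sg p)) - ⁅gx k, bt k (C (C f) * sg p)⁆)
        + ⁅gx k, bt k (C (C f) * sg p) - ⁅gm k f, gm k p⁆⁆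
        - (bt k (C (C (px * f)) * sg p) - ⁅gm k (px * f), gm k p⁆)
        - ⁅gm k (px * f) - ⁅gx k, gm k f⁆, gm k p⁆
        - ⁅gm k f, gm k (px * p) - ⁅gx k, gm k p⁆⁆ := by
      simp only [lie_sub, sub_lie]
      rw [leibniz_lie (gx k) (gm k f) (gm k p)]
      abel
    rw [e]
    refine (DN k).sub_mem ((DN k).sub_mem ((DN k).sub_mem ((DN k).add_mem ?_ ?_) ?_) ?_) ?_
    · exact bt_CX_mul _
    · exact LieSubmodule.lie_mem _ (hp f)
    · exact hp (px * f)
    · exact mem_DN' (gm_px_mul f) (gm_mem p)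
    · exact mem_DN (gm_mem f) (gm_px_mul p)
  · intro p hp f
    have h : C (C f) * sg (py * p) = X * (C (C f) * sg p) - C (C (py * f)) * sg p := by
      have : (sg (py : P2 k)) = X - C (C py) := by simp [sg]
      rw [map_mul, this, C_mul, C_mul]; ring
    rw [h, map_sub, bt_X_mul]
    have e : ⁅gy k, bt k (C (C f) * sg p)⁆ - bt k (C (C (py * f)) * sg p) - ⁅gm k f, gm k (py * p)⁆
      = ⁅gy k, bt k (C (C f) * sg p) - ⁅gm k f, gm k p⁆⁆
        - (bt k (C (C (py * f)) * sg p) - ⁅gm k (py * f), gm k p⁆) := by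
      rw [lie_sub, leibniz_lie (gy k) (gm k f) (gm k p), gm_py_mul, gm_py_mul]
      abel
    rw [e]
    exact (DN k).sub_mem (LieSubmodule.lie_mem _ (hp f)) (hp (py * f))

end ev

end Pool.Agent.Helper392_GT
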