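import Pool.Agent.Helper392_GT.Form

namespace Pool.Agent.Helper392_GT

open Polynomial

universe u v

set_option linter.unusedSimpArgs false
set_option linter.unusedVariables false

section expand

variable {k : Type u} [Field k]

noncomputable def Fq : P2 k := px * py * (px + py)
noncomputable def al : P2 k := py * (2 * px + py)
noncomputable def be : P2 k := px * (px + 2 * py)
noncomputable def ga : P2 k := Fq * (2 * px + py)
noncomputable def de : P2 k := Fq * (px + 2 * py)
/-- the determinant -/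
noncomputable def Dp : P2 k := Fq * (2 * px + py) * (px + 2 * py) * (py - px)

theorem det_eq : (al * de - be * ga : P2 k) = Dp := by
  rw [al, de, be, ga, Dp]; ring

noncomputable def w3 : K0 k := C (C al) * vs + C (C be) * vt
noncomputable def w5 : K0 k := C (C ga) * vs + C (C de) * vt

theorem det_vs : (C (C Dp) * vs : K0 k) = C (C de) * w3 - C (C be) * w5 := by
  rw [w3, w5, ← det_eq, C_sub, C_sub, C_mul, C_mul, C_mul, C_mul]; ring

theorem det_vt : (C (C Dp) * vt : K0 k) = -C (C ga) * w3 + C (C al) * w5 := by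
  rw [w3, w5, ← det_eq, C_sub, C_sub, C_mul, C_mul, C_mul, C_mul]; ring

/-- `f(x,y;λ)` of degree at most `r` in `λ` is the dehomogenisation of `F` -/
def HZ (r : ℕ) (f : (P2 k)[X]) (F : K0 k) : Prop :=
  f.natDegree ≤ r ∧ F = ∑ i ∈ Finset.range (r + 1), C (C (f.coeff i)) * w3 ^ (r - i) * w5 ^ i

theorem HZ.zero (r : ℕ) : HZ r 0 (0 : K0 k) := by
  refine ⟨by simp, ?_⟩
  simp

theorem HZ.add {r : ℕ} {f g : (P2 k)[X]} {F G : K0 k} (hf : HZ r f F) (hg : HZ r g G) :
    HZ r (f + g) (F + G) := by
  refine ⟨(natDegree_add_le _ _).trans (max_le hf.1 hg.1), ?_⟩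
  rw [hf.2, hg.2, ← Finset.sum_add_distrib]
  refine Finset.sum_congr rfl fun i _ => ?_
  rw [coeff_add, C_add, C_add]; ring

theorem HZ.sum {r : ℕ} {ι : Type*} (s : Finset ι) {f : ι → (P2 k)[X]} {F : ι → K0 k}
    (h : ∀ i ∈ s, HZ r (f i) (F i)) : HZ r (∑ i ∈ s, f i) (∑ i ∈ s, F i) := by
  classical
  induction s using Finset.induction_on with
  | empty => simpa using HZ.zero r
  | insert a s ha ih =>
    rw [Finset.sum_insert ha, Finset.sum_insert ha]
    exact (h a (Finset.mem_insert_self a s)).add (ih fun i hi => h i (Finset.mem_insert_of_mem hi))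

theorem HZ.const (q : P2 k) : HZ 0 (C q) (C (C q) : K0 k) := by
  refine ⟨by simp, ?_⟩
  simp

theorem HZ.step {r : ℕ} {f : (P2 k)[X]} {F : K0 k} (hf : HZ r f F) (e1 e2 : P2 k) :
    HZ (r + 1) ((C e1 + C e2 * X) * f) ((C (C e1) * w3 + C (C e2) * w5) * F) := by
  obtain ⟨hd, hF⟩ := hf
  refine ⟨?_, ?_⟩
  · refine natDegree_mul_le.trans ?_
    have : (C e1 + C e2 * X : (P2 k)[X]).natDegree ≤ 1 := by
      rw [add_comm]; exact natDegree_linear_le
    omega
  · have hz : f.coeff (r + 1) = 0 := coeff_eq_zero_of_natDegree_lt (by omega)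
    have h1 : C (C e1) * w3 * F =
        ∑ i ∈ Finset.range (r + 2), C (C (e1 * f.coeff i)) * w3 ^ (r + 1 - i) * w5 ^ i := by
      rw [Finset.sum_range_succ, hz, hF, Finset.mul_sum]
      simp only [mul_zero, C_0, zero_mul, add_zero]
      refine Finset.sum_congr rfl fun i hi => ?_
      rw [Finset.mem_range] at hi
      rw [show r + 1 - i = (r - i) + 1 by omega, pow_succ, C_mul, C_mul]
      ring
    have h2 : C (C e2) * w5 * F =
        ∑ i ∈ Finset.range (r + 2), C (C (e2 * (X * f).coeff i)) * w3 ^ (r + 1 - i) * w5 ^ i := by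
      rw [Finset.sum_range_succ', hF, Finset.mul_sum]
      simp only [coeff_X_mul_zero, mul_zero, C_0, zero_mul, add_zero, coeff_X_mul]
      refine Finset.sum_congr rfl fun i hi => ?_
      rw [Finset.mem_range] at hi
      rw [show r + 1 - (i + 1) = r - i by omega, pow_succ, C_mul, C_mul]
      ring
    rw [add_mul, h1, h2, ← Finset.sum_add_distrib]
    refine Finset.sum_congr rfl fun i _ => ?_
    have : ((C e1 + C e2 * X) * f).coeff i = e1 * f.coeff i + e2 * (X * f).coeff i := by
      rw [add_mul, coeff_add, coeff_C_mul, mul_assoc, coeff_C_mul]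
    rw [this, C_add, C_add]; ring

/-- the substitution `(S, T) ↦ (δ - β λ, -γ + α λ)` -/
noncomputable def EE : K0 k →ₐ[k] (P2 k)[X] :=
  ev4 (C px) (C py) (C de + C (-be) * X) (C (-ga) + C al * X)

theorem EE_CC (q : P2 k) : EE (C (C q) : K0 k) = C q := by
  rw [EE, ev4_CC, ev2_C]

theorem hz_mono (q : P2 k) (a b : ℕ) : HZ (a + b) (EE (C (C q) * vs ^ a * vt ^ b))
    (C (C Dp) ^ (a + b) * (C (C q) * vs ^ a * vt ^ b)) := by
  rw [map_mul, map_mul, map_pow, map_pow, EE_CC]
  have e1 : EE (vs : K0 k) = C de + C (-be) * X := by rw [EE, ev4_vs]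
  have e2 : EE (vt : K0 k) = C (-ga) + C al * X := by rw [EE, ev4_vt]
  rw [e1, e2]
  induction a with
  | zero =>
    induction b with
    | zero => simpa using HZ.const q
    | succ b ih =>
      have := ih.step (-ga) al
      convert this using 1
      · ring
      · ring
      · have hd := det_vt (k := k)
        have e : (C (C (-ga)) * w3 + C (C al) * w5 : K0 k) = C (C Dp) * vt := by
          rw [hd, C_neg, C_neg]
        rw [e]; ring
  | succ a ih =>
    have := ih.step de (-be)
    convert this using 1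
    · ring
    · ring
    · have hd := det_vs (k := k)
      have e : (C (C de) * w3 + C (C (-be)) * w5 : K0 k) = C (C Dp) * vs := by
        rw [hd, C_neg, C_neg]; ring
      rw [e]; ring

theorem hz_main (r : ℕ) (Q : K0 k) : HZ r (EE (ld r Q)) (C (C Dp) ^ r * ld r Q) := by
  rw [ld_eq_sum, map_sum, Finset.mul_sum]
  refine HZ.sum _ fun a ha => ?_
  rw [Finset.mem_range] at ha
  have := hz_mono (cf Q a (r - a)) a (r - a)
  rwa [show a + (r - a) = r by omega] at this

end expand

end Pool.Agent.Helper392_GT
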