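import Pool.Agent.Helper392_GT.Dep
import Pool.Agent.Helper392_GT.Defs2

namespace Pool.Agent.Helper392_GT

open Polynomial

universe u v

set_option linter.unusedSimpArgs false
set_option linter.unusedVariables false

attribute [local instance 100] LieRing.ofAssociativeRing

section calc1

variable {k : Type u} [Field k]

theorem dy_add (f g : P2 k) : dy (f + g) = dy f + dy g := by simp [dy]

theorem dy_sub (f g : P2 k) : dy (f - g) = dy f - dy g := by simp [dy]

theorem dy_mul (f g : P2 k) : dy (f * g) = f * dy g + g * dy f := by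
  rw [dy, map_mul, derivative_mul, map_add, map_mul, map_mul]
  simp only [AlgEquiv.apply_symm_apply, dy]
  ring

theorem dy_px : dy (px : P2 k) = 0 := by simp [dy, px]

theorem dy_py : dy (py : P2 k) = 1 := by simp [dy, py]

theorem dy_algebraMap (c : k) : dy (algebraMap k (P2 k) c) = 0 := by
  have e2 : (sl (k := k)).symm (algebraMap k (P2 k) c) = C (C c) := rfl
  rw [dy, e2, derivative_C, map_zero]

theorem dy_aeval (q : P2 k) (G : k[X]) : dy (aeval q G) = aeval q (derivative G) * dy q := by
  induction G using Polynomial.induction_on' with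
  | add p r hp hr => rw [map_add, dy_add, hp, hr, derivative_add, map_add, add_mul]
  | monomial n a =>
    induction n with
    | zero =>
      rw [monomial_zero_left, aeval_C, dy_algebraMap, derivative_C, map_zero, zero_mul]
    | succ n ih =>
      rw [← X_mul_monomial, map_mul, dy_mul, ih, aeval_X, derivative_mul, derivative_X, one_mul,
        map_add, map_mul, aeval_X]
      ring

/-- restriction to `y = 0` -/
noncomputable def c0 (f : P2 k) : k[X] := ((sl (k := k)).symm f).coeff 0

theorem c0_add (f g : P2 k) : c0 (f + g) = c0 f + c0 g := by simp [c0]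

theorem c0_mul (f g : P2 k) : c0 (f * g) = c0 f * c0 g := by simp [c0, mul_coeff_zero]

theorem c0_px : c0 (px : P2 k) = X := by simp [c0, px]

theorem c0_py : c0 (py : P2 k) = 0 := by simp [c0, py]

theorem c0_algebraMap (c : k) : c0 (algebraMap k (P2 k) c) = C c := by
  have e2 : (sl (k := k)).symm (algebraMap k (P2 k) c) = C (C c) := rfl
  rw [c0, e2, coeff_C_zero]

theorem c0_aeval (q : P2 k) (G : k[X]) : c0 (aeval q G) = aeval (c0 q) G := by
  induction G using Polynomial.induction_on' with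
  | add p r hp hr => rw [map_add, c0_add, hp, hr, map_add]
  | monomial n a =>
    induction n with
    | zero => rw [monomial_zero_left, aeval_C, c0_algebraMap, aeval_C]; rfl
    | succ n ih => rw [← X_mul_monomial, map_mul, map_mul, c0_mul, ih, aeval_X, aeval_X]

theorem ev2_zero {K : Type v} [CommRing K] [Algebra k K] (a : K) (f : P2 k) :
    ev2 a 0 f = aeval a (c0 f) := by
  refine P2_ind (fun f => ev2 a 0 f = aeval a (c0 f)) ?_ ?_ ?_ ?_ f
  · intro p q hp hq
    rw [map_add, c0_add, map_add, hp, hq]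
  · intro c
    rw [c0_algebraMap, aeval_C, AlgHom.commutes]
  · intro p hp
    rw [map_mul, c0_mul, map_mul, hp, c0_px, ev2_px, aeval_X]
  · intro p hp
    rw [map_mul, c0_mul, map_mul, c0_py, ev2_py, map_zero, zero_mul, zero_mul]

theorem eq_zero_of_dy [CharZero k] {E : P2 k} (h : dy E = 0) (h0 : c0 E = 0) : E = 0 := by
  have h1 : derivative ((sl (k := k)).symm E) = 0 := by
    have := congrArg (sl (k := k)).symm h
    rw [dy, AlgEquiv.symm_apply_apply, map_zero] at this
    exact this
  have h6 := derivative_eq_zero.mp h1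
  have h8 : (sl (k := k)).symm E = 0 := by
    rw [eq_C_of_natDegree_eq_zero h6]
    have : ((sl (k := k)).symm E).coeff 0 = 0 := h0
    rw [this, C_0]
  have := congrArg (sl (k := k)) h8
  rwa [AlgEquiv.apply_symm_apply, map_zero] at this

theorem ev2_nat {K K' : Type v} [CommRing K] [Algebra k K] [CommRing K'] [Algebra k K']
    (φ : K →ₐ[k] K') (a b : K) (f : P2 k) : φ (ev2 a b f) = ev2 (φ a) (φ b) f := by
  have : φ.comp (ev2 (k := k) a b) = ev2 (φ a) (φ b) := by
    apply P2_hom_ext <;> simp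
  exact congrArg (fun h : P2 k →ₐ[k] K' => h f) this

theorem exists_anti [CharZero k] (c : k[X]) : ∃ G : k[X], derivative G = X * c ∧ G.coeff 0 = 0 ∧
    ∀ i, G.coeff (i + 2) * ((i : k) + 2) = c.coeff i := by
  refine ⟨c.sum fun i a => monomial (i + 2) (a / ((i : k) + 2)), ?_, ?_, ?_⟩
  · rw [Polynomial.sum, derivative_sum]
    have : ∀ i : ℕ, derivative (monomial (i + 2) (c.coeff i / ((i : k) + 2))) =
        X * monomial i (c.coeff i) := by
      intro i
      rw [derivative_monomial, X_mul_monomial]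
      have h2 : ((i : k) + 2) ≠ 0 := by exact_mod_cast (by omega : i + 2 ≠ 0)
      have e : i + 2 - 1 = i + 1 := by omega
      rw [e]
      congr 1
      push_cast
      field_simp
    simp only [this]
    rw [← Finset.mul_sum]
    congr 1
    exact (Polynomial.as_sum_support c).symm
  · rw [Polynomial.sum, finsetSum_coeff]
    refine Finset.sum_eq_zero fun i _ => ?_
    rw [coeff_monomial, if_neg (by omega)]
  · intro i
    rw [Polynomial.sum, finsetSum_coeff]
    have : ∀ j, (monomial (j + 2) (c.coeff j / ((j : k) + 2))).coeff (i + 2) =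
        if j = i then c.coeff j / ((j : k) + 2) else 0 := by
      intro j
      rw [coeff_monomial]
      simp
    simp only [this]
    rw [Finset.sum_ite_eq']
    have h2 : ((i : k) + 2) ≠ 0 := by exact_mod_cast (by omega : i + 2 ≠ 0)
    split_ifs with h
    · field_simp
    · rw [notMem_support_iff] at h
      rw [h, zero_mul]

end calc1

section flevel

variable {k : Type u} [Field k]

/-- `f` is symmetric -/
theorem f_symm {ψ : F2 k} (hp : Pentagon k ψ) (hψ : ψ ∈ D1 k) {f : P2 k} (hf : ψ - gm k f ∈ D2 k)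
    {K : Type u} [CommRing K] [IsDomain K] [Algebra k K] (a b : K) (ha : a ≠ 0) :
    ev2 b a f = ev2 a b f := by
  have h := antisymm hp hψ (mkM (a : K) 0 0 0 0 0 0 0 0) (mkM b 0 0 0 1 0 0 0 0)
  have h2 := congrFun (congrFun h 0) 1
  have hA := mkM_dia (a : K) 0 0 0 0 0 0 0 0
  have hB := mkM_dia (b : K) 0 0 0 1 0 0 0 0
  have e1 := (gm_entries (k := k) hA hB f).1
  have e2 := (gm_entries (k := k) hB hA f).1
  have z1 := (zo_D2 (k := k) hA hB hf).1
  have z2 := (zo_D2 (k := k) hB hA hf).1
  rw [map_sub, Matrix.sub_apply, sub_eq_zero] at z1 z2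
  rw [Matrix.neg_apply, z1, z2, e1, e2, mkM_lie, mkM_lie] at h2
  simp only [mkM_00, mkM_01, mkM_11, sub_zero, mul_zero, mul_one, zero_sub] at h2
  have h3 : a * (ev2 b a f - ev2 a b f) = 0 := by linear_combination (-1 : K) * h2
  exact sub_eq_zero.mp ((mul_eq_zero.mp h3).resolve_left ha)

/-- the hexagon for `f` -/
theorem f_hexa {ψ : F2 k} (hψ : ψ ∈ D1 k) (hh : subst k (gx k) (gy k) ψ
      + subst k (gy k) (-gx k - gy k) ψ + subst k (-gx k - gy k) (gx k) ψ = 0)
    {f : P2 k} (hf : ψ - gm k f ∈ D2 k)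
    {K : Type u} [CommRing K] [IsDomain K] [Algebra k K] (a b : K) (ha : a ≠ 0) :
    ev2 a b f + ev2 b (-a - b) f + ev2 (-a - b) a f = 0 := by
  have h := congrArg (subst k (mkM (a : K) 0 0 0 0 0 0 0 0) (mkM b 0 0 0 1 0 0 0 0)) hh
  rw [map_add, map_add, map_zero, map_subst, map_subst, map_subst] at h
  simp only [map_sub, map_neg, subst_x, subst_y] at h
  have eC : -mkM (a : K) 0 0 0 0 0 0 0 0 - mkM b 0 0 0 1 0 0 0 0 =
      mkM (-a - b) 0 0 0 (-1) 0 0 0 0 := by
    have e1 : -mkM (a : K) 0 0 0 0 0 0 0 0 = mkM (-a) 0 0 0 0 0 0 0 0 := by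
      have := mkM_smul (a : K) 0 0 0 0 0 0 0 0 (-1)
      rw [neg_one_smul] at this
      simpa using this
    have e2 : -mkM (b : K) 0 0 0 1 0 0 0 0 = mkM (-b) 0 0 0 (-1) 0 0 0 0 := by
      have := mkM_smul (b : K) 0 0 0 1 0 0 0 0 (-1)
      rw [neg_one_smul] at this
      simpa using this
    rw [sub_eq_add_neg, e1, e2, mkM_add]
    congr 1 <;> ring
  rw [eC] at h
  have h2 := congrFun (congrFun h 0) 1
  have hA := mkM_dia (a : K) 0 0 0 0 0 0 0 0
  have hB := mkM_dia (b : K) 0 0 0 1 0 0 0 0
  have hC := mkM_dia (-a - b : K) 0 0 0 (-1) 0 0 0 0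
  have e1 := (gm_entries (k := k) hA hB f).1
  have e2 := (gm_entries (k := k) hB hC f).1
  have e3 := (gm_entries (k := k) hC hA f).1
  have z1 := (zo_D2 (k := k) hA hB hf).1
  have z2 := (zo_D2 (k := k) hB hC hf).1
  have z3 := (zo_D2 (k := k) hC hA hf).1
  rw [map_sub, Matrix.sub_apply, sub_eq_zero] at z1 z2 z3
  rw [Matrix.add_apply, Matrix.add_apply, z1, z2, z3, e1, e2, e3, mkM_lie, mkM_lie, mkM_lie] at h2
  simp only [mkM_00, mkM_01, mkM_11, sub_zero, mul_zero, mul_one, zero_sub, Matrix.zero_apply] at h2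
  have h3 : a * (ev2 a b f + ev2 b (-a - b) f + ev2 (-a - b) a f) = 0 := by
    linear_combination h2
  exact (mul_eq_zero.mp h3).resolve_left ha

/-- the cocycle formula -/
theorem cocycle_formula [CharZero k] {f : P2 k} {G : k[X]}
    (hG : derivative G = X * c0 f) (hG0 : G.coeff 0 = 0)
    (hF : ∀ (K : Type u) [CommRing K] [Algebra k K] (a b c : K),
      a * b * ev2 a b f + (a + b) * c * ev2 (a + b) c f
        = b * c * ev2 b c f + a * (b + c) * ev2 a (b + c) f) :
    px * py * f = aeval (px + py) G - aeval px G - aeval py G := by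
  have h1 := hF (P2 k)[X] (C px) (C py) X
  have h2 : ev2 (C px : (P2 k)[X]) (C py + X) (px * py * f) =
      C px * C py * ev2 (C px : (P2 k)[X]) (C py) f
        + X * ((C px + C py) * ev2 (C px + C py) X f - C py * ev2 (C py) X f) := by
    simp only [map_mul, ev2_px, ev2_py]
    linear_combination (-1 : (P2 k)[X]) * h1
  have h3 := congrArg (fun p => coeff p 1) h2
  have hz : ∀ a : P2 k, (ev2 (C a : (P2 k)[X]) X f).coeff 0 = aeval a (c0 f) := by
    intro a
    have := ev2_nat (k := k) ((aeval (R := P2 k) (0 : P2 k)).restrictScalars k) (C a : (P2 k)[X]) X f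
    simp only [AlgHom.restrictScalars_apply, aeval_C, aeval_X] at this
    rw [coeff_zero_eq_aeval_zero, this]
    exact ev2_zero a f
  have h4 : dy (px * py * f) = (px + py) * aeval (px + py) (c0 f) - py * aeval py (c0 f) := by
    rw [(coeff_shift _).2] at h3
    rw [h3, ev2_C, coeff_add, show (1 : ℕ) = 0 + 1 from rfl, coeff_X_mul, ← C_mul, ← C_mul,
      coeff_C_succ, coeff_sub, mul_coeff_zero, mul_coeff_zero, ← C_add, hz, hz, coeff_C_zero,
      coeff_C_zero, zero_add]
  have h5 : dy (aeval (px + py) G - aeval px G - aeval py G : P2 k) =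
      (px + py) * aeval (px + py) (c0 f) - py * aeval py (c0 f) := by
    rw [dy_sub, dy_sub, dy_aeval, dy_aeval, dy_aeval, dy_add, dy_px, dy_py, hG]
    simp only [map_mul, aeval_X]
    ring
  have h6 : dy (px * py * f - (aeval (px + py) G - aeval px G - aeval py G)) = 0 := by
    rw [dy_sub, h4, h5, sub_self]
  have h7 : c0 (px * py * f - (aeval (px + py) G - aeval px G - aeval py G)) = 0 := by
    have hs : ∀ a b : P2 k, c0 (a - b) = c0 a - c0 b := fun a b => by simp [c0]
    rw [hs, hs, hs, c0_mul, c0_mul, c0_aeval, c0_aeval, c0_aeval, c0_add, c0_px, c0_py, add_zero]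
    have : aeval (0 : k[X]) G = 0 := by
      rw [aeval_def, eval₂_at_zero, hG0, map_zero]
    rw [this]; ring
  exact sub_eq_zero.mp (eq_zero_of_dy h6 h7)

/-- the even coefficients of `f(x,0)` vanish -/
theorem c0_even [CharZero k] {ψ : F2 k} (hg : IsGRT k ψ) (hψ : ψ ∈ D1 k) {f : P2 k}
    (hf : ψ - gm k f ∈ D2 k) (i : ℕ) (hi : Even i) : (c0 f).coeff i = 0 := by
  obtain ⟨G, hG, hG0, hGc⟩ := exists_anti (c0 f)
  have hF := cocycle_formula hG hG0 (fun K _ _ a b c => relF hg.pent hψ hf a b c)
  have hX : (X : k[X]) ≠ 0 := X_ne_zero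
  have h1 := f_hexa (K := k[X]) hψ hg.hexa hf X 0 hX
  have h2 := f_symm (K := k[X]) hg.pent hψ hf (-X) 0 (neg_ne_zero.mpr hX)
  have h3 := congrArg (ev2 (-X : k[X]) X) hF
  have e1 : (-X - 0 : k[X]) = -X := by ring
  rw [e1, h2, ev2_zero, ev2_zero] at h1
  simp only [map_mul, map_sub, map_add, ev2_px, ev2_py, ← aeval_algHom_apply] at h3
  have e2 : (-X + X : k[X]) = 0 := by ring
  have e3 : aeval (0 : k[X]) G = 0 := by
    rw [aeval_def, eval₂_at_zero, hG0, map_zero]
  rw [e2, e3] at h3
  have h4 : X * (X * (aeval X (c0 f) + aeval (-X : k[X]) (c0 f))) + (aeval (X : k[X]) G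
      + aeval (-X : k[X]) G) = 0 := by
    linear_combination X ^ 2 * h1 + h3
  have h5 := congrArg (fun p => coeff p (i + 2)) h4
  have hneg : ∀ (p : k[X]) (j : ℕ), Even j → (aeval (-X : k[X]) p).coeff j = p.coeff j := by
    intro p j hj
    have : aeval (-X : k[X]) p = p.comp (C (-1) * X) := by
      rw [C_neg, C_1, neg_one_mul]; rfl
    rw [this, comp_C_mul_X_coeff, hj.neg_one_pow, mul_one]
  have hi2 : Even (i + 2) := by
    obtain ⟨r, hr⟩ := hi
    exact ⟨r + 1, by omega⟩
  simp only [coeff_add, show i + 2 = (i + 1) + 1 from rfl, coeff_X_mul, coeff_zero] at h5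
  rw [show i + 1 + 1 = i + 2 from rfl] at h5
  rw [hneg _ _ hi, hneg _ _ hi2, aeval_X_left_apply, aeval_X_left_apply] at h5
  have h6 := hGc i
  have h7 : (2 : k) * (c0 f).coeff i * ((i : k) + 3) = 0 := by
    linear_combination ((i : k) + 2) * h5 - 2 * h6
  have h8 : ((i : k) + 3) ≠ 0 := by exact_mod_cast (by omega : i + 3 ≠ 0)
  have h9 := (mul_eq_zero.mp h7).resolve_right h8
  exact (mul_eq_zero.mp h9).resolve_left two_ne_zero

end flevel

end Pool.Agent.Helper392_GT
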