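import Pool.Agent.Helper392_GT.Abel

namespace Pool.Agent.Helper392_GT

open Polynomial

universe u v

set_option linter.unusedSimpArgs false
set_option linter.unusedVariables false

attribute [local instance 100] LieRing.ofAssociativeRing

section coeffs

variable {k : Type u} [CommRing k]

theorem ev2_C (f : P2 k) : ev2 (C px : (P2 k)[X]) (C py) f = C f := by
  have : ev2 (C px : (P2 k)[X]) (C py) = (CAlgHom : P2 k →ₐ[P2 k] (P2 k)[X]).restrictScalars k := by
    apply P2_hom_ext <;> simp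
  rw [this]; rfl

theorem ev4_s0 (P : (P2 k)[X][X]) :
    ev4 (k := k) (C px : (P2 k)[X]) (C py) X 0 P = P.coeff 0 := by
  refine poly_ind (fun P => ev4 (k := k) (C px : (P2 k)[X]) (C py) X 0 P = P.coeff 0) ?_ ?_ ?_ P
  · intro p q hp hq
    rw [map_add, hp, hq, coeff_add]
  · intro q
    rw [coeff_C_zero]
    refine poly_ind (fun q => ev4 (k := k) (C px : (P2 k)[X]) (C py) X 0 (C q) = q) ?_ ?_ ?_ q
    · intro p q hp hq
      rw [C_add, map_add, hp, hq]
    · intro a
      rw [ev4_CC, ev2_C]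
    · intro p hp
      rw [C_mul, map_mul, hp, ev4_CX]
  · intro p _
    rw [map_mul, ev4_X, zero_mul, coeff_X_mul_zero]

theorem ev4_0t (P : (P2 k)[X][X]) (j : ℕ) :
    (ev4 (k := k) (C px : (P2 k)[X]) (C py) 0 X P).coeff j = (P.coeff j).coeff 0 := by
  refine poly_ind (fun P => ∀ j, (ev4 (k := k) (C px : (P2 k)[X]) (C py) 0 X P).coeff j =
    (P.coeff j).coeff 0) ?_ ?_ ?_ P j
  · intro p q hp hq j
    rw [map_add, coeff_add, hp, hq, coeff_add, coeff_add]
  · intro q
    refine poly_ind (fun q => ∀ j, (ev4 (k := k) (C px : (P2 k)[X]) (C py) 0 X (C q)).coeff j =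
      (coeff (C q) j).coeff 0) ?_ ?_ ?_ q
    · intro p q hp hq j
      rw [C_add, map_add, coeff_add, hp, hq, coeff_add, coeff_add]
    · intro a j
      rw [ev4_CC, ev2_C, coeff_C, coeff_C]
      split_ifs <;> simp
    · intro p hp j
      rw [C_mul, map_mul, ev4_CX, zero_mul, ← C_mul, coeff_C]
      split_ifs <;> simp
  · intro p hp j
    rw [map_mul, ev4_X]
    cases j with
    | zero => simp
    | succ j => rw [coeff_X_mul, coeff_X_mul, hp]

/-- the coefficient of `X^i Y^j` -/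
noncomputable def cf (P : (P2 k)[X][X]) (i j : ℕ) : P2 k := (P.coeff j).coeff i

theorem ev4_anti (P : (P2 k)[X][X]) :
    (ev4 (k := k) (C px : (P2 k)[X]) (C py) X (-X) P).coeff 0 = cf P 0 0 ∧
    (ev4 (k := k) (C px : (P2 k)[X]) (C py) X (-X) P).coeff 1 = cf P 1 0 - cf P 0 1 ∧
    (ev4 (k := k) (C px : (P2 k)[X]) (C py) X (-X) P).coeff 2 = cf P 2 0 - cf P 1 1 + cf P 0 2 := by
  refine poly_ind (fun P =>
    (ev4 (k := k) (C px : (P2 k)[X]) (C py) X (-X) P).coeff 0 = cf P 0 0 ∧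
    (ev4 (k := k) (C px : (P2 k)[X]) (C py) X (-X) P).coeff 1 = cf P 1 0 - cf P 0 1 ∧
    (ev4 (k := k) (C px : (P2 k)[X]) (C py) X (-X) P).coeff 2 =
      cf P 2 0 - cf P 1 1 + cf P 0 2) ?_ ?_ ?_ P
  · rintro p q ⟨h0, h1, h2⟩ ⟨g0, g1, g2⟩
    simp only [cf] at *
    simp only [map_add, coeff_add, h0, h1, h2, g0, g1, g2]
    refine ⟨trivial, ?_, ?_⟩ <;> ring
  · intro q
    have hq : ev4 (k := k) (C px : (P2 k)[X]) (C py) X (-X) (C q) = q := by
      refine poly_ind (fun q => ev4 (k := k) (C px : (P2 k)[X]) (C py) X (-X) (C q) = q) ?_ ?_ ?_ q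
      · intro p q hp hq
        rw [C_add, map_add, hp, hq]
      · intro a
        rw [ev4_CC, ev2_C]
      · intro p hp
        rw [C_mul, map_mul, hp, ev4_CX]
    rw [hq]
    simp [cf, coeff_C]
  · rintro p ⟨h0, h1, h2⟩
    have e0 : ∀ i, cf (X * p) i 0 = 0 := fun i => by simp [cf]
    have e1 : ∀ i j, cf (X * p) i (j + 1) = cf p i j := fun i j => by
      simp only [cf, coeff_X_mul]
    have f0 : ∀ q : (P2 k)[X], (-X * q).coeff 0 = 0 := fun q => by simp
    have f1 : ∀ (q : (P2 k)[X]) (n : ℕ), (-X * q).coeff (n + 1) = - q.coeff n := fun q n => by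
      rw [neg_mul, coeff_neg, coeff_X_mul]
    rw [map_mul, ev4_X]
    refine ⟨?_, ?_, ?_⟩
    · rw [f0, e0]
    · rw [show (1 : ℕ) = 0 + 1 from rfl, f1, e0, e1, h0]; ring
    · rw [show (2 : ℕ) = 1 + 1 from rfl, f1, show cf (X * p) 1 1 = cf p 1 0 from e1 1 0,
        show cf (X * p) 0 (1 + 1) = cf p 0 1 from e1 0 1, show cf (X * p) (1 + 1) 0 = 0 from e0 2, h1]
      ring

end coeffs

section lcs

variable {k : Type u} [CommRing k]

theorem lcs_anti (N : LieIdeal k (F2 k)) {m n : ℕ} (h : m ≤ n) : LieSubmodule.lcs n N ≤ LieSubmodule.lcs m N := by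
  induction n, h using Nat.le_induction with
  | base => exact le_rfl
  | succ n _ ih =>
    rw [LieSubmodule.lcs_succ]
    exact (LieSubmodule.lie_le_right _ _).trans ih

theorem ad_pow_lcs (N : LieIdeal k (F2 k)) (z v : F2 k) {n : ℕ} (hv : v ∈ LieSubmodule.lcs n N) (i : ℕ) :
    ((LieAlgebra.ad k (F2 k) z) ^ i) v ∈ LieSubmodule.lcs (i + n) N := by
  induction i with
  | zero => simpa using hv
  | succ i ih =>
    rw [pow_succ', show i + 1 + n = (i + n) + 1 by ring, LieSubmodule.lcs_succ]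
    exact LieSubmodule.lie_mem_lie (LieSubmodule.mem_top z) ih

theorem bt_lcs (P : (P2 k)[X][X]) (m : ℕ) (h : ∀ i j, i + j < m → cf P i j = 0) :
    bt k P ∈ LieSubmodule.lcs m (D2 k) := by
  rw [bt, pext_apply, Polynomial.sum]
  refine (LieSubmodule.toSubmodule _).sum_mem ?_
  intro j _
  rw [bt1, pext_apply, Polynomial.sum, map_sum]
  refine (LieSubmodule.toSubmodule _).sum_mem ?_
  intro i hi
  change _ ∈ LieSubmodule.lcs m (D2 k)
  have h0 : bt0 k ((P.coeff j).coeff i) ∈ LieSubmodule.lcs 0 (D2 k) := mem_D2 (gm_mem _) (mem_D1 _ _)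
  have h1 := ad_pow_lcs (D2 k) (gx k) _ h0 i
  have h2 := ad_pow_lcs (D2 k) (gy k) _ h1 j
  by_cases hij : i + j < m
  · have : (P.coeff j).coeff i = 0 := h i j hij
    exact absurd this (Polynomial.mem_support_iff.mp hi)
  · exact lcs_anti (D2 k) (by omega) h2

end lcs

end Pool.Agent.Helper392_GT
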