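import Pool.Agent.Helper392_GT.Poly

namespace Pool.Agent.Helper392_GT

open Polynomial

universe u v

set_option linter.unusedSimpArgs false

attribute [local instance 100] LieRing.ofAssociativeRing

section five

variable {k : Type u} [CommRing k] {g : Type*} [LieRing g] [LieAlgebra k g]

theorem comm_subst {A B Z : g} (hA : ⁅A, Z⁆ = 0) (hB : ⁅B, Z⁆ = 0) (u : F2 k) :
    ⁅subst k A B u, Z⁆ = 0 := by
  refine free_ind (fun u => ⁅subst k A B u, Z⁆ = 0) ?_ ?_ ?_ ?_ ?_ ?_ u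
  · simp
  · intro a b ha hb
    rw [map_add, add_lie, ha, hb, add_zero]
  · intro c a ha
    rw [map_smul, smul_lie, ha, smul_zero]
  · intro a b ha hb
    rw [LieHom.map_lie, lie_lie, ha, hb, lie_zero, lie_zero, sub_zero]
  · rw [subst_x]; exact hA
  · rw [subst_y]; exact hB

theorem subst_shift {A B Z W : g} (hAZ : ⁅A, Z⁆ = 0) (hBZ : ⁅B, Z⁆ = 0) (hAW : ⁅A, W⁆ = 0)
    (hBW : ⁅B, W⁆ = 0) (hZW : ⁅Z, W⁆ = 0) {u : F2 k} (hu : u ∈ D1 k) :
    subst k (A + Z) (B + W) u = subst k A B u := by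
  have hZ := comm_subst (k := k) hAZ hBZ
  have hW := comm_subst (k := k) hAW hBW
  have hZ' : ∀ u : F2 k, ⁅Z, subst k A B u⁆ = 0 := fun u => by rw [← lie_skew, hZ, neg_zero]
  have hW' : ∀ u : F2 k, ⁅W, subst k A B u⁆ = 0 := fun u => by rw [← lie_skew, hW, neg_zero]
  have hWZ : ⁅W, Z⁆ = 0 := by rw [← lie_skew, hZW, neg_zero]
  have key : ∀ a b : F2 k, (∃ c d : k, subst k (A + Z) (B + W) a = subst k A B a + c • Z + d • W) →
      (∃ c d : k, subst k (A + Z) (B + W) b = subst k A B b + c • Z + d • W) →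
      subst k (A + Z) (B + W) ⁅a, b⁆ = subst k A B ⁅a, b⁆ := by
    rintro a b ⟨c, d, h⟩ ⟨c', d', h'⟩
    rw [LieHom.map_lie, LieHom.map_lie, h, h']
    simp only [lie_add, add_lie, lie_smul, smul_lie, hZ, hW, hZ', hW', hZW, hWZ, lie_self,
      smul_zero, add_zero]
  have all : ∀ u : F2 k, ∃ c d : k, subst k (A + Z) (B + W) u = subst k A B u + c • Z + d • W := by
    intro u
    refine free_ind (fun u => ∃ c d : k,
      subst k (A + Z) (B + W) u = subst k A B u + c • Z + d • W) ?_ ?_ ?_ ?_ ?_ ?_ u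
    · exact ⟨0, 0, by simp⟩
    · rintro a b ⟨c, d, h⟩ ⟨c', d', h'⟩
      refine ⟨c + c', d + d', ?_⟩
      rw [map_add, map_add, h, h', add_smul, add_smul]; abel
    · rintro r a ⟨c, d, h⟩
      refine ⟨r * c, r * d, ?_⟩
      rw [map_smul, map_smul, h, smul_add, smul_add, smul_smul, smul_smul]
    · intro a b ha hb
      exact ⟨0, 0, by rw [key a b ha hb]; simp⟩
    · refine ⟨1, 0, ?_⟩
      rw [subst_x, subst_x]; simp
    · refine ⟨0, 1, ?_⟩
      rw [subst_y, subst_y]; simp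
  refine lie_ind ⊤ ⊤ (fun u => subst k (A + Z) (B + W) u = subst k A B u) ?_ ?_ ?_ ?_ hu
  · simp
  · intro a b ha hb
    rw [map_add, map_add, ha, hb]
  · intro c a ha
    rw [map_smul, map_smul, ha]
  · intro a _ b _
    exact key a b (all a) (all b)

/-- The pentagon in its five-term cyclic form. -/
theorem five {ψ : F2 k} (hp : Pentagon k ψ) (hψ : ψ ∈ D1 k) (X1 X2 X3 X4 X5 : g)
    (r13 : ⁅X1, X3⁆ = 0) (r24 : ⁅X2, X4⁆ = 0) (r35 : ⁅X3, X5⁆ = 0) (r41 : ⁅X4, X1⁆ = 0)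
    (r52 : ⁅X5, X2⁆ = 0)
    (hs : ⁅X1, X2⁆ + ⁅X2, X3⁆ + ⁅X3, X4⁆ + ⁅X4, X5⁆ + ⁅X5, X1⁆ = 0) :
    subst k X1 X5 ψ + subst k X4 X3 ψ
      = subst k X2 X3 ψ + subst k X4 X5 ψ + subst k X1 X2 ψ := by
  have r31 : ⁅X3, X1⁆ = 0 := by rw [← lie_skew, r13, neg_zero]
  have r42 : ⁅X4, X2⁆ = 0 := by rw [← lie_skew, r24, neg_zero]
  have r53 : ⁅X5, X3⁆ = 0 := by rw [← lie_skew, r35, neg_zero]
  have r14 : ⁅X1, X4⁆ = 0 := by rw [← lie_skew, r41, neg_zero]
  have r25 : ⁅X2, X5⁆ = 0 := by rw [← lie_skew, r52, neg_zero]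
  have s21 : ⁅X2, X1⁆ = -⁅X1, X2⁆ := by rw [lie_skew]
  have s32 : ⁅X3, X2⁆ = -⁅X2, X3⁆ := by rw [lie_skew]
  have s43 : ⁅X4, X3⁆ = -⁅X3, X4⁆ := by rw [lie_skew]
  have s54 : ⁅X5, X4⁆ = -⁅X4, X5⁆ := by rw [lie_skew]
  have s51 : ⁅X5, X1⁆ = -(⁅X1, X2⁆ + ⁅X2, X3⁆ + ⁅X3, X4⁆ + ⁅X4, X5⁆) := by
    rw [eq_neg_iff_add_eq_zero, ← hs]; abel
  have s15 : ⁅X1, X5⁆ = ⁅X1, X2⁆ + ⁅X2, X3⁆ + ⁅X3, X4⁆ + ⁅X4, X5⁆ := by
    rw [← lie_skew, s51, neg_neg]
  let t : Fin 4 → Fin 4 → g := ![![0, X1, X4 - X1 - X2, X2 - X4 - X5],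
    ![X1, 0, X2, X5 - X2 - X3], ![X4 - X1 - X2, X2, 0, X3], ![X2 - X4 - X5, X5 - X2 - X3, X3, 0]]
  have q1 : ⁅X4 - X1 - X2, X5 - X2 - X3⁆ = 0 := by
    simp only [lie_add, lie_sub, add_lie, sub_lie, lie_self, r13, r31, r24, r42, r35, r53, r41,
      r14, r52, r25, s21, s32, s43, s54, s51, s15]
    abel
  have q2 : ⁅X5 - X2 - X3, X4 - X1 - X2⁆ = 0 := by
    simp only [lie_add, lie_sub, add_lie, sub_lie, lie_self, r13, r31, r24, r42, r35, r53, r41,
      r14, r52, r25, s21, s32, s43, s54, s51, s15]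
    abel
  have q3 : ⁅X2 - X4 - X5, X2⁆ = 0 := by
    simp only [lie_add, lie_sub, add_lie, sub_lie, lie_self, r13, r31, r24, r42, r35, r53, r41,
      r14, r52, r25, s21, s32, s43, s54, s51, s15]
    abel
  have q4 : ⁅X2, X2 - X4 - X5⁆ = 0 := by
    simp only [lie_add, lie_sub, add_lie, sub_lie, lie_self, r13, r31, r24, r42, r35, r53, r41,
      r14, r52, r25, s21, s32, s43, s54, s51, s15]
    abel
  have w1 : ⁅X1, (X4 - X1 - X2) + X2⁆ = 0 := by
    simp only [lie_add, lie_sub, add_lie, sub_lie, lie_self, r13, r31, r24, r42, r35, r53, r41,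
      r14, r52, r25, s21, s32, s43, s54, s51, s15]
    abel
  have w2 : ⁅X1, (X2 - X4 - X5) + (X5 - X2 - X3)⁆ = 0 := by
    simp only [lie_add, lie_sub, add_lie, sub_lie, lie_self, r13, r31, r24, r42, r35, r53, r41,
      r14, r52, r25, s21, s32, s43, s54, s51, s15]
    abel
  have w3 : ⁅X4 - X1 - X2, X1 + X2⁆ = 0 := by
    simp only [lie_add, lie_sub, add_lie, sub_lie, lie_self, r13, r31, r24, r42, r35, r53, r41,
      r14, r52, r25, s21, s32, s43, s54, s51, s15]
    abel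
  have w4 : ⁅X4 - X1 - X2, (X2 - X4 - X5) + X3⁆ = 0 := by
    simp only [lie_add, lie_sub, add_lie, sub_lie, lie_self, r13, r31, r24, r42, r35, r53, r41,
      r14, r52, r25, s21, s32, s43, s54, s51, s15]
    abel
  have w5 : ⁅X2 - X4 - X5, X1 + (X5 - X2 - X3)⁆ = 0 := by
    simp only [lie_add, lie_sub, add_lie, sub_lie, lie_self, r13, r31, r24, r42, r35, r53, r41,
      r14, r52, r25, s21, s32, s43, s54, s51, s15]
    abel
  have w6 : ⁅X2 - X4 - X5, (X4 - X1 - X2) + X3⁆ = 0 := by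
    simp only [lie_add, lie_sub, add_lie, sub_lie, lie_self, r13, r31, r24, r42, r35, r53, r41,
      r14, r52, r25, s21, s32, s43, s54, s51, s15]
    abel
  have w7 : ⁅X2, X1 + (X4 - X1 - X2)⁆ = 0 := by
    simp only [lie_add, lie_sub, add_lie, sub_lie, lie_self, r13, r31, r24, r42, r35, r53, r41,
      r14, r52, r25, s21, s32, s43, s54, s51, s15]
    abel
  have w8 : ⁅X2, (X5 - X2 - X3) + X3⁆ = 0 := by
    simp only [lie_add, lie_sub, add_lie, sub_lie, lie_self, r13, r31, r24, r42, r35, r53, r41,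
      r14, r52, r25, s21, s32, s43, s54, s51, s15]
    abel
  have w9 : ⁅X5 - X2 - X3, X1 + (X2 - X4 - X5)⁆ = 0 := by
    simp only [lie_add, lie_sub, add_lie, sub_lie, lie_self, r13, r31, r24, r42, r35, r53, r41,
      r14, r52, r25, s21, s32, s43, s54, s51, s15]
    abel
  have w10 : ⁅X5 - X2 - X3, X2 + X3⁆ = 0 := by
    simp only [lie_add, lie_sub, add_lie, sub_lie, lie_self, r13, r31, r24, r42, r35, r53, r41,
      r14, r52, r25, s21, s32, s43, s54, s51, s15]
    abel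
  have w11 : ⁅X3, (X4 - X1 - X2) + (X2 - X4 - X5)⁆ = 0 := by
    simp only [lie_add, lie_sub, add_lie, sub_lie, lie_self, r13, r31, r24, r42, r35, r53, r41,
      r14, r52, r25, s21, s32, s43, s54, s51, s15]
    abel
  have w12 : ⁅X3, X2 + (X5 - X2 - X3)⁆ = 0 := by
    simp only [lie_add, lie_sub, add_lie, sub_lie, lie_self, r13, r31, r24, r42, r35, r53, r41,
      r14, r52, r25, s21, s32, s43, s54, s51, s15]
    abel
  have h1 : ∀ i, t i i = 0 := by
    intro i; fin_cases i <;> rfl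
  have h2 : ∀ i j, t i j = t j i := by
    intro i j; fin_cases i <;> fin_cases j <;> rfl
  have h3 : ∀ i j l m, i ≠ j → i ≠ l → i ≠ m → j ≠ l → j ≠ m → l ≠ m → ⁅t i j, t l m⁆ = 0 := by
    intro i j l m a1 a2 a3 a4 a5 a6
    fin_cases i <;> fin_cases j <;> fin_cases l <;> fin_cases m <;>
    first
    | exact absurd rfl a1
    | exact absurd rfl a2
    | exact absurd rfl a3
    | exact absurd rfl a4
    | exact absurd rfl a5
    | exact absurd rfl a6
    | exact r13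
    | exact r31
    | exact q1
    | exact q2
    | exact q3
    | exact q4
  have h4 : ∀ i j l, i ≠ j → i ≠ l → j ≠ l → ⁅t i j, t i l + t j l⁆ = 0 := by
    intro i j l a1 a2 a3
    fin_cases i <;> fin_cases j <;> fin_cases l <;>
    first
    | exact absurd rfl a1
    | exact absurd rfl a2
    | exact absurd rfl a3
    | exact w1
    | exact w2
    | exact w3
    | exact w4
    | exact w5
    | exact w6
    | exact w7
    | exact w8
    | exact w9
    | exact w10
    | exact w11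
    | exact w12
    | (rw [add_comm]; exact w1)
    | (rw [add_comm]; exact w2)
    | (rw [add_comm]; exact w3)
    | (rw [add_comm]; exact w4)
    | (rw [add_comm]; exact w5)
    | (rw [add_comm]; exact w6)
    | (rw [add_comm]; exact w7)
    | (rw [add_comm]; exact w8)
    | (rw [add_comm]; exact w9)
    | (rw [add_comm]; exact w10)
    | (rw [add_comm]; exact w11)
    | (rw [add_comm]; exact w12)
  have hmain := pentagon_apply hp t h1 h2 h3 h4
  have e1 : subst k (t 0 1) (t 1 2 + t 1 3) ψ = subst k X1 X5 ψ := by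
    have : t 1 2 + t 1 3 = X5 + (-X3) := by
      change X2 + (X5 - X2 - X3) = X5 + (-X3); abel
    have h0 : t 0 1 = X1 + 0 := by rw [add_zero]; rfl
    rw [this, h0]
    apply subst_shift _ _ _ _ _ hψ <;> simp [r13, r53]
  have e2 : subst k (t 0 2 + t 1 2) (t 2 3) ψ = subst k X4 X3 ψ := by
    have : t 0 2 + t 1 2 = X4 + (-X1) := by
      change (X4 - X1 - X2) + X2 = X4 + (-X1); abel
    have h0 : t 2 3 = X3 + 0 := by rw [add_zero]; rfl
    rw [this, h0]
    apply subst_shift _ _ _ _ _ hψ <;> simp [r41, r31]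
  have e3 : subst k (t 0 1 + t 0 2) (t 1 3 + t 2 3) ψ = subst k X4 X5 ψ := by
    have h : t 0 1 + t 0 2 = X4 + (-X2) := by
      change X1 + (X4 - X1 - X2) = X4 + (-X2); abel
    have h' : t 1 3 + t 2 3 = X5 + (-X2) := by
      change (X5 - X2 - X3) + X3 = X5 + (-X2); abel
    rw [h, h']
    apply subst_shift _ _ _ _ _ hψ <;> simp [r42, r52]
  rw [e1, e2, e3] at hmain
  exact hmain

/-- antisymmetry follows from the pentagon -/
theorem antisymm {ψ : F2 k} (hp : Pentagon k ψ) (hψ : ψ ∈ D1 k) (a b : g) :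
    subst k b a ψ = - subst k a b ψ := by
  have h := five (g := g) hp hψ a b a 0 0 (by simp) (by simp) (by simp) (by simp) (by simp)
    (by simp only [lie_zero, zero_lie, add_zero]; rw [← lie_skew a b]; abel)
  have z : ∀ c d : g, ⁅c, d⁆ = 0 → subst k c d ψ = 0 := by
    intro c d hcd
    have hdc : ⁅d, c⁆ = 0 := by rw [← lie_skew, hcd, neg_zero]
    have := subst_shift (k := k) (A := 0) (B := 0) (Z := c) (W := d) (by simp) (by simp) (by simp)
      (by simp) hcd hψ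
    rw [zero_add, zero_add] at this
    rw [this]
    refine lie_ind ⊤ ⊤ (fun u => subst k (0 : g) 0 u = 0) ?_ ?_ ?_ ?_ hψ
    · simp
    · intro a b ha hb
      rw [map_add, ha, hb, add_zero]
    · intro c a ha
      rw [map_smul, ha, smul_zero]
    · intro a _ b _
      have h0 : ∀ u : F2 k, subst k (0 : g) 0 u = 0 := by
        intro u
        have : subst k (0 : g) 0 = 0 := by
          ext i; fin_cases i <;> simp [subst]
        rw [this]; rfl
      exact h0 _
  rw [z a 0 (by simp), z 0 a (by simp), z 0 0 (by simp)] at h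
  simp only [add_zero, zero_add] at h
  exact eq_neg_of_add_eq_zero_left h.symm

end five

end Pool.Agent.Helper392_GT
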