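import Pool.Agent.Helper392_GT.Rel

namespace Pool.Agent.Helper392_GT

open Polynomial

universe u v

set_option linter.unusedSimpArgs false
set_option linter.unusedVariables false

section form

variable {k : Type u} [Field k]

theorem cf_zero (i j : ℕ) : cf (0 : K0 k) i j = 0 := by simp [cf]
theorem cf_add (P Q : K0 k) (i j : ℕ) : cf (P + Q) i j = cf P i j + cf Q i j := by simp [cf]

theorem ld_ld (r n : ℕ) (Q : K0 k) : ld n (ld r Q) = if n = r then ld r Q else 0 := by
  apply K0_ext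
  intro i j
  rw [cf_ld, cf_ld]
  split_ifs with h1 h2 h3 h4 h5
  · rw [cf_ld, if_pos h2]
  · omega
  · omega
  · rw [cf_zero]
  · rw [cf_ld, if_neg (by omega)]
  · rw [cf_zero]

theorem th_ld (r : ℕ) (Q : K0 k) : th (ld r Q) = X ^ r * C (e4 (ld r Q)) := by
  ext n
  rw [th_coeff_eq, ld_ld, mul_comm, coeff_C_mul_X_pow]
  split_ifs
  · rfl
  · rw [map_zero]

/-- the properties of the leading forms -/
structure Lf (n r : ℕ) (Θ : K0 k) : Prop where
  fm : ∀ (K : Type u) [CommRing K] [Algebra k K] (c a b s t : K),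
    ev4 a b (c * s) (c * t) Θ = c ^ r * ev4 a b s t Θ
  par : ∀ (K : Type u) [CommRing K] [Algebra k K] (a b s t : K),
    ev4 (-a) (-b) s t Θ = - ev4 a b s t Θ
  swp : ∀ (K : Type u) [CommRing K] [Algebra k K] (a b s t : K),
    ev4 b a t s Θ = - ev4 a b s t Θ
  rot : ∀ (K : Type u) [CommRing K] [Algebra k K] (a b s t : K),
    ev4 (-a - b) b (-s - t) t Θ = - ev4 a b s t Θ
  hom : Hm 5 n Θ

theorem ld_fm (r : ℕ) (Q : K0 k) (K : Type u) [CommRing K] [Algebra k K] (c a b s t : K) :
    ev4 a b (c * s) (c * t) (ld r Q) = c ^ r * ev4 a b s t (ld r Q) := by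
  obtain ⟨φ, h1, h5⟩ := exists_push (k := k) a b s t c
  have h6 := congrArg φ (th_ld r Q)
  have h7 : φ (th (ld r Q)) = ev4 a b (c * s) (c * t) (ld r Q) := by
    rw [th, ev4_comp, map_mul, map_mul, h1, h1, h1, h1, h5, ev4_vx, ev4_vy, ev4_vs, ev4_vt]
  rw [h7, map_mul, map_pow, h5, h1] at h6
  exact h6

theorem lf_ld {n r : ℕ} {Q : K0 k} (hO : Ord r Q) (hr : rr Q = -Q) (hk : kk Q = -Q)
    (hρ : rho Q = -Q) (hh : Hm 5 n Q) : Lf n r (ld r Q) := by
  refine ⟨fun K _ _ => ld_fm r Q K, ?_, ?_, ?_, ?_⟩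
  · intro K _ _ a b s t
    have h1 := congrArg (ev4 (k := k) (C a : K[X]) (C b) (X * C s) (X * C t)) hr
    rw [rr, ev4_comp, map_neg, map_sub, map_sub, ev4_vx, ev4_vy, ev4_vs, ev4_vt] at h1
    have h2 := congrArg (fun p => coeff p r) h1
    simp only [coeff_neg] at h2
    rw [lead_eval hO, lead_eval hO] at h2
    simpa using h2
  · intro K _ _ a b s t
    have h1 := congrArg (ev4 (k := k) (C a : K[X]) (C b) (X * C s) (X * C t)) hk
    rw [kk, ev4_comp, map_neg, ev4_vx, ev4_vy, ev4_vs, ev4_vt] at h1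
    have h2 := congrArg (fun p => coeff p r) h1
    simp only [coeff_neg] at h2
    rw [lead_eval hO, lead_eval hO] at h2
    simpa using h2
  · intro K _ _ a b s t
    have h1 := congrArg (ev4 (k := k) (C a : K[X]) (C b) (X * C s) (X * C t)) hρ
    rw [rho, ev4_comp, map_neg, map_sub, map_sub, map_neg, map_neg, ev4_vx, ev4_vy, ev4_vs,
      ev4_vt] at h1
    have e : (-(X * C s) - X * C t : K[X]) = X * (-C s - C t) := by ring
    rw [e] at h1
    have h2 := congrArg (fun p => coeff p r) h1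
    simp only [coeff_neg] at h2
    rw [lead_eval hO, lead_eval hO] at h2
    simpa using h2
  · intro K _ _ c a b s t
    have h1 := hh K[X] (C c) (C a) (C b) (X * C s) (X * C t)
    have e1 : (C c * (X * C s) : K[X]) = X * (C c * C s) := by ring
    have e2 : (C c * (X * C t) : K[X]) = X * (C c * C t) := by ring
    rw [e1, e2] at h1
    have h2 := congrArg (fun p => coeff p r) h1
    simp only [← C_pow, coeff_C_mul] at h2
    rw [lead_eval hO, lead_eval hO] at h2
    simpa using h2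

theorem cf_mono (q : P2 k) (a b i j : ℕ) : cf (C (C q) * vs ^ a * vt ^ b : K0 k) i j =
    if i = a ∧ j = b then q else 0 := by
  rw [cf, coeff_mul_X_pow']
  split_ifs with h1 h2 h3
  · rw [h2.1, h2.2, Nat.sub_self, ← C_pow, ← C_mul, coeff_C_zero, coeff_C_mul_X_pow, if_pos rfl]
  · rw [← C_pow, ← C_mul, coeff_C]
    split_ifs with h4
    · rw [coeff_C_mul_X_pow, if_neg]
      rintro rfl
      exact h2 ⟨rfl, by omega⟩
    · simp
  · omega
  · simp

theorem cf_sum {ι : Type*} (s : Finset ι) (f : ι → K0 k) (i j : ℕ) :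
    cf (∑ l ∈ s, f l) i j = ∑ l ∈ s, cf (f l) i j := by
  simp only [cf, finsetSum_coeff]

/-- decomposition into monomials -/
theorem ld_eq_sum (r : ℕ) (Q : K0 k) :
    ld r Q = ∑ a ∈ Finset.range (r + 1), C (C (cf Q a (r - a))) * vs ^ a * vt ^ (r - a) := by
  apply K0_ext
  intro i j
  rw [cf_sum, cf_ld]
  simp only [cf_mono]
  split_ifs with hij
  · rw [Finset.sum_eq_single i]
    · rw [if_pos ⟨rfl, by omega⟩]
      congr 1
      omega
    · intro b _ hne
      rw [if_neg]
      rintro ⟨rfl, _⟩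
      exact hne rfl
    · intro h'
      exact absurd (Finset.mem_range.mpr (by omega)) h'
  · symm
    apply Finset.sum_eq_zero
    intro a ha
    rw [if_neg]
    rintro ⟨rfl, rfl⟩
    rw [Finset.mem_range] at ha
    exact hij (by omega)

end form

end Pool.Agent.Helper392_GT
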