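import Pool.Agent.Helper392_GT.Div

namespace Pool.Agent.Helper392_GT

open Polynomial

universe u v

set_option linter.unusedSimpArgs false
set_option linter.unusedVariables false

section fun1

variable {k : Type u} [Field k]

/-- a sealed polynomial ring -/
def RZ (k : Type u) [CommRing k] : Type u := (P2 k)[X]

noncomputable instance : CommRing (RZ k) := inferInstanceAs (CommRing (P2 k)[X])
noncomputable instance : Algebra k (RZ k) := inferInstanceAs (Algebra k (P2 k)[X])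

/-- sealing -/
noncomputable def eZ : (P2 k)[X] ≃ₐ[k] RZ k := AlgEquiv.refl

theorem cf_map {R : Type u} [CommRing R] [Algebra k R] (φ : P2 k →ₐ[k] R) (z : K0 k) (i j : ℕ) :
    ((ev4 (k := k) (C (C (φ px)) : R[X][X]) (C (C (φ py))) (C X) X z).coeff j).coeff i =
      φ (cf z i j) := by
  have : ev4 (k := k) (C (C (φ px)) : R[X][X]) (C (C (φ py))) (C X) X =
      mapAlgHom (mapAlgHom φ) := by
    apply K0_hom_ext <;> simp
  rw [this]; simp [cf]

/-- forms of degree `r` in `(S, T)` -/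
def Fm (r : ℕ) (Θ : K0 k) : Prop :=
  ∀ (K : Type u) [CommRing K] [Algebra k K] (c a b s t : K),
    ev4 a b (c * s) (c * t) Θ = c ^ r * ev4 a b s t Θ

theorem Fm.ld_eq {r : ℕ} {Θ : K0 k} (h : Fm r Θ) : ld r Θ = Θ := by
  have h1 : th Θ = X ^ r * C (e4 Θ) := by
    rw [th, h]
    congr 1
    let φ : K0 k →ₐ[k] (R4 k)[X] :=
      ((CAlgHom : R4 k →ₐ[R4 k] (R4 k)[X]).restrictScalars k).comp (e4 (k := k)).toAlgHom
    have h2 := ev4_comp φ (vx : K0 k) vy vs vt Θ
    rw [ev4_id] at h2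
    exact h2.symm
  rw [ld, h1, mul_comm, coeff_C_mul_X_pow, if_pos rfl, AlgEquiv.symm_apply_apply]

theorem cf_hom {n r : ℕ} {Θ : K0 k} (hf : Fm r Θ) (hh : Hm 5 n Θ) (i j : ℕ) :
    X ^ (5 + r) * sc (cf Θ i j) = X ^ n * C (cf Θ i j) := by
  let φ1 : P2 k →ₐ[k] RZ k := (eZ (k := k)).toAlgHom.comp sc
  let φ2 : P2 k →ₐ[k] RZ k := (eZ (k := k)).toAlgHom.comp (IsScalarTower.toAlgHom k (P2 k) (P2 k)[X])
  have a1 : φ1 px = eZ X * φ2 px := by
    change eZ (sc px) = eZ X * eZ (C px)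
    rw [← map_mul (eZ (k := k)), sc_px]
  have a2 : φ1 py = eZ X * φ2 py := by
    change eZ (sc py) = eZ X * eZ (C py)
    rw [← map_mul (eZ (k := k)), sc_py]
  have h1 := cf_map φ1 Θ i j
  have h2 := cf_map φ2 Θ i j
  have h3 := hh (RZ k)[X][X] (C (C (eZ X))) (C (C (φ2 px))) (C (C (φ2 py))) (C X) X
  rw [hf, ← C_mul, ← C_mul, ← C_mul, ← C_mul, ← a1, ← a2] at h3
  have h4 := congrArg (fun p => (coeff p j).coeff i) h3
  have e1 : ∀ (m : ℕ) (p : (RZ k)[X][X]), ((C (C (eZ X)) ^ m * p).coeff j).coeff i =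
      eZ X ^ m * (p.coeff j).coeff i := by
    intro m p
    rw [← C_pow, ← C_pow, coeff_C_mul, coeff_C_mul]
  simp only [e1, h1, h2] at h4
  have h5 : eZ (X ^ (5 + r) * sc (cf Θ i j)) = eZ (X ^ n * C (cf Θ i j)) := by
    rw [map_mul (eZ (k := k)), map_mul (eZ (k := k)), map_pow (eZ (k := k)), map_pow (eZ (k := k)),
      pow_add, mul_assoc]
    exact h4
  exact (eZ (k := k)).injective h5

theorem coeff_zero_of_eval {θ : P2 k} {e n : ℕ} (h : X ^ e * sc θ = X ^ n * C θ) (l : ℕ)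
    (h1 : (((sl (k := k)).symm θ).coeff l).eval 1 = 0) : ((sl (k := k)).symm θ).coeff l = 0 := by
  let Ψ : (P2 k)[X] →ₐ[k] k[X][X] :=
    eval₂AlgHom (ev2 (k := k) (1 : k[X][X]) X) (C X) (fun _ => Commute.all _ _)
  have p1 : ∀ z, Ψ (C z) = ev2 (k := k) (1 : k[X][X]) X z := fun z => by simp [Ψ]
  have p2 : Ψ X = C X := by simp [Ψ]
  have h2 := congrArg Ψ h
  rw [map_mul, map_mul, map_pow, map_pow, p1, p2, sc, ev2_comp, map_mul, map_mul, p1, p1, p2,
    ev2_px, ev2_py, mul_one] at h2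
  have f1 : ev2 (C X : k[X][X]) (C X * X) θ = ((sl (k := k)).symm θ).comp (C X * X) := by
    have : ev2 (k := k) (C X : k[X][X]) (C X * X) =
        ((aeval (R := k[X]) (C X * X : k[X][X])).restrictScalars k).comp (sl (k := k)).symm.toAlgHom := by
      apply P2_hom_ext
      · rw [ev2_px]; simp [px]
      · rw [ev2_py]; simp [py]
    rw [this]; rfl
  have f2 : ev2 (1 : k[X][X]) X θ = ((sl (k := k)).symm θ).map
      ((aeval (R := k) (1 : k[X])) : k[X] →+* k[X]) := by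
    have : ev2 (k := k) (1 : k[X][X]) X =
        (mapAlgHom (aeval (R := k) (1 : k[X]))).comp (sl (k := k)).symm.toAlgHom := by
      apply P2_hom_ext
      · rw [ev2_px]; simp [px]
      · rw [ev2_py]; simp [py]
    rw [this]; rfl
  rw [f1, f2] at h2
  have h3 := congrArg (fun p => coeff p l) h2
  simp only [← C_pow, coeff_C_mul, comp_C_mul_X_coeff, coeff_map] at h3
  have h4 : (aeval (R := k) (1 : k[X])) (((sl (k := k)).symm θ).coeff l) = 0 := by
    have := aeval_algebraMap_apply (k[X]) (1 : k) (((sl (k := k)).symm θ).coeff l)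
    rw [map_one] at this
    rw [this]
    change algebraMap k k[X] (eval 1 _) = 0
    rw [h1, map_zero]
  rw [RingHom.coe_coe, h4, mul_zero] at h3
  have hX : (X : k[X]) ≠ 0 := X_ne_zero
  rcases mul_eq_zero.mp h3 with h5 | h5
  · exact absurd h5 (pow_ne_zero _ hX)
  · exact (mul_eq_zero.mp h5).resolve_right (pow_ne_zero _ hX)

theorem gen_neg {R : Type*} [CommRing R] (x : R[X]) : (C (-1 : R)) * x = -x := by simp

/-- coefficients of odd/even polynomials -/
theorem coeff_zero_of_par [CharZero k] {θ : P2 k} {j l : ℕ}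
    (h : ev2 (px : P2 k) (-py) θ = ((-1 : k) ^ j) • θ) (hl : (j + l) % 2 = 1) :
    ((sl (k := k)).symm θ).coeff l = 0 := by
  have h1 := congrArg (sl (k := k)).symm h
  have f1 : (sl (k := k)).symm (ev2 (px : P2 k) (-py) θ) =
      ((sl (k := k)).symm θ).comp (C (-1) * X) := by
    have : (sl (k := k)).symm.toAlgHom.comp (ev2 (px : P2 k) (-py)) =
        ((aeval (R := k[X]) (C (-1) * X : k[X][X])).restrictScalars k).comp
          (sl (k := k)).symm.toAlgHom := by
      apply P2_hom_ext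
      · rw [AlgHom.comp_apply, ev2_px]; simp [px]
      · rw [AlgHom.comp_apply, ev2_py]
        have e : (sl (k := k)).symm.toAlgHom (-py) = -((sl (k := k)).symm.toAlgHom py) :=
          map_neg _ _
        rw [e, AlgHom.comp_apply]
        have e2 : (sl (k := k)).symm.toAlgHom py = X := by simp [py]
        rw [e2]
        have e3 : ((aeval (R := k[X]) (C (-1) * X : k[X][X])).restrictScalars k) X = -X := by
          rw [AlgHom.restrictScalars_apply, aeval_X]
          exact gen_neg X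
        exact e3.symm
    exact congrArg (fun f : P2 k →ₐ[k] k[X][X] => f θ) this
  rw [f1, map_smul] at h1
  have h2 := congrArg (fun p => coeff p l) h1
  simp only [coeff_smul, comp_C_mul_X_coeff] at h2
  rw [Algebra.smul_def, map_pow, map_neg, map_one] at h2
  have h3 : (2 : k[X]) * ((sl (k := k)).symm θ).coeff l = 0 := by
    rcases Nat.mod_two_eq_zero_or_one j with hj | hj <;>
    rcases Nat.mod_two_eq_zero_or_one l with hl' | hl'
    · omega
    · rw [(Nat.even_iff.mpr hj).neg_one_pow, (Nat.odd_iff.mpr hl').neg_one_pow] at h2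
      linear_combination -h2
    · rw [(Nat.odd_iff.mpr hj).neg_one_pow, (Nat.even_iff.mpr hl').neg_one_pow] at h2
      linear_combination h2
    · omega
  exact (mul_eq_zero.mp h3).resolve_left two_ne_zero

theorem py_pow_dvd [CharZero k] {θ : P2 k} {e n i j : ℕ} (h : X ^ e * sc θ = X ^ n * C θ)
    (hp : ev2 (px : P2 k) (-py) θ = ((-1 : k) ^ j) • θ)
    (h1 : ∀ l < i, (j + l) % 2 = 0 → (((sl (k := k)).symm θ).coeff l).eval 1 = 0) :
    py ^ i ∣ θ := by
  have h2 : (X : k[X][X]) ^ i ∣ (sl (k := k)).symm θ := by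
    rw [X_pow_dvd_iff]
    intro l hl
    rcases Nat.mod_two_eq_zero_or_one (j + l) with hp' | hp'
    · exact coeff_zero_of_eval h l (h1 l hl hp')
    · exact coeff_zero_of_par hp hp'
  have h3 := map_dvd (sl (k := k)) h2
  rw [map_pow, AlgEquiv.apply_symm_apply] at h3
  exact h3

end fun1

section AB

variable {k : Type u} [Field k]

/-- adapted coordinates at the line `x = y` -/
noncomputable def tA' : K0 k →ₐ[k] K0 k := ev4 (vx - vy) (vx + vy) (vs + vt) (vs - vt)
/-- adapted coordinates at the line `y = 0` -/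
noncomputable def tB' : K0 k →ₐ[k] K0 k := ev4 (vx - vy) (2 * vy) (vt - vs) (2 * vs)

theorem ev4_tA {K : Type u} [CommRing K] [Algebra k K] (a b s t : K) (Θ : K0 k) :
    ev4 a b s t (tA' Θ) = ev4 (a - b) (a + b) (s + t) (s - t) Θ := by
  rw [tA', ev4_comp]
  simp only [map_sub, map_add, ev4_vx, ev4_vy, ev4_vs, ev4_vt]

theorem ev4_tB {K : Type u} [CommRing K] [Algebra k K] (a b s t : K) (Θ : K0 k) :
    ev4 a b s t (tB' Θ) = ev4 (a - b) (2 * b) (t - s) (2 * s) Θ := by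
  rw [tB', ev4_comp]
  simp only [map_sub, map_mul, map_ofNat, ev4_vx, ev4_vy, ev4_vs, ev4_vt]

theorem Lf.fmA {n r : ℕ} {Θ : K0 k} (h : Lf n r Θ) : Fm r (tA' Θ) := by
  intro K _ _ c a b s t
  rw [ev4_tA, ev4_tA, ← mul_add, ← mul_sub, h.fm]

theorem Lf.fmB {n r : ℕ} {Θ : K0 k} (h : Lf n r Θ) : Fm r (tB' Θ) := by
  intro K _ _ c a b s t
  rw [ev4_tB, ev4_tB, ← mul_sub, mul_left_comm, h.fm]

theorem Lf.hmA {n r : ℕ} {Θ : K0 k} (h : Lf n r Θ) : Hm 5 n (tA' Θ) := by
  intro K _ _ c a b s t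
  rw [ev4_tA, ev4_tA, ← mul_add, ← mul_sub, ← mul_add, ← mul_sub, h.hom]

theorem Lf.hmB {n r : ℕ} {Θ : K0 k} (h : Lf n r Θ) : Hm 5 n (tB' Θ) := by
  intro K _ _ c a b s t
  rw [ev4_tB, ev4_tB, ← mul_sub, ← mul_sub, mul_left_comm 2 c b, mul_left_comm 2 c s, h.hom]

theorem Lf.parA {n r : ℕ} {Θ : K0 k} (h : Lf n r Θ) {K : Type u} [CommRing K] [Algebra k K]
    (a b s t : K) : ev4 a (-b) s (-t) (tA' Θ) = - ev4 a b s t (tA' Θ) := by
  rw [ev4_tA, ev4_tA, ← h.swp]
  congr 1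
  congr 1 <;> ring

theorem Lf.parB {n r : ℕ} {Θ : K0 k} (h : Lf n r Θ) {K : Type u} [CommRing K] [Algebra k K]
    (a b s t : K) : ev4 a (-b) s (-t) (tB' Θ) = ev4 a b s t (tB' Θ) := by
  rw [ev4_tB, ev4_tB]
  have h1 := h.rot K (a - b) (2 * b) (t - s) (2 * s)
  have h2 := h.par K (-(a - b) - 2 * b) (2 * b) (-(t - s) - 2 * s) (2 * s)
  rw [h1, neg_neg] at h2
  rw [← h2]
  congr 1
  congr 1 <;> ring

theorem Lf.backA {n r : ℕ} {Θ : K0 k} (h : Lf n r Θ) {K : Type u} [CommRing K] [Algebra k K]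
    (a b s t : K) : 2 ^ 5 * ev4 (a + b) (b - a) (s + t) (s - t) (tA' Θ) =
      2 ^ n * ev4 a b s t Θ := by
  have h1 := h.hom K 2 a b s t
  rw [ev4_tA, ← h1]
  congr 2
  congr 1 <;> ring

theorem Lf.backB {n r : ℕ} {Θ : K0 k} (h : Lf n r Θ) {K : Type u} [CommRing K] [Algebra k K]
    (a b s t : K) : 2 ^ 5 * ev4 (2 * a + b) b t (2 * s + t) (tB' Θ) =
      2 ^ n * ev4 a b s t Θ := by
  have h1 := h.hom K 2 a b s t
  rw [ev4_tB, ← h1]
  congr 2
  congr 1 <;> ring

end AB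

end Pool.Agent.Helper392_GT
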