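import Pool.Agent.Helper392_GT.Upper

namespace Pool.Agent.Helper392_GT

open Polynomial

universe u v

set_option linter.unusedSimpArgs false
set_option linter.unusedVariables false

attribute [local instance 100] LieRing.ofAssociativeRing

section linalg

variable {k : Type u} [Field k]

theorem linalg {F : Type v} [AddCommGroup F] [Module k F] (M V : Submodule k F) {c : ℕ}
    (g : V →ₗ[k] (Fin c → k)) (hg : ∀ v : V, g v = 0 → (v : F) ∈ M) :
    ∃ L : F →ₗ[k] (Fin c → k), ∀ ψ ∈ M ⊔ V, L ψ = 0 → ψ ∈ M := by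
  obtain ⟨s, hs⟩ := LinearMap.exists_rightInverse_of_surjective g.rangeRestrict
    (LinearMap.range_eq_top.mpr g.surjective_rangeRestrict)
  obtain ⟨T, hT⟩ := LinearMap.exists_extend (M.mkQ ∘ₗ V.subtype ∘ₗ s)
  have hTv : ∀ v : V, T (g v) = M.mkQ (v : F) := by
    intro v
    have h1 : T (g v) = M.mkQ ((s (g.rangeRestrict v) : V) : F) := by
      have := LinearMap.congr_fun hT (g.rangeRestrict v)
      exact this
    rw [h1]
    have h2 : g (v - s (g.rangeRestrict v)) = 0 := by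
      have h3 := LinearMap.congr_fun hs (g.rangeRestrict v)
      have h4 := congrArg Subtype.val h3
      rw [map_sub]
      have h5 : g (s (g.rangeRestrict v)) = g v := h4
      rw [h5, sub_self]
    have h6 := hg _ h2
    symm
    rw [Submodule.mkQ_apply, Submodule.mkQ_apply, Submodule.Quotient.eq]
    exact h6
  obtain ⟨s', hs'⟩ := LinearMap.exists_rightInverse_of_surjective T.rangeRestrict
    (LinearMap.range_eq_top.mpr T.surjective_rangeRestrict)
  obtain ⟨L, hL⟩ := LinearMap.exists_extend s'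
  have hLr : ∀ z : Fin c → k, T (L (T z)) = T z := by
    intro z
    have h1 := LinearMap.congr_fun hL (T.rangeRestrict z)
    have h2 : L (T z) = s' (T.rangeRestrict z) := h1
    rw [h2]
    have h3 := LinearMap.congr_fun hs' (T.rangeRestrict z)
    exact congrArg Subtype.val h3
  refine ⟨L ∘ₗ M.mkQ, fun ψ hψ h0 => ?_⟩
  obtain ⟨a, ha, v, hv, rfl⟩ := Submodule.mem_sup.mp hψ
  have h1 : M.mkQ (a + v) = T (g ⟨v, hv⟩) := by
    rw [hTv, map_add]
    have : M.mkQ a = 0 := by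
      rw [Submodule.mkQ_apply, Submodule.Quotient.mk_eq_zero]; exact ha
    rw [this, zero_add]
  have h2 : L (M.mkQ (a + v)) = 0 := h0
  rw [h1] at h2
  have h3 := hLr (g ⟨v, hv⟩)
  rw [h2, map_zero, ← h1] at h3
  rw [Submodule.mkQ_apply] at h3
  exact (Submodule.Quotient.mk_eq_zero M).mp h3.symm

end linalg

section levels

variable {k : Type u} [Field k]

/-- the levels of the filtration in weight `n` -/
def Vr (k : Type u) [Field k] (n r : ℕ) : Submodule k (F2 k) where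
  carrier := {ψ | IsGRT k ψ ∧ ψ ∈ wt k n ∧ ψ ∈ D2 k ∧ ∃ Q, Rel ψ Q ∧ Ord r Q}
  zero_mem' := ⟨IsGRT.zero, Submodule.zero_mem _, (D2 k).zero_mem, 0, Rel.zero, Ord.zero r⟩
  add_mem' := by
    rintro a b ⟨h1, h2, h3, Q, h4, h5⟩ ⟨g1, g2, g3, Q', g4, g5⟩
    exact ⟨h1.add g1, Submodule.add_mem _ h2 g2, (D2 k).add_mem h3 g3, Q + Q', h4.add g4,
      h5.add g5⟩
  smul_mem' := by
    rintro c a ⟨h1, h2, h3, Q, h4, h5⟩
    exact ⟨h1.smul c, Submodule.smul_mem _ _ h2, (D2 k).smul_mem c h3, c • Q, h4.smul c, h5.smul c⟩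

/-- the symbol map -/
noncomputable def Qm (n r : ℕ) : Vr k n r →ₗ[k] K0 k where
  toFun v := Classical.choose v.2.2.2.2
  map_add' v w := Rel.unique (Classical.choose_spec (v + w).2.2.2.2).1
    ((Classical.choose_spec v.2.2.2.2).1.add (Classical.choose_spec w.2.2.2.2).1)
  map_smul' c v := Rel.unique (Classical.choose_spec (c • v).2.2.2.2).1
    ((Classical.choose_spec v.2.2.2.2).1.smul c)

theorem Qm_spec (n r : ℕ) (v : Vr k n r) : Rel (v : F2 k) (Qm n r v) ∧ Ord r (Qm n r v) :=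
  Classical.choose_spec v.2.2.2.2

theorem lf_of_mem [CharZero k] {n r : ℕ} {ψ : F2 k} (hψ : ψ ∈ Vr k n r) {Q : K0 k} (hQ : Rel ψ Q)
    (hO : Ord r Q) : Lf n r (ld r Q) := by
  obtain ⟨h1, h2, h3, _⟩ := hψ
  obtain ⟨P, _, hE⟩ := exists_P h3
  obtain ⟨Q', hQ', hr, hk, hρ⟩ := exists_Q h1.pent h3 hE
  have hR : Rel ψ Q' := by rw [Rel, ← hQ']; exact hE
  have e := hQ.unique hR
  subst e
  exact lf_ld hO hr hk hρ (rel_Hm hQ h2)

theorem succ_mem {n r : ℕ} {ψ : F2 k} (hψ : ψ ∈ Vr k n r) {Q : K0 k} (hQ : Rel ψ Q)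
    (hO : Ord r Q) (h0 : ld r Q = 0) : ψ ∈ Vr k n (r + 1) :=
  ⟨hψ.1, hψ.2.1, hψ.2.2.1, Q, hQ, hO.succ h0⟩

theorem neg_one_even {R : Type*} [CommRing R] {n : ℕ} (h : n % 2 = 0) : (-1 : R) ^ n = 1 :=
  (Nat.even_iff.mpr h).neg_one_pow
theorem neg_one_odd {R : Type*} [CommRing R] {n : ℕ} (h : n % 2 = 1) : (-1 : R) ^ n = -1 :=
  (Nat.odd_iff.mpr h).neg_one_pow

theorem parity [CharZero k] {n r : ℕ} {Θ : K0 k} (hΘ : Lf n r Θ) (h : n % 2 ≠ r % 2) : Θ = 0 := by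
  have h1 := hΘ.hom (K0 k) (-1) vx vy vs vt
  rw [hΘ.fm] at h1
  have e1 : (-1 : K0 k) * vx = -vx := by ring
  have e2 : (-1 : K0 k) * vy = -vy := by ring
  rw [e1, e2, hΘ.par, ev4_id] at h1
  have h2 : (2 : K0 k) * Θ = 0 := by
    rcases Nat.mod_two_eq_zero_or_one n with hn | hn <;>
    rcases Nat.mod_two_eq_zero_or_one r with hr | hr
    · omega
    · have a1 : ((-1 : K0 k)) ^ n = 1 := neg_one_even hn
      have a2 : ((-1 : K0 k)) ^ r = -1 := neg_one_odd hr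
      rw [a1, a2] at h1
      linear_combination -h1
    · have a1 : ((-1 : K0 k)) ^ n = -1 := neg_one_odd hn
      have a2 : ((-1 : K0 k)) ^ r = 1 := neg_one_even hr
      rw [a1, a2] at h1
      linear_combination h1
    · omega
  have h3 : (2 : K0 k) ≠ 0 := by
    intro h
    have h4 : (C (C (2 : P2 k)) : K0 k) = 0 := by
      rw [C_two', show (C (2 : (P2 k)[X]) : K0 k) = 2 from map_ofNat C 2]; exact h
    rw [C_eq_zero, C_eq_zero] at h4
    exact two_ne h4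
  exact (mul_eq_zero.mp h2).resolve_left h3

end levels

section base0

variable {k : Type u} [Field k]

/-- an element with `f(x, 0) = 0` is in `L''` -/
theorem D2_of_c0 [CharZero k] {χ : F2 k} (hp : Pentagon k χ) {f : P2 k} (hf : χ - gm k f ∈ D2 k)
    (h0 : c0 f = 0) : χ ∈ D2 k := by
  have h1 := pentagon_mem_D1 hp
  have hG : derivative (0 : k[X]) = X * c0 f := by rw [h0, derivative_zero, mul_zero]
  have hF := cocycle_formula hG (coeff_zero 0) (fun K _ _ a b c => relF hp h1 hf a b c)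
  rw [map_zero, map_zero, map_zero, sub_zero, sub_zero] at hF
  have h2 : f = 0 := (mul_eq_zero.mp hF).resolve_left (mul_ne_zero px_ne py_ne)
  rw [h2, map_zero, sub_zero] at hf
  exact hf

theorem sigma_c0 [CharZero k] {σ : F2 k} {n : ℕ} (hn : 3 ≤ n)
    (hd : DepthGE k 2 (σ - vm k (n - 1))) {f : P2 k} (hf : σ - gm k f ∈ D2 k) :
    c0 f = X ^ (n - 2) := by
  have e1 := (sigma_entries hd).2.2.2.2.1
  have hA := mkM_dia (0 : P2 k) (-px) 0 (-px - py) 0 0 0 0 0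
  have hB := mkM_dia (0 : P2 k) 0 0 0 1 0 1 0 0
  have e2 := (f_entries hA hB hf).1
  rw [e1, mkM_lie] at e2
  simp only [mkM_00, mkM_01, mkM_11] at e2
  have s1 : (0 : P2 k) - -px = px := by ring
  rw [s1, sub_zero, ev2_zero] at e2
  have e3 := congrArg c0 e2
  rw [c0_mul, c0_aeval, c0_px, aeval_X_left_apply] at e3
  have e4 : c0 (px ^ (n - 1) : P2 k) = X ^ (n - 1) := by
    have : c0 (px ^ (n - 1) : P2 k) = c0 (aeval (px : P2 k) (X ^ (n - 1) : k[X])) := by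
      rw [map_pow, aeval_X]
    rw [this, c0_aeval, c0_px, aeval_X_left_apply]
  rw [e4] at e3
  have e5 : X ^ (n - 1) = X * (X ^ (n - 2) : k[X]) := by
    rw [← pow_succ']; congr 1; omega
  have e6 : c0 (px * 1 - 0 * (0 : P2 k)) = X := by
    rw [mul_one, zero_mul, sub_zero, c0_px]
  refine mul_right_cancel₀ (X_ne_zero : (X : k[X]) ≠ 0) ?_
  rw [e6] at e3
  rw [← e3, e5]; ring

/-- homogeneity of `f(x, 0)` -/
theorem c0_hom [CharZero k] {ψ : F2 k} {n : ℕ} (hn : ψ ∈ wt k n) {f : P2 k}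
    (hf : ψ - gm k f ∈ D2 k) : X ^ 2 * c0 f = X ^ n * C ((c0 f).eval 1) := by
  have h := wt_scale (K := k[X]) hn X
    (mkM (1 : k[X]) 0 0 0 0 0 0 0 0) (mkM (0 : k[X]) 0 0 0 1 0 0 0 0)
  have h2 := congrFun (congrFun h 0) 1
  rw [mkM_smul, mkM_smul, Matrix.smul_apply] at h2
  have hA1 := mkM_dia (X * 1 : k[X]) (X * 0) (X * 0) (X * 0) (X * 0) (X * 0) (X * 0) (X * 0) (X * 0)
  have hB1 := mkM_dia (X * 0 : k[X]) (X * 0) (X * 0) (X * 0) (X * 1) (X * 0) (X * 0) (X * 0) (X * 0)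
  have hA2 := mkM_dia (1 : k[X]) 0 0 0 0 0 0 0 0
  have hB2 := mkM_dia (0 : k[X]) 0 0 0 1 0 0 0 0
  rw [(f_entries hA1 hB1 hf).1, (f_entries hA2 hB2 hf).1, mkM_lie, mkM_lie] at h2
  simp only [mkM_00, mkM_01, mkM_11, mul_zero, sub_zero, mul_one, ev2_zero, zero_mul,
    aeval_X_left_apply, smul_eq_mul] at h2
  have h4 := aeval_algebraMap_apply (k[X]) (1 : k) (c0 f)
  rw [map_one] at h4
  rw [h4] at h2
  have h5 : algebraMap k k[X] ((aeval (1 : k)) (c0 f)) = C ((c0 f).eval 1) := rfl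
  rw [h5] at h2
  linear_combination h2

theorem base0 [CharZero k] (𝔤 : Submodule k (F2 k)) (hgrt : ∀ φ ∈ 𝔤, IsGRT k φ)
    (hσ : ∀ n, Odd n → 3 ≤ n → ∃ σ ∈ 𝔤, σ ∈ wt k n ∧ DepthGE k 2 (σ - vm k (n - 1)))
    {ψ : F2 k} (hψ : IsGRT k ψ) {n : ℕ} (hn : ψ ∈ wt k n) :
    ∃ φ ∈ 𝔤, φ ∈ wt k n ∧ ψ - φ ∈ D2 k := by
  have hψ1 := pentagon_mem_D1 hψ.pent
  obtain ⟨f, hf⟩ := exists_gam hψ1
  have hh := c0_hom hn hf
  obtain ⟨γ, hγ⟩ : ∃ γ, γ = (c0 f).eval 1 := ⟨_, rfl⟩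
  rw [← hγ] at hh
  have hev := c0_even hψ hψ1 hf
  -- coefficients
  have hco : ∀ i, (c0 f).coeff i = if i + 2 = n then γ else 0 := by
    intro i
    have := congrArg (fun p => coeff p (i + 2)) hh
    simp only [coeff_X_pow_mul] at this
    rw [this, mul_comm, coeff_C_mul_X_pow]
  by_cases hcase : n % 2 = 1 ∧ 3 ≤ n
  · obtain ⟨hodd, h3⟩ := hcase
    obtain ⟨σ, hs1, hs2, hs3⟩ := hσ n (Nat.odd_iff.mpr hodd) h3
    obtain ⟨fσ, hfσ⟩ := exists_gam (pentagon_mem_D1 (hgrt σ hs1).pent)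
    have hc := sigma_c0 h3 hs3 hfσ
    refine ⟨γ • σ, 𝔤.smul_mem _ hs1, Submodule.smul_mem _ _ hs2, ?_⟩
    refine D2_of_c0 (f := f - γ • fσ) (hψ.sub ((hgrt σ hs1).smul γ)).pent ?_ ?_
    · have : ψ - γ • σ - gm k (f - γ • fσ) = (ψ - gm k f) - γ • (σ - gm k fσ) := by
        rw [map_sub, map_smul, smul_sub]; abel
      rw [this]
      exact (D2 k).sub_mem hf ((D2 k).smul_mem _ hfσ)
    · have e1 : c0 (f - γ • fσ) = c0 f - C γ * c0 fσ := by
        rw [Algebra.smul_def]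
        have hs : ∀ a b : P2 k, c0 (a - b) = c0 a - c0 b := fun a b => by simp [c0]
        rw [hs, c0_mul, c0_algebraMap]
      rw [e1, hc]
      ext i
      rw [coeff_sub, coeff_C_mul_X_pow, hco, coeff_zero]
      by_cases hi : i = n - 2
      · rw [if_pos (by omega), if_pos hi, sub_self]
      · rw [if_neg (by omega), if_neg hi, sub_self]
  · refine ⟨0, 𝔤.zero_mem, Submodule.zero_mem _, ?_⟩
    rw [sub_zero]
    refine D2_of_c0 hψ.pent hf ?_
    ext i
    rw [coeff_zero]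
    by_cases hi : i + 2 = n
    · exact hev i (Nat.even_iff.mpr (by omega))
    · rw [hco, if_neg hi]

end base0

end Pool.Agent.Helper392_GT
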