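import Pool.Agent.Helper392_GT.Sym2
import Pool.Agent.Helper392_GT.MainC

namespace Pool.Agent.Helper392_GT

open Polynomial

universe u v

set_option linter.unusedSimpArgs false
set_option linter.unusedVariables false

attribute [local instance 100] LieRing.ofAssociativeRing

section entry

variable {k : Type u} [Field k]

theorem entry_lie {u w : F2 k} (hu : u ∈ D1 k) (hw : w ∈ D1 k) {f g : P2 k}
    (hf : u - gm k f ∈ D2 k) (hg : w - gm k g ∈ D2 k) :
    Entry ⁅u, w⁆ (C (C f) * sg g - C (C g) * sg f) := by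
  intro K _ _ A B hA hB
  have hu1 := dia_subst (k := k) hA hB u
  have hw1 := dia_subst (k := k) hA hB w
  obtain ⟨p0, p1, p2, p3⟩ := zd_D1 (k := k) hA hB hu
  obtain ⟨q0, q1, q2, q3⟩ := zd_D1 (k := k) hA hB hw
  obtain ⟨f0, f1, f2, f3⟩ := gm_entries (k := k) hA hB f
  obtain ⟨g0, g1, g2, g3⟩ := gm_entries (k := k) hA hB g
  obtain ⟨a0, a1, a2, a3⟩ := zo_D2 (k := k) hA hB hf
  obtain ⟨b0, b1, b2, b3⟩ := zo_D2 (k := k) hA hB hg
  rw [map_sub, Matrix.sub_apply, sub_eq_zero] at a0 a1 a2 a3 b0 b1 b2 b3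
  rw [LieHom.map_lie, Dia.lie03, p0, p3, q0, q3, a0, a1, a2, a3, b0, b1, b2, b3, f0, f1, f2, f3,
    g0, g1, g2, g3]
  simp only [map_sub, map_mul, ev4_CC, ev4_sg]
  have s1 : A 0 0 - A 3 3 - (A 0 0 - A 1 1) = A 1 1 - A 3 3 := by ring
  have s2 : B 0 0 - B 3 3 - (B 0 0 - B 1 1) = B 1 1 - B 3 3 := by ring
  have s3 : A 0 0 - A 3 3 - (A 0 0 - A 2 2) = A 2 2 - A 3 3 := by ring
  have s4 : B 0 0 - B 3 3 - (B 0 0 - B 2 2) = B 2 2 - B 3 3 := by ring
  rw [s1, s2, s3, s4]
  ring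

theorem entry_DN {ψ : F2 k} (hψ : ψ ∈ DN k) : Entry ψ 0 := by
  refine lie_ind (D1 k) (D2 k) (fun ψ => Entry ψ 0) Entry.zero ?_ ?_ ?_ hψ
  · intro a b ha hb
    have := ha.add hb
    rwa [add_zero] at this
  · intro c a ha
    have := ha.smul c
    rwa [smul_zero] at this
  · intro u hu w hw
    have h1 : w - gm k 0 ∈ D2 k := by rwa [map_zero, sub_zero]
    obtain ⟨f, hf⟩ := exists_gam hu
    have := entry_lie hu (D2_le_D1 hw) hf h1
    simpa using this

theorem rr_iot_mono (f g : P2 k) : rr (C (C f) * sg g : K0 k) = C (C g) * sg f := by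
  rw [rr, map_mul, ev4_CC, ev4_sg]
  have e1 : (vs - (vs - vx) : K0 k) = vx := by ring
  have e2 : (vt - (vt - vy) : K0 k) = vy := by ring
  rw [e1, e2]
  have h1 : (C (C g) : K0 k) = ev2 (vx : K0 k) vy g := by
    have := ev4_id (C (C g) : K0 k)
    rw [ev4_CC] at this
    exact this.symm
  have h2 : sg f = ev2 (vs - vx : K0 k) (vt - vy) f := by
    have := ev4_sg (k := k) (vx : K0 k) vy vs vt f
    rw [ev4_id] at this
    exact this
  rw [h1, h2, mul_comm]

theorem entry_symbol (p : MvPolynomial (Fin 4) k) :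
    Entry (symbolMap k p) (iot p - rr (iot p)) := by
  have hm : ∀ (e : Fin 4 →₀ ℕ) (a : k), Entry (symbolMap k (MvPolynomial.monomial e a))
      (iot (MvPolynomial.monomial e a) - rr (iot (MvPolynomial.monomial e a))) := by
    intro e a
    have h1 : MvPolynomial.monomial e a = a • MvPolynomial.monomial e (1 : k) := by
      rw [MvPolynomial.smul_monomial, smul_eq_mul, mul_one]
    rw [h1, map_smul, map_smul, map_smul, ← smul_sub]
    refine Entry.smul a ?_
    rw [symbolMap_monomial, iot_mono, rr_iot_mono]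
    refine entry_lie (adxy_mem _ _) (adxy_mem _ _) ?_ ?_
    · have := (D2 k).neg_mem (gm_mono (k := k) (e 0) (e 1))
      rwa [neg_sub] at this
    · have := (D2 k).neg_mem (gm_mono (k := k) (e 2) (e 3))
      rwa [neg_sub] at this
  have hs : ∀ s : Finset (Fin 4 →₀ ℕ), Entry (∑ e ∈ s, symbolMap k (MvPolynomial.monomial e (p.coeff e)))
      (∑ e ∈ s, (iot (MvPolynomial.monomial e (p.coeff e)) -
        rr (iot (MvPolynomial.monomial e (p.coeff e))))) := by
    classical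
    intro s
    induction s using Finset.induction_on with
    | empty => simpa using Entry.zero
    | insert a s ha ih =>
      rw [Finset.sum_insert ha, Finset.sum_insert ha]
      exact (hm _ _).add ih
  have h := hs p.support
  rw [Finset.sum_sub_distrib, ← map_sum, ← map_sum, ← map_sum, ← map_sum, ← MvPolynomial.as_sum] at h
  exact h

end entry

section main

variable {k : Type u} [Field k]

theorem DN_of_entry [CharZero k] {δ : F2 k} (h2 : δ ∈ D2 k) (hE : Entry δ 0) : δ ∈ DN k := by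
  obtain ⟨P, hP, hE'⟩ := exists_P h2
  have := hE.unique hE'
  rw [← this, map_zero, sub_zero] at hP
  have e : δ = (2 : k)⁻¹ • ((2 : k) • δ) := by
    rw [smul_smul, inv_mul_cancel₀ two_ne_zero, one_smul]
  rw [e]
  exact (DN k).smul_mem _ hP

theorem rr_ps (F : P2 k) : rr (ps F) = ps F := by
  rw [ps_eq, map_sub, map_add, rr, ev2_comp, ev2_comp, ev2_comp]
  simp only [map_sub, ev4_vx, ev4_vy, ev4_vs, ev4_vt]
  have e1 : (vs - (vs - vx) : K0 k) = vx := by ring
  have e2 : (vt - (vt - vy) : K0 k) = vy := by ring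
  rw [e1, e2]
  ring

theorem symbolMap_mem (p : MvPolynomial (Fin 4) k) : symbolMap k p ∈ D2 k := by
  have h1 := DN_le_D2 (iot_bt p)
  have h2 : symbolMap k p = bt k (iot p) - (bt k (iot p) - symbolMap k p) := by abel
  rw [h2]
  exact (D2 k).sub_mem (bt_mem _) h1

/-- the action on symbols -/
theorem act_symbol [CharZero k] {σ φ : F2 k} {f : P2 k} (hσ : σ ∈ D1 k) (hf : σ - gm k f ∈ D2 k)
    (hφ : φ ∈ D2 k) {p : MvPolynomial (Fin 4) k} (hp : φ - symbolMap k p ∈ DN k)
    (D E : LieDerivation k (F2 k) (F2 k))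
    (hDx : D (gx k) = 0) (hDy : D (gy k) = ⁅gy k, σ⁆) (hEx : E (gx k) = 0)
    (hEy : E (gy k) = ⁅gy k, φ⁆) :
    ⁅σ, φ⁆ + D φ - E σ - symbolMap k (qq (ps (px * py * f)) * p) ∈ DN k := by
  have h1 : Entry φ (iot p - rr (iot p)) := by
    have := (entry_DN hp).add (entry_symbol p)
    rwa [sub_add_cancel, zero_add] at this
  have h2 := act_entry hσ hf hφ h1 D E hDx hDy hEx hEy
  have h3 := entry_symbol (qq (ps (px * py * f)) * p)
  rw [map_mul iot, map_mul rr, iot_qq, rr_ps] at h3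
  refine DN_of_entry ((D2 k).sub_mem (act_D2 hσ hφ D E hDx hDy hEx hEy) (symbolMap_mem _)) ?_
  have h4 := h2.sub h3
  have e : ps (px * py * f) * (iot p - rr (iot p)) -
      (ps (px * py * f) * iot p - ps (px * py * f) * rr (iot p)) = 0 := by ring
  rwa [e] at h4

theorem sigma_gen [CharZero k] {σ : F2 k} (hg : Pentagon k σ) {n : ℕ} (hn : 3 ≤ n) (γ : k)
    (hd : DepthGE k 2 (σ - γ • vm k (n - 1))) :
    ∃ f : P2 k, σ - gm k f ∈ D2 k ∧ algebraMap k (P2 k) n * (px * py * f) =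
      algebraMap k (P2 k) γ * ((px + py) ^ n - px ^ n - py ^ n) := by
  by_cases hγ : γ = 0
  · subst hγ
    rw [zero_smul, sub_zero] at hd
    refine ⟨0, ?_, ?_⟩
    · rw [map_zero, sub_zero]; exact mem_D2_of_depth hg hd
    · rw [map_zero]; ring
  · have h1 := pentagon_mem_D1 hg
    obtain ⟨f, hf⟩ := exists_gam h1
    refine ⟨f, hf, ?_⟩
    have hd' : DepthGE k 2 (γ⁻¹ • σ - vm k (n - 1)) := by
      have := hd.smul γ⁻¹
      rwa [smul_sub, smul_smul, inv_mul_cancel₀ hγ, one_smul] at this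
    have hf' : γ⁻¹ • σ - gm k (γ⁻¹ • f) ∈ D2 k := by
      have := (D2 k).smul_mem γ⁻¹ hf
      rwa [smul_sub, ← map_smul] at this
    have hc := sigma_c0 hn hd' hf'
    have hn0 : (n : k) ≠ 0 := by exact_mod_cast (by omega : n ≠ 0)
    have hG : derivative (C (n : k)⁻¹ * X ^ n) = X * c0 (γ⁻¹ • f) := by
      rw [hc, derivative_C_mul, derivative_X_pow, ← mul_assoc, ← C_mul,
        inv_mul_cancel₀ hn0, C_1, one_mul, ← pow_succ']
      congr 1
      omega
    have hF := cocycle_formula hG (by simp; omega) (fun K _ _ a b c =>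
      relF (hg.smul' γ⁻¹) ((D1 k).smul_mem _ h1) hf' a b c)
    have hF2 : px * py * f = algebraMap k (P2 k) γ * (px * py * (γ⁻¹ • f)) := by
      rw [← Algebra.smul_def, mul_smul_comm, smul_smul, mul_inv_cancel₀ hγ, one_smul]
    rw [hF2, hF]
    simp only [map_mul, map_pow, aeval_C, aeval_X]
    have e : algebraMap k (P2 k) n * algebraMap k (P2 k) (n : k)⁻¹ = 1 := by
      rw [← map_mul, mul_inv_cancel₀ hn0, map_one]
    linear_combination (algebraMap k (P2 k) γ * ((px + py) ^ n - px ^ n - py ^ n)) * e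

theorem power_sum_action [CharZero k] {n : ℕ} (hn : Odd n) (h3 : 3 ≤ n) (γ : k) {σ φ : F2 k}
    (hσ : Pentagon k σ) (hd : DepthGE k 2 (σ - γ • vm k (n - 1)))
    (hφ : φ ∈ D2 k) {p : MvPolynomial (Fin 4) k} (hp : φ - symbolMap k p ∈ DN k)
    (D E : LieDerivation k (F2 k) (F2 k))
    (hDx : D (gx k) = 0) (hDy : D (gy k) = ⁅gy k, σ⁆) (hEx : E (gx k) = 0)
    (hEy : E (gy k) = ⁅gy k, φ⁆) :
    ⁅σ, φ⁆ + D φ - E σ + (γ / n) • symbolMap k ((∑ i, ∑ j, genArray k i j ^ n) * p) ∈ DN k := by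
  obtain ⟨f, hf, hF⟩ := sigma_gen hσ h3 γ hd
  have h1 := act_symbol (pentagon_mem_D1 hσ) hf hφ hp D E hDx hDy hEx hEy
  have hn0 : (n : k) ≠ 0 := by exact_mod_cast (by omega : n ≠ 0)
  have hF' : px * py * f = (γ / n) • ((px + py) ^ n - px ^ n - py ^ n : P2 k) := by
    have e : algebraMap k (P2 k) (n : k)⁻¹ * algebraMap k (P2 k) n = 1 := by
      rw [← map_mul, inv_mul_cancel₀ hn0, map_one]
    rw [Algebra.smul_def, div_eq_mul_inv, map_mul]
    linear_combination (algebraMap k (P2 k) (n : k)⁻¹) * hF - (px * py * f) * e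
  have e2 : qq (ps (px * py * f)) = -((γ / n) • (∑ i, ∑ j, genArray k i j ^ n)) := by
    have hneg : ∀ a : MvPolynomial (Fin 4) k, (-a) ^ n = - a ^ n := fun a => hn.neg_pow a
    have g1 : (-MvPolynomial.X 0 - MvPolynomial.X 1 : MvPolynomial (Fin 4) k) ^ n =
      -(MvPolynomial.X 0 + MvPolynomial.X 1) ^ n := by rw [← hneg]; congr 1; ring
    have g2 : (-MvPolynomial.X 2 - MvPolynomial.X 3 : MvPolynomial (Fin 4) k) ^ n =
      -(MvPolynomial.X 2 + MvPolynomial.X 3) ^ n := by rw [← hneg]; congr 1; ring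
    have g3 : (-MvPolynomial.X 0 - MvPolynomial.X 2 : MvPolynomial (Fin 4) k) ^ n =
      -(MvPolynomial.X 0 + MvPolynomial.X 2) ^ n := by rw [← hneg]; congr 1; ring
    have g4 : (-MvPolynomial.X 1 - MvPolynomial.X 3 : MvPolynomial (Fin 4) k) ^ n =
      -(MvPolynomial.X 1 + MvPolynomial.X 3) ^ n := by rw [← hneg]; congr 1; ring
    rw [hF', ps_eq, qq]
    simp only [map_sub, map_add, map_smul, map_pow, ev2_px, ev2_py, ev4_vx, ev4_vy, ev4_vs, ev4_vt]
    have a1 : (MvPolynomial.X 0 + MvPolynomial.X 2 - MvPolynomial.X 0 : MvPolynomial (Fin 4) k) =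
      MvPolynomial.X 2 := by ring
    have a2 : (MvPolynomial.X 1 + MvPolynomial.X 3 - MvPolynomial.X 1 : MvPolynomial (Fin 4) k) =
      MvPolynomial.X 3 := by ring
    have a3 : (MvPolynomial.X 0 + MvPolynomial.X 1 + MvPolynomial.X 2 + MvPolynomial.X 3 :
      MvPolynomial (Fin 4) k) =
      MvPolynomial.X 0 + MvPolynomial.X 2 + (MvPolynomial.X 1 + MvPolynomial.X 3) := by ring
    have a4 : (∑ i, ∑ j, genArray k i j ^ n) =
        MvPolynomial.X 0 ^ n + MvPolynomial.X 1 ^ n - (MvPolynomial.X 0 + MvPolynomial.X 1) ^ n +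
        (MvPolynomial.X 2 ^ n + MvPolynomial.X 3 ^ n - (MvPolynomial.X 2 + MvPolynomial.X 3) ^ n) +
        (-(MvPolynomial.X 0 + MvPolynomial.X 2) ^ n - (MvPolynomial.X 1 + MvPolynomial.X 3) ^ n +
        (MvPolynomial.X 0 + MvPolynomial.X 2 + (MvPolynomial.X 1 + MvPolynomial.X 3)) ^ n) := by
      rw [Fin.sum_univ_three, Fin.sum_univ_three, Fin.sum_univ_three, Fin.sum_univ_three]
      simp only [genArray, Matrix.of_apply, Matrix.cons_val', Matrix.cons_val_zero,
        Matrix.cons_val_one, Matrix.cons_val, Matrix.cons_val_fin_one]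
      rw [g1, g2, g3, g4, a3]
      ring
    rw [a1, a2, a4]
    simp only [Algebra.smul_def]
    ring
  rw [e2, neg_mul, map_neg, smul_mul_assoc, map_smul, sub_neg_eq_add] at h1
  exact h1

end main

end Pool.Agent.Helper392_GT
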