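import Pool.Agent.Helper392_GT.OddPow
import Pool.Agent.Helper392_GT.PowerSum

namespace Pool.Agent.Helper392_GT

universe u v

set_option linter.unusedSectionVars false
set_option linter.unusedSimpArgs false

open MvPolynomial

section sym3

variable {k : Type u} [Field k] [CharZero k] {B : Type u} [CommRing B] [Algebra k B]

/-- combinations -/
def Cb (T : Subalgebra k B) (p q : B) (h : B) : Prop :=
  ∃ c0 ∈ T, ∃ c1 ∈ T, ∃ c2 ∈ T, ∃ c3 ∈ T, ∃ c4 ∈ T, ∃ c5 ∈ T,
    h = c0 + c1 * p + c2 * p ^ 2 + c3 * q + c4 * (p * q) + c5 * (p ^ 2 * q)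

theorem Cb.add {T : Subalgebra k B} {p q h h' : B} (H : Cb T p q h) (H' : Cb T p q h') :
    Cb T p q (h + h') := by
  obtain ⟨c0, m0, c1, m1, c2, m2, c3, m3, c4, m4, c5, m5, rfl⟩ := H
  obtain ⟨d0, n0, d1, n1, d2, n2, d3, n3, d4, n4, d5, n5, rfl⟩ := H'
  exact ⟨_, T.add_mem m0 n0, _, T.add_mem m1 n1, _, T.add_mem m2 n2, _, T.add_mem m3 n3,
    _, T.add_mem m4 n4, _, T.add_mem m5 n5, by ring⟩

theorem Cb.T_mul {T : Subalgebra k B} {p q h t : B} (ht : t ∈ T) (H : Cb T p q h) :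
    Cb T p q (t * h) := by
  obtain ⟨c0, m0, c1, m1, c2, m2, c3, m3, c4, m4, c5, m5, rfl⟩ := H
  exact ⟨_, T.mul_mem ht m0, _, T.mul_mem ht m1, _, T.mul_mem ht m2, _, T.mul_mem ht m3,
    _, T.mul_mem ht m4, _, T.mul_mem ht m5, by ring⟩

theorem Cb.p_mul {T : Subalgebra k B} {p q h : B} (hu : p * p + p * q + q * q ∈ T)
    (hv : p * q * (p + q) ∈ T) (H : Cb T p q h) : Cb T p q (p * h) := by
  obtain ⟨c0, m0, c1, m1, c2, m2, c3, m3, c4, m4, c5, m5, rfl⟩ := H
  refine ⟨-(p * q * (p + q)) * c2, T.mul_mem (T.neg_mem hv) m2,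
    c0 + (p * p + p * q + q * q) * c2, T.add_mem m0 (T.mul_mem hu m2), c1, m1,
    -(p * q * (p + q)) * c5, T.mul_mem (T.neg_mem hv) m5,
    c3 + (p * p + p * q + q * q) * c5, T.add_mem m3 (T.mul_mem hu m5), c4, m4, by ring⟩

theorem Cb.q_mul {T : Subalgebra k B} {p q h : B} (hu : p * p + p * q + q * q ∈ T)
    (hv : p * q * (p + q) ∈ T) (H : Cb T p q h) : Cb T p q (q * h) := by
  obtain ⟨c0, m0, c1, m1, c2, m2, c3, m3, c4, m4, c5, m5, rfl⟩ := H
  refine ⟨(p * p + p * q + q * q) * c3 + (p * q * (p + q)) * c4,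
    T.add_mem (T.mul_mem hu m3) (T.mul_mem hv m4),
    (p * q * (p + q)) * c5, T.mul_mem hv m5, -c3, T.neg_mem m3,
    c0 + (p * q * (p + q)) * c5, T.add_mem m0 (T.mul_mem hv m5),
    c1 - c3 - (p * p + p * q + q * q) * c5, T.sub_mem (T.sub_mem m1 m3) (T.mul_mem hu m5),
    c2 - c4, T.sub_mem m2 m4, by ring⟩

theorem Cb.one (T : Subalgebra k B) (p q : B) : Cb T p q 1 :=
  ⟨1, T.one_mem, 0, T.zero_mem, 0, T.zero_mem, 0, T.zero_mem, 0, T.zero_mem, 0, T.zero_mem,
    by ring⟩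

/-- invariants of the symmetric group on three letters -/
theorem sym3 {T : Subalgebra k B} {p q h : B} (al be : B →ₐ[k] B)
    (hal : ∀ t ∈ T, al t = t) (hbe : ∀ t ∈ T, be t = t) (a1 : al p = q) (a2 : al q = p)
    (b1 : be p = q) (b2 : be q = -p - q) (hu : p * p + p * q + q * q ∈ T)
    (hv : p * q * (p + q) ∈ T) (H : Cb T p q h) (h1 : al h = h) (h2 : be h = h) : h ∈ T := by
  obtain ⟨c0, m0, c1, m1, c2, m2, c3, m3, c4, m4, c5, m5, e⟩ := H
  have ea : al h = c0 + c1 * q + c2 * q ^ 2 + c3 * p + c4 * (q * p) + c5 * (q ^ 2 * p) := by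
    rw [e]
    simp only [map_add, map_mul, map_pow, hal _ m0, hal _ m1, hal _ m2, hal _ m3, hal _ m4,
      hal _ m5, a1, a2]
  have eb : be h = c0 + c1 * q + c2 * q ^ 2 + c3 * (-p - q) + c4 * (q * (-p - q)) +
      c5 * (q ^ 2 * (-p - q)) := by
    rw [e]
    simp only [map_add, map_mul, map_pow, hbe _ m0, hbe _ m1, hbe _ m2, hbe _ m3, hbe _ m4,
      hbe _ m5, b1, b2]
  have ebb : be (be h) = c0 + c1 * (-p - q) + c2 * (-p - q) ^ 2 + c3 * p + c4 * ((-p - q) * p) +
      c5 * ((-p - q) ^ 2 * p) := by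
    rw [eb]
    simp only [map_add, map_mul, map_pow, map_sub, map_neg, hbe _ m0, hbe _ m1, hbe _ m2,
      hbe _ m3, hbe _ m4, hbe _ m5, b1, b2]
    ring
  have eab : al (be h) = c0 + c1 * p + c2 * p ^ 2 + c3 * (-p - q) + c4 * (p * (-p - q)) +
      c5 * (p ^ 2 * (-p - q)) := by
    rw [eb]
    simp only [map_add, map_mul, map_pow, map_sub, map_neg, hal _ m0, hal _ m1, hal _ m2,
      hal _ m3, hal _ m4, hal _ m5, a1, a2]
    ring
  have eabb : al (be (be h)) = c0 + c1 * (-p - q) + c2 * (-p - q) ^ 2 + c3 * q +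
      c4 * ((-p - q) * q) + c5 * ((-p - q) ^ 2 * q) := by
    rw [ebb]
    simp only [map_add, map_mul, map_pow, map_sub, map_neg, hal _ m0, hal _ m1, hal _ m2,
      hal _ m3, hal _ m4, hal _ m5, a1, a2]
    ring
  rw [h2] at ebb eab eabb
  rw [h2] at ebb eabb
  rw [h1] at ea eab eabb
  rw [h2] at eb
  have h6 : (6 : k) • h = 6 * c0 + 4 * (p * p + p * q + q * q) * c2 -
      2 * (p * p + p * q + q * q) * c4 + 3 * (p * q * (p + q)) * c5 := by
    rw [Algebra.smul_def, map_ofNat]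
    linear_combination e + ea + eb + ebb + eab + eabb
  have h7 : (6 : k) • h ∈ T := by
    rw [h6]
    have n : ∀ n : ℕ, (n : B) ∈ T := fun n => T.natCast_mem n
    have n2 := n 2; have n3 := n 3; have n4 := n 4; have n6 := n 6
    push_cast at n2 n3 n4 n6
    exact T.add_mem (T.sub_mem (T.add_mem (T.mul_mem n6 m0) (T.mul_mem (T.mul_mem n4 hu) m2))
      (T.mul_mem (T.mul_mem n2 hu) m4)) (T.mul_mem (T.mul_mem n3 hv) m5)
  have h8 : h = (6 : k)⁻¹ • ((6 : k) • h) := by
    rw [smul_smul, inv_mul_cancel₀ (by norm_num), one_smul]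
  rw [h8]
  exact T.smul_mem h7 _

theorem Cb.mul {T : Subalgebra k B} {p q h h' : B} (hu : p * p + p * q + q * q ∈ T)
    (hv : p * q * (p + q) ∈ T) (H : Cb T p q h) (H' : Cb T p q h') : Cb T p q (h * h') := by
  obtain ⟨c0, m0, c1, m1, c2, m2, c3, m3, c4, m4, c5, m5, rfl⟩ := H
  have H1 := H'.p_mul hu hv
  have H2 := H1.p_mul hu hv
  have H3 := H'.q_mul hu hv
  have H4 := H3.p_mul hu hv
  have H5 := H4.p_mul hu hv
  have := (((((H'.T_mul m0).add (H1.T_mul m1)).add (H2.T_mul m2)).add (H3.T_mul m3)).add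
    (H4.T_mul m4)).add (H5.T_mul m5)
  convert this using 1
  ring

theorem Cb.of_mem {T : Subalgebra k B} {p q t : B} (ht : t ∈ T) : Cb T p q t := by
  have := (Cb.one T p q).T_mul ht
  rwa [mul_one] at this

theorem Cb.self_p (T : Subalgebra k B) (p q : B) : Cb T p q p :=
  ⟨0, T.zero_mem, 1, T.one_mem, 0, T.zero_mem, 0, T.zero_mem, 0, T.zero_mem, 0, T.zero_mem,
    by ring⟩

theorem Cb.self_q (T : Subalgebra k B) (p q : B) : Cb T p q q :=
  ⟨0, T.zero_mem, 0, T.zero_mem, 0, T.zero_mem, 1, T.one_mem, 0, T.zero_mem, 0, T.zero_mem,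
    by ring⟩

/-- combinations for the swap -/
def Ab (T : Subalgebra k B) (a d : B) (h : B) : Prop :=
  ∃ c0 ∈ T, ∃ c1 ∈ T, ∃ c2 ∈ T, h = c0 + c1 * a + c2 * d

theorem Ab.mul {T : Subalgebra k B} {a d h h' : B} (h1 : a * a ∈ T) (h2 : a * d ∈ T)
    (h3 : d * d ∈ T) (H : Ab T a d h) (H' : Ab T a d h') : Ab T a d (h * h') := by
  obtain ⟨c0, m0, c1, m1, c2, m2, rfl⟩ := H
  obtain ⟨d0, n0, d1, n1, d2, n2, rfl⟩ := H'
  refine ⟨c0 * d0 + c1 * d1 * (a * a) + (c1 * d2 + c2 * d1) * (a * d) + c2 * d2 * (d * d), ?_,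
    c0 * d1 + c1 * d0, T.add_mem (T.mul_mem m0 n1) (T.mul_mem m1 n0),
    c0 * d2 + c2 * d0, T.add_mem (T.mul_mem m0 n2) (T.mul_mem m2 n0), by ring⟩
  exact T.add_mem (T.add_mem (T.add_mem (T.mul_mem m0 n0) (T.mul_mem (T.mul_mem m1 n1) h1))
    (T.mul_mem (T.add_mem (T.mul_mem m1 n2) (T.mul_mem m2 n1)) h2))
    (T.mul_mem (T.mul_mem m2 n2) h3)

theorem Ab.add {T : Subalgebra k B} {a d h h' : B} (H : Ab T a d h) (H' : Ab T a d h') :
    Ab T a d (h + h') := by
  obtain ⟨c0, m0, c1, m1, c2, m2, rfl⟩ := H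
  obtain ⟨d0, n0, d1, n1, d2, n2, rfl⟩ := H'
  exact ⟨_, T.add_mem m0 n0, _, T.add_mem m1 n1, _, T.add_mem m2 n2, by ring⟩

theorem Ab.of_mem {T : Subalgebra k B} {a d t : B} (ht : t ∈ T) : Ab T a d t :=
  ⟨t, ht, 0, T.zero_mem, 0, T.zero_mem, by ring⟩

theorem Ab.self_a (T : Subalgebra k B) (a d : B) : Ab T a d a :=
  ⟨0, T.zero_mem, 1, T.one_mem, 0, T.zero_mem, by ring⟩

theorem Ab.self_d (T : Subalgebra k B) (a d : B) : Ab T a d d :=
  ⟨0, T.zero_mem, 0, T.zero_mem, 1, T.one_mem, by ring⟩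

end sym3

section inv

variable {k : Type u} [Field k] [CharZero k]


/-- even diagonals -/
noncomputable def s2 : (MvPolynomial (Fin 4) k) := -X 0 + X 1 - 2 * X 2 - X 3
noncomputable def s3 : (MvPolynomial (Fin 4) k) := -X 0 - 2 * X 1 + X 2 - X 3
noncomputable def t1 : (MvPolynomial (Fin 4) k) := X 0 - X 1 - X 2 - 2 * X 3
noncomputable def t3 : (MvPolynomial (Fin 4) k) := -2 * X 0 - X 1 - X 2 + X 3

noncomputable def uu : (MvPolynomial (Fin 4) k) := s2 * s2 + s2 * s3 + s3 * s3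
noncomputable def vv : (MvPolynomial (Fin 4) k) := s2 * s3 * (s2 + s3)
noncomputable def uu' : (MvPolynomial (Fin 4) k) := t1 * t1 + t1 * t3 + t3 * t3
noncomputable def vv' : (MvPolynomial (Fin 4) k) := t1 * t3 * (t1 + t3)

/-- substitution of an array -/
noncomputable def arr (N : Matrix (Fin 3) (Fin 3) (MvPolynomial (Fin 4) k)) : (MvPolynomial (Fin 4) k) →ₐ[k] (MvPolynomial (Fin 4) k) :=
  aeval ![N 0 0, N 0 1, N 1 0, N 1 1]

/-- invariance under all row and column permutations and transposition -/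
structure WInv (h : (MvPolynomial (Fin 4) k)) : Prop where
  perm : ∀ σ τ : Equiv.Perm (Fin 3), atArray h ((genArray k).submatrix σ τ) = h
  tr : atArray h (genArray k).transpose = h

noncomputable def cyc : Equiv.Perm (Fin 3) := Equiv.swap 0 1 * Equiv.swap 1 2

theorem cyc0 : cyc 0 = 1 := by decide
theorem cyc1 : cyc 1 = 2 := by decide
theorem cyc2 : cyc 2 = 0 := by decide
theorem cyci0 : cyc.symm 0 = 2 := by decide
theorem cyci1 : cyc.symm 1 = 0 := by decide
theorem cyci2 : cyc.symm 2 = 1 := by decide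

/-- the five transformations -/
noncomputable def g1 : (MvPolynomial (Fin 4) k) →ₐ[k] (MvPolynomial (Fin 4) k) := arr (genArray k).transpose
noncomputable def g2 : (MvPolynomial (Fin 4) k) →ₐ[k] (MvPolynomial (Fin 4) k) := arr ((genArray k).submatrix cyc cyc.symm)
noncomputable def g3 : (MvPolynomial (Fin 4) k) →ₐ[k] (MvPolynomial (Fin 4) k) := arr ((genArray k).submatrix cyc cyc)
noncomputable def g4 : (MvPolynomial (Fin 4) k) →ₐ[k] (MvPolynomial (Fin 4) k) :=
  (arr (genArray k).transpose).comp (arr ((genArray k).submatrix (Equiv.swap 0 1) (Equiv.swap 0 1)))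
noncomputable def g5 : (MvPolynomial (Fin 4) k) →ₐ[k] (MvPolynomial (Fin 4) k) := arr ((genArray k).submatrix (Equiv.swap 0 1) id)

theorem WInv.fixed {h : (MvPolynomial (Fin 4) k)} (H : WInv h) : g1 h = h ∧ g2 h = h ∧ g3 h = h ∧ g4 h = h ∧ g5 h = h := by
  refine ⟨H.tr, H.perm cyc cyc.symm, H.perm cyc cyc, ?_, H.perm (Equiv.swap 0 1) 1⟩
  have h1 : arr ((genArray k).submatrix (Equiv.swap 0 1) (Equiv.swap 0 1)) h = h :=
    H.perm (Equiv.swap 0 1) (Equiv.swap 0 1)
  have h2 : arr (genArray k).transpose h = h := H.tr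
  rw [g4, AlgHom.comp_apply, h1, h2]

theorem g1_X : g1 (X 0 : (MvPolynomial (Fin 4) k)) = X 0 ∧ g1 (X 1 : (MvPolynomial (Fin 4) k)) = X 2 ∧ g1 (X 2 : (MvPolynomial (Fin 4) k)) = X 1 ∧
    g1 (X 3 : (MvPolynomial (Fin 4) k)) = X 3 := by
  simp [g1, arr, genArray]

theorem g2_X : g2 (X 0 : (MvPolynomial (Fin 4) k)) = -X 2 - X 3 ∧ g2 (X 1 : (MvPolynomial (Fin 4) k)) = X 2 ∧
    g2 (X 2 : (MvPolynomial (Fin 4) k)) = X 0 + X 1 + X 2 + X 3 ∧ g2 (X 3 : (MvPolynomial (Fin 4) k)) = -X 0 - X 2 := by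
  simp [g2, arr, genArray, cyc0, cyc1, cyci0, cyci1]

theorem g3_X : g3 (X 0 : (MvPolynomial (Fin 4) k)) = X 3 ∧ g3 (X 1 : (MvPolynomial (Fin 4) k)) = -X 2 - X 3 ∧
    g3 (X 2 : (MvPolynomial (Fin 4) k)) = -X 1 - X 3 ∧ g3 (X 3 : (MvPolynomial (Fin 4) k)) = X 0 + X 1 + X 2 + X 3 := by
  simp [g3, arr, genArray, cyc0, cyc1]

theorem g4_X : g4 (X 0 : (MvPolynomial (Fin 4) k)) = X 3 ∧ g4 (X 1 : (MvPolynomial (Fin 4) k)) = X 1 ∧ g4 (X 2 : (MvPolynomial (Fin 4) k)) = X 2 ∧
    g4 (X 3 : (MvPolynomial (Fin 4) k)) = X 0 := by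
  simp [g4, arr, genArray]

theorem g5_X : g5 (X 0 : (MvPolynomial (Fin 4) k)) = X 2 ∧ g5 (X 1 : (MvPolynomial (Fin 4) k)) = X 3 ∧ g5 (X 2 : (MvPolynomial (Fin 4) k)) = X 0 ∧
    g5 (X 3 : (MvPolynomial (Fin 4) k)) = X 1 := by
  simp [g5, arr, genArray]

theorem all_Cb (h : (MvPolynomial (Fin 4) k)) : Cb (Algebra.adjoin k {uu, vv, t1, t3}) (s2 : (MvPolynomial (Fin 4) k)) s3 h := by
  have hu : (s2 * s2 + s2 * s3 + s3 * s3 : (MvPolynomial (Fin 4) k)) ∈ Algebra.adjoin k {uu, vv, t1, (t3 : (MvPolynomial (Fin 4) k))} :=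
    Algebra.subset_adjoin (by simp [uu])
  have hv : (s2 * s3 * (s2 + s3) : (MvPolynomial (Fin 4) k)) ∈ Algebra.adjoin k {uu, vv, t1, (t3 : (MvPolynomial (Fin 4) k))} :=
    Algebra.subset_adjoin (by simp [vv])
  have ht1 : (t1 : (MvPolynomial (Fin 4) k)) ∈ Algebra.adjoin k {uu, vv, t1, (t3 : (MvPolynomial (Fin 4) k))} :=
    Algebra.subset_adjoin (by simp)
  have ht3 : (t3 : (MvPolynomial (Fin 4) k)) ∈ Algebra.adjoin k {uu, vv, t1, (t3 : (MvPolynomial (Fin 4) k))} :=
    Algebra.subset_adjoin (by simp)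
  have hC : ∀ c : k, (C c : (MvPolynomial (Fin 4) k)) ∈ Algebra.adjoin k {uu, vv, t1, (t3 : (MvPolynomial (Fin 4) k))} :=
    fun c => Subalgebra.algebraMap_mem _ c
  have c3 : (C (3⁻¹ : k) * 3 : (MvPolynomial (Fin 4) k)) = 1 := by
    rw [show (3 : (MvPolynomial (Fin 4) k)) = C (3 : k) by rw [map_ofNat], ← C_mul, inv_mul_cancel₀ (by norm_num), C_1]
  have n1 : (C (-1 : k) : (MvPolynomial (Fin 4) k)) = -1 := by rw [C_neg, C_1]
  have hX : ∀ i, Cb (Algebra.adjoin k {uu, vv, t1, t3}) (s2 : (MvPolynomial (Fin 4) k)) s3 (X i) := by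
    intro i
    have hp := Cb.self_p (Algebra.adjoin k {uu, vv, t1, (t3 : (MvPolynomial (Fin 4) k))}) s2 s3
    have hq := Cb.self_q (Algebra.adjoin k {uu, vv, t1, (t3 : (MvPolynomial (Fin 4) k))}) s2 s3
    have h1 := Cb.of_mem (p := (s2 : (MvPolynomial (Fin 4) k))) (q := s3) ht1
    have h3 := Cb.of_mem (p := (s2 : (MvPolynomial (Fin 4) k))) (q := s3) ht3
    fin_cases i
    · show Cb _ _ _ (X 0)
      have := (((hp.T_mul (hC (-1))).add (hq.T_mul (hC (-1)))).add h1).T_mul (hC 3⁻¹)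
      convert this using 1
      rw [n1, s2, s3, t1]
      linear_combination (-(X 0 : (MvPolynomial (Fin 4) k))) * c3
    · show Cb _ _ _ (X 1)
      have := ((hp.add (h1.T_mul (hC (-1)))).add (h3.T_mul (hC (-1)))).T_mul (hC 3⁻¹)
      convert this using 1
      rw [n1, s2, t1, t3]
      linear_combination (-(X 1 : (MvPolynomial (Fin 4) k))) * c3
    · show Cb _ _ _ (X 2)
      have := ((hq.add (h1.T_mul (hC (-1)))).add (h3.T_mul (hC (-1)))).T_mul (hC 3⁻¹)
      convert this using 1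
      rw [n1, s3, t1, t3]
      linear_combination (-(X 2 : (MvPolynomial (Fin 4) k))) * c3
    · show Cb _ _ _ (X 3)
      have := (((hp.T_mul (hC (-1))).add (hq.T_mul (hC (-1)))).add h3).T_mul (hC 3⁻¹)
      convert this using 1
      rw [n1, s2, s3, t3]
      linear_combination (-(X 3 : (MvPolynomial (Fin 4) k))) * c3
  induction h using MvPolynomial.induction_on with
  | C a => exact Cb.of_mem (hC a)
  | add p q hp hq => exact hp.add hq
  | mul_X p i hp => exact hp.mul hu hv (hX i)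

theorem step2 {h : (MvPolynomial (Fin 4) k)} (hh : h ∈ Algebra.adjoin k {uu, vv, t1, (t3 : (MvPolynomial (Fin 4) k))}) :
    Cb (Algebra.adjoin k {uu, vv, uu', vv'}) (t1 : (MvPolynomial (Fin 4) k)) t3 h := by
  have hu : (t1 * t1 + t1 * t3 + t3 * t3 : (MvPolynomial (Fin 4) k)) ∈ Algebra.adjoin k {uu, vv, uu', (vv' : (MvPolynomial (Fin 4) k))} :=
    Algebra.subset_adjoin (by simp [uu'])
  have hv : (t1 * t3 * (t1 + t3) : (MvPolynomial (Fin 4) k)) ∈ Algebra.adjoin k {uu, vv, uu', (vv' : (MvPolynomial (Fin 4) k))} :=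
    Algebra.subset_adjoin (by simp [vv'])
  induction hh using Algebra.adjoin_induction with
  | mem x hx =>
    rcases hx with rfl | rfl | rfl | hx
    · exact Cb.of_mem (Algebra.subset_adjoin (by simp))
    · exact Cb.of_mem (Algebra.subset_adjoin (by simp))
    · exact Cb.self_p _ _ _
    · rw [Set.mem_singleton_iff.mp hx]; exact Cb.self_q _ _ _
  | algebraMap r => exact Cb.of_mem (Subalgebra.algebraMap_mem _ r)
  | add x y _ _ hx hy => exact hx.add hy
  | mul x y _ _ hx hy => exact hx.mul hu hv hy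

/-- the four generators -/
noncomputable def ia : (MvPolynomial (Fin 4) k) := uu - uu'
noncomputable def ib : (MvPolynomial (Fin 4) k) := uu + uu'
noncomputable def is : (MvPolynomial (Fin 4) k) := vv + vv'
noncomputable def id' : (MvPolynomial (Fin 4) k) := vv - vv'

theorem step3 {h : (MvPolynomial (Fin 4) k)} (hh : h ∈ Algebra.adjoin k {uu, vv, uu', (vv' : (MvPolynomial (Fin 4) k))}) :
    Ab (Algebra.adjoin k {ib, is, ia * ia, ia * id', id' * id'}) (ia : (MvPolynomial (Fin 4) k)) id' h := by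
  have h1 : (ia * ia : (MvPolynomial (Fin 4) k)) ∈ Algebra.adjoin k {ib, is, ia * ia, ia * id', (id' * id' : (MvPolynomial (Fin 4) k))} :=
    Algebra.subset_adjoin (by simp)
  have h2 : (ia * id' : (MvPolynomial (Fin 4) k)) ∈ Algebra.adjoin k {ib, is, ia * ia, ia * id', (id' * id' : (MvPolynomial (Fin 4) k))} :=
    Algebra.subset_adjoin (by simp)
  have h3 : (id' * id' : (MvPolynomial (Fin 4) k)) ∈ Algebra.adjoin k {ib, is, ia * ia, ia * id', (id' * id' : (MvPolynomial (Fin 4) k))} :=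
    Algebra.subset_adjoin (by simp)
  have h4 : (ib : (MvPolynomial (Fin 4) k)) ∈ Algebra.adjoin k {ib, is, ia * ia, ia * id', (id' * id' : (MvPolynomial (Fin 4) k))} :=
    Algebra.subset_adjoin (by simp)
  have h5 : (is : (MvPolynomial (Fin 4) k)) ∈ Algebra.adjoin k {ib, is, ia * ia, ia * id', (id' * id' : (MvPolynomial (Fin 4) k))} :=
    Algebra.subset_adjoin (by simp)
  have hC : ∀ c : k, (C c : (MvPolynomial (Fin 4) k)) ∈ Algebra.adjoin k {ib, is, ia * ia, ia * id', (id' * id' : (MvPolynomial (Fin 4) k))} :=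
    fun c => Subalgebra.algebraMap_mem _ c
  have c2 : (C (2⁻¹ : k) * 2 : (MvPolynomial (Fin 4) k)) = 1 := by
    rw [show (2 : (MvPolynomial (Fin 4) k)) = C (2 : k) by rw [map_ofNat], ← C_mul, inv_mul_cancel₀ (by norm_num), C_1]
  have ha := Ab.self_a (Algebra.adjoin k {ib, is, ia * ia, ia * id', (id' * id' : (MvPolynomial (Fin 4) k))}) ia id'
  have hd := Ab.self_d (Algebra.adjoin k {ib, is, ia * ia, ia * id', (id' * id' : (MvPolynomial (Fin 4) k))}) ia id'
  have hb := Ab.of_mem (a := (ia : (MvPolynomial (Fin 4) k))) (d := id') h4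
  have hs := Ab.of_mem (a := (ia : (MvPolynomial (Fin 4) k))) (d := id') h5
  have hc := fun c => Ab.of_mem (a := (ia : (MvPolynomial (Fin 4) k))) (d := id') (hC c)
  induction hh using Algebra.adjoin_induction with
  | mem x hx =>
    rcases hx with rfl | rfl | rfl | hx
    · have := (hc 2⁻¹).mul h1 h2 h3 (hb.add ha)
      convert this using 1
      rw [ia, ib]
      linear_combination (-(uu : (MvPolynomial (Fin 4) k))) * c2
    · have := (hc 2⁻¹).mul h1 h2 h3 (hs.add hd)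
      convert this using 1
      rw [id', is]
      linear_combination (-(vv : (MvPolynomial (Fin 4) k))) * c2
    · have := (hc 2⁻¹).mul h1 h2 h3 (hb.add ((hc (-1)).mul h1 h2 h3 ha))
      convert this using 1
      rw [ia, ib, C_neg, C_1]
      linear_combination (-(uu' : (MvPolynomial (Fin 4) k))) * c2
    · rw [Set.mem_singleton_iff.mp hx]
      have := (hc 2⁻¹).mul h1 h2 h3 (hs.add ((hc (-1)).mul h1 h2 h3 hd))
      convert this using 1
      rw [id', is, C_neg, C_1]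
      linear_combination (-(vv' : (MvPolynomial (Fin 4) k))) * c2
  | algebraMap r => exact Ab.of_mem (Subalgebra.algebraMap_mem _ r)
  | add x y _ _ hx hy => exact hx.add hy
  | mul x y _ _ hx hy => exact hx.mul h1 h2 h3 hy

theorem fixed_adjoin (f : (MvPolynomial (Fin 4) k) →ₐ[k] (MvPolynomial (Fin 4) k)) (S : Set (MvPolynomial (Fin 4) k)) (hS : ∀ s ∈ S, f s = s) :
    ∀ t ∈ Algebra.adjoin k S, f t = t := by
  intro t ht
  induction ht using Algebra.adjoin_induction with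
  | mem x hx => exact hS x hx
  | algebraMap r => exact f.commutes r
  | add x y _ _ hx hy => rw [map_add, hx, hy]
  | mul x y _ _ hx hy => rw [map_mul, hx, hy]

theorem mem_T2 {h : (MvPolynomial (Fin 4) k)} (f1 : g1 h = h) (f2 : g2 h = h) (f3 : g3 h = h) (f4 : g4 h = h) :
    h ∈ Algebra.adjoin k {uu, vv, uu', (vv' : (MvPolynomial (Fin 4) k))} := by
  obtain ⟨a0, a1, a2, a3⟩ := g1_X (k := k)
  obtain ⟨b0, b1, b2, b3⟩ := g2_X (k := k)
  obtain ⟨c0, c1, c2, c3⟩ := g3_X (k := k)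
  obtain ⟨d0, d1, d2, d3⟩ := g4_X (k := k)
  have e1 : h ∈ Algebra.adjoin k {uu, vv, t1, (t3 : (MvPolynomial (Fin 4) k))} := by
    refine sym3 (p := (s2 : (MvPolynomial (Fin 4) k))) (q := s3) g1 g2 ?_ ?_ ?_ ?_ ?_ ?_ ?_ ?_ (all_Cb h) f1 f2
    · refine fixed_adjoin g1 _ ?_
      rintro s (rfl | rfl | rfl | hs)
      · simp only [uu, s2, s3, map_add, map_sub, map_mul, map_neg, map_ofNat, a0, a1, a2, a3]; ring
      · simp only [vv, s2, s3, map_add, map_sub, map_mul, map_neg, map_ofNat, a0, a1, a2, a3]; ring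
      · simp only [t1, map_add, map_sub, map_mul, map_neg, map_ofNat, a0, a1, a2, a3]; ring
      · rw [Set.mem_singleton_iff.mp hs]
        simp only [t3, map_add, map_sub, map_mul, map_neg, map_ofNat, a0, a1, a2, a3]; ring
    · refine fixed_adjoin g2 _ ?_
      rintro s (rfl | rfl | rfl | hs)
      · simp only [uu, s2, s3, map_add, map_sub, map_mul, map_neg, map_ofNat, b0, b1, b2, b3]; ring
      · simp only [vv, s2, s3, map_add, map_sub, map_mul, map_neg, map_ofNat, b0, b1, b2, b3]; ring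
      · simp only [t1, map_add, map_sub, map_mul, map_neg, map_ofNat, b0, b1, b2, b3]; ring
      · rw [Set.mem_singleton_iff.mp hs]
        simp only [t3, map_add, map_sub, map_mul, map_neg, map_ofNat, b0, b1, b2, b3]; ring
    · simp only [s2, s3, map_add, map_sub, map_mul, map_neg, map_ofNat, a0, a1, a2, a3]; ring
    · simp only [s2, s3, map_add, map_sub, map_mul, map_neg, map_ofNat, a0, a1, a2, a3]; ring
    · simp only [s2, s3, map_add, map_sub, map_mul, map_neg, map_ofNat, b0, b1, b2, b3]; ring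
    · simp only [s2, s3, map_add, map_sub, map_mul, map_neg, map_ofNat, b0, b1, b2, b3]; ring
    · exact Algebra.subset_adjoin (by simp [uu])
    · exact Algebra.subset_adjoin (by simp [vv])
  refine sym3 (p := (t1 : (MvPolynomial (Fin 4) k))) (q := t3) g4 g3 ?_ ?_ ?_ ?_ ?_ ?_ ?_ ?_ (step2 e1) f4 f3
  · refine fixed_adjoin g4 _ ?_
    rintro s (rfl | rfl | rfl | hs)
    · simp only [uu, s2, s3, map_add, map_sub, map_mul, map_neg, map_ofNat, d0, d1, d2, d3]; ring
    · simp only [vv, s2, s3, map_add, map_sub, map_mul, map_neg, map_ofNat, d0, d1, d2, d3]; ring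
    · simp only [uu', t1, t3, map_add, map_sub, map_mul, map_neg, map_ofNat, d0, d1, d2, d3]; ring
    · rw [Set.mem_singleton_iff.mp hs]
      simp only [vv', t1, t3, map_add, map_sub, map_mul, map_neg, map_ofNat, d0, d1, d2, d3]; ring
  · refine fixed_adjoin g3 _ ?_
    rintro s (rfl | rfl | rfl | hs)
    · simp only [uu, s2, s3, map_add, map_sub, map_mul, map_neg, map_ofNat, c0, c1, c2, c3]; ring
    · simp only [vv, s2, s3, map_add, map_sub, map_mul, map_neg, map_ofNat, c0, c1, c2, c3]; ring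
    · simp only [uu', t1, t3, map_add, map_sub, map_mul, map_neg, map_ofNat, c0, c1, c2, c3]; ring
    · rw [Set.mem_singleton_iff.mp hs]
      simp only [vv', t1, t3, map_add, map_sub, map_mul, map_neg, map_ofNat, c0, c1, c2, c3]; ring
  · simp only [t1, t3, map_add, map_sub, map_mul, map_neg, map_ofNat, d0, d1, d2, d3]; ring
  · simp only [t1, t3, map_add, map_sub, map_mul, map_neg, map_ofNat, d0, d1, d2, d3]; ring
  · simp only [t1, t3, map_add, map_sub, map_mul, map_neg, map_ofNat, c0, c1, c2, c3]; ring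
  · simp only [t1, t3, map_add, map_sub, map_mul, map_neg, map_ofNat, c0, c1, c2, c3]; ring
  · exact Algebra.subset_adjoin (by simp [uu'])
  · exact Algebra.subset_adjoin (by simp [vv'])

theorem mem_T3 {h : (MvPolynomial (Fin 4) k)} (H : WInv h) :
    h ∈ Algebra.adjoin k {ib, is, ia * ia, ia * id', (id' * id' : (MvPolynomial (Fin 4) k))} := by
  obtain ⟨f1, f2, f3, f4, f5⟩ := H.fixed
  obtain ⟨a0, a1, a2, a3⟩ := g5_X (k := k)
  have e2 := mem_T2 f1 f2 f3 f4
  obtain ⟨c0, m0, c1, m1, c2, m2, e⟩ := step3 e2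
  have hia : g5 (ia : (MvPolynomial (Fin 4) k)) = - ia := by
    simp only [ia, uu, uu', s2, s3, t1, t3, map_add, map_sub, map_mul, map_neg, map_ofNat,
      a0, a1, a2, a3]; ring
  have hid : g5 (id' : (MvPolynomial (Fin 4) k)) = - id' := by
    simp only [id', vv, vv', s2, s3, t1, t3, map_add, map_sub, map_mul, map_neg, map_ofNat,
      a0, a1, a2, a3]; ring
  have hfix := fixed_adjoin (g5 : (MvPolynomial (Fin 4) k) →ₐ[k] (MvPolynomial (Fin 4) k)) {ib, is, ia * ia, ia * id', (id' * id' : (MvPolynomial (Fin 4) k))} (by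
    rintro s (rfl | rfl | rfl | rfl | hs)
    · simp only [ib, uu, uu', s2, s3, t1, t3, map_add, map_sub, map_mul, map_neg, map_ofNat,
        a0, a1, a2, a3]; ring
    · simp only [is, vv, vv', s2, s3, t1, t3, map_add, map_sub, map_mul, map_neg, map_ofNat,
        a0, a1, a2, a3]; ring
    · rw [map_mul, hia]; ring
    · rw [map_mul, hia, hid]; ring
    · rw [Set.mem_singleton_iff.mp hs, map_mul, hid]; ring)
  have e' : h = c0 - c1 * ia - c2 * id' := by
    rw [← f5, e, map_add, map_add, map_mul, map_mul, hfix _ m0, hfix _ m1, hfix _ m2, hia, hid]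
    ring
  have e3 : (2 : k) • h = (2 : k) • c0 := by
    rw [Algebra.smul_def, Algebra.smul_def, map_ofNat]
    linear_combination e + e'
  have e4 : h = c0 := by
    have := congrArg (fun z => (2 : k)⁻¹ • z) e3
    simpa [smul_smul] using this
  rw [e4]; exact m0

/-- the power sums of the entries -/
noncomputable def PB (n : ℕ) : (MvPolynomial (Fin 4) k) := ∑ p : Fin 3 × Fin 3, genArray k p.1 p.2 ^ n

theorem PB_eq (n : ℕ) : (PB n : (MvPolynomial (Fin 4) k)) = X 0 ^ n + X 1 ^ n + (-X 0 - X 1) ^ n +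
    (X 2 ^ n + X 3 ^ n + (-X 2 - X 3) ^ n) +
    ((-X 0 - X 2) ^ n + (-X 1 - X 3) ^ n + (X 0 + X 1 + X 2 + X 3) ^ n) := by
  rw [PB, Fintype.sum_prod_type]
  simp only [Fin.sum_univ_three]
  simp [genArray]

theorem mem_of_smul {T : Subalgebra k (MvPolynomial (Fin 4) k)} {c : k} (hc : c ≠ 0) {x : (MvPolynomial (Fin 4) k)} (h : c • x ∈ T) : x ∈ T := by
  have := T.smul_mem h c⁻¹
  rwa [smul_smul, inv_mul_cancel₀ hc, one_smul] at this

theorem T3_le : Algebra.adjoin k {ib, is, ia * ia, ia * id', (id' * id' : (MvPolynomial (Fin 4) k))} ≤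
    Algebra.adjoin k (Set.range fun j : ℕ => (PB (j + 1) : (MvPolynomial (Fin 4) k))) := by
  have hP : ∀ n, 1 ≤ n → (PB n : (MvPolynomial (Fin 4) k)) ∈ Algebra.adjoin k (Set.range fun j : ℕ => (PB (j + 1) : (MvPolynomial (Fin 4) k))) := by
    intro n hn
    exact Algebra.subset_adjoin ⟨n - 1, by show (PB (n - 1 + 1) : (MvPolynomial (Fin 4) k)) = PB n; congr 1; omega⟩
  have nn : ∀ n : ℕ, (n : (MvPolynomial (Fin 4) k)) ∈ Algebra.adjoin k (Set.range fun j : ℕ => (PB (j + 1) : (MvPolynomial (Fin 4) k))) :=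
    fun n => Subalgebra.natCast_mem _ n
  have hb : (ib : (MvPolynomial (Fin 4) k)) ∈ Algebra.adjoin k (Set.range fun j : ℕ => (PB (j + 1) : (MvPolynomial (Fin 4) k))) := by
    refine mem_of_smul (c := 2) (by norm_num) ?_
    have e : (2 : k) • (ib : (MvPolynomial (Fin 4) k)) = ((3 : ℕ) : (MvPolynomial (Fin 4) k)) * PB 2 := by
      rw [Algebra.smul_def, map_ofNat, PB_eq, ib, uu, uu', s2, s3, t1, t3]; push_cast; ring
    rw [e]
    exact mul_mem (nn 3) (hP 2 (by norm_num))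
  have hs : (is : (MvPolynomial (Fin 4) k)) ∈ Algebra.adjoin k (Set.range fun j : ℕ => (PB (j + 1) : (MvPolynomial (Fin 4) k))) := by
    have e : (is : (MvPolynomial (Fin 4) k)) = -(((3 : ℕ) : (MvPolynomial (Fin 4) k)) * PB 3) := by
      rw [PB_eq, is, vv, vv', s2, s3, t1, t3]; push_cast; ring
    rw [e]
    exact neg_mem (mul_mem (nn 3) (hP 3 (by norm_num)))
  have haa : (ia * ia : (MvPolynomial (Fin 4) k)) ∈ Algebra.adjoin k (Set.range fun j : ℕ => (PB (j + 1) : (MvPolynomial (Fin 4) k))) := by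
    have e : (ia * ia : (MvPolynomial (Fin 4) k)) = ((3 : ℕ) : (MvPolynomial (Fin 4) k)) * (ib * ib) - ((27 : ℕ) : (MvPolynomial (Fin 4) k)) * PB 4 := by
      rw [PB_eq, ia, ib, uu, uu', s2, s3, t1, t3]; push_cast; ring
    rw [e]
    exact sub_mem (mul_mem (nn 3) (mul_mem hb hb)) (mul_mem (nn 27) (hP 4 (by norm_num)))
  have had : (ia * id' : (MvPolynomial (Fin 4) k)) ∈ Algebra.adjoin k (Set.range fun j : ℕ => (PB (j + 1) : (MvPolynomial (Fin 4) k))) := by
    refine mem_of_smul (c := 15) (by norm_num) ?_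
    have e : (15 : k) • (ia * id' : (MvPolynomial (Fin 4) k)) = ((162 : ℕ) : (MvPolynomial (Fin 4) k)) * PB 5 + ((25 : ℕ) : (MvPolynomial (Fin 4) k)) * (ib * is) := by
      rw [Algebra.smul_def, map_ofNat, PB_eq, ia, id', ib, is, uu, uu', vv, vv', s2, s3, t1, t3]
      push_cast; ring
    rw [e]
    exact add_mem (mul_mem (nn 162) (hP 5 (by norm_num))) (mul_mem (nn 25) (mul_mem hb hs))
  have hdd : (id' * id' : (MvPolynomial (Fin 4) k)) ∈ Algebra.adjoin k (Set.range fun j : ℕ => (PB (j + 1) : (MvPolynomial (Fin 4) k))) := by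
    refine mem_of_smul (c := 27) (by norm_num) ?_
    have e : (27 : k) • (id' * id' : (MvPolynomial (Fin 4) k)) = ((11 : ℕ) : (MvPolynomial (Fin 4) k)) * (ib * (ib * ib)) - ((7 : ℕ) : (MvPolynomial (Fin 4) k)) * ((ia * ia) * ib)
        + ((33 : ℕ) : (MvPolynomial (Fin 4) k)) * (is * is) - ((486 : ℕ) : (MvPolynomial (Fin 4) k)) * PB 6 := by
      rw [Algebra.smul_def, map_ofNat, PB_eq, ia, id', ib, is, uu, uu', vv, vv', s2, s3, t1, t3]
      push_cast; ring
    rw [e]
    exact sub_mem (add_mem (sub_mem (mul_mem (nn 11) (mul_mem hb (mul_mem hb hb)))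
      (mul_mem (nn 7) (mul_mem haa hb))) (mul_mem (nn 33) (mul_mem hs hs)))
      (mul_mem (nn 486) (hP 6 (by norm_num)))
  rw [Algebra.adjoin_le_iff]
  rintro s (rfl | rfl | rfl | rfl | h)
  · exact hb
  · exact hs
  · exact haa
  · exact had
  · rw [Set.mem_singleton_iff.mp h]; exact hdd

theorem inv_power {h : (MvPolynomial (Fin 4) k)} (H : WInv h) : ∃ F : MvPolynomial ℕ k,
    h = aeval (fun j : ℕ => (PB (j + 1) : (MvPolynomial (Fin 4) k))) F := by
  have h1 := T3_le (mem_T3 H)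
  rw [Algebra.adjoin_range_eq_range_aeval] at h1
  obtain ⟨F, hF⟩ := h1
  exact ⟨F, hF.symm⟩

/-- the product of the sums of all pairs of entries in different positions -/
noncomputable def gB : (MvPolynomial (Fin 4) k) := ∏ t ∈ (Finset.univ : Finset (Fin 3 × Fin 3)).powersetCard 2,
  ∑ p ∈ t, genArray k p.1 p.2

/-- the evaluation at an array -/
noncomputable def evp : (MvPolynomial (Fin 4) k) →ₐ[k] k := aeval ![1, 3, 9, 27]

theorem Mz_inj : ∀ p q : Fin 3 × Fin 3,
    (!![1, 3, -4; 9, 27, -36; -10, -30, 40] : Matrix (Fin 3) (Fin 3) ℤ) p.1 p.2 =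
    (!![1, 3, -4; 9, 27, -36; -10, -30, 40] : Matrix (Fin 3) (Fin 3) ℤ) q.1 q.2 → p = q := by
  decide

theorem Mz_add : ∀ p q : Fin 3 × Fin 3, p ≠ q →
    (!![1, 3, -4; 9, 27, -36; -10, -30, 40] : Matrix (Fin 3) (Fin 3) ℤ) p.1 p.2 +
    (!![1, 3, -4; 9, 27, -36; -10, -30, 40] : Matrix (Fin 3) (Fin 3) ℤ) q.1 q.2 ≠ 0 := by
  decide

theorem evp_gen (i j : Fin 3) : evp (genArray k i j) =
    (((!![1, 3, -4; 9, 27, -36; -10, -30, 40] : Matrix (Fin 3) (Fin 3) ℤ) i j : ℤ) : k) := by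
  fin_cases i <;> fin_cases j <;> simp [evp, genArray] <;> norm_num

theorem gen_inj : Function.Injective (fun p : Fin 3 × Fin 3 => genArray k p.1 p.2) := by
  intro p q h
  have h1 := congrArg (fun z => evp z) h
  simp only [evp_gen] at h1
  exact Mz_inj p q (Int.cast_injective (α := k) h1)

theorem gB_ne : (gB : (MvPolynomial (Fin 4) k)) ≠ 0 := by
  rw [gB, Finset.prod_ne_zero_iff]
  intro t ht h
  obtain ⟨p, q, hpq, rfl⟩ := Finset.card_eq_two.mp (Finset.mem_powersetCard.mp ht).2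
  rw [Finset.sum_pair hpq] at h
  have h1 := congrArg (fun z => evp z) h
  simp only [map_add, evp_gen, map_zero] at h1
  rw [← Int.cast_add] at h1
  exact Mz_add p q hpq (Int.cast_eq_zero.mp h1)

/-- the key fact: invariants times the product are polynomials in the odd power sums -/
theorem inv_odd {h : (MvPolynomial (Fin 4) k)} (H : WInv h) : ∃ F : MvPolynomial ℕ k,
    gB * h = aeval (fun j : ℕ => (PB (2 * j + 1) : (MvPolynomial (Fin 4) k))) F := by
  obtain ⟨F, hF⟩ := inv_power H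
  have : CharZero (FractionRing (MvPolynomial (Fin 4) k)) := by
    have hinj : Function.Injective (algebraMap k (FractionRing (MvPolynomial (Fin 4) k))) :=
      (algebraMap k (FractionRing (MvPolynomial (Fin 4) k))).injective
    exact charZero_of_injective_algebraMap hinj
  obtain ⟨F', hF'⟩ := exists_sharp (k := k)
    (fun p : Fin 3 × Fin 3 => algebraMap (MvPolynomial (Fin 4) k) (FractionRing (MvPolynomial (Fin 4) k)) (genArray k p.1 p.2)) 8 F
  refine ⟨F', ?_⟩
  apply IsFractionRing.injective (MvPolynomial (Fin 4) k) (FractionRing (MvPolynomial (Fin 4) k))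
  have h1 := hF' Finset.univ (by simp) (fun p _ q _ h => gen_inj
    (IsFractionRing.injective (MvPolynomial (Fin 4) k) (FractionRing (MvPolynomial (Fin 4) k)) h))
  have e1 : gg (fun p : Fin 3 × Fin 3 => algebraMap (MvPolynomial (Fin 4) k) (FractionRing (MvPolynomial (Fin 4) k)) (genArray k p.1 p.2))
      Finset.univ = algebraMap (MvPolynomial (Fin 4) k) (FractionRing (MvPolynomial (Fin 4) k)) gB := by
    rw [gg, gB, map_prod]
    simp only [map_sum]
  have e2 : ∀ G : MvPolynomial ℕ k, aeval (ap (fun p : Fin 3 × Fin 3 =>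
      algebraMap (MvPolynomial (Fin 4) k) (FractionRing (MvPolynomial (Fin 4) k)) (genArray k p.1 p.2)) Finset.univ) G =
      algebraMap (MvPolynomial (Fin 4) k) (FractionRing (MvPolynomial (Fin 4) k)) (aeval (fun j : ℕ => (PB (j + 1) : (MvPolynomial (Fin 4) k))) G) := by
    intro G
    have := (IsScalarTower.toAlgHom k (MvPolynomial (Fin 4) k) (FractionRing (MvPolynomial (Fin 4) k))).comp
      (aeval (fun j : ℕ => (PB (j + 1) : (MvPolynomial (Fin 4) k))))
    have h2 : aeval (ap (fun p : Fin 3 × Fin 3 =>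
      algebraMap (MvPolynomial (Fin 4) k) (FractionRing (MvPolynomial (Fin 4) k)) (genArray k p.1 p.2)) Finset.univ) =
      (IsScalarTower.toAlgHom k (MvPolynomial (Fin 4) k) (FractionRing (MvPolynomial (Fin 4) k))).comp
      (aeval (fun j : ℕ => (PB (j + 1) : (MvPolynomial (Fin 4) k)))) := by
      apply MvPolynomial.algHom_ext
      intro j
      simp [ap, PB]
    rw [h2]; rfl
  have e3 : ∀ G : MvPolynomial ℕ k, aeval (op (fun p : Fin 3 × Fin 3 =>
      algebraMap (MvPolynomial (Fin 4) k) (FractionRing (MvPolynomial (Fin 4) k)) (genArray k p.1 p.2)) Finset.univ) G =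
      algebraMap (MvPolynomial (Fin 4) k) (FractionRing (MvPolynomial (Fin 4) k)) (aeval (fun j : ℕ => (PB (2 * j + 1) : (MvPolynomial (Fin 4) k))) G) := by
    intro G
    have h2 : aeval (op (fun p : Fin 3 × Fin 3 =>
      algebraMap (MvPolynomial (Fin 4) k) (FractionRing (MvPolynomial (Fin 4) k)) (genArray k p.1 p.2)) Finset.univ) =
      (IsScalarTower.toAlgHom k (MvPolynomial (Fin 4) k) (FractionRing (MvPolynomial (Fin 4) k))).comp
      (aeval (fun j : ℕ => (PB (2 * j + 1) : (MvPolynomial (Fin 4) k)))) := by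
      apply MvPolynomial.algHom_ext
      intro j
      simp [op, PB]
    rw [h2]; rfl
  rw [e1, e2, e3, ← map_mul, ← hF] at h1
  exact h1

end inv

end Pool.Agent.Helper392_GT
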