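import Pool.Agent.Helper392_GT.Base

namespace Pool.Agent.Helper392_GT

open Polynomial

universe u v

set_option linter.unusedSimpArgs false
set_option linter.unusedVariables false

attribute [local instance 100] LieRing.ofAssociativeRing

section lead1

variable {k : Type u} [Field k]

theorem ld_CC0 (f : P2 k) : ld 0 (C (C f) : K0 k) = C (C f) := by
  rw [ld_zero_eq]; simp [cf]

theorem lead1 {Q R1 R2 R3 : K0 k} {a b : P2 k}
    (h : Q = C (C a) * vs + C (C b) * vt + (vs * (vs * R1) + vs * (vt * R2) + vt * (vt * R3))) :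
    Ord 1 Q ∧ ld 1 Q = C (C a) * vs + C (C b) * vt := by
  have h' : Q = vs * C (C a) + vt * C (C b) +
      (vs * (vs * R1) + vs * (vt * R2) + vt * (vt * R3)) := by rw [h]; ring
  constructor
  · refine (ord_zero_any Q).succ ?_
    rw [h']
    simp only [ld_add, ld_vs_zero, ld_vt_zero, add_zero]
  · rw [h', show (1 : ℕ) = 0 + 1 from rfl]
    simp only [ld_add, ld_vs_succ, ld_vt_succ, ld_vs_zero, ld_vt_zero, ld_CC0, mul_zero, add_zero]
    ring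

theorem ps_eq (F : P2 k) : ps F = ev2 (vx : K0 k) vy F + ev2 (vs - vx : K0 k) (vt - vy) F
    - ev2 (vs : K0 k) vt F := by
  have h1 : ∀ F : P2 k, (C (C F) : K0 k) = ev2 (vx : K0 k) vy F := by
    intro F
    have := ev4_id (C (C F) : K0 k)
    rw [ev4_CC] at this
    exact this.symm
  have h2 : ∀ F : P2 k, sg F = ev2 (vs - vx : K0 k) (vt - vy) F := by
    intro F
    have := ev4_sg (k := k) (vx : K0 k) vy vs vt F
    rw [ev4_id] at this
    exact this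
  rw [ps, h1, h2]

noncomputable def ee : P2 k := px * px + px * py + py * py

theorem mul3 : Ord 1 (ps (Fq : P2 k)) ∧ ld 1 (ps (Fq : P2 k)) = w3 := by
  have h := lead1 (k := k) (Q := ps Fq) (a := al) (b := be) (R1 := -vy) (R2 := -2 * vx - 2 * vy)
    (R3 := -vx) (by
      have e1 : (C (C al) : K0 k) = vy * (2 * vx + vy) := by
        simp only [al, C_mul, C_add, C_two']
        rw [show (C (2 : (P2 k)[X]) : K0 k) = 2 from map_ofNat C 2]
      have e2 : (C (C be) : K0 k) = vx * (vx + 2 * vy) := by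
        simp only [be, C_mul, C_add, C_two']
        rw [show (C (2 : (P2 k)[X]) : K0 k) = 2 from map_ofNat C 2]
      rw [ps_eq, e1, e2]
      simp only [Fq, map_mul, map_add, ev2_px, ev2_py]
      ring)
  exact h

theorem mul5 : Ord 1 (ps (Fq * ee : P2 k)) ∧
    ld 1 (ps (Fq * ee : P2 k)) = C (C ee) * w3 + w5 := by
  have h := lead1 (k := k) (Q := ps (Fq * ee)) (a := ee * al + ga) (b := ee * be + de)
    (R1 := -6 * vx^2 * vy + 6 * vx^2 * vt - 6 * vx * vy^2 + 4 * vx * vy * vs + 12 * vx * vy * vt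
      - 4 * vx * vs * vt - 6 * vx * vt^2 - 2 * vy^3 + 2 * vy^2 * vs + 6 * vy^2 * vt - vy * vs^2
      - 4 * vy * vs * vt - 6 * vy * vt^2)
    (R2 := -4 * vx^3 - 12 * vx^2 * vy + 6 * vx^2 * vt - 12 * vx * vy^2 + 12 * vx * vy * vt
      - 4 * vx * vt^2 - 4 * vy^3 + 6 * vy^2 * vt - 4 * vy * vt^2)
    (R3 := -2 * vx^3 - 6 * vx^2 * vy + 2 * vx^2 * vt - 6 * vx * vy^2 + 4 * vx * vy * vt
      - vx * vt^2) (by
      have e1 : (C (C (ee * al + ga)) : K0 k) = (vx * vx + vx * vy + vy * vy) *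
          (vy * (2 * vx + vy)) + vx * vy * (vx + vy) * (2 * vx + vy) := by
        simp only [ee, al, ga, Fq, C_mul, C_add, C_two']
        rw [show (C (2 : (P2 k)[X]) : K0 k) = 2 from map_ofNat C 2]
      have e2 : (C (C (ee * be + de)) : K0 k) = (vx * vx + vx * vy + vy * vy) *
          (vx * (vx + 2 * vy)) + vx * vy * (vx + vy) * (vx + 2 * vy) := by
        simp only [ee, be, de, Fq, C_mul, C_add, C_two']
        rw [show (C (2 : (P2 k)[X]) : K0 k) = 2 from map_ofNat C 2]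
      rw [ps_eq, e1, e2]
      simp only [Fq, ee, map_mul, map_add, ev2_px, ev2_py]
      ring)
  refine ⟨h.1, ?_⟩
  rw [h.2, w3, w5, C_add, C_add, C_add, C_add, C_mul, C_mul, C_mul, C_mul]
  ring

/-- the multiplier of `σ_n` -/
theorem sigma_mult [CharZero k] {σ : F2 k} (hg : IsGRT k σ) {n : ℕ} (hn : 3 ≤ n)
    (hd : DepthGE k 2 (σ - vm k (n - 1))) :
    ∃ f : P2 k, σ - gm k f ∈ D2 k ∧
      algebraMap k (P2 k) n * (px * py * f) = (px + py) ^ n - px ^ n - py ^ n := by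
  have h1 := pentagon_mem_D1 hg.pent
  obtain ⟨f, hf⟩ := exists_gam h1
  refine ⟨f, hf, ?_⟩
  have hc : c0 f = X ^ (n - 2) := by
    have e1 := (sigma_entries hd).2.2.2.2.1
    have hA := mkM_dia (0 : P2 k) (-px) 0 (-px - py) 0 0 0 0 0
    have hB := mkM_dia (0 : P2 k) 0 0 0 1 0 1 0 0
    have e2 := (f_entries hA hB hf).1
    rw [e1, mkM_lie] at e2
    simp only [mkM_00, mkM_01, mkM_11] at e2
    have s1 : (0 : P2 k) - -px = px := by ring
    rw [s1, sub_zero, ev2_zero] at e2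
    have e3 := congrArg c0 e2
    rw [c0_mul, c0_aeval, c0_px, aeval_X_left_apply] at e3
    have e4 : c0 (px ^ (n - 1) : P2 k) = X ^ (n - 1) := by
      have : c0 (px ^ (n - 1) : P2 k) = c0 (aeval (px : P2 k) (X ^ (n - 1) : k[X])) := by
        rw [map_pow, aeval_X]
      rw [this, c0_aeval, c0_px, aeval_X_left_apply]
    rw [e4] at e3
    have e5 : X ^ (n - 1) = X * (X ^ (n - 2) : k[X]) := by
      rw [← pow_succ']; congr 1; omega
    have e6 : c0 (px * 1 - 0 * (0 : P2 k)) = X := by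
      rw [mul_one, zero_mul, sub_zero, c0_px]
    refine mul_right_cancel₀ (X_ne_zero : (X : k[X]) ≠ 0) ?_
    rw [e6] at e3
    rw [← e3, e5]; ring
  have hn0 : (n : k) ≠ 0 := by exact_mod_cast (by omega : n ≠ 0)
  have hG : derivative (C (n : k)⁻¹ * X ^ n) = X * c0 f := by
    rw [hc, derivative_C_mul, derivative_X_pow, ← mul_assoc, ← C_mul,
      inv_mul_cancel₀ hn0, C_1, one_mul, ← pow_succ']
    congr 1
    omega
  have hF := cocycle_formula hG (by simp; omega) (fun K _ _ a b c => relF hg.pent h1 hf a b c)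
  rw [hF]
  simp only [map_mul, map_pow, aeval_C, aeval_X]
  have e : algebraMap k (P2 k) n * algebraMap k (P2 k) (n : k)⁻¹ = 1 := by
    rw [← map_mul, mul_inv_cancel₀ hn0, map_one]
  linear_combination ((px + py) ^ n - px ^ n - py ^ n) * e

theorem sigma3 [CharZero k] {σ : F2 k} (hg : IsGRT k σ) (hd : DepthGE k 2 (σ - vm k (3 - 1))) :
    ∃ f : P2 k, σ - gm k f ∈ D2 k ∧ px * py * f = Fq := by
  obtain ⟨f, h1, h2⟩ := sigma_mult hg le_rfl hd
  refine ⟨f, h1, ?_⟩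
  have h3 : algebraMap k (P2 k) ((3 : ℕ) : k) ≠ 0 := by
    intro h
    have := (map_eq_zero_iff _ (algebraMap k (P2 k)).injective).mp h
    norm_num at this
  refine mul_left_cancel₀ h3 ?_
  rw [h2, Fq, map_natCast]
  push_cast
  ring

theorem sigma5 [CharZero k] {σ : F2 k} (hg : IsGRT k σ) (hd : DepthGE k 2 (σ - vm k (5 - 1))) :
    ∃ f : P2 k, σ - gm k f ∈ D2 k ∧ px * py * f = Fq * ee := by
  obtain ⟨f, h1, h2⟩ := sigma_mult hg (by norm_num) hd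
  refine ⟨f, h1, ?_⟩
  have h3 : algebraMap k (P2 k) ((5 : ℕ) : k) ≠ 0 := by
    intro h
    have := (map_eq_zero_iff _ (algebraMap k (P2 k)).injective).mp h
    norm_num at this
  refine mul_left_cancel₀ h3 ?_
  rw [h2, Fq, ee, map_natCast]
  push_cast
  ring

theorem rel_act {σ φ : F2 k} {f : P2 k} (hσ : σ ∈ D1 k) (hf : σ - gm k f ∈ D2 k)
    (hφ : φ ∈ D2 k) {Q : K0 k} (hE : Rel φ Q) (D E : LieDerivation k (F2 k) (F2 k))
    (hDx : D (gx k) = 0) (hDy : D (gy k) = ⁅gy k, σ⁆) (hEx : E (gx k) = 0)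
    (hEy : E (gy k) = ⁅gy k, φ⁆) :
    Rel (⁅σ, φ⁆ + D φ - E σ) (ps (px * py * f) * Q) := by
  have h := act_entry hσ hf hφ hE D E hDx hDy hEx hEy
  rw [Rel]
  convert h using 1
  ring

/-- the lower bound property -/
def LBP (𝔤 : Submodule k (F2 k)) (i j : ℕ) : Prop :=
  ∀ (n : ℕ) (q : P2 k), OA q → X ^ (5 + 3 * j + 5 * i) * sc q = X ^ n * C q →
    ∃ φ ∈ 𝔤, φ ∈ wt k n ∧ φ ∈ D2 k ∧ ∃ Q, Rel φ Q ∧ Ord (i + j) Q ∧
      ld (i + j) Q = C (C q) * w3 ^ j * w5 ^ i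

theorem LBP.step {𝔤 : Submodule k (F2 k)}
    (hbr : ∀ σ ∈ 𝔤, ∀ τ ∈ 𝔤, ∀ D E : LieDerivation k (F2 k) (F2 k),
      D (gx k) = 0 → D (gy k) = ⁅gy k, σ⁆ → E (gx k) = 0 → E (gy k) = ⁅gy k, τ⁆ →
      ⁅σ, τ⁆ + D τ - E σ ∈ 𝔤) {σ : F2 k} (hσ : σ ∈ 𝔤) {a : ℕ} (hw : σ ∈ wt k a) (h1 : σ ∈ D1 k)
    {f : P2 k} (hf : σ - gm k f ∈ D2 k) (hO : Ord 1 (ps (px * py * f))) {n r : ℕ} {φ : F2 k}
    (hφ : φ ∈ 𝔤) (hφw : φ ∈ wt k n) (hφ2 : φ ∈ D2 k) {Q : K0 k} (hQ : Rel φ Q) (hQO : Ord r Q) :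
    ∃ χ ∈ 𝔤, χ ∈ wt k (a + n) ∧ χ ∈ D2 k ∧ ∃ Q', Rel χ Q' ∧ Ord (1 + r) Q' ∧
      ld (1 + r) Q' = ld 1 (ps (px * py * f)) * ld r Q := by
  obtain ⟨D, hDx, hDy⟩ := exists_der ⁅gy k, σ⁆
  obtain ⟨E, hEx, hEy⟩ := exists_der ⁅gy k, φ⁆
  refine ⟨_, hbr σ hσ φ hφ D E hDx hDy hEx hEy, ?_, act_D2 h1 hφ2 D E hDx hDy hEx hEy,
    _, rel_act h1 hf hφ2 hQ D E hDx hDy hEx hEy, hO.mul hQO, ld_mul hO hQO⟩
  refine Submodule.sub_mem _ (Submodule.add_mem _ (lie_wt hw hφw) (der_wt hw D hDx hDy hφw)) ?_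
  have := der_wt hφw E hEx hEy hw
  rwa [add_comm n] at this

theorem OA.ee_mul {q : P2 k} (hq : OA q) : OA (ee * q) := by
  refine ⟨?_, ?_, ?_⟩
  · rw [map_mul, hq.swap]
    simp only [ee, map_add, map_mul, ev2_px, ev2_py]; ring
  · rw [map_mul, hq.rot]
    simp only [ee, map_add, map_mul, ev2_px, ev2_py, pz]; ring
  · rw [map_mul, hq.par]
    simp only [ee, map_add, map_mul, ev2_px, ev2_py]; ring

theorem sc_ee : sc (ee : P2 k) = X ^ 2 * C ee := by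
  simp only [ee, map_mul, map_add, sc_px, sc_py]; ring

theorem hom_split {e c n : ℕ} {q : P2 k} (hq : q ≠ 0) (h : X ^ (e + c) * sc q = X ^ n * C q) :
    ∃ m, n = c + m ∧ X ^ e * sc q = X ^ m * C q := by
  have hc : c ≤ n := by
    by_contra hlt
    have h1 := congrArg (fun p => coeff p n) h
    have e1 : (X ^ (e + c) * sc q).coeff n = 0 := by
      rw [mul_comm, coeff_mul_X_pow', if_neg (by omega)]
    have e2 : (X ^ n * C q).coeff n = q := by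
      rw [mul_comm, coeff_C_mul_X_pow, if_pos rfl]
    simp only [e1, e2] at h1
    exact hq h1.symm
  obtain ⟨m, rfl⟩ := Nat.exists_eq_add_of_le hc
  refine ⟨m, rfl, ?_⟩
  refine mul_left_cancel₀ (pow_ne_zero c (X_ne_zero : (X : (P2 k)[X]) ≠ 0)) ?_
  rw [pow_add, pow_add] at h
  linear_combination h

theorem LBP_zero {𝔤 : Submodule k (F2 k)} (i j n : ℕ) :
    ∃ φ ∈ 𝔤, φ ∈ wt k n ∧ φ ∈ D2 k ∧ ∃ Q, Rel φ Q ∧ Ord (i + j) Q ∧
      ld (i + j) Q = C (C (0 : P2 k)) * w3 ^ j * w5 ^ i := by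
  refine ⟨0, 𝔤.zero_mem, Submodule.zero_mem _, (D2 k).zero_mem, 0, Rel.zero, Ord.zero _, ?_⟩
  rw [ld_zero]; simp

theorem LBP_all [CharZero k] (𝔤 : Submodule k (F2 k)) (hgrt : ∀ φ ∈ 𝔤, IsGRT k φ)
    (hbr : ∀ σ ∈ 𝔤, ∀ τ ∈ 𝔤, ∀ D E : LieDerivation k (F2 k) (F2 k),
      D (gx k) = 0 → D (gy k) = ⁅gy k, σ⁆ → E (gx k) = 0 → E (gy k) = ⁅gy k, τ⁆ →
      ⁅σ, τ⁆ + D τ - E σ ∈ 𝔤)
    (hσ : ∀ n, Odd n → 3 ≤ n → ∃ σ ∈ 𝔤, σ ∈ wt k n ∧ DepthGE k 2 (σ - vm k (n - 1)))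
    (i j : ℕ) : LBP 𝔤 i j := by
  obtain ⟨s3, hs3, hw3, hd3⟩ := hσ 3 (by decide) le_rfl
  obtain ⟨f3, hf3, hF3⟩ := sigma3 (hgrt s3 hs3) hd3
  obtain ⟨s5, hs5, hw5, hd5⟩ := hσ 5 (by decide) (by norm_num)
  obtain ⟨f5, hf5, hF5⟩ := sigma5 (hgrt s5 hs5) hd5
  have h31 := pentagon_mem_D1 (hgrt s3 hs3).pent
  have h51 := pentagon_mem_D1 (hgrt s5 hs5).pent
  have hO3 : Ord 1 (ps (px * py * f3)) := by rw [hF3]; exact mul3.1
  have hO5 : Ord 1 (ps (px * py * f5)) := by rw [hF5]; exact mul5.1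
  have hL3 : ld 1 (ps (px * py * f3)) = w3 := by rw [hF3]; exact mul3.2
  have hL5 : ld 1 (ps (px * py * f5)) = C (C ee) * w3 + w5 := by rw [hF5]; exact mul5.2
  induction i generalizing j with
  | zero =>
    induction j with
    | zero =>
      intro n q hq hh
      obtain ⟨φ, h1, h2, h3, Q, h4, h5⟩ := base 𝔤 hgrt hbr hσ hq hh
      refine ⟨φ, h1, h2, h3, Q, h4, ord_zero_any Q, ?_⟩
      rw [h5]; simp
    | succ j ih =>
      intro n q hq hh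
      by_cases hq0 : q = 0
      · subst hq0
        exact LBP_zero _ _ _
      obtain ⟨m, rfl, hh'⟩ := hom_split (e := 5 + 3 * j + 5 * 0) (c := 3) hq0
        (by rw [← hh]; congr 2)
      obtain ⟨φ, h1, h2, h3, Q, h4, h5, h6⟩ := ih m q hq hh'
      obtain ⟨χ, g1, g2, g3, Q', g4, g5, g6⟩ := LBP.step hbr hs3 hw3 h31 hf3 hO3 h1 h2 h3 h4 h5
      refine ⟨χ, g1, g2, g3, Q', g4, ?_, ?_⟩
      · rwa [show 0 + (j + 1) = 1 + (0 + j) by ring]
      · rw [show 0 + (j + 1) = 1 + (0 + j) by ring, g6, h6, hL3]; ring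
  | succ i ih =>
    intro n q hq hh
    by_cases hq0 : q = 0
    · subst hq0
      exact LBP_zero _ _ _
    obtain ⟨m, rfl, hh'⟩ := hom_split (e := 5 + 3 * j + 5 * i) (c := 5) hq0
      (by rw [← hh]; congr 2)
    obtain ⟨φ, h1, h2, h3, Q, h4, h5, h6⟩ := ih j m q hq hh'
    obtain ⟨χ, g1, g2, g3, Q', g4, g5, g6⟩ := LBP.step hbr hs5 hw5 h51 hf5 hO5 h1 h2 h3 h4 h5
    obtain ⟨φ', k1, k2, k3, Q'', k4, k5, k6⟩ := ih (j + 1) (5 + m) (ee * q) hq.ee_mul (by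
      rw [map_mul, sc_ee, C_mul]
      rw [show 5 + 3 * (j + 1) + 5 * i = 3 + (5 + 3 * j + 5 * i) by ring, pow_add, pow_add X 5 m]
      linear_combination (X ^ 5 * C ee) * hh')
    refine ⟨χ - φ', 𝔤.sub_mem g1 k1, Submodule.sub_mem _ g2 k2, (D2 k).sub_mem g3 k3, Q' - Q'',
      g4.sub k4, ?_, ?_⟩
    · rw [show i + 1 + j = 1 + (i + j) by ring]
      refine g5.sub ?_
      rwa [show 1 + (i + j) = i + (j + 1) by ring]
    · rw [ld_sub, show i + 1 + j = 1 + (i + j) by ring, g6, h6, hL5]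
      rw [show 1 + (i + j) = i + (j + 1) by ring, k6, C_mul, C_mul]
      ring

end lead1

end Pool.Agent.Helper392_GT
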