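import Pool.Agent.Helper392_GT.Density

namespace Pool.Agent.Helper392_GT

open Polynomial

universe u v

set_option linter.unusedSimpArgs false
set_option linter.unusedVariables false

section lead

variable {k : Type u} [CommRing k]

/-- the polynomial ring in `x, y, S, T` -/
abbrev K0 (k : Type u) [CommRing k] : Type u := (P2 k)[X][X]

noncomputable abbrev vx : K0 k := C (C px)
noncomputable abbrev vy : K0 k := C (C py)
noncomputable abbrev vs : K0 k := C X
noncomputable abbrev vt : K0 k := X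

theorem K0_ind (Q : K0 k → Prop) (hadd : ∀ p q, Q p → Q q → Q (p + q))
    (hC : ∀ a : k, Q (algebraMap k (K0 k) a)) (hx : ∀ p, Q p → Q (vx * p))
    (hy : ∀ p, Q p → Q (vy * p)) (hs : ∀ p, Q p → Q (vs * p)) (ht : ∀ p, Q p → Q (vt * p))
    (p : K0 k) : Q p := by
  refine poly_ind Q hadd ?_ ht p
  intro q
  refine poly_ind (fun q => Q (C q)) ?_ ?_ ?_ q
  · intro a b ha hb
    rw [C_add]; exact hadd _ _ ha hb
  · intro f
    refine P2_ind (fun f => Q (C (C f))) ?_ ?_ ?_ ?_ f
    · intro a b ha hb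
      rw [C_add, C_add]; exact hadd _ _ ha hb
    · intro a
      exact hC a
    · intro a ha
      rw [C_mul, C_mul]; exact hx _ ha
    · intro a ha
      rw [C_mul, C_mul]; exact hy _ ha
  · intro a ha
    rw [C_mul]; exact hs _ ha

theorem K0_hom_ext {K : Type v} [CommRing K] [Algebra k K] {f g : K0 k →ₐ[k] K}
    (hx : f vx = g vx) (hy : f vy = g vy) (hs : f vs = g vs) (ht : f vt = g vt) : f = g := by
  refine AlgHom.ext fun p => ?_
  refine K0_ind (fun p => f p = g p) ?_ ?_ ?_ ?_ ?_ ?_ p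
  · intro p q hp hq
    rw [map_add, map_add, hp, hq]
  · intro a
    rw [AlgHom.commutes, AlgHom.commutes]
  · intro p hp
    rw [map_mul, map_mul, hp, hx]
  · intro p hp
    rw [map_mul, map_mul, hp, hy]
  · intro p hp
    rw [map_mul, map_mul, hp, hs]
  · intro p hp
    rw [map_mul, map_mul, hp, ht]

variable {K : Type v} [CommRing K] [Algebra k K]

@[simp] theorem ev4_vx (a b s t : K) : ev4 (k := k) a b s t vx = a := by
  rw [ev4_CC, ev2_px]
@[simp] theorem ev4_vy (a b s t : K) : ev4 (k := k) a b s t vy = b := by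
  rw [ev4_CC, ev2_py]
@[simp] theorem ev4_vs (a b s t : K) : ev4 (k := k) a b s t vs = s := ev4_CX a b s t
@[simp] theorem ev4_vt (a b s t : K) : ev4 (k := k) a b s t vt = t := ev4_X a b s t

theorem K0_hom_eq (f : K0 k →ₐ[k] K) : f = ev4 (f vx) (f vy) (f vs) (f vt) := by
  apply K0_hom_ext <;> simp

theorem ev4_id (P : K0 k) : ev4 (k := k) (vx : K0 k) vy vs vt P = P := by
  have := K0_hom_eq (AlgHom.id k (K0 k))
  exact (congrArg (fun f : K0 k →ₐ[k] K0 k => f P) this).symm

theorem ev4_comp {K' : Type*} [CommRing K'] [Algebra k K'] (φ : K →ₐ[k] K') (a b s t : K)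
    (P : K0 k) : φ (ev4 a b s t P) = ev4 (φ a) (φ b) (φ s) (φ t) P := by
  have : φ.comp (ev4 (k := k) a b s t) = ev4 (φ a) (φ b) (φ s) (φ t) := by
    apply K0_hom_ext <;> simp
  exact congrArg (fun f : K0 k →ₐ[k] K' => f P) this

/-- a sealed copy of the polynomial ring -/
def R4 (k : Type u) [CommRing k] : Type u := K0 k

noncomputable instance : CommRing (R4 k) := inferInstanceAs (CommRing (K0 k))
noncomputable instance : Algebra k (R4 k) := inferInstanceAs (Algebra k (K0 k))

/-- sealing -/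
noncomputable def e4 : K0 k ≃ₐ[k] R4 k := AlgEquiv.refl

/-- the scaling `(x, y, S, T) ↦ (x, y, λ S, λ T)` -/
noncomputable def th : K0 k →ₐ[k] (R4 k)[X] :=
  ev4 (C (e4 vx)) (C (e4 vy)) (X * C (e4 vs)) (X * C (e4 vt))

theorem th_CC (f : P2 k) : th (C (C f) : K0 k) = C (e4 (C (C f))) := by
  refine P2_ind (fun f => th (C (C f) : K0 k) = C (e4 (C (C f)))) ?_ ?_ ?_ ?_ f
  · intro a b ha hb
    rw [C_add, C_add, map_add, map_add, C_add, ha, hb]
  · intro a
    exact AlgHom.commutes (th (k := k)) a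
  · intro a ha
    rw [C_mul, C_mul, map_mul, ha, map_mul, C_mul]
    congr 1
    rw [th, ev4_vx]
  · intro a ha
    rw [C_mul, C_mul, map_mul, ha, map_mul, C_mul]
    congr 1
    rw [th, ev4_vy]

/-- the homogeneous component of degree `r` in `(S, T)` -/
noncomputable def ld (r : ℕ) (Q : K0 k) : K0 k := e4.symm ((th Q).coeff r)

theorem th_coeff_eq (r : ℕ) (Q : K0 k) : (th Q).coeff r = e4 (ld r Q) := by
  rw [ld, AlgEquiv.apply_symm_apply]

theorem ld_add (r : ℕ) (P Q : K0 k) : ld r (P + Q) = ld r P + ld r Q := by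
  rw [ld, map_add, coeff_add, map_add]; rfl

theorem ld_sub (r : ℕ) (P Q : K0 k) : ld r (P - Q) = ld r P - ld r Q := by
  rw [ld, map_sub, coeff_sub, map_sub]; rfl

theorem ld_smul (r : ℕ) (c : k) (Q : K0 k) : ld r (c • Q) = c • ld r Q := by
  rw [ld, map_smul, coeff_smul, map_smul]; rfl

theorem ld_zero (r : ℕ) : ld r (0 : K0 k) = 0 := by
  rw [ld, map_zero, coeff_zero, map_zero]

theorem th_vs_mul (p : K0 k) : th (vs * p) = X * (C (e4 vs) * th p) := by
  rw [map_mul, th, ev4_vs]; ring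

theorem th_vt_mul (p : K0 k) : th (vt * p) = X * (C (e4 vt) * th p) := by
  rw [map_mul, th, ev4_vt]; ring

theorem ld_vs_succ (n : ℕ) (p : K0 k) : ld (n + 1) (vs * p) = vs * ld n p := by
  rw [ld, th_vs_mul, coeff_X_mul, coeff_C_mul, map_mul, AlgEquiv.symm_apply_apply]; rfl

theorem ld_vs_zero (p : K0 k) : ld 0 (vs * p) = 0 := by
  rw [ld, th_vs_mul, coeff_X_mul_zero, map_zero]

theorem ld_vt_succ (n : ℕ) (p : K0 k) : ld (n + 1) (vt * p) = vt * ld n p := by
  rw [ld, th_vt_mul, coeff_X_mul, coeff_C_mul, map_mul, AlgEquiv.symm_apply_apply]; rfl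

theorem ld_vt_zero (p : K0 k) : ld 0 (vt * p) = 0 := by
  rw [ld, th_vt_mul, coeff_X_mul_zero, map_zero]

theorem cf_ld (r : ℕ) (Q : K0 k) (i j : ℕ) : cf (ld r Q) i j = if i + j = r then cf Q i j else 0 := by
  unfold cf
  refine poly_ind (fun Q : K0 k => ∀ n i j, ((ld n Q).coeff j).coeff i =
    if i + j = n then (Q.coeff j).coeff i else 0) ?_ ?_ ?_ Q r i j
  · intro p q hp hq n i j
    simp only [ld_add, coeff_add, hp, hq]
    split_ifs <;> simp
  · intro q
    refine poly_ind (fun q => ∀ n i j, ((ld n (C q : K0 k)).coeff j).coeff i =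
      if i + j = n then ((C q : K0 k).coeff j).coeff i else 0) ?_ ?_ ?_ q
    · intro p q hp hq n i j
      simp only [C_add, ld_add, coeff_add, hp, hq]
      split_ifs <;> simp
    · intro f n i j
      have e : ld n (C (C f) : K0 k) = if n = 0 then C (C f) else 0 := by
        rw [ld, th_CC, coeff_C]
        split_ifs
        · rw [AlgEquiv.symm_apply_apply]
        · rw [map_zero]
      rw [e]
      rcases j with _ | j
      · rcases i with _ | i
        · rcases n with _ | n
          · simp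
          · simp [coeff_C]
        · rcases n with _ | n
          · simp [coeff_C]
          · simp [coeff_C]
      · rcases n with _ | n
        · simp [coeff_C]
        · simp [coeff_C]
    · intro p hp n i j
      rw [C_mul]
      rcases n with _ | n
      · rw [ld_vs_zero, ← C_mul]
        simp only [coeff_zero]
        split_ifs with h
        · have h1 : i = 0 := by omega
          have h2 : j = 0 := by omega
          subst h1 h2
          simp
        · rfl
      · rw [ld_vs_succ, coeff_C_mul, ← C_mul]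
        rcases i with _ | i
        · rw [coeff_X_mul_zero]
          rcases j with _ | j
          · simp
          · simp [coeff_C]
        · rw [coeff_X_mul, hp]
          have : (i + j = n) ↔ (i + 1 + j = n + 1) := by omega
          simp only [this]
          congr 1
          rcases j with _ | j
          · simp
          · simp [coeff_C]
  · intro p hp n i j
    rcases n with _ | n
    · rw [ld_vt_zero]
      simp only [coeff_zero]
      split_ifs with h
      · have h2 : j = 0 := by omega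
        subst h2
        simp
      · rfl
    · rw [ld_vt_succ]
      rcases j with _ | j
      · simp
      · rw [coeff_X_mul, hp, coeff_X_mul]
        have : (i + j = n) ↔ (i + (j + 1) = n + 1) := by omega
        simp only [this]

/-- order at least `r` in `(S, T)` -/
def Ord (r : ℕ) (Q : K0 k) : Prop := X ^ r ∣ th Q

theorem K0_ext {P Q : K0 k} (h : ∀ i j, cf P i j = cf Q i j) : P = Q := by
  ext j i
  exact h i j

theorem Ord_iff (r : ℕ) (Q : K0 k) : Ord r Q ↔ ∀ i j, i + j < r → cf Q i j = 0 := by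
  rw [Ord, X_pow_dvd_iff]
  constructor
  · intro h i j hij
    have h1 := h (i + j) hij
    rw [th_coeff_eq] at h1
    have h2 : ld (i + j) Q = 0 := (map_eq_zero_iff e4 e4.injective).mp h1
    have h3 := cf_ld (i + j) Q i j
    rw [h2, if_pos rfl] at h3
    rw [← h3]; simp [cf]
  · intro h n hn
    rw [th_coeff_eq]
    have : ld n Q = 0 := by
      apply K0_ext
      intro i j
      rw [cf_ld]
      split_ifs with hij
      · rw [h i j (by omega)]; simp [cf]
      · simp [cf]
    rw [this, map_zero]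

theorem Ord.zero (r : ℕ) : Ord r (0 : K0 k) := by
  rw [Ord, map_zero]; exact dvd_zero _

theorem Ord.add {r : ℕ} {P Q : K0 k} (hP : Ord r P) (hQ : Ord r Q) : Ord r (P + Q) := by
  rw [Ord, map_add]; exact dvd_add hP hQ

theorem Ord.sub {r : ℕ} {P Q : K0 k} (hP : Ord r P) (hQ : Ord r Q) : Ord r (P - Q) := by
  rw [Ord, map_sub]; exact dvd_sub hP hQ

theorem Ord.smul {r : ℕ} {Q : K0 k} (c : k) (hQ : Ord r Q) : Ord r (c • Q) := by
  rw [Ord, map_smul]
  obtain ⟨Q', hQ'⟩ := hQ
  rw [hQ', Algebra.smul_def]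
  exact ⟨algebraMap k _ c * Q', by ring⟩

theorem Ord.succ {r : ℕ} {Q : K0 k} (hQ : Ord r Q) (h : ld r Q = 0) : Ord (r + 1) Q := by
  rw [Ord_iff] at *
  intro i j hij
  rcases Nat.lt_or_ge (i + j) r with h1 | h1
  · exact hQ i j h1
  · have h2 := cf_ld r Q i j
    rw [h, if_pos (by omega)] at h2
    rw [← h2]; simp [cf]

theorem Ord.mono {r r' : ℕ} {Q : K0 k} (hQ : Ord r Q) (h : r' ≤ r) : Ord r' Q :=
  (pow_dvd_pow X h).trans hQ

theorem Ord.mul {a b : ℕ} {P Q : K0 k} (hP : Ord a P) (hQ : Ord b Q) :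
    Ord (a + b) (P * Q) := by
  unfold Ord at *
  rw [map_mul, pow_add]; exact mul_dvd_mul hP hQ

theorem Xpow_coeff {R : Type*} [CommRing R] (n : ℕ) (p : R[X]) : (X ^ n * p).coeff n = p.coeff 0 := by
  have := coeff_X_pow_mul p n 0
  rwa [zero_add] at this

theorem ld_mul {a b : ℕ} {P Q : K0 k} (hP : Ord a P) (hQ : Ord b Q) :
    ld (a + b) (P * Q) = ld a P * ld b Q := by
  obtain ⟨P', hP'⟩ := hP
  obtain ⟨Q', hQ'⟩ := hQ
  have e : X ^ a * P' * (X ^ b * Q') = X ^ (a + b) * (P' * Q') := by ring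
  rw [ld, ld, ld, map_mul, hP', hQ', e, Xpow_coeff, Xpow_coeff, Xpow_coeff, mul_coeff_zero, map_mul]

theorem ord_zero_any (Q : K0 k) : Ord 0 Q := by
  rw [Ord, pow_zero]; exact one_dvd _

/-- leading terms of specialisations -/
theorem lead_eval {K : Type v} [CommRing K] [Algebra k K] {r : ℕ} {Q : K0 k} (hQ : Ord r Q)
    (a b s t : K[X]) : (ev4 (k := k) a b (X * s) (X * t) Q).coeff r =
      ev4 (k := k) (a.coeff 0) (b.coeff 0) (s.coeff 0) (t.coeff 0) (ld r Q) := by
  let φ : (R4 k)[X] →ₐ[k] K[X] :=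
    eval₂AlgHom ((ev4 (k := k) a b s t).comp (e4 (k := k)).symm.toAlgHom) X
      (fun _ => Commute.all _ _)
  have h1 : ∀ z, φ (C z) = ev4 a b s t (e4.symm z) := fun z => by simp [φ]
  have h2 : φ X = X := by simp [φ]
  have h3 : φ (th Q) = ev4 (k := k) a b (X * s) (X * t) Q := by
    rw [th, ev4_comp, map_mul, map_mul, h1, h1, h1, h1, h2]
    simp
  obtain ⟨Q', hQ'⟩ := hQ
  let a0 : K[X] →ₐ[k] K := (aeval (R := K) (0 : K)).restrictScalars k
  have h4 : ∀ p : K[X], a0 p = p.coeff 0 := by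
    intro p
    rw [coeff_zero_eq_aeval_zero]; rfl
  let b0 : (R4 k)[X] →ₐ[k] R4 k := (aeval (R := R4 k) (0 : R4 k)).restrictScalars k
  have h5 : ∀ p : (R4 k)[X], b0 p = p.coeff 0 := by
    intro p
    rw [coeff_zero_eq_aeval_zero]; rfl
  have h6 : ∀ p : (R4 k)[X], (φ p).coeff 0 =
      ev4 (k := k) (a.coeff 0) (b.coeff 0) (s.coeff 0) (t.coeff 0) (e4.symm (p.coeff 0)) := by
    intro p
    refine poly_ind (fun p : (R4 k)[X] => (φ p).coeff 0 =
      ev4 (k := k) (a.coeff 0) (b.coeff 0) (s.coeff 0) (t.coeff 0) (e4.symm (p.coeff 0))) ?_ ?_ ?_ p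
    · intro p q hp hq
      rw [map_add, coeff_add, hp, hq, coeff_add, map_add, map_add]
    · intro z
      rw [h1, coeff_C_zero, ← h4, ev4_comp, h4, h4, h4, h4]
    · intro p hp
      rw [map_mul, h2, coeff_X_mul_zero, coeff_X_mul_zero, map_zero, map_zero]
  rw [← h3, hQ', map_mul, map_pow, h2, Xpow_coeff, h6, ld, hQ', Xpow_coeff]

theorem lead_eval_dvd {K : Type v} [CommRing K] [Algebra k K] {r : ℕ} {Q : K0 k} (hQ : Ord r Q)
    (a b s t : K[X]) : X ^ r ∣ ev4 (k := k) a b (X * s) (X * t) Q := by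
  let φ : (R4 k)[X] →ₐ[k] K[X] :=
    eval₂AlgHom ((ev4 (k := k) a b s t).comp (e4 (k := k)).symm.toAlgHom) X
      (fun _ => Commute.all _ _)
  have h1 : ∀ z, φ (C z) = ev4 a b s t (e4.symm z) := fun z => by simp [φ]
  have h2 : φ X = X := by simp [φ]
  have h3 : φ (th Q) = ev4 (k := k) a b (X * s) (X * t) Q := by
    rw [th, ev4_comp, map_mul, map_mul, h1, h1, h1, h1, h2]
    simp
  obtain ⟨Q', hQ'⟩ := hQ
  rw [← h3, hQ', map_mul, map_pow, h2]
  exact Dvd.intro _ rfl

end lead

end Pool.Agent.Helper392_GT
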