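import Pool.Agent.Helper392_GT.Final

namespace Pool.Agent.Helper392_GT

open Polynomial

universe u v

set_option linter.unusedSimpArgs false
set_option linter.unusedVariables false
set_option linter.unusedSectionVars false

attribute [local instance 100] LieRing.ofAssociativeRing

theorem DepthGE.mono {k : Type u} [CommRing k] {ψ : F2 k} {d e : ℕ} (h : DepthGE k e ψ)
    (hde : d ≤ e) : DepthGE k d ψ := fun w hw => h w (lt_of_lt_of_le hw hde)

section dom

variable {k : Type u} [Field k]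

instance : IsDomain (P2 k) := inferInstanceAs (IsDomain k[X][X])

theorem px_ne : (px : P2 k) ≠ 0 := by
  intro h
  have := congrArg (sl (k := k)).symm h
  simp [px] at this

theorem py_ne : (py : P2 k) ≠ 0 := by
  intro h
  have := congrArg (sl (k := k)).symm h
  simp [py] at this

end dom

section D1part

variable {k : Type u} [Field k]

theorem lin_decomp (ψ : F2 k) : ∃ c d : k, ψ - c • gx k - d • gy k ∈ D1 k := by
  refine free_ind (fun ψ => ∃ c d : k, ψ - c • gx k - d • gy k ∈ D1 k) ?_ ?_ ?_ ?_ ?_ ?_ ψ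
  · exact ⟨0, 0, by simp⟩
  · rintro a b ⟨c, d, h⟩ ⟨c', d', h'⟩
    refine ⟨c + c', d + d', ?_⟩
    have : a + b - (c + c') • gx k - (d + d') • gy k =
      (a - c • gx k - d • gy k) + (b - c' • gx k - d' • gy k) := by
      rw [add_smul, add_smul]; abel
    rw [this]; exact (D1 k).add_mem h h'
  · rintro r a ⟨c, d, h⟩
    refine ⟨r * c, r * d, ?_⟩
    have : r • a - (r * c) • gx k - (r * d) • gy k = r • (a - c • gx k - d • gy k) := by
      rw [smul_sub, smul_sub, smul_smul, smul_smul]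
    rw [this]; exact (D1 k).smul_mem _ h
  · intro a b _ _
    exact ⟨0, 0, by simpa using mem_D1 a b⟩
  · exact ⟨1, 0, by simp⟩
  · exact ⟨0, 1, by simp⟩

theorem mem_D1_of_depth {ψ : F2 k} (h : DepthGE k 2 ψ) : ψ ∈ D1 k := by
  obtain ⟨c, d, hcd⟩ := lin_decomp ψ
  have key : ∀ (K : Type u) [CommRing K] [Algebra k K] (a b : K),
      subst k (mkM a 0 0 0 0 0 0 0 0) (mkM b 0 0 0 0 0 0 0 0) ψ 0 0 =
        algebraMap k K c * a + algebraMap k K d * b := by
    intro K _ _ a b
    have e : ψ = (ψ - c • gx k - d • gy k) + c • gx k + d • gy k := by abel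
    have z := zd_D1 (k := k) (mkM_dia a 0 0 0 0 0 0 0 0) (mkM_dia b 0 0 0 0 0 0 0 0) hcd
    rw [e, map_add, map_add, map_smul, map_smul, subst_x, subst_y, Matrix.add_apply,
      Matrix.add_apply, z.1, zero_add, Matrix.smul_apply, Matrix.smul_apply, mkM_00, mkM_00,
      Algebra.smul_def, Algebra.smul_def]
  -- c = 0
  have hc : c = 0 := by
    obtain ⟨M, hM⟩ := depth_dvd (K := k) h (mkM (1 : k) 0 0 0 0 0 0 0 0) (mkM (1 : k) 0 0 0 0 0 0 0 0)
      (0 : k)
    have h1 := key k 1 0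
    rw [mkM_smul] at hM
    simp only [mul_one, mul_zero, zero_mul] at hM
    rw [hM] at h1
    simpa using h1.symm
  have hd : d = 0 := by
    obtain ⟨M, hM⟩ := depth_dvd (K := k[X]) h (mkM (0 : k[X]) 0 0 0 0 0 0 0 0)
      (mkM (1 : k[X]) 0 0 0 0 0 0 0 0) (X : k[X])
    have h1 := key k[X] 0 X
    rw [mkM_smul] at hM
    simp only [mul_one, mul_zero, zero_mul] at hM
    rw [hM] at h1
    have h2 := congrArg (fun p => coeff p 1) h1
    simpa [coeff_X_pow_mul'] using h2.symm
  rw [hc, hd] at hcd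
  simpa using hcd

end D1part

section D2part

variable {k : Type u} [Field k] [CharZero k]

/-- `∂/∂y` -/
noncomputable def dy (f : P2 k) : P2 k := sl (derivative ((sl (k := k)).symm f))

theorem coeff_shift (f : P2 k) :
    (ev2 (C px : (P2 k)[X]) (C py + X) f).coeff 0 = f ∧
    (ev2 (C px : (P2 k)[X]) (C py + X) f).coeff 1 = dy f := by
  refine P2_ind (fun f => (ev2 (C px : (P2 k)[X]) (C py + X) f).coeff 0 = f ∧
    (ev2 (C px : (P2 k)[X]) (C py + X) f).coeff 1 = dy f) ?_ ?_ ?_ ?_ f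
  · rintro p q ⟨h0, h1⟩ ⟨g0, g1⟩
    rw [map_add, coeff_add, coeff_add, h0, h1, g0, g1]
    refine ⟨rfl, ?_⟩
    simp only [dy, map_add]
  · intro a
    rw [AlgHom.commutes]
    have e : algebraMap k (P2 k)[X] a = C (algebraMap k (P2 k) a) := rfl
    rw [e, coeff_C_zero, coeff_C]
    refine ⟨rfl, ?_⟩
    have e2 : (sl (k := k)).symm (algebraMap k (P2 k) a) = C (C a) := rfl
    rw [dy, e2, derivative_C, map_zero]
    simp
  · rintro p ⟨h0, h1⟩
    rw [map_mul, ev2_px, coeff_C_mul, coeff_C_mul, h0, h1]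
    refine ⟨rfl, ?_⟩
    have e : (sl (k := k)).symm px = C X := by simp [px]
    rw [dy, dy, map_mul, e, derivative_C_mul, map_mul]
    rfl
  · rintro p ⟨h0, h1⟩
    rw [map_mul, ev2_py, add_mul, coeff_add, coeff_add, coeff_C_mul, coeff_C_mul, h0, h1,
      coeff_X_mul_zero, show (1 : ℕ) = 0 + 1 from rfl, coeff_X_mul, h0]
    refine ⟨add_zero _, ?_⟩
    have e : (sl (k := k)).symm py = X := by simp [py]
    rw [dy, dy, map_mul, e, derivative_mul, derivative_X, one_mul, map_add, map_mul,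
      AlgEquiv.apply_symm_apply, add_comm]
    rfl

theorem f_eq_zero (f : P2 k)
    (hy : ∃ g : P2 k, f = py * g)
    (hF : ∀ (K : Type u) [CommRing K] [Algebra k K] (a b c : K),
      a * b * ev2 a b f + (a + b) * c * ev2 (a + b) c f
        = b * c * ev2 b c f + a * (b + c) * ev2 a (b + c) f) : f = 0 := by
  obtain ⟨g, rfl⟩ := hy
  have h1 := hF (P2 k)[X] (C px) (C py) X
  have h2 : ev2 (C px : (P2 k)[X]) (C py + X) (px * py * (py * g)) =
      ev2 (C px : (P2 k)[X]) (C py) (px * py * (py * g))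
        + X ^ 2 * ((C px + C py) * ev2 (C px + C py) X g - C py * ev2 (C py) X g) := by
    simp only [map_mul, ev2_px, ev2_py] at h1 ⊢
    linear_combination (-1 : (P2 k)[X]) * h1
  rw [ev2_C] at h2
  have h3 := congrArg (fun p => coeff p 1) h2
  have h4 : ((X : (P2 k)[X]) ^ 2 * ((C px + C py) * ev2 (C px + C py) X g
      - C py * ev2 (C py) X g)).coeff 1 = 0 := by
    rw [coeff_X_pow_mul']; simp
  have h5 : coeff (C (px * py * (py * g)) : (P2 k)[X]) 1 = 0 := by
    rw [coeff_C]; simp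
  simp only [coeff_add] at h3
  rw [h4, h5, add_zero, (coeff_shift _).2] at h3
  -- F as a polynomial in y over k[x]
  set F : k[X][X] := (sl (k := k)).symm (px * py * (py * g)) with hFdef
  have h3' : derivative F = 0 := by
    have := congrArg (sl (k := k)).symm h3
    rw [dy, AlgEquiv.symm_apply_apply, map_zero] at this
    exact this
  have h6 : F.natDegree = 0 := derivative_eq_zero.mp h3'
  have h7 : F.coeff 0 = 0 := by
    have : F = X * (sl (k := k)).symm (px * (py * g)) := by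
      have e : (px * py * (py * g) : P2 k) = py * (px * (py * g)) := by ring
      have e2 : (sl (k := k)).symm py = X := by simp [py]
      rw [hFdef, e, map_mul, e2]
    rw [this, coeff_X_mul_zero]
  have h8 : F = 0 := by
    rw [eq_C_of_natDegree_eq_zero h6, h7, C_0]
  have h9 : (px * py * (py * g) : P2 k) = 0 := by
    have := congrArg (sl (k := k)) h8
    rwa [hFdef, AlgEquiv.apply_symm_apply, map_zero] at this
  have hpx : (px : P2 k) ≠ 0 := px_ne
  have hpy : (py : P2 k) ≠ 0 := py_ne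
  rcases mul_eq_zero.mp h9 with h | h
  · rcases mul_eq_zero.mp h with h | h
    · exact absurd h hpx
    · exact absurd h hpy
  · exact h

theorem py_dvd_of_depth {ψ : F2 k} (h : DepthGE k 2 ψ) {f : P2 k} (hf : ψ - gm k f ∈ D2 k) :
    ∃ g : P2 k, f = py * g := by
  have hev : ∀ p : P2 k, ev2 (C X : k[X][X]) X p = (sl (k := k)).symm p := by
    intro p
    have : ev2 (C X : k[X][X]) X = (sl (k := k)).symm.toAlgHom := by
      apply P2_hom_ext
      · rw [ev2_px]; simp [px]
      · rw [ev2_py]; simp [py]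
    rw [this]; rfl
  obtain ⟨M, hM⟩ := depth_dvd (K := k[X][X]) h (mkM (C X : k[X][X]) 0 0 0 1 0 0 0 0)
    (mkM (1 : k[X][X]) 0 0 0 0 0 0 0 0) (X : k[X][X])
  rw [mkM_smul] at hM
  simp only [mul_one, mul_zero] at hM
  have hA := mkM_dia (C X : k[X][X]) 0 0 0 1 0 0 0 0
  have hB := mkM_dia (X : k[X][X]) 0 0 0 0 0 0 0 0
  have z := zo_D2 (k := k) hA hB hf
  have e := gm_entries (k := k) hA hB f
  have h1 : subst k (mkM (C X : k[X][X]) 0 0 0 1 0 0 0 0) (mkM X 0 0 0 0 0 0 0 0) ψ 0 1 =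
      (sl (k := k)).symm f * (-X) := by
    have z1 := z.1
    rw [map_sub, Matrix.sub_apply, sub_eq_zero] at z1
    rw [z1, e.1, hA.lie01 hB]
    simp only [mkM_00, mkM_01, mkM_11, sub_zero, mul_zero, mul_one, zero_sub, hev]
  rw [hM, Matrix.smul_apply, smul_eq_mul] at h1
  have h2 : X * ((sl (k := k)).symm f) = X * (X * (-(M 0 1))) := by
    linear_combination h1
  have h3 := mul_left_cancel₀ (X_ne_zero) h2
  refine ⟨sl (-(M 0 1)), ?_⟩
  have h4 := congrArg (sl (k := k)) h3
  rw [AlgEquiv.apply_symm_apply, map_mul] at h4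
  exact h4

theorem mem_D2_of_depth {ψ : F2 k} (hp : Pentagon k ψ) (h : DepthGE k 2 ψ) : ψ ∈ D2 k := by
  have h1 := mem_D1_of_depth h
  obtain ⟨f, hf⟩ := exists_gam h1
  have hf0 : f = 0 := f_eq_zero f (py_dvd_of_depth h hf) (fun K _ _ a b c => relF hp h1 hf a b c)
  rw [hf0, map_zero, sub_zero] at hf
  exact hf

end D2part

section main

variable {k : Type u} [Field k]

/-- divisibility of `P` on `Y = 0` -/
theorem dvd_Y0 {ψ : F2 k} (hp : Pentagon k ψ) (hψ : ψ ∈ D1 k) {P : (P2 k)[X][X]}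
    (hE : Entry ψ P) {m : ℕ} (hd : DepthGE k (m + 2) ψ) {K : Type u} [CommRing K] [IsDomain K]
    [Algebra k K] (a b T : K) (hT : T ≠ 0) (haT : a - T ≠ 0) :
    ∃ w : K, b * ev4 a b T 0 P = T ^ (m + 1) * w := by
  obtain ⟨M, hM⟩ := depth_dvd (K := K) hd (mkM (0 : K) (a - T) 0 (-b) 1 0 (-1) 0 0)
    (mkM (0 : K) 1 0 0 0 0 0 0 0) T
  rw [mkM_smul] at hM
  simp only [mul_one, mul_zero] at hM
  have h1 := entry_mk hE (0 : K) (a - T) 0 (-b) 1 0 (-1) 0 0 0 T 0 0 0 0 0 0 0
  rw [hM, Matrix.smul_apply, smul_eq_mul] at h1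
  have e1 : (0 : K) - (a - T) = T - a := by ring
  have e2 : (0 : K) - -b = b := by ring
  have e3 : (0 : K) - T = -T := by ring
  simp only [e1, e2, e3, sub_zero, mul_zero, zero_mul, add_zero, mul_one, zero_sub] at h1
  have h2 : T ^ 2 * ev4 (T - a) (-T) b 0 P = T ^ 2 * (T ^ m * M 0 3) := by
    linear_combination (-1 : K) * h1
  have h3 := mul_left_cancel₀ (pow_ne_zero 2 hT) h2
  have h4 := relA hp hψ hE a b T
  have h5 := (mul_eq_zero.mp h4).resolve_left haT
  refine ⟨-(M 0 3), ?_⟩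
  linear_combination h5 - T * h3

theorem coeffs_zero {ψ : F2 k} (hp : Pentagon k ψ) (hψ : ψ ∈ D1 k) {P : (P2 k)[X][X]}
    (hE : Entry ψ P) {m : ℕ} (hd : DepthGE k (m + 2) ψ) :
    (∀ i, i < m + 1 → cf P i 0 = 0) ∧ (∀ j, j < m + 1 → cf P 0 j = 0) ∧
      cf P 2 0 - cf P 1 1 + cf P 0 2 = 0 := by
  have hpx : (px : P2 k) ≠ 0 := px_ne
  have hpy : (py : P2 k) ≠ 0 := py_ne
  have hT : (X : (P2 k)[X]) ≠ 0 := X_ne_zero
  have hCX : ∀ c : P2 k, c ≠ 0 → (C c - X : (P2 k)[X]) ≠ 0 := by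
    intro c hc h
    have := congrArg (fun p => coeff p 0) h
    simp at this
    exact hc this
  refine ⟨?_, ?_, ?_⟩
  · intro i hi
    obtain ⟨w, hw⟩ := dvd_Y0 hp hψ hE hd (C px : (P2 k)[X]) (C py) X hT (hCX _ hpx)
    rw [ev4_s0] at hw
    have h1 := congrArg (fun p => coeff p i) hw
    simp only [coeff_C_mul, coeff_X_pow_mul', if_neg (not_le.mpr hi)] at h1
    exact (mul_eq_zero.mp h1).resolve_left hpy
  · intro j hj
    obtain ⟨w, hw⟩ := dvd_Y0 hp hψ hE hd (C py : (P2 k)[X]) (C px) X hT (hCX _ hpy)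
    have h0 := relC1 hp hψ hE (C px : (P2 k)[X]) (C py) 0 X
    have h1 : ev4 (C py : (P2 k)[X]) (C px) X 0 P + ev4 (C px : (P2 k)[X]) (C py) 0 X P = 0 := by
      refine (mul_eq_zero.mp h0).resolve_left ?_
      rw [zero_sub]
      refine mul_ne_zero ?_ (neg_ne_zero.mpr ?_) <;> simpa using hpx
    have h2 : C px * ev4 (C px : (P2 k)[X]) (C py) 0 X P = X ^ (m + 1) * (-w) := by
      linear_combination C px * h1 - hw
    have h3 := congrArg (fun p => coeff p j) h2
    simp only [coeff_C_mul, coeff_X_pow_mul', if_neg (not_le.mpr hj), ev4_0t] at h3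
    exact (mul_eq_zero.mp h3).resolve_left hpx
  · have h0 := relB hp hψ hE (C px : (P2 k)[X]) (C py) X
    have h1 : ev4 (C px : (P2 k)[X]) (C py) X (-X) P = 0 := by
      refine (mul_eq_zero.mp h0).resolve_left ?_
      refine mul_ne_zero (mul_ne_zero (mul_ne_zero ?_ ?_) hT) ?_
      · simpa using hpx
      · intro h
        have := congrArg (fun p => coeff p 0) h
        simp at this
        exact hpy this
      · intro h
        have h' := congrArg (fun p => coeff p 0) h
        simp at h'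
        have h'' := congrArg (sl (k := k)).symm h'
        rw [map_add, map_zero] at h''
        have e1 : (sl (k := k)).symm px = C X := by simp [px]
        have e2 : (sl (k := k)).symm py = X := by simp [py]
        rw [e1, e2] at h''
        have := congrArg (fun p => coeff p 1) h''
        simp at this
    rw [← (ev4_anti P).2.2, h1, coeff_zero]

theorem main_mem {ψ : F2 k} [CharZero k] (hp : Pentagon k ψ) {m : ℕ} (hm : m < 3)
    (hd : DepthGE k (m + 2) ψ) :
    ψ ∈ LieSubmodule.lcs (m + 1) (D2 k) ⊔ DN k := by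
  have h2 : ψ ∈ D2 k := mem_D2_of_depth hp (hd.mono (by omega))
  have h1 : ψ ∈ D1 k := D2_le_D1 h2
  obtain ⟨P, hP, hE⟩ := exists_P h2
  obtain ⟨c1, c2, c3⟩ := coeffs_zero hp h1 hE hd
  have hc : ∀ i j, i + j < m + 1 → cf P i j = 0 := by
    intro i j hij
    rcases Nat.eq_zero_or_pos j with rfl | hj
    · exact c1 i (by omega)
    rcases Nat.eq_zero_or_pos i with rfl | hi
    · exact c2 j (by omega)
    have : i = 1 ∧ j = 1 ∧ m = 2 := by omega
    obtain ⟨rfl, rfl, rfl⟩ := this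
    rw [c1 2 (by omega), c2 2 (by omega)] at c3
    simpa using c3
  have hb := bt_lcs P (m + 1) hc
  have e : ψ = (2 : k)⁻¹ • bt k P + (2 : k)⁻¹ • ((2 : k) • ψ - bt k P) := by
    rw [smul_sub, smul_smul, inv_mul_cancel₀ two_ne_zero, one_smul]; abel
  rw [e]
  refine add_mem ?_ ?_
  · exact SMulMemClass.smul_mem _ ((le_sup_left : _ ≤ LieSubmodule.lcs (m + 1) (D2 k) ⊔ DN k) hb)
  · exact SMulMemClass.smul_mem _ ((le_sup_right : _ ≤ LieSubmodule.lcs (m + 1) (D2 k) ⊔ DN k) hP)

theorem DN_le_lcs2 : DN k ≤ LieSubmodule.lcs 2 (D2 k) := by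
  rw [LieSubmodule.lie_le_iff]
  intro a ha w hw
  refine lie_ind ⊤ ⊤ (fun a => ⁅a, w⁆ ∈ LieSubmodule.lcs 2 (D2 k)) ?_ ?_ ?_ ?_ ha
  · simp
  · intro u v hu hv
    rw [add_lie]; exact add_mem hu hv
  · intro c u hu
    rw [smul_lie]; exact SMulMemClass.smul_mem _ hu
  · intro u _ v _
    rw [lie_lie]
    refine sub_mem ?_ ?_
    · exact LieSubmodule.lie_mem_lie (LieSubmodule.mem_top u)
        (LieSubmodule.lie_mem_lie (LieSubmodule.mem_top v) hw)
    · exact LieSubmodule.lie_mem_lie (LieSubmodule.mem_top v)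
        (LieSubmodule.lie_mem_lie (LieSubmodule.mem_top u) hw)

end main

end Pool.Agent.Helper392_GT
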