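import Pool.Agent.Helper392_GT.Conv

namespace Pool.Agent.Helper392_GT

open Polynomial

universe u v

set_option linter.unusedSimpArgs false
set_option linter.unusedVariables false

attribute [local instance 100] LieRing.ofAssociativeRing

section relD

variable {k : Type u} [Field k] {K : Type u} [CommRing K] [IsDomain K] [Algebra k K]

/-- the exchange relation -/
theorem relD {ψ : F2 k} (hp : Pentagon k ψ) (hψ : ψ ∈ D1 k) {P : (P2 k)[X][X]} (hE : Entry ψ P)
    (x y s t : K) (hx : x ≠ 0) (hy : y ≠ 0) (hsx : s - x ≠ 0) (hsy : s + y ≠ 0) :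
    (y - t) * ev4 x y s t P + (s + t) * ev4 x (-s) (-y) t P = 0 := by
  have h0 := relD0 hp hψ hE s (s - x) y (y - t)
  have e1 : s - (s - x) = x := by ring
  have e2 : y - (y - t) = t := by ring
  rw [e1, e2] at h0
  have hB := relB hp hψ hE x (-s) (-y)
  have hB2 : ev4 x (-s) (-y) y P = 0 := by
    rw [neg_neg] at hB
    refine (mul_eq_zero.mp hB).resolve_left ?_
    refine mul_ne_zero (mul_ne_zero (mul_ne_zero hx ?_) (neg_ne_zero.mpr hy)) ?_
    · intro h; apply hsy; linear_combination -h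
    · intro h; apply hsx; linear_combination -h
  have hC := relC1 hp hψ hE x y s t
  have hC2 := (mul_eq_zero.mp hC).resolve_left (mul_ne_zero hx hsx)
  rw [hB2, mul_zero, add_zero] at h0
  have h1 := (mul_eq_zero.mp h0).resolve_left (mul_ne_zero hy hsx)
  linear_combination (y - t) * hC2 - h1

end relD

section expand

variable {k : Type u} [CommRing k]

/-- the point `(x, y; σ, σλ)` of the ring `k[x,y][λ][σ]` -/
noncomputable abbrev evg : (P2 k)[X][X] →ₐ[k] (P2 k)[X][X] :=
  ev4 (C (C px)) (C (C py)) X (X * C X)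

theorem evg_CC (f : P2 k) : evg (k := k) (C (C f)) = C (C f) := by
  rw [evg, ev4_CC]
  have : ev2 (C (C px) : (P2 k)[X][X]) (C (C py)) =
      ((CAlgHom : (P2 k)[X] →ₐ[(P2 k)[X]] (P2 k)[X][X]).restrictScalars k).comp
        ((CAlgHom : P2 k →ₐ[P2 k] (P2 k)[X]).restrictScalars k) := by
    apply P2_hom_ext <;> simp
  rw [this]; rfl

/-- the coefficient of `σ^n λ^j` -/
theorem evg_coeff (P : (P2 k)[X][X]) (n j : ℕ) :
    ((evg P).coeff n).coeff j = if j ≤ n then cf P (n - j) j else 0 := by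
  refine poly_ind (fun P => ∀ n j, ((evg P).coeff n).coeff j =
    if j ≤ n then cf P (n - j) j else 0) ?_ ?_ ?_ P n j
  · intro p q hp hq n j
    simp only [map_add, coeff_add, hp, hq, cf]
    split_ifs <;> simp
  · intro q
    refine poly_ind (fun q => ∀ n j, ((evg (C q)).coeff n).coeff j =
      if j ≤ n then cf (C q) (n - j) j else 0) ?_ ?_ ?_ q
    · intro p q hp hq n j
      simp only [C_add, map_add, coeff_add, hp, hq, cf]
      split_ifs <;> simp
    · intro a n j
      rw [evg_CC]
      simp only [cf, coeff_C]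
      rcases Nat.eq_zero_or_pos n with rfl | hn
      · rcases Nat.eq_zero_or_pos j with rfl | hj
        · simp
        · simp [coeff_C, hj.ne']
      · rcases Nat.eq_zero_or_pos j with rfl | hj
        · simp [coeff_C, hn.ne']
        · simp [hj.ne', hn.ne']
    · intro p hp n j
      rw [C_mul, map_mul]
      have : evg (k := k) (C X) = X := by simp [evg]
      rw [this]
      cases n with
      | zero =>
        simp only [coeff_X_mul_zero, coeff_zero]
        split_ifs with h
        · have : j = 0 := by omega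
          subst this
          simp [cf]
        · rfl
      | succ n =>
        rw [coeff_X_mul, hp]
        rw [← C_mul]
        simp only [cf]
        rcases Nat.eq_zero_or_pos j with rfl | hj
        · simp only [Nat.zero_le, if_true, Nat.sub_zero, coeff_C_zero, coeff_X_mul]
        · simp only [coeff_C_ne_zero hj.ne', coeff_zero, ite_self]
  · intro p hp n j
    rw [map_mul]
    have : evg (k := k) X = X * C X := by simp [evg]
    rw [this, mul_assoc]
    cases n with
    | zero =>
      simp only [coeff_X_mul_zero, coeff_zero]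
      split_ifs with h
      · have : j = 0 := by omega
        subst this
        simp [cf]
      · rfl
    | succ n =>
      rw [coeff_X_mul, coeff_C_mul]
      cases j with
      | zero => simp [cf]
      | succ j =>
        rw [coeff_X_mul, hp]
        simp only [cf, coeff_X_mul, Nat.add_le_add_iff_right, Nat.add_sub_add_right]

end expand

section order

variable {k : Type u} [Field k]

theorem sum_ne : (px + py : P2 k) ≠ 0 := by
  intro h
  have h'' := congrArg (sl (k := k)).symm h
  rw [map_add, map_zero] at h''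
  have e1 : (sl (k := k)).symm px = C X := by simp [px]
  have e2 : (sl (k := k)).symm py = X := by simp [py]
  rw [e1, e2] at h''
  have := congrArg (fun p => coeff p 1) h''
  simp at this

theorem X_not_dvd {A : Type u} [CommRing A] {q : A[X]} (h : q.coeff 0 ≠ 0) : ¬ X ∣ q := by
  rw [X_dvd_iff]; exact h

theorem order_of_depth {ψ : F2 k} (hp : Pentagon k ψ) (hψ : ψ ∈ D1 k) {P : (P2 k)[X][X]}
    (hE : Entry ψ P) {m : ℕ} (hd : DepthGE k (m + 2) ψ) (i j : ℕ) (hij : i + j < m + 1) :
    cf P i j = 0 := by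
  have hpx : (px : P2 k) ≠ 0 := px_ne
  have hpy : (py : P2 k) ≠ 0 := py_ne
  have hs : (px + py : P2 k) ≠ 0 := sum_ne
  obtain ⟨x, hx⟩ : ∃ x : (P2 k)[X][X], x = C (C px) := ⟨_, rfl⟩
  obtain ⟨y, hy⟩ : ∃ y : (P2 k)[X][X], y = C (C py) := ⟨_, rfl⟩
  obtain ⟨l, hl⟩ : ∃ l : (P2 k)[X][X], l = C X := ⟨_, rfl⟩
  have hx0 : x ≠ 0 := by rw [hx, Ne, C_eq_zero, C_eq_zero]; exact hpx
  have hy0 : y ≠ 0 := by rw [hy, Ne, C_eq_zero, C_eq_zero]; exact hpy
  have hsx : (X : (P2 k)[X][X]) - x ≠ 0 := by
    intro h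
    have := congrArg (fun p => coeff p 1) h
    rw [hx] at this
    simp only [coeff_sub, coeff_X_one, coeff_C_succ, sub_zero, coeff_zero] at this
    exact one_ne_zero this
  have hsy : (X : (P2 k)[X][X]) + y ≠ 0 := by
    intro h
    have := congrArg (fun p => coeff p 1) h
    rw [hy] at this
    simp only [coeff_add, coeff_X_one, coeff_C_succ, add_zero, coeff_zero] at this
    exact one_ne_zero this
  obtain ⟨M, hM⟩ := depth_dvd (K := (P2 k)[X][X]) hd (mkM (0 : (P2 k)[X][X]) (-x) 0 y 0 0 0 0 0)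
    (mkM (0 : (P2 k)[X][X]) 1 0 (-l) 1 0 1 0 0) (X : (P2 k)[X][X])
  rw [mkM_smul] at hM
  simp only [mul_one, mul_zero] at hM
  have h1 := entry_mk hE (0 : (P2 k)[X][X]) (-x) 0 y 0 0 0 0 0 0 X 0 (X * -l) X 0 X 0 0
  rw [hM, Matrix.smul_apply, smul_eq_mul] at h1
  have e1 : (0 : (P2 k)[X][X]) - -x = x := by ring
  have e2 : (0 : (P2 k)[X][X]) - X * -l = X * l := by ring
  have e3 : (0 : (P2 k)[X][X]) - X = -X := by ring
  have e4 : (0 : (P2 k)[X][X]) - y = -y := by ring
  simp only [e1, e2, e3, e4] at h1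
  have h2 : X ^ 2 * (x * (x + y) * ev4 x (-X) (-y) (X * l) P) = X ^ 2 * (- (X ^ m * M 0 3)) := by
    linear_combination h1
  have h3 := mul_left_cancel₀ (pow_ne_zero 2 X_ne_zero) h2
  have h4 := relD (K := (P2 k)[X][X]) hp hψ hE x y X (X * l) hx0 hy0 hsx hsy
  have h5 : X ^ (m + 1) ∣ (x * (x + y) * (y - X * l)) * evg P := by
    refine ⟨(1 + l) * M 0 3, ?_⟩
    have hev : evg P = ev4 x y X (X * l) P := by rw [hx, hy, hl]
    rw [hev]
    linear_combination x * (x + y) * h4 - X * (1 + l) * h3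
  have h6 : X ^ (m + 1) ∣ evg P := by
    refine (prime_X (R := (P2 k)[X])).pow_dvd_of_dvd_mul_left (m + 1) ?_ h5
    apply X_not_dvd
    have : (x * (x + y) * (y - X * l)).coeff 0 = C (px * (px + py) * py) := by
      rw [hx, hy, hl]; simp [mul_coeff_zero]
    rw [this, Ne, C_eq_zero]
    exact mul_ne_zero (mul_ne_zero hpx hs) hpy
  rw [X_pow_dvd_iff] at h6
  have h7 := h6 (i + j) hij
  have h8 := evg_coeff P (i + j) j
  rw [h7, coeff_zero, if_pos (by omega), Nat.add_sub_cancel] at h8
  exact h8.symm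

/-- Elements of depth `≥ m + 1` lie in `[L, …, [L, L'']] + [L', L'']`. -/
theorem mem_of_depth [CharZero k] {ψ : F2 k} (hp : Pentagon k ψ) {m : ℕ}
    (hd : DepthGE k (m + 2) ψ) : ψ ∈ LieSubmodule.lcs (m + 1) (D2 k) ⊔ DN k := by
  have h2 : ψ ∈ D2 k := mem_D2_of_depth hp (hd.mono (by omega))
  have h1 : ψ ∈ D1 k := D2_le_D1 h2
  obtain ⟨P, hP, hE⟩ := exists_P h2
  have hb := bt_lcs P (m + 1) (fun i j hij => order_of_depth hp h1 hE hd i j hij)
  have e : ψ = (2 : k)⁻¹ • bt k P + (2 : k)⁻¹ • ((2 : k) • ψ - bt k P) := by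
    rw [smul_sub, smul_smul, inv_mul_cancel₀ two_ne_zero, one_smul]; abel
  rw [e]
  refine add_mem ?_ ?_
  · exact SMulMemClass.smul_mem _ ((le_sup_left : _ ≤ LieSubmodule.lcs (m + 1) (D2 k) ⊔ DN k) hb)
  · exact SMulMemClass.smul_mem _ ((le_sup_right : _ ≤ LieSubmodule.lcs (m + 1) (D2 k) ⊔ DN k) hP)

end order

end Pool.Agent.Helper392_GT
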