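import Mathlib

namespace Pool.Agent.Helper392_GT

universe u v

section oddpow

variable {k : Type u} [Field k] {K : Type u} [Field K] [Algebra k K] {ι : Type} [DecidableEq ι]
  (x : ι → K)

/-- the coefficients -/
noncomputable def cc (S : Finset ι) (i : ι) : K := ∏ j ∈ S.erase i, (x i + x j) / (x i - x j)

theorem cc_insert {S : Finset ι} {b i : ι} (hb : b ∉ S) (hi : i ∈ S) :
    cc x (insert b S) i = cc x S i * ((x i + x b) / (x i - x b)) := by
  have hne : i ≠ b := fun h => hb (h ▸ hi)
  rw [cc, Finset.erase_insert_of_ne hne.symm, Finset.prod_insert, mul_comm, cc]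
  exact fun h => hb (Finset.mem_of_mem_erase h)

theorem cc_insert_self {S : Finset ι} {b : ι} (hb : b ∉ S) :
    cc x (insert b S) b = ∏ j ∈ S, (x b + x j) / (x b - x j) := by
  rw [cc, Finset.erase_insert hb]

theorem pf_eval {S : Finset ι} (hx : Set.InjOn x S) (a : K) (ha : ∀ i ∈ S, x i ≠ a) :
    ∏ i ∈ S, (a + x i) / (a - x i) = 1 + ∑ i ∈ S, 2 * cc x S i * x i / (a - x i) := by
  induction S using Finset.induction_on generalizing a with
  | empty => simp
  | insert b S hb ih =>
    have hx' : Set.InjOn x S := hx.mono (by simp)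
    have hba : x b ≠ a := ha b (Finset.mem_insert_self _ _)
    have hSb : ∀ i ∈ S, x i ≠ x b := fun i hi h => hb (by
      have := hx (Finset.mem_coe.mpr (Finset.mem_insert_of_mem hi)) (Finset.mem_coe.mpr (Finset.mem_insert_self _ _)) h
      rwa [this] at hi)
    have hSa : ∀ i ∈ S, x i ≠ a := fun i hi => ha i (Finset.mem_insert_of_mem hi)
    rw [Finset.prod_insert hb, Finset.sum_insert hb, cc_insert_self x hb, ih hx' a hSa,
      ih hx' (x b) hSb, mul_add, mul_one, Finset.mul_sum]
    have e1 : (a + x b) / (a - x b) = 1 + 2 * x b / (a - x b) := by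
      have : a - x b ≠ 0 := sub_ne_zero.mpr hba.symm
      field_simp; ring
    have e2 : ∑ i ∈ S, (a + x b) / (a - x b) * (2 * cc x S i * x i / (a - x i)) =
        (∑ i ∈ S, 2 * cc x S i * x i / (x b - x i)) * (2 * x b / (a - x b)) +
        ∑ i ∈ S, 2 * cc x (insert b S) i * x i / (a - x i) := by
      rw [Finset.sum_mul, ← Finset.sum_add_distrib]
      refine Finset.sum_congr rfl fun i hi => ?_
      rw [cc_insert x hb hi]
      have h1 : a - x b ≠ 0 := sub_ne_zero.mpr hba.symm
      have h2 : a - x i ≠ 0 := sub_ne_zero.mpr (hSa i hi).symm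
      have h3 : x b - x i ≠ 0 := sub_ne_zero.mpr (hSb i hi).symm
      have h4 : x i - x b ≠ 0 := sub_ne_zero.mpr (hSb i hi)
      field_simp
      ring
    rw [e2, e1]
    ring

/-- the geometric series -/
noncomputable def gs (a : K) : PowerSeries K := PowerSeries.mk fun n => a ^ n

theorem gs_mul (a : K) : (1 - PowerSeries.C a * PowerSeries.X) * gs a = 1 := by
  ext n
  rw [sub_mul, one_mul, mul_assoc, map_sub]
  cases n with
  | zero => simp [gs]
  | succ n =>
    rw [PowerSeries.coeff_C_mul, PowerSeries.coeff_succ_X_mul, gs, PowerSeries.coeff_mk,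
      PowerSeries.coeff_mk, PowerSeries.coeff_one, if_neg (Nat.succ_ne_zero _), pow_succ]
    ring

theorem gs_diff (a b : K) : PowerSeries.C (a - b) * PowerSeries.X * (gs a * gs b) = gs a - gs b := by
  have h1 := gs_mul a
  have h2 := gs_mul b
  rw [map_sub]
  linear_combination (- gs b) * h1 + gs a * h2

/-- the generating series -/
noncomputable def ES (S : Finset ι) : PowerSeries K :=
  ∏ i ∈ S, ((1 + PowerSeries.C (x i) * PowerSeries.X) * gs (x i))

theorem ES_eq {S : Finset ι} (hx : Set.InjOn x S) :
    ES x S = 1 + ∑ i ∈ S, PowerSeries.C (2 * cc x S i * x i) * PowerSeries.X * gs (x i) := by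
  induction S using Finset.induction_on with
  | empty => simp [ES]
  | insert b S hb ih =>
    have hx' : Set.InjOn x S := hx.mono (by simp)
    have hSb : ∀ i ∈ S, x i ≠ x b := fun i hi h => hb (by
      have := hx (Finset.mem_coe.mpr (Finset.mem_insert_of_mem hi)) (Finset.mem_coe.mpr (Finset.mem_insert_self _ _)) h
      rwa [this] at hi)
    have h0 := ih hx'
    rw [ES] at h0 ⊢
    rw [Finset.prod_insert hb, h0, Finset.sum_insert hb, cc_insert_self x hb,
      pf_eval x hx' (x b) hSb, mul_add, mul_one, Finset.mul_sum]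
    have e1 : (1 + PowerSeries.C (x b) * PowerSeries.X) * gs (x b) =
        1 + PowerSeries.C (2 * x b) * PowerSeries.X * gs (x b) := by
      have := gs_mul (x b)
      rw [map_mul, map_ofNat]
      linear_combination this
    have e2 : ∑ i ∈ S, (1 + PowerSeries.C (x b) * PowerSeries.X) * gs (x b) *
        (PowerSeries.C (2 * cc x S i * x i) * PowerSeries.X * gs (x i)) =
        PowerSeries.C (2 * (∑ i ∈ S, 2 * cc x S i * x i / (x b - x i)) * x b) * PowerSeries.X * gs (x b) +
        ∑ i ∈ S, PowerSeries.C (2 * cc x (insert b S) i * x i) * PowerSeries.X * gs (x i) := by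
      rw [Finset.mul_sum, Finset.sum_mul, map_sum, Finset.sum_mul, Finset.sum_mul,
        ← Finset.sum_add_distrib]
      refine Finset.sum_congr rfl fun i hi => ?_
      rw [e1, cc_insert x hb hi]
      have h3 : x b - x i ≠ 0 := sub_ne_zero.mpr (hSb i hi).symm
      have h4 : x i - x b ≠ 0 := sub_ne_zero.mpr (hSb i hi)
      have e3 : 2 * cc x S i * x i * (2 * x b) = (2 * (2 * cc x S i * x i / (x b - x i)) * x b) * (x b - x i) := by
        field_simp
      have e4 : 2 * (cc x S i * ((x i + x b) / (x i - x b))) * x i = 2 * cc x S i * x i -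
          (2 * (2 * cc x S i * x i / (x b - x i)) * x b) := by
        field_simp
        ring
      have h5 := gs_diff (x b) (x i)
      have e5 : (PowerSeries.C (2 * cc x S i * x i) * PowerSeries.C (2 * x b) : PowerSeries K) =
          PowerSeries.C (2 * (2 * cc x S i * x i / (x b - x i)) * x b) * PowerSeries.C (x b - x i) := by
        rw [← map_mul, ← map_mul, e3]
      rw [e4, map_sub]
      linear_combination (PowerSeries.X * PowerSeries.X * gs (x b) * gs (x i)) * e5 +
        (PowerSeries.C (2 * (2 * cc x S i * x i / (x b - x i)) * x b) * PowerSeries.X) * h5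
    rw [e2, e1, mul_add, add_mul, map_add]
    ring_nf

theorem coeff_ES [DecidableEq K] {S : Finset ι} (hx : Set.InjOn x S) (n : ℕ) :
    PowerSeries.coeff (n + 1) (ES x S) = ∑ i ∈ S, 2 * cc x S i * x i ^ (n + 1) := by
  rw [ES_eq x hx, map_add, map_sum, PowerSeries.coeff_one, if_neg (Nat.succ_ne_zero _), zero_add]
  refine Finset.sum_congr rfl fun i _ => ?_
  rw [mul_assoc, PowerSeries.coeff_C_mul, PowerSeries.coeff_succ_X_mul, gs, PowerSeries.coeff_mk,
    pow_succ]
  ring

/-- the odd part -/
noncomputable def os (a : K) : PowerSeries K := PowerSeries.C a * (gs a * gs (-a))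

theorem coeff_os [CharZero K] (a : K) (n : ℕ) :
    PowerSeries.coeff n (os a) = if Even n then a ^ (n + 1) else 0 := by
  have h := gs_diff a (-a)
  have h2 : PowerSeries.coeff (n + 1) (PowerSeries.C (2 : K) * PowerSeries.X * os a) =
      a ^ (n + 1) - (-a) ^ (n + 1) := by
    have e : PowerSeries.C (2 : K) * PowerSeries.X * os a = gs a - gs (-a) := by
      rw [← h, os, sub_neg_eq_add, ← two_mul, map_mul]; ring
    rw [e, map_sub, gs, gs, PowerSeries.coeff_mk, PowerSeries.coeff_mk]
  rw [mul_assoc, PowerSeries.coeff_C_mul, PowerSeries.coeff_succ_X_mul] at h2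
  have h3 : (2 : K) ≠ 0 := two_ne_zero
  refine mul_left_cancel₀ h3 ?_
  rw [h2]
  split_ifs with hn
  · rw [hn.add_one.neg_pow]; ring
  · rw [(Nat.not_even_iff_odd.mp hn).add_one.neg_pow]; ring

theorem deriv_gs (a : K) : PowerSeries.derivative (R := K) (gs a) = PowerSeries.C a * (gs a * gs a) := by
  have h := gs_mul a
  have h2 := congrArg (PowerSeries.derivative (R := K)) h
  rw [Derivation.leibniz, map_sub, Derivation.leibniz, PowerSeries.derivative_C,
    PowerSeries.derivative_X, Derivation.map_one_eq_zero] at h2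
  simp only [smul_eq_mul, mul_one, mul_zero, add_zero, zero_sub] at h2
  linear_combination (gs a) * h2 - (PowerSeries.derivative (R := K) (gs a)) * h

theorem deriv_ES (S : Finset ι) : PowerSeries.derivative (R := K) (ES x S) =
    ES x S * (2 * ∑ i ∈ S, os (x i)) := by
  induction S using Finset.induction_on with
  | empty => simp [ES]
  | insert b S hb ih =>
    rw [ES] at ih ⊢
    rw [Finset.prod_insert hb, Finset.sum_insert hb, Derivation.leibniz, ih, smul_eq_mul,
      smul_eq_mul]
    have h := gs_mul (x b)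
    have h' := gs_mul (-x b)
    have e1 : (1 + PowerSeries.C (x b) * PowerSeries.X) * gs (x b) = 2 * gs (x b) - 1 := by
      linear_combination -h
    have e2 : PowerSeries.derivative (R := K) ((1 + PowerSeries.C (x b) * PowerSeries.X) * gs (x b)) =
        2 * (PowerSeries.C (x b) * (gs (x b) * gs (x b))) := by
      rw [e1, map_sub, Derivation.map_one_eq_zero, sub_zero, two_mul, map_add, deriv_gs, two_mul]
    have e3 : (1 + PowerSeries.C (x b) * PowerSeries.X) * gs (x b) * (2 * os (x b)) =
        2 * (PowerSeries.C (x b) * (gs (x b) * gs (x b))) := by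
      rw [os]
      rw [map_neg] at h'
      linear_combination (2 * PowerSeries.C (x b) * gs (x b) * gs (x b)) * h'
    rw [e2]
    linear_combination (-(∏ i ∈ S, (1 + PowerSeries.C (x i) * PowerSeries.X) * gs (x i))) * e3

/-- the odd power sums -/
noncomputable def op (S : Finset ι) (j : ℕ) : K := ∑ i ∈ S, x i ^ (2 * j + 1)

theorem exists_Z [CharZero K] [CharZero k] (n : ℕ) : ∃ Z : MvPolynomial ℕ k, ∀ S : Finset ι,
    PowerSeries.coeff n (ES x S) = MvPolynomial.aeval (op x S) Z := by
  induction n using Nat.strong_induction_on with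
  | _ n ih =>
    cases n with
    | zero =>
      refine ⟨1, fun S => ?_⟩
      rw [map_one, ES, PowerSeries.coeff_zero_eq_constantCoeff_apply, map_prod]
      refine Finset.prod_eq_one fun i _ => ?_
      rw [map_mul, map_add, map_mul, PowerSeries.constantCoeff_X, mul_zero, add_zero,
        map_one, one_mul, gs, ← PowerSeries.coeff_zero_eq_constantCoeff_apply,
        PowerSeries.coeff_mk, pow_zero]
    | succ n =>
      choose! Z hZ using ih
      refine ⟨MvPolynomial.C (((n + 1 : ℕ) : k)⁻¹) * ∑ p ∈ Finset.HasAntidiagonal.antidiagonal n,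
        Z p.1 * (2 * if Even p.2 then MvPolynomial.X (p.2 / 2) else 0), fun S => ?_⟩
      have h := congrArg (PowerSeries.coeff n) (deriv_ES x S)
      rw [PowerSeries.coeff_derivative, PowerSeries.coeff_mul] at h
      rw [map_mul, map_sum, MvPolynomial.aeval_C]
      have h2 : ∑ p ∈ Finset.HasAntidiagonal.antidiagonal n, MvPolynomial.aeval (op x S)
          (Z p.1 * (2 * if Even p.2 then MvPolynomial.X (p.2 / 2) else 0)) =
          ∑ p ∈ Finset.HasAntidiagonal.antidiagonal n, PowerSeries.coeff p.1 (ES x S) *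
            PowerSeries.coeff p.2 (2 * ∑ i ∈ S, os (x i)) := by
        refine Finset.sum_congr rfl fun p hp => ?_
        have hp' : p.1 < n + 1 := by
          have := Finset.HasAntidiagonal.mem_antidiagonal.mp hp
          omega
        rw [map_mul, ← hZ p.1 hp' S]
        congr 1
        rw [map_mul, show (2 : PowerSeries K) = PowerSeries.C (2 : K) by rw [map_ofNat],
          PowerSeries.coeff_C_mul, map_ofNat, map_sum]
        congr 1
        by_cases he : Even p.2
        · rw [if_pos he, MvPolynomial.aeval_X, op]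
          refine Finset.sum_congr rfl fun i _ => ?_
          rw [coeff_os, if_pos he]
          congr 1
          obtain ⟨m, hm⟩ := he
          omega
        · rw [if_neg he, map_zero]
          symm
          refine Finset.sum_eq_zero fun i _ => ?_
          rw [coeff_os, if_neg he]
      rw [h2, ← h]
      have h3 : ((n + 1 : ℕ) : K) ≠ 0 := Nat.cast_ne_zero.mpr (Nat.succ_ne_zero n)
      rw [map_inv₀, map_natCast]
      push_cast at h3 ⊢
      field_simp

theorem exists_W [CharZero K] [CharZero k] (n : ℕ) : ∃ Z : MvPolynomial ℕ k, ∀ S : Finset ι,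
    Set.InjOn x S → ∑ i ∈ S, cc x S i * x i ^ (n + 1) = MvPolynomial.aeval (op x S) Z := by
  classical
  obtain ⟨Z, hZ⟩ := exists_Z (k := k) x (n + 1)
  refine ⟨MvPolynomial.C (2 : k)⁻¹ * Z, fun S hx => ?_⟩
  rw [map_mul, ← hZ S, coeff_ES x hx, MvPolynomial.aeval_C, Finset.mul_sum]
  refine Finset.sum_congr rfl fun i _ => ?_
  rw [map_inv₀, map_ofNat]
  have : (2 : K) ≠ 0 := two_ne_zero
  field_simp

/-- all power sums -/
noncomputable def ap (S : Finset ι) (j : ℕ) : K := ∑ i ∈ S, x i ^ (j + 1)

/-- the product of the sums of all pairs -/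
noncomputable def gg (S : Finset ι) : K := ∏ t ∈ S.powersetCard 2, ∑ i ∈ t, x i

theorem gg_insert {S : Finset ι} {b : ι} (hb : b ∉ S) :
    gg x (insert b S) = gg x S * ∏ j ∈ S, (x b + x j) := by
  rw [gg, Finset.powersetCard_succ_insert hb, Finset.prod_union, gg]
  · congr 1
    rw [Finset.prod_image]
    · rw [Finset.powersetCard_one, Finset.prod_map]
      refine Finset.prod_congr rfl fun j hj => ?_
      have hne : b ∉ ({j} : Finset ι) := by
        rw [Finset.mem_singleton]; rintro rfl; exact hb hj
      show ∑ i ∈ insert b {j}, x i = _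
      rw [Finset.sum_insert hne, Finset.sum_singleton]
    · intro t ht t' ht' h
      have h1 : b ∉ t := fun h => hb ((Finset.mem_powersetCard.mp ht).1 h)
      have h2 : b ∉ t' := fun h => hb ((Finset.mem_powersetCard.mp ht').1 h)
      rw [← Finset.erase_insert h1, h, Finset.erase_insert h2]
  · rw [Finset.disjoint_left]
    intro t ht ht'
    obtain ⟨u, hu, rfl⟩ := Finset.mem_image.mp ht'
    exact hb ((Finset.mem_powersetCard.mp ht).1 (Finset.mem_insert_self _ _))

theorem gg_erase {S : Finset ι} {i : ι} (hi : i ∈ S) :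
    gg x S = gg x (S.erase i) * ∏ j ∈ S.erase i, (x i + x j) := by
  conv_lhs => rw [← Finset.insert_erase hi]
  exact gg_insert x (Finset.notMem_erase i S)

theorem taylor (e : ℕ → ℕ) (c : k) (F : MvPolynomial ℕ k) :
    ∃ (m : ℕ) (F' : ℕ → MvPolynomial ℕ k), ∀ (a : ℕ → K) (z : K),
      MvPolynomial.aeval (fun j => a j + algebraMap k K c * z ^ e j) F =
        ∑ l ∈ Finset.range m, MvPolynomial.aeval a (F' l) * z ^ l := by
  let Θ : MvPolynomial ℕ k →ₐ[k] Polynomial (MvPolynomial ℕ k) :=
    MvPolynomial.aeval fun j => Polynomial.C (MvPolynomial.X j) +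
      Polynomial.C (MvPolynomial.C c) * Polynomial.X ^ e j
  refine ⟨(Θ F).natDegree + 1, (Θ F).coeff, fun a z => ?_⟩
  have h := Polynomial.eval₂_eq_sum_range (p := Θ F)
    (f := ((MvPolynomial.aeval a : MvPolynomial ℕ k →ₐ[k] K) : MvPolynomial ℕ k →+* K)) z
  have h2 : ((Polynomial.eval₂RingHom ((MvPolynomial.aeval a : MvPolynomial ℕ k →ₐ[k] K) :
      MvPolynomial ℕ k →+* K) z).comp (Θ : MvPolynomial ℕ k →+* Polynomial (MvPolynomial ℕ k))) =
      ((MvPolynomial.aeval (fun j => a j + algebraMap k K c * z ^ e j) :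
        MvPolynomial ℕ k →ₐ[k] K) : MvPolynomial ℕ k →+* K) := by
    apply MvPolynomial.ringHom_ext
    · intro r
      simp [Θ]
    · intro j
      simp [Θ]
  have h3 := congrArg (fun f : MvPolynomial ℕ k →+* K => f F) h2
  simp only [RingHom.comp_apply, Polynomial.coe_eval₂RingHom, RingHom.coe_coe] at h3
  rw [← h3, h]
  rfl

theorem op_erase {S : Finset ι} {i : ι} (hi : i ∈ S) :
    op x (S.erase i) = fun j => op x S j + algebraMap k K (-1) * x i ^ (2 * j + 1) := by
  funext j
  rw [op, op, ← Finset.add_sum_erase _ _ hi, map_neg, map_one]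
  ring

theorem ap_erase {S : Finset ι} {i : ι} (hi : i ∈ S) :
    ap x S = fun j => ap x (S.erase i) j + algebraMap k K 1 * x i ^ (j + 1) := by
  funext j
  rw [ap, ap, ← Finset.add_sum_erase _ _ hi, map_one]
  ring

theorem lagr {S : Finset ι} {N : ℕ} (hS : S.card = N + 1) (hx : Set.InjOn x S) :
    ∑ i ∈ S, x i ^ N / ∏ j ∈ S.erase i, (x i - x j) = 1 := by
  have h := Lagrange.leadingCoeff_eq_sum (P := (Polynomial.X ^ N : Polynomial K)) hx (by
    rw [hS, Polynomial.degree_X_pow]; rfl)
  rw [Polynomial.leadingCoeff_X_pow] at h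
  rw [h]
  refine Finset.sum_congr rfl fun i _ => ?_
  rw [Polynomial.eval_pow, Polynomial.eval_X]

theorem exists_sharp [CharZero K] [CharZero k] (N : ℕ) : ∀ F : MvPolynomial ℕ k,
    ∃ F' : MvPolynomial ℕ k, ∀ S : Finset ι, S.card = N + 1 → Set.InjOn x S →
      gg x S * MvPolynomial.aeval (ap x S) F = MvPolynomial.aeval (op x S) F' := by
  induction N with
  | zero =>
    intro F
    refine ⟨MvPolynomial.aeval (fun j => MvPolynomial.X 0 ^ (j + 1)) F, fun S hS _ => ?_⟩
    obtain ⟨i, rfl⟩ := Finset.card_eq_one.mp hS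
    have h1 : gg x {i} = 1 := by
      rw [gg, Finset.powersetCard_eq_empty.mpr (by simp)]
      simp
    rw [h1, one_mul, ← AlgHom.comp_apply]
    congr 1
    apply MvPolynomial.algHom_ext
    intro j
    simp [ap, op]
  | succ N ih =>
    intro F
    obtain ⟨m, F', hF'⟩ := taylor (k := k) (K := K) (fun j => j + 1) 1 F
    choose G hG using fun l => ih (F' l)
    choose m' G' hG' using fun l => taylor (k := k) (K := K) (fun j => 2 * j + 1) (-1) (G l)
    choose W hW using fun n => exists_W (k := k) x n
    refine ⟨∑ l ∈ Finset.range m, ∑ l' ∈ Finset.range (m' l), G' l l' * W (N + l + l'), ?_⟩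
    intro S hS hx
    have hl := lagr x hS hx
    have key : ∀ i ∈ S, x i ^ (N + 1) / (∏ j ∈ S.erase i, (x i - x j)) *
        (gg x S * MvPolynomial.aeval (ap x S) F) =
        ∑ l ∈ Finset.range m, ∑ l' ∈ Finset.range (m' l),
          MvPolynomial.aeval (op x S) (G' l l') * (cc x S i * x i ^ (N + l + l' + 1)) := by
      intro i hi
      have hx' : Set.InjOn x (S.erase i) := hx.mono (by simp)
      have hc : (S.erase i).card = N + 1 := by rw [Finset.card_erase_of_mem hi, hS]; rfl
      have e1 : x i ^ (N + 1) / (∏ j ∈ S.erase i, (x i - x j)) *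
          (gg x S * MvPolynomial.aeval (ap x S) F) =
          cc x S i * x i ^ (N + 1) * (gg x (S.erase i) * MvPolynomial.aeval (ap x S) F) := by
        rw [gg_erase x hi, cc, Finset.prod_div_distrib]
        ring
      rw [e1, ap_erase (k := k) x hi, hF', Finset.mul_sum, Finset.mul_sum]
      refine Finset.sum_congr rfl fun l _ => ?_
      rw [← mul_assoc (gg x (S.erase i)), hG l (S.erase i) hc hx', op_erase (k := k) x hi, hG',
        Finset.sum_mul, Finset.mul_sum]
      refine Finset.sum_congr rfl fun l' _ => ?_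
      ring
    calc gg x S * MvPolynomial.aeval (ap x S) F
        = (∑ i ∈ S, x i ^ (N + 1) / ∏ j ∈ S.erase i, (x i - x j)) *
          (gg x S * MvPolynomial.aeval (ap x S) F) := by rw [hl, one_mul]
      _ = ∑ i ∈ S, ∑ l ∈ Finset.range m, ∑ l' ∈ Finset.range (m' l),
          MvPolynomial.aeval (op x S) (G' l l') * (cc x S i * x i ^ (N + l + l' + 1)) := by
          rw [Finset.sum_mul]
          exact Finset.sum_congr rfl key
      _ = ∑ l ∈ Finset.range m, ∑ l' ∈ Finset.range (m' l), ∑ i ∈ S,
          MvPolynomial.aeval (op x S) (G' l l') * (cc x S i * x i ^ (N + l + l' + 1)) := by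
          rw [Finset.sum_comm]
          refine Finset.sum_congr rfl fun l _ => ?_
          rw [Finset.sum_comm]
      _ = _ := by
          rw [map_sum]
          refine Finset.sum_congr rfl fun l _ => ?_
          rw [map_sum]
          refine Finset.sum_congr rfl fun l' _ => ?_
          rw [map_mul, ← hW _ S hx, Finset.mul_sum]

end oddpow

end Pool.Agent.Helper392_GT
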