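import Pool.Agent.Helper392_GT.Dia

namespace Pool.Agent.Helper392_GT

open Polynomial

universe u v

attribute [local instance 100] LieRing.ofAssociativeRing

section P

variable {k : Type u} [CommRing k]

/-- The `(0,3)` entry formula. -/
def Entry (ψ : F2 k) (P : (P2 k)[X][X]) : Prop :=
  ∀ (K : Type u) [CommRing K] [Algebra k K] (A B : Matrix (Fin 4) (Fin 4) K), Dia A → Dia B →
    subst k A B ψ 0 3 =
      ev4 (A 0 0 - A 1 1) (B 0 0 - B 1 1) (A 0 0 - A 3 3) (B 0 0 - B 3 3) P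
        * (⁅A, B⁆ 0 1 * ⁅A, B⁆ 1 3)
      + ev4 (A 0 0 - A 2 2) (B 0 0 - B 2 2) (A 0 0 - A 3 3) (B 0 0 - B 3 3) P
        * (⁅A, B⁆ 0 2 * ⁅A, B⁆ 2 3)

theorem exists_P {ψ : F2 k} (hψ : ψ ∈ D2 k) :
    ∃ P : (P2 k)[X][X], (2 : k) • ψ - bt k P ∈ DN k ∧ Entry ψ P := by
  refine lie_ind (D1 k) (D1 k)
    (fun ψ => ∃ P : (P2 k)[X][X], (2 : k) • ψ - bt k P ∈ DN k ∧ Entry ψ P) ?_ ?_ ?_ ?_ hψ
  · refine ⟨0, ?_, ?_⟩
    · simp
    · intro K _ _ A B _ _
      simp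
  · rintro a b ⟨P, hP, eP⟩ ⟨Q, hQ, eQ⟩
    refine ⟨P + Q, ?_, ?_⟩
    · have : (2 : k) • (a + b) - bt k (P + Q) = ((2 : k) • a - bt k P) + ((2 : k) • b - bt k Q) := by
        rw [smul_add, map_add]; abel
      rw [this]
      exact (DN k).add_mem hP hQ
    · intro K _ _ A B hA hB
      rw [map_add, Matrix.add_apply, eP K A B hA hB, eQ K A B hA hB, map_add, map_add]
      ring
  · rintro c a ⟨P, hP, eP⟩
    refine ⟨c • P, ?_, ?_⟩
    · rw [smul_comm, map_smul, ← smul_sub]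
      exact (DN k).smul_mem _ hP
    · intro K _ _ A B hA hB
      rw [map_smul, Matrix.smul_apply, eP K A B hA hB, map_smul, map_smul, smul_add, smul_mul_assoc,
        smul_mul_assoc]
  · intro u hu w hw
    obtain ⟨f, hf⟩ := exists_gam hu
    obtain ⟨g, hg⟩ := exists_gam hw
    refine ⟨C (C f) * sg g - C (C g) * sg f, ?_, ?_⟩
    · have e : (2 : k) • ⁅u, w⁆ - bt k (C (C f) * sg g - C (C g) * sg f)
        = (2 : k) • (⁅u - gm k f, w⁆ + ⁅gm k f, w - gm k g⁆)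
          - (bt k (C (C f) * sg g) - ⁅gm k f, gm k g⁆)
          + (bt k (C (C g) * sg f) - ⁅gm k g, gm k f⁆) := by
        rw [map_sub, ← lie_skew (gm k g) (gm k f), sub_lie, lie_sub]
        simp only [smul_add, smul_sub, two_smul]
        abel
      rw [e]
      refine (DN k).add_mem ((DN k).sub_mem ((DN k).smul_mem _ ((DN k).add_mem ?_ ?_)) ?_) ?_
      · exact mem_DN' hf hw
      · exact mem_DN (gm_mem f) hg
      · exact key_bt f g
      · exact key_bt g f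
    · intro K _ _ A B hA hB
      have hu1 := dia_subst (k := k) hA hB u
      have hw1 := dia_subst (k := k) hA hB w
      obtain ⟨p0, p1, p2, p3⟩ := zd_D1 (k := k) hA hB hu
      obtain ⟨q0, q1, q2, q3⟩ := zd_D1 (k := k) hA hB hw
      obtain ⟨f0, f1, f2, f3⟩ := gm_entries (k := k) hA hB f
      obtain ⟨g0, g1, g2, g3⟩ := gm_entries (k := k) hA hB g
      obtain ⟨a0, a1, a2, a3⟩ := zo_D2 (k := k) hA hB hf
      obtain ⟨b0, b1, b2, b3⟩ := zo_D2 (k := k) hA hB hg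
      rw [map_sub, Matrix.sub_apply, sub_eq_zero] at a0 a1 a2 a3 b0 b1 b2 b3
      rw [LieHom.map_lie, Dia.lie03, p0, p3, q0, q3, a0, a1, a2, a3, b0, b1, b2, b3, f0, f1, f2, f3,
        g0, g1, g2, g3]
      simp only [map_sub, map_mul, ev4_CC, ev4_sg]
      have s1 : A 0 0 - A 3 3 - (A 0 0 - A 1 1) = A 1 1 - A 3 3 := by ring
      have s2 : B 0 0 - B 3 3 - (B 0 0 - B 1 1) = B 1 1 - B 3 3 := by ring
      have s3 : A 0 0 - A 3 3 - (A 0 0 - A 2 2) = A 2 2 - A 3 3 := by ring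
      have s4 : B 0 0 - B 3 3 - (B 0 0 - B 2 2) = B 2 2 - B 3 3 := by ring
      rw [s1, s2, s3, s4]
      ring

end P

section pent

variable {k : Type u} [CommRing k]

theorem map_subst {g h : Type*} [LieRing g] [LieAlgebra k g] [LieRing h] [LieAlgebra k h]
    (π : g →ₗ⁅k⁆ h) (a b : g) (ψ : F2 k) : π (subst k a b ψ) = subst k (π a) (π b) ψ := by
  have : π.comp (subst k a b) = subst k (π a) (π b) := by
    ext i
    fin_cases i <;> simp [subst]
  exact congrArg (fun f : F2 k →ₗ⁅k⁆ h => f ψ) this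

/-- the projection to `𝔱₄` -/
noncomputable def piT : FreeT k →ₗ⁅k⁆ T4 k :=
  { (t4Ideal k).toSubmodule.mkQ with
    map_lie' := fun {x y} => LieSubmodule.Quotient.mk_bracket (t4Ideal k) x y }

theorem pentagon_apply {ψ : F2 k} (hp : Pentagon k ψ) {g : Type*} [LieRing g] [LieAlgebra k g]
    (t : Fin 4 → Fin 4 → g) (h1 : ∀ i, t i i = 0) (h2 : ∀ i j, t i j = t j i)
    (h3 : ∀ i j l m, i ≠ j → i ≠ l → i ≠ m → j ≠ l → j ≠ m → l ≠ m → ⁅t i j, t l m⁆ = 0)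
    (h4 : ∀ i j l, i ≠ j → i ≠ l → j ≠ l → ⁅t i j, t i l + t j l⁆ = 0) :
    subst k (t 0 1) (t 1 2 + t 1 3) ψ + subst k (t 0 2 + t 1 2) (t 2 3) ψ
      = subst k (t 1 2) (t 2 3) ψ + subst k (t 0 1 + t 0 2) (t 1 3 + t 2 3) ψ
        + subst k (t 0 1) (t 1 2) ψ := by
  let φ : FreeT k →ₗ⁅k⁆ g := FreeLieAlgebra.lift k (fun p => t p.1 p.2)
  have hφ : ∀ i j, φ (tt k i j) = t i j := by
    intro i j
    simp [φ, tt]
  have hker : t4Ideal k ≤ φ.ker := by
    rw [t4Ideal, LieSubmodule.lieSpan_le]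
    rintro r (⟨i, rfl⟩ | ⟨i, j, rfl⟩ | ⟨i, j, l, m, a1, a2, a3, a4, a5, a6, rfl⟩ |
      ⟨i, j, l, a1, a2, a3, rfl⟩)
    · simp [hφ, h1]
    · simp [hφ, h2 i j]
    · simp [hφ, h3 i j l m a1 a2 a3 a4 a5 a6]
    · have := h4 i j l a1 a2 a3
      simp only [lie_add] at this
      simp [hφ, this]
  let e : FreeT k := subst k (tt k 0 1) (tt k 1 2 + tt k 1 3) ψ
    + subst k (tt k 0 2 + tt k 1 2) (tt k 2 3) ψ
    - (subst k (tt k 1 2) (tt k 2 3) ψ
    + subst k (tt k 0 1 + tt k 0 2) (tt k 1 3 + tt k 2 3) ψ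
    + subst k (tt k 0 1) (tt k 1 2) ψ)
  have he : piT e = 0 := by
    have ht : ∀ i j, piT (tt k i j) = T4.t k i j := fun _ _ => rfl
    simp only [e, map_sub, map_add, map_subst, ht]
    rw [sub_eq_zero]
    exact hp
  have he2 : e ∈ t4Ideal k := by
    have : (LieSubmodule.Quotient.mk e : T4 k) = 0 := he
    rwa [LieSubmodule.Quotient.mk_eq_zero'] at this
  have he3 : φ e = 0 := by
    have := hker he2
    rwa [LieHom.mem_ker] at this
  simp only [e, map_sub, map_add, map_subst, hφ] at he3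
  rw [sub_eq_zero] at he3
  exact he3

end pent

end Pool.Agent.Helper392_GT
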