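import Pool.Agent.Helper392_GT.Span

namespace Pool.Agent.Helper392_GT

open Polynomial

universe u v

set_option linter.unusedSimpArgs false
set_option linter.unusedVariables false

attribute [local instance 100] LieRing.ofAssociativeRing

section R1

variable {k : Type u} [CommRing k] {K : Type u} [CommRing K] [Algebra k K]

/-- on a tensor product of two two-dimensional representations, `L''` acts by zero -/
theorem D2_square {ψ : F2 k} (hψ : ψ ∈ D2 k) (a b s t : K) :
    subst k (mkM 0 (-a) (-(s - a)) (-s) 0 0 0 0 0) (mkM 0 (-b) (-(t - b)) (-t) 1 1 1 1 0) ψ 0 3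
      = 0 := by
  have hA := mkM_dia (0 : K) (-a) (-(s - a)) (-s) 0 0 0 0 0
  have hB := mkM_dia (0 : K) (-b) (-(t - b)) (-t) 1 1 1 1 0
  refine lie_ind (D1 k) (D1 k) (fun ψ => subst k (mkM (0 : K) (-a) (-(s - a)) (-s) 0 0 0 0 0)
    (mkM 0 (-b) (-(t - b)) (-t) 1 1 1 1 0) ψ 0 3 = 0) ?_ ?_ ?_ ?_ hψ
  · simp
  · intro u v hu hv
    rw [map_add, Matrix.add_apply, hu, hv, add_zero]
  · intro c u hu
    rw [map_smul, Matrix.smul_apply, hu, smul_zero]
  · intro u hu w hw
    obtain ⟨f, hf⟩ := exists_gam hu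
    obtain ⟨g, hg⟩ := exists_gam hw
    obtain ⟨p0, p1, p2, p3⟩ := zd_D1 (k := k) hA hB hu
    obtain ⟨q0, q1, q2, q3⟩ := zd_D1 (k := k) hA hB hw
    obtain ⟨f0, f1, f2, f3⟩ := gm_entries (k := k) hA hB f
    obtain ⟨g0, g1, g2, g3⟩ := gm_entries (k := k) hA hB g
    obtain ⟨a0, a1, a2, a3⟩ := zo_D2 (k := k) hA hB hf
    obtain ⟨b0, b1, b2, b3⟩ := zo_D2 (k := k) hA hB hg
    rw [map_sub, Matrix.sub_apply, sub_eq_zero] at a0 a1 a2 a3 b0 b1 b2 b3
    rw [LieHom.map_lie, Dia.lie03, p0, p3, q0, q3, a0, a1, a2, a3, b0, b1, b2, b3, f0, f1, f2, f3,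
      g0, g1, g2, g3, mkM_lie]
    simp only [mkM_00, mkM_01, mkM_02, mkM_03, mkM_11, mkM_13, mkM_22, mkM_23, mkM_33]
    have s1 : (0 : K) - -a = a := by ring
    have s2 : (0 : K) - -b = b := by ring
    have s3 : -a - -s = s - a := by ring
    have s4 : -b - -t = t - b := by ring
    have s5 : (0 : K) - -(s - a) = s - a := by ring
    have s6 : (0 : K) - -(t - b) = t - b := by ring
    have s7 : -(s - a) - -s = a := by ring
    have s8 : -(t - b) - -t = b := by ring
    rw [s1, s2, s3, s4, s5, s6, s7, s8]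
    ring

/-- antisymmetry in the two rows -/
theorem relR1 {ψ : F2 k} (hψ : ψ ∈ D2 k) {P : (P2 k)[X][X]} (hE : Entry ψ P) (a b s t : K) :
    a * (s - a) * (ev4 (s - a) (t - b) s t P + ev4 a b s t P) = 0 := by
  have h := D2_square (K := K) hψ a b s t
  rw [entry_mk hE] at h
  have s1 : (0 : K) - -a = a := by ring
  have s2 : (0 : K) - -b = b := by ring
  have s3 : -a - -s = s - a := by ring
  have s4 : -b - -t = t - b := by ring
  have s5 : (0 : K) - -(s - a) = s - a := by ring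
  have s6 : (0 : K) - -(t - b) = t - b := by ring
  have s7 : -(s - a) - -s = a := by ring
  have s8 : -(t - b) - -t = b := by ring
  have s9 : (0 : K) - -s = s := by ring
  have s10 : (0 : K) - -t = t := by ring
  simp only [s1, s2, s3, s4, s5, s6, s7, s8, s9, s10] at h
  linear_combination h

theorem ev4_nat {K' : Type u} [CommRing K'] [Algebra k K'] (φ : K →ₐ[k] K') (a b s t : K)
    (P : (P2 k)[X][X]) : φ (ev4 a b s t P) = ev4 (φ a) (φ b) (φ s) (φ t) P := by
  have n2 : ∀ f : P2 k, φ (ev2 a b f) = ev2 (φ a) (φ b) f := by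
    intro f
    have : φ.comp (ev2 (k := k) a b) = ev2 (φ a) (φ b) := by
      apply P2_hom_ext <;> simp
    exact congrArg (fun h : P2 k →ₐ[k] K' => h f) this
  refine poly_ind (fun P => φ (ev4 a b s t P) = ev4 (φ a) (φ b) (φ s) (φ t) P) ?_ ?_ ?_ P
  · intro p q hp hq
    rw [map_add, map_add, map_add, hp, hq]
  · intro q
    refine poly_ind (fun q => φ (ev4 a b s t (C q)) = ev4 (φ a) (φ b) (φ s) (φ t) (C q)) ?_ ?_ ?_ q
    · intro p q hp hq
      rw [C_add, map_add, map_add, map_add, hp, hq]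
    · intro f
      rw [ev4_CC, ev4_CC, n2]
    · intro p hp
      rw [C_mul, map_mul, map_mul, map_mul, hp, ev4_CX, ev4_CX]
  · intro p hp
    rw [map_mul, map_mul, map_mul, hp, ev4_X, ev4_X]

theorem ev4_t0 (a b s : K) (P : (P2 k)[X][X]) :
    ev4 a b s 0 P = ev4 a b s 0 (C (P.coeff 0)) := by
  refine poly_ind (fun P => ev4 (k := k) a b s 0 P = ev4 a b s 0 (C (P.coeff 0))) ?_ ?_ ?_ P
  · intro p q hp hq
    rw [map_add, hp, hq, coeff_add, C_add, map_add]
  · intro q
    rw [coeff_C_zero]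
  · intro p _
    rw [map_mul, ev4_X, zero_mul, coeff_X_mul_zero, C_0, map_zero]

theorem ev4_00 (a b : K) (q : (P2 k)[X]) : ev4 (k := k) a b 0 0 (C q) = ev2 a b (q.coeff 0) := by
  refine poly_ind (fun q => ev4 (k := k) a b 0 0 (C q) = ev2 a b (q.coeff 0)) ?_ ?_ ?_ q
  · intro p q hp hq
    rw [C_add, map_add, hp, hq, coeff_add, map_add]
  · intro f
    rw [ev4_CC, coeff_C_zero]
  · intro p hp
    rw [C_mul, map_mul, ev4_CX, zero_mul, coeff_X_mul_zero, map_zero]

/-- evaluation at `X = 0` -/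
noncomputable def at0 : (P2 k)[X] →ₐ[k] P2 k := (aeval (R := P2 k) (0 : P2 k)).restrictScalars k

theorem at0_apply (p : (P2 k)[X]) : at0 p = p.coeff 0 := by
  rw [coeff_zero_eq_aeval_zero]; rfl

/-- the linear coefficient -/
theorem ev4_lin (P : (P2 k)[X][X]) (h0 : cf P 0 0 = 0) (a b : (P2 k)[X]) :
    (ev4 (k := k) a b X 0 P).coeff 1 = ev2 (a.coeff 0) (b.coeff 0) (cf P 1 0) := by
  rw [ev4_t0]
  obtain ⟨R, hR⟩ : ∃ R, P.coeff 0 = X * R := X_dvd_iff.mpr h0
  have h1 : cf P 1 0 = R.coeff 0 := by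
    rw [cf, hR, show (1 : ℕ) = 0 + 1 from rfl, coeff_X_mul]
  rw [hR, C_mul, map_mul, ev4_CX, show (1 : ℕ) = 0 + 1 from rfl, coeff_X_mul, ← at0_apply, ev4_nat,
    at0_apply, at0_apply, at0_apply, coeff_X_zero, map_zero, ev4_00, h1]

end R1

section Q

variable {k : Type u} [Field k]

/-- The coefficient `q`: `P = (X + Y) q + …`. -/
theorem q_props {ψ : F2 k} (hp : Pentagon k ψ) (hψ : ψ ∈ D2 k) {P : (P2 k)[X][X]}
    (hE : Entry ψ P) (hd : DepthGE k 2 ψ) :
    cf P 0 0 = 0 ∧ cf P 0 1 = cf P 1 0 ∧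
    (∀ a b : P2 k, b * ev2 a b (cf P 1 0) = - ev4 a 0 (-b) 0 P) ∧
    ev2 (-px) (-py) (cf P 1 0) = - cf P 1 0 ∧
    ev2 py px (cf P 1 0) = - cf P 1 0 ∧ ev2 pz py (cf P 1 0) = - cf P 1 0 := by
  have h1 : ψ ∈ D1 k := D2_le_D1 hψ
  have hpx : (px : P2 k) ≠ 0 := px_ne
  have hpy : (py : P2 k) ≠ 0 := py_ne
  have c00 : cf P 0 0 = 0 := order_of_depth (m := 0) hp h1 hE hd 0 0 (by omega)
  have hT : (X : (P2 k)[X]) ≠ 0 := X_ne_zero
  have hsub : ∀ c : P2 k, c ≠ 0 → (X - C c : (P2 k)[X]) ≠ 0 := fun c _ => X_sub_C_ne_zero c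
  -- relB
  have c01 : cf P 0 1 = cf P 1 0 := by
    have h0 := relB hp h1 hE (C px : (P2 k)[X]) (C py) X
    have h2 : ev4 (C px : (P2 k)[X]) (C py) X (-X) P = 0 := by
      refine (mul_eq_zero.mp h0).resolve_left ?_
      refine mul_ne_zero (mul_ne_zero (mul_ne_zero ?_ ?_) hT) ?_
      · simpa using hpx
      · intro h
        have := congrArg (fun p => coeff p 0) h
        simp at this
        exact hpy this
      · rw [← C_add, Ne, C_eq_zero]; exact sum_ne
    have h3 := (ev4_anti P).2.1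
    rw [h2, coeff_zero] at h3
    exact (sub_eq_zero.mp h3.symm).symm
  -- relation D
  have hii : py * cf P 1 0 = - ev4 px 0 (-py) 0 P := by
    have h2 := relD (K := (P2 k)[X]) hp h1 hE (C px) (C py) X 0 (by simpa using hpx)
      (by simpa using hpy) (hsub _ hpx) (by
        intro h
        have := congrArg (fun p => coeff p 1) h
        simp [coeff_C] at this)
    rw [sub_zero, add_zero, ev4_s0] at h2
    have h3 := congrArg (fun p => coeff p 1) h2
    simp only [coeff_add, coeff_C_mul, coeff_zero] at h3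
    rw [show (1 : ℕ) = 0 + 1 from rfl, coeff_X_mul, ← at0_apply, ev4_nat] at h3
    simp only [map_neg, map_zero, at0_apply, coeff_C_zero, coeff_X_zero, neg_zero] at h3
    have h4 : cf P 1 0 = (P.coeff 0).coeff (0 + 1) := rfl
    rw [h4]
    linear_combination h3
  have hii' : ∀ a b : P2 k, b * ev2 a b (cf P 1 0) = - ev4 a 0 (-b) 0 P := by
    intro a b
    have := congrArg (ev2 a b : P2 k →ₐ[k] P2 k) hii
    rw [map_mul, map_neg, ev4_nat, ev2_py, map_neg, ev2_px, ev2_py, map_zero] at this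
    exact this
  have hR : ∀ (K : Type u) [CommRing K] [IsDomain K] [Algebra k K] (a b s t : K), a ≠ 0 →
      s - a ≠ 0 → ev4 (s - a) (t - b) s t P = - ev4 a b s t P := by
    intro K _ _ _ a b s t ha hs
    exact eq_neg_of_add_eq_zero_left
      ((mul_eq_zero.mp (relR1 hψ hE a b s t)).resolve_left (mul_ne_zero ha hs))
  have hiii : ev2 (-px) (-py) (cf P 1 0) = - cf P 1 0 := by
    have h2 := hR (P2 k)[X] (C px) (C py) X 0 (by simpa using hpx) (hsub _ hpx)
    have h3 := congrArg (fun p => coeff p 1) h2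
    simp only [coeff_neg] at h3
    rw [ev4_lin P c00, ev4_lin P c00] at h3
    simp only [coeff_sub, coeff_X_zero, coeff_C_zero, zero_sub, coeff_zero, ev2_id, coeff_neg] at h3
    exact h3
  have hiv : ev2 py px (cf P 1 0) = - cf P 1 0 := by
    have h0 := relC1 hp h1 hE (C py : (P2 k)[X]) (C px) X 0
    have h2 := (mul_eq_zero.mp h0).resolve_left (mul_ne_zero (by simpa using hpy) (hsub _ hpy))
    have h3 := congrArg (fun p => coeff p 1) h2
    simp only [coeff_add, coeff_zero] at h3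
    rw [ev4_0t, ev4_lin P c00, coeff_C_zero, coeff_C_zero] at h3
    have h4 : cf P 0 1 = (P.coeff 1).coeff 0 := rfl
    rw [← h4, c01] at h3
    linear_combination h3
  have hv : ev2 pz py (cf P 1 0) = - cf P 1 0 := by
    have h2 := hR (P2 k) px 0 (-py) 0 hpx (by
      intro h
      apply sum_ne (k := k)
      linear_combination -h)
    have e1 : (-py - px : P2 k) = pz := e_yxz
    rw [e1, sub_zero] at h2
    have h3 := hii' pz py
    have h4 : (py : P2 k) * (ev2 pz py (cf P 1 0) + cf P 1 0) = 0 := by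
      linear_combination h3 - h2 + hii
    have h5 := (mul_eq_zero.mp h4).resolve_left hpy
    exact eq_neg_of_add_eq_zero_left h5
  exact ⟨c00, c01, hii', hiii, hiv, hv⟩

end Q

end Pool.Agent.Helper392_GT
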