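import Pool.Agent.Helper392_GT.Lead

namespace Pool.Agent.Helper392_GT

open Polynomial

universe u v

set_option linter.unusedSimpArgs false
set_option linter.unusedVariables false

attribute [local instance 100] LieRing.ofAssociativeRing

section qsym

variable {k : Type u} [Field k]

/-- exchange of the first two rows -/
noncomputable def rr : K0 k →ₐ[k] K0 k := ev4 (vs - vx) (vt - vy) vs vt
/-- exchange of the first two columns -/
noncomputable def kk : K0 k →ₐ[k] K0 k := ev4 vy vx vt vs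
/-- exchange of the first and the third column -/
noncomputable def rho : K0 k →ₐ[k] K0 k := ev4 (-vx - vy) vy (-vs - vt) vt

theorem vx_ne : (vx : K0 k) ≠ 0 := by
  rw [Ne, C_eq_zero, C_eq_zero]; exact px_ne
theorem vy_ne : (vy : K0 k) ≠ 0 := by
  rw [Ne, C_eq_zero, C_eq_zero]; exact py_ne
theorem vs_ne : (vs : K0 k) ≠ 0 := by
  rw [Ne, C_eq_zero]; exact X_ne_zero
theorem vt_add_ne (a : (P2 k)[X]) : (vt + C a : K0 k) ≠ 0 := X_add_C_ne_zero a
theorem vt_sub_ne (a : (P2 k)[X]) : (vt - C a : K0 k) ≠ 0 := X_sub_C_ne_zero a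
theorem vs_sub_vx_ne : (vs - vx : K0 k) ≠ 0 := by
  rw [← C_sub, Ne, C_eq_zero]; exact X_sub_C_ne_zero px
theorem vs_add_vy_ne : (vs + vy : K0 k) ≠ 0 := by
  rw [← C_add, Ne, C_eq_zero]; exact X_add_C_ne_zero py

theorem ts_ne : (vt + vs : K0 k) ≠ 0 := vt_add_ne X

theorem exists_Q {ψ : F2 k} (hp : Pentagon k ψ) (hψ : ψ ∈ D2 k) {P : K0 k} (hE : Entry ψ P) :
    ∃ Q : K0 k, P = (vt + vs) * Q ∧ rr Q = -Q ∧ kk Q = -Q ∧ rho Q = -Q := by
  have h1 : ψ ∈ D1 k := D2_le_D1 hψ
  -- vanishing for `X + Y = 0`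
  have hB : ev4 (k := k) (vx : K0 k) vy vt (-vt) P = 0 := by
    have h0 := relB (K := K0 k) hp h1 hE vx vy vt
    refine (mul_eq_zero.mp h0).resolve_left ?_
    refine mul_ne_zero (mul_ne_zero (mul_ne_zero vx_ne ?_) X_ne_zero) ?_
    · rw [add_comm]; exact vt_add_ne _
    · rw [← C_add, ← C_add, Ne, C_eq_zero, C_eq_zero]; exact sum_ne
  have hdvd : (vt + vs : K0 k) ∣ P := by
    have e : (vt + vs : K0 k) = X - C (-X) := by rw [C_neg, sub_neg_eq_add]
    rw [e, dvd_iff_isRoot, IsRoot.def]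
    let φ : K0 k →ₐ[k] (P2 k)[X] := ev4 (C px) (C py) X (-X)
    let φ' : K0 k →ₐ[k] (P2 k)[X] :=
      ((aeval (R := (P2 k)[X]) (-X : (P2 k)[X])).restrictScalars k)
    have e1 : φ' = φ := by
      apply K0_hom_ext <;> simp [φ, φ']
    have e2 : P.eval (-X) = φ P := by
      rw [← e1]
      simp [φ', coe_aeval_eq_eval]
    rw [e2]
    have e3 := congrArg (ev4 (k := k) (C px : (P2 k)[X]) (C py) X X) hB
    rw [ev4_comp, map_zero] at e3
    simpa using e3
  obtain ⟨Q, hQ⟩ := hdvd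
  have hts := ts_ne (k := k)
  refine ⟨Q, hQ, ?_⟩
  -- row exchange
  have hR : rr Q = -Q := by
    have h0 := relR1 (K := K0 k) hψ hE vx vy vs vt
    have h2 := (mul_eq_zero.mp h0).resolve_left (mul_ne_zero vx_ne vs_sub_vx_ne)
    rw [ev4_id, hQ, map_mul, map_add, ev4_vt, ev4_vs] at h2
    have h3 : (vt + vs) * (rr Q + Q) = 0 := by
      rw [rr]; linear_combination h2
    exact eq_neg_of_add_eq_zero_left ((mul_eq_zero.mp h3).resolve_left hts)
  have hK : kk Q = -Q := by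
    have h0 := relC1 (K := K0 k) hp h1 hE vx vy vs vt
    have h2 := (mul_eq_zero.mp h0).resolve_left (mul_ne_zero vx_ne vs_sub_vx_ne)
    rw [ev4_id, hQ, map_mul, map_add, ev4_vt, ev4_vs] at h2
    have h3 : (vt + vs) * (kk Q + Q) = 0 := by
      rw [kk]; linear_combination h2
    exact eq_neg_of_add_eq_zero_left ((mul_eq_zero.mp h3).resolve_left hts)
  have hD : ev4 (k := k) (vx : K0 k) (-vs) (-vy) vt Q = Q := by
    have h0 := relD (K := K0 k) hp h1 hE vx vy vs vt vx_ne vy_ne vs_sub_vx_ne vs_add_vy_ne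
    rw [ev4_id, hQ, map_mul, map_add, ev4_vt, ev4_vs] at h0
    have h3 : ((vt + vs) * (vt - vy)) * (ev4 (k := k) (vx : K0 k) (-vs) (-vy) vt Q - Q) = 0 := by
      linear_combination h0
    exact sub_eq_zero.mp ((mul_eq_zero.mp h3).resolve_left (mul_ne_zero hts (vt_sub_ne _)))
  refine ⟨hR, hK, ?_⟩
  -- general versions
  have hD' : ∀ a b s t : K0 k, ev4 a (-s) (-b) t Q = ev4 a b s t Q := by
    intro a b s t
    have := congrArg (ev4 (k := k) a b s t) hD
    rw [ev4_comp] at this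
    simpa using this
  have hR' : ∀ a b s t : K0 k, ev4 (s - a) (t - b) s t Q = -ev4 a b s t Q := by
    intro a b s t
    have := congrArg (ev4 (k := k) a b s t) hR
    rw [rr, ev4_comp, map_neg] at this
    simpa using this
  have c1 := hD' (vx : K0 k) vy vs vt
  have c2 := hR' (vx : K0 k) (-vs) (-vy) vt
  have c3 := hD' (-vy - vx : K0 k) (vt - -vs) (-vy) vt
  rw [ev4_id] at c1
  rw [c1] at c2
  rw [c2] at c3
  rw [rho, ← c3]
  congr 1
  congr 1
  · ring
  · ring
  · ring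

end qsym

end Pool.Agent.Helper392_GT
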