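import Pool.Agent.Helper392_GT.Wt

namespace Pool.Agent.Helper392_GT

open Polynomial

universe u v

set_option linter.unusedSimpArgs false
set_option linter.unusedVariables false

attribute [local instance 100] LieRing.ofAssociativeRing

section ent

variable {k : Type u} [CommRing k]

theorem Entry.zero : Entry (0 : F2 k) 0 := by
  intro K _ _ A B _ _
  simp

theorem Entry.add {a b : F2 k} {P Q : K0 k} (eP : Entry a P) (eQ : Entry b Q) :
    Entry (a + b) (P + Q) := by
  intro K _ _ A B hA hB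
  rw [map_add, Matrix.add_apply, eP K A B hA hB, eQ K A B hA hB, map_add, map_add]
  ring

theorem Entry.smul {a : F2 k} {P : K0 k} (c : k) (eP : Entry a P) : Entry (c • a) (c • P) := by
  intro K _ _ A B hA hB
  rw [map_smul, Matrix.smul_apply, eP K A B hA hB, map_smul, map_smul, smul_add, smul_mul_assoc,
    smul_mul_assoc]

theorem Entry.sub {a b : F2 k} {P Q : K0 k} (eP : Entry a P) (eQ : Entry b Q) :
    Entry (a - b) (P - Q) := by
  have h := eP.add (eQ.smul (-1))
  rw [neg_one_smul, neg_one_smul, ← sub_eq_add_neg, ← sub_eq_add_neg] at h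
  exact h

/-- the divided symbol -/
def Rel (ψ : F2 k) (Q : K0 k) : Prop := Entry ψ ((vt + vs) * Q)

theorem Rel.zero : Rel (0 : F2 k) 0 := by
  rw [Rel, mul_zero]; exact Entry.zero

theorem Rel.add {a b : F2 k} {P Q : K0 k} (eP : Rel a P) (eQ : Rel b Q) :
    Rel (a + b) (P + Q) := by
  rw [Rel, mul_add]; exact Entry.add eP eQ

theorem Rel.sub {a b : F2 k} {P Q : K0 k} (eP : Rel a P) (eQ : Rel b Q) :
    Rel (a - b) (P - Q) := by
  rw [Rel, mul_sub]; exact Entry.sub eP eQ

theorem Rel.smul {a : F2 k} {P : K0 k} (c : k) (eP : Rel a P) : Rel (c • a) (c • P) := by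
  rw [Rel, mul_smul_comm]; exact Entry.smul c eP

end ent

section uniq

variable {k : Type u} [Field k]

theorem entry_gen {ψ : F2 k} {P : K0 k} (hE : Entry ψ P) :
    subst k (mkM (0 : K0 k) (-vx) 0 (-vs) 0 0 0 0 0) (mkM 0 (-vy) 0 (-vt) 1 0 1 0 0) ψ 0 3
      = P * (vx * (vs - vx)) := by
  rw [entry_mk hE]
  have e1 : (0 : K0 k) - -vx = vx := by ring
  have e2 : (0 : K0 k) - -vy = vy := by ring
  have e3 : (0 : K0 k) - -vs = vs := by ring
  have e4 : (0 : K0 k) - -vt = vt := by ring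
  rw [e1, e2, e3, e4, ev4_id]
  ring

theorem Entry.unique {ψ : F2 k} {P P' : K0 k} (h : Entry ψ P) (h' : Entry ψ P') : P = P' := by
  have h1 := entry_gen h
  rw [entry_gen h'] at h1
  exact (mul_right_cancel₀ (mul_ne_zero vx_ne vs_sub_vx_ne) h1).symm

theorem Rel.unique {ψ : F2 k} {Q Q' : K0 k} (h : Rel ψ Q) (h' : Rel ψ Q') : Q = Q' :=
  mul_left_cancel₀ ts_ne (Entry.unique h h')

theorem entry_scale {K : Type u} [CommRing K] [IsDomain K] [Algebra k K] {ψ : F2 k} {P : K0 k}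
    (hE : Entry ψ P) {n : ℕ} (hn : ψ ∈ wt k n) (c a b s t : K) (ha : a ≠ 0) (hs : s - a ≠ 0) :
    c ^ 4 * ev4 (c * a) (c * b) (c * s) (c * t) P = c ^ n * ev4 a b s t P := by
  have h := wt_scale (K := K) hn c
    (mkM (0 : K) (-a) 0 (-s) 0 0 0 0 0) (mkM 0 (-b) 0 (-t) 1 0 1 0 0)
  rw [mkM_smul, mkM_smul] at h
  have h2 := congrFun (congrFun h 0) 3
  rw [Matrix.smul_apply, entry_mk hE, entry_mk hE] at h2
  simp only [mul_zero, mul_one, zero_sub, mul_neg, neg_neg, smul_eq_mul, sub_zero, zero_mul,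
    add_zero, sub_self] at h2
  refine mul_right_cancel₀ (mul_ne_zero ha hs) ?_
  linear_combination h2

theorem rel_scale {K : Type u} [CommRing K] [IsDomain K] [Algebra k K] {ψ : F2 k} {Q : K0 k}
    (hE : Rel ψ Q) {n : ℕ} (hn : ψ ∈ wt k n) (c a b s t : K) (ha : a ≠ 0) (hs : s - a ≠ 0)
    (hts : t + s ≠ 0) :
    c ^ 5 * ev4 (c * a) (c * b) (c * s) (c * t) Q = c ^ n * ev4 a b s t Q := by
  have h := entry_scale hE hn c a b s t ha hs
  rw [map_mul, map_mul, map_add, map_add, ev4_vt, ev4_vs, ev4_vt, ev4_vs] at h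
  refine mul_right_cancel₀ hts ?_
  linear_combination h

instance : IsDomain (R4 k) := inferInstanceAs (IsDomain (K0 k))

/-- generic points -/
theorem exists_push {K : Type u} [CommRing K] [Algebra k K] (a b s t c : K) :
    ∃ φ : (R4 k)[X] →ₐ[k] K, (∀ z : K0 k, φ (C (e4 z)) = ev4 a b s t z) ∧ φ X = c := by
  refine ⟨eval₂AlgHom ((ev4 (k := k) a b s t).comp (e4 (k := k)).symm.toAlgHom) c
    (fun _ => Commute.all _ _), ?_, ?_⟩
  · intro z; simp
  · simp

/-- homogeneity -/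
def Hm (e n : ℕ) (Q : K0 k) : Prop :=
  ∀ (K : Type u) [CommRing K] [Algebra k K] (c a b s t : K),
    c ^ e * ev4 (c * a) (c * b) (c * s) (c * t) Q = c ^ n * ev4 a b s t Q

theorem e4_ne {z : K0 k} (h : z ≠ 0) : e4 z ≠ 0 := by
  intro h'; exact h ((map_eq_zero_iff (e4 (k := k)) (e4 (k := k)).injective).mp h')

theorem rel_Hm {ψ : F2 k} {Q : K0 k} (hE : Rel ψ Q) {n : ℕ} (hn : ψ ∈ wt k n) : Hm 5 n Q := by
  intro K _ _ c a b s t
  have h := rel_scale (K := (R4 k)[X]) hE hn X (C (e4 vx)) (C (e4 vy)) (C (e4 vs)) (C (e4 vt))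
    (C_ne_zero.mpr (e4_ne vx_ne))
    (by rw [← C_sub, ← map_sub]; exact C_ne_zero.mpr (e4_ne vs_sub_vx_ne))
    (by rw [← C_add, ← map_add]; exact C_ne_zero.mpr (e4_ne ts_ne))
  obtain ⟨φ, h1, h5⟩ := exists_push (k := k) a b s t c
  have h6 := congrArg φ h
  rw [map_mul, map_mul, map_pow, map_pow, h5, ev4_comp, ev4_comp, map_mul, map_mul, map_mul,
    map_mul, h5, h1, h1, h1, h1, ev4_vx, ev4_vy, ev4_vs, ev4_vt] at h6
  exact h6

end uniq

section grt

variable {k : Type u} [CommRing k]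

theorem Pentagon.zero : Pentagon k (0 : F2 k) := by
  simp [Pentagon]

theorem Pentagon.add' {ψ φ : F2 k} (h1 : Pentagon k ψ) (h2 : Pentagon k φ) :
    Pentagon k (ψ + φ) := by
  unfold Pentagon at *
  simp only [map_add]
  have e : ∀ a b c d e a' b' c' d' e' : T4 k, a + b = c + d + e → a' + b' = c' + d' + e' →
      a + a' + (b + b') = c + c' + (d + d') + (e + e') := by
    intro a b c d e a' b' c' d' e' h h'
    have : a + a' + (b + b') = (a + b) + (a' + b') := by abel
    rw [this, h, h']; abel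
  exact e _ _ _ _ _ _ _ _ _ _ h1 h2

theorem Pentagon.smul' {ψ : F2 k} (c : k) (h1 : Pentagon k ψ) : Pentagon k (c • ψ) := by
  unfold Pentagon at *
  simp only [map_smul]
  rw [← smul_add, h1, smul_add, smul_add]

theorem IsGRT.zero : IsGRT k (0 : F2 k) := ⟨by simp, by simp, Pentagon.zero⟩

theorem IsGRT.add {a b : F2 k} (ha : IsGRT k a) (hb : IsGRT k b) : IsGRT k (a + b) := by
  refine ⟨?_, ?_, ha.pent.add' hb.pent⟩
  · rw [map_add, ha.anti, hb.anti, neg_add]
  · have h1 := ha.hexa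
    have h2 := hb.hexa
    rw [map_add, map_add, map_add]
    have : ∀ p q r p' q' r' : F2 k, p + q + r = 0 → p' + q' + r' = 0 →
        p + p' + (q + q') + (r + r') = 0 := by
      intro p q r p' q' r' h h'
      have : p + p' + (q + q') + (r + r') = (p + q + r) + (p' + q' + r') := by abel
      rw [this, h, h', add_zero]
    exact this _ _ _ _ _ _ h1 h2

theorem IsGRT.smul {a : F2 k} (c : k) (ha : IsGRT k a) : IsGRT k (c • a) := by
  refine ⟨?_, ?_, ha.pent.smul' c⟩
  · rw [map_smul, ha.anti, smul_neg]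
  · rw [map_smul, map_smul, map_smul, ← smul_add, ← smul_add, ha.hexa, smul_zero]

theorem IsGRT.sub {a b : F2 k} (ha : IsGRT k a) (hb : IsGRT k b) : IsGRT k (a - b) := by
  have := ha.add (hb.smul (-1))
  rwa [neg_one_smul, ← sub_eq_add_neg] at this

end grt

end Pool.Agent.Helper392_GT
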