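import Pool.Agent.Helper392_GT.Five

namespace Pool.Agent.Helper392_GT

open Polynomial

universe u v

set_option linter.unusedSimpArgs false
set_option linter.unusedVariables false

attribute [local instance 100] LieRing.ofAssociativeRing

section mk

variable {K : Type v} [CommRing K]

/-- diagonal `a b c d`; entries `01 = e`, `02 = f`, `13 = g`, `23 = h`, `03 = i` -/
def mkM (a b c d e f g h i : K) : Matrix (Fin 4) (Fin 4) K :=
  !![a, e, f, i; 0, b, 0, g; 0, 0, c, h; 0, 0, 0, d]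

variable (a b c d e f g h i : K)

@[simp] theorem mkM_00 : mkM a b c d e f g h i 0 0 = a := rfl
@[simp] theorem mkM_01 : mkM a b c d e f g h i 0 1 = e := rfl
@[simp] theorem mkM_02 : mkM a b c d e f g h i 0 2 = f := rfl
@[simp] theorem mkM_03 : mkM a b c d e f g h i 0 3 = i := rfl
@[simp] theorem mkM_11 : mkM a b c d e f g h i 1 1 = b := rfl
@[simp] theorem mkM_13 : mkM a b c d e f g h i 1 3 = g := rfl
@[simp] theorem mkM_22 : mkM a b c d e f g h i 2 2 = c := rfl
@[simp] theorem mkM_23 : mkM a b c d e f g h i 2 3 = h := rfl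
@[simp] theorem mkM_33 : mkM a b c d e f g h i 3 3 = d := rfl

theorem mkM_dia : Dia (mkM a b c d e f g h i) := ⟨rfl, rfl, rfl, rfl, rfl, rfl, rfl⟩

/-- a diamond matrix is determined by its entries -/
theorem dia_ext {A B : Matrix (Fin 4) (Fin 4) K} (hA : Dia A) (hB : Dia B)
    (h00 : A 0 0 = B 0 0) (h11 : A 1 1 = B 1 1) (h22 : A 2 2 = B 2 2) (h33 : A 3 3 = B 3 3)
    (h01 : A 0 1 = B 0 1) (h02 : A 0 2 = B 0 2) (h13 : A 1 3 = B 1 3) (h23 : A 2 3 = B 2 3)
    (h03 : A 0 3 = B 0 3) : A = B := by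
  ext i j
  fin_cases i <;> fin_cases j
  · exact h00
  · exact h01
  · exact h02
  · exact h03
  · exact hA.h10.trans hB.h10.symm
  · exact h11
  · exact hA.h12.trans hB.h12.symm
  · exact h13
  · exact hA.h20.trans hB.h20.symm
  · exact hA.h21.trans hB.h21.symm
  · exact h22
  · exact h23
  · exact hA.h30.trans hB.h30.symm
  · exact hA.h31.trans hB.h31.symm
  · exact hA.h32.trans hB.h32.symm
  · exact h33

theorem mkM_lie (a' b' c' d' e' f' g' h' i' : K) :
    ⁅mkM a b c d e f g h i, mkM a' b' c' d' e' f' g' h' i'⁆ =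
      mkM 0 0 0 0 ((a - b) * e' - (a' - b') * e) ((a - c) * f' - (a' - c') * f)
        ((b - d) * g' - (b' - d') * g) ((c - d) * h' - (c' - d') * h)
        ((a - d) * i' - (a' - d') * i + (e * g' - e' * g) + (f * h' - f' * h)) := by
  have hA := mkM_dia a b c d e f g h i
  have hB := mkM_dia a' b' c' d' e' f' g' h' i'
  apply dia_ext (hA.lie hB) (mkM_dia _ _ _ _ _ _ _ _ _)
  · rw [hA.lie00 hB]; simp
  · rw [hA.lie11 hB]; simp
  · rw [hA.lie22 hB]; simp
  · rw [hA.lie33 hB]; simp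
  · rw [hA.lie01 hB]; simp
  · rw [hA.lie02 hB]; simp
  · rw [hA.lie13 hB]; simp
  · rw [hA.lie23 hB]; simp
  · rw [Dia.lie03]; simp

theorem mkM_zero : mkM (0 : K) 0 0 0 0 0 0 0 0 = 0 := by
  apply dia_ext (mkM_dia _ _ _ _ _ _ _ _ _) Dia.zero <;> rfl

theorem mkM_add (a' b' c' d' e' f' g' h' i' : K) :
    mkM a b c d e f g h i + mkM a' b' c' d' e' f' g' h' i' =
      mkM (a + a') (b + b') (c + c') (d + d') (e + e') (f + f') (g + g') (h + h') (i + i') := by
  apply dia_ext ((mkM_dia _ _ _ _ _ _ _ _ _).add (mkM_dia _ _ _ _ _ _ _ _ _))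
    (mkM_dia _ _ _ _ _ _ _ _ _) <;> rfl

theorem mkM_smul (s : K) :
    s • mkM a b c d e f g h i =
      mkM (s * a) (s * b) (s * c) (s * d) (s * e) (s * f) (s * g) (s * h) (s * i) := by
  apply dia_ext ((mkM_dia _ _ _ _ _ _ _ _ _).smul s) (mkM_dia _ _ _ _ _ _ _ _ _) <;> rfl

theorem mkM_eq_zero (h1 : a = 0) (h2 : b = 0) (h3 : c = 0) (h4 : d = 0) (h5 : e = 0) (h6 : f = 0)
    (h7 : g = 0) (h8 : h = 0) (h9 : i = 0) : mkM a b c d e f g h i = 0 := by
  subst h1 h2 h3 h4 h5 h6 h7 h8 h9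
  exact mkM_zero

end mk

section reps

variable {k : Type u} [CommRing k] {K : Type u} [CommRing K] [Algebra k K]

theorem entry_mk {ψ : F2 k} {P : (P2 k)[X][X]} (hE : Entry ψ P)
    (a b c d e f g h i a' b' c' d' e' f' g' h' i' : K) :
    subst k (mkM a b c d e f g h i) (mkM a' b' c' d' e' f' g' h' i') ψ 0 3 =
      ev4 (a - b) (a' - b') (a - d) (a' - d') P
        * (((a - b) * e' - (a' - b') * e) * ((b - d) * g' - (b' - d') * g))
      + ev4 (a - c) (a' - c') (a - d) (a' - d') P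
        * (((a - c) * f' - (a' - c') * f) * ((c - d) * h' - (c' - d') * h)) := by
  rw [hE K _ _ (mkM_dia _ _ _ _ _ _ _ _ _) (mkM_dia _ _ _ _ _ _ _ _ _), mkM_lie]
  simp only [mkM_00, mkM_01, mkM_02, mkM_03, mkM_11, mkM_13, mkM_22, mkM_23, mkM_33]

/-- first representation: the quarter-turn relation -/
theorem relA {ψ : F2 k} (hp : Pentagon k ψ) (hψ : ψ ∈ D1 k) {P : (P2 k)[X][X]} (hE : Entry ψ P)
    (a b T : K) :
    (a - T) * (b * ev4 a b T 0 P + T * ev4 (T - a) (-T) b 0 P) = 0 := by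
  have h := five hp hψ
    (mkM (0 : K) (-b) (a - T) (-b) 0 0 0 (-1) 0)
    (mkM 0 (-a) 0 (-T) 1 0 0 0 0)
    (mkM 0 (-b) 0 0 0 0 1 0 0)
    (mkM 0 0 (a - T) (a - T) 0 0 0 0 0)
    (mkM 0 0 T 0 0 1 0 0 0)
    (by rw [mkM_lie]; apply mkM_eq_zero <;> ring)
    (by rw [mkM_lie]; apply mkM_eq_zero <;> ring)
    (by rw [mkM_lie]; apply mkM_eq_zero <;> ring)
    (by rw [mkM_lie]; apply mkM_eq_zero <;> ring)
    (by rw [mkM_lie]; apply mkM_eq_zero <;> ring)
    (by rw [mkM_lie, mkM_lie, mkM_lie, mkM_lie, mkM_lie, mkM_add, mkM_add, mkM_add, mkM_add]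
        apply mkM_eq_zero <;> ring)
  have h2 := congrFun (congrFun h 0) 3
  simp only [Matrix.add_apply, entry_mk hE] at h2
  have e1 : (0 : K) - (a - T) = T - a := by ring
  have e2 : (0 : K) - -b = b := by ring
  have e3 : (0 : K) - -a = a := by ring
  have e4 : (0 : K) - -T = T := by ring
  have e5 : (0 : K) - T = -T := by ring
  have e6 : (0 : K) - 0 = 0 := by ring
  simp only [e1, e2, e3, e4, e5, e6] at h2
  linear_combination (-1 : K) * h2

/-- second representation: vanishing on `X + Y = 0` -/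
theorem relB {ψ : F2 k} (hp : Pentagon k ψ) (hψ : ψ ∈ D1 k) {P : (P2 k)[X][X]} (hE : Entry ψ P)
    (a b T : K) :
    a * (b + T) * T * (a + b) * ev4 a b T (-T) P = 0 := by
  have h := five hp hψ
    (mkM (0 : K) 0 (-T) 0 0 0 0 0 0)
    (mkM 0 (-a) 0 (-a) 0 0 0 ((T + b) * a) a)
    (mkM 0 (-b) 0 T 1 0 0 0 0)
    (mkM 0 (-a) (-T) (-T) 0 0 (-T * (a + b)) 0 T)
    (mkM 0 0 (T + b) (T + b) 0 1 0 0 0)
    (by rw [mkM_lie]; apply mkM_eq_zero <;> ring)
    (by rw [mkM_lie]; apply mkM_eq_zero <;> ring)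
    (by rw [mkM_lie]; apply mkM_eq_zero <;> ring)
    (by rw [mkM_lie]; apply mkM_eq_zero <;> ring)
    (by rw [mkM_lie]; apply mkM_eq_zero <;> ring)
    (by rw [mkM_lie, mkM_lie, mkM_lie, mkM_lie, mkM_lie, mkM_add, mkM_add, mkM_add, mkM_add]
        apply mkM_eq_zero <;> ring)
  have h2 := congrFun (congrFun h 0) 3
  simp only [Matrix.add_apply, entry_mk hE] at h2
  have e2 : (0 : K) - -b = b := by ring
  have e3 : (0 : K) - -a = a := by ring
  have e4 : (0 : K) - -T = T := by ring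
  have e5 : (0 : K) - T = -T := by ring
  have e6 : (0 : K) - 0 = 0 := by ring
  simp only [e2, e3, e4, e5, e6] at h2
  linear_combination (-1 : K) * h2

/-- symmetry under exchange of the two columns -/
theorem relC1 {ψ : F2 k} (hp : Pentagon k ψ) (hψ : ψ ∈ D1 k) {P : (P2 k)[X][X]} (hE : Entry ψ P)
    (a b s t : K) :
    a * (s - a) * (ev4 b a t s P + ev4 a b s t P) = 0 := by
  have h := antisymm hp hψ (mkM (0 : K) (-a) 0 (-s) 0 0 0 0 0) (mkM 0 (-b) 0 (-t) 1 0 1 0 0)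
  have h2 := congrFun (congrFun h 0) 3
  simp only [Matrix.neg_apply, entry_mk hE] at h2
  have e1 : ∀ c : K, (0 : K) - -c = c := fun c => by ring
  simp only [e1] at h2
  linear_combination h2

end reps

end Pool.Agent.Helper392_GT
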