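import Pool.Agent.Helper392_GT.Depth1

namespace Pool.Agent.Helper392_GT

open Polynomial

universe u v

set_option linter.unusedSimpArgs false
set_option linter.unusedVariables false

section alt

variable {k : Type u} [Field k]

/-- the third variable `-x - y` -/
noncomputable def pz : P2 k := -px - py

theorem ev2_pz {K : Type v} [CommRing K] [Algebra k K] (a b : K) : ev2 a b (pz : P2 k) = -a - b := by
  simp [pz]

theorem ev2_id (F : P2 k) : ev2 px py F = F := by
  have : ev2 (px : P2 k) py = AlgHom.id k (P2 k) := by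
    apply P2_hom_ext <;> simp
  rw [this]; rfl

theorem ev2_ev2 {K : Type u} [CommRing K] [Algebra k K] (a b : K) (c d F : P2 k) :
    ev2 a b (ev2 c d F) = ev2 (ev2 a b c) (ev2 a b d) F := ev2_nat (ev2 a b) c d F

/-- alternating sum over the permutations of `x, y, -x-y` -/
noncomputable def alt : P2 k →ₗ[k] P2 k :=
  LinearMap.id - (ev2 py px : P2 k →ₐ[k] P2 k).toLinearMap + (ev2 py pz).toLinearMap
    - (ev2 pz py).toLinearMap + (ev2 pz px).toLinearMap - (ev2 px pz).toLinearMap

theorem alt_apply (F : P2 k) : alt F = F - ev2 py px F + ev2 py pz F - ev2 pz py F + ev2 pz px F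
    - ev2 px pz F := rfl

theorem e_xyz : (-px - py : P2 k) = pz := rfl
theorem e_yxz : (-py - px : P2 k) = pz := by rw [pz]; ring
theorem e_zyx : (-pz - py : P2 k) = px := by rw [pz]; ring
theorem e_yzx : (-py - pz : P2 k) = px := by rw [pz]; ring
theorem e_zxy : (-pz - px : P2 k) = py := by rw [pz]; ring
theorem e_xzy : (-px - pz : P2 k) = py := by rw [pz]; ring

theorem alt_swap (F : P2 k) : alt (ev2 py px F) = - alt F := by
  simp only [alt_apply, ev2_ev2, ev2_px, ev2_py, ev2_pz, ev2_id, e_xyz, e_yxz, e_zyx, e_yzx, e_zxy,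
    e_xzy]
  ring

theorem alt_cyc (F : P2 k) : alt (ev2 py pz F) = alt F := by
  simp only [alt_apply, ev2_ev2, ev2_px, ev2_py, ev2_pz, ev2_id, e_xyz, e_yxz, e_zyx, e_yzx, e_zxy,
    e_xzy]
  ring

theorem alt_of_alternating {G : P2 k} (h1 : ev2 py px G = -G) (h2 : ev2 pz py G = -G) :
    alt G = 6 * G := by
  have e3 : ev2 py pz G = G := by
    have := congrArg (ev2 pz py : P2 k →ₐ[k] P2 k) h1
    simp only [ev2_ev2, ev2_px, ev2_py, map_neg, h2, neg_neg] at this
    exact this
  have e4 : ev2 pz px G = G := by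
    have := congrArg (ev2 py px : P2 k →ₐ[k] P2 k) h2
    simp only [ev2_ev2, ev2_px, ev2_py, ev2_pz, map_neg, h1, neg_neg, e_yxz] at this
    exact this
  have e5 : ev2 px pz G = -G := by
    have := congrArg (ev2 pz py : P2 k →ₐ[k] P2 k) e4
    simp only [ev2_ev2, ev2_px, ev2_py, ev2_pz, map_neg, h2, neg_neg, e_zyx] at this
    exact this
  rw [alt_apply, h1, h2, e3, e4, e5]
  ring

/-- the span of the elements `alt (x^(2i) y^(2j))`, `i, j ≥ 1` -/
noncomputable def Sp (k : Type u) [Field k] : Submodule k (P2 k) :=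
  Submodule.span k {G | ∃ i j : ℕ, 1 ≤ i ∧ 1 ≤ j ∧ G = alt (px ^ (2 * i) * py ^ (2 * j))}

theorem alt_mem (i j : ℕ) : alt (px ^ (2 * i) * py ^ (2 * j) : P2 k) ∈ Sp k := by
  rcases Nat.eq_zero_or_pos i with rfl | hi
  · have : alt (px ^ (2 * 0) * py ^ (2 * j) : P2 k) = 0 := by
      rw [alt_apply]
      simp only [mul_zero, pow_zero, one_mul, map_pow, ev2_py]
      ring
    rw [this]; exact Submodule.zero_mem _
  rcases Nat.eq_zero_or_pos j with rfl | hj
  · have : alt (px ^ (2 * i) * py ^ (2 * 0) : P2 k) = 0 := by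
      rw [alt_apply]
      simp only [mul_zero, pow_zero, mul_one, map_pow, ev2_px]
      ring
    rw [this]; exact Submodule.zero_mem _
  exact Submodule.subset_span ⟨i, j, hi, hj, rfl⟩

theorem phi_step {w : ℕ} (hw : Even w) (l : P2 k →ₗ[k] k) (hl : Sp k ≤ LinearMap.ker l) (s : k) :
    l (alt ((algebraMap k (P2 k) s * px + py) ^ w)) =
      l (alt ((algebraMap k (P2 k) (s - 1) * px + py) ^ w)) := by
  obtain ⟨c, hc⟩ : ∃ c : P2 k, c = algebraMap k (P2 k) (s - 1) := ⟨_, rfl⟩
  have hs : algebraMap k (P2 k) s = c + 1 := by rw [hc, map_sub, map_one]; ring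
  -- (a)
  have ha : alt ((algebraMap k (P2 k) s * px + py) ^ w) = alt ((px - c * py) ^ w : P2 k) := by
    rw [← alt_cyc]
    have : ev2 py pz ((algebraMap k (P2 k) s * px + py) ^ w) = (px - c * py) ^ w := by
      rw [map_pow, map_add, map_mul, AlgHom.commutes, ev2_px, ev2_py, hs, ← hw.neg_pow, pz]
      congr 1
      ring
    rw [this]
  have hb : l (alt ((px - c * py) ^ w)) + l (alt ((px + c * py) ^ w)) = 0 := by
    rw [← map_add, ← map_add]
    have : (px - c * py) ^ w + (px + c * py) ^ w ∈
        Submodule.span k {F : P2 k | ∃ i j : ℕ, F = px ^ (2 * i) * py ^ (2 * j)} := by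
      rw [sub_eq_add_neg, add_pow, add_pow, ← Finset.sum_add_distrib]
      refine Submodule.sum_mem _ fun m hm => ?_
      rcases Nat.even_or_odd (w - m) with he | ho
      · have hmw : m ≤ w := by
          rw [Finset.mem_range] at hm; omega
        have hem : Even m := by
          obtain ⟨a, ha⟩ := hw
          obtain ⟨b, hb⟩ := he
          exact ⟨a - b, by omega⟩
        obtain ⟨i, hi⟩ := hem
        obtain ⟨j, hj⟩ := he
        have e : px ^ m * (-(c * py)) ^ (w - m) * ((w.choose m : ℕ) : P2 k)
            + px ^ m * (c * py) ^ (w - m) * ((w.choose m : ℕ) : P2 k) =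
            (2 * (s - 1) ^ (w - m) * (w.choose m : k)) • (px ^ (2 * i) * py ^ (2 * j)) := by
          rw [Algebra.smul_def, map_mul, map_mul, map_pow, ← hc, map_natCast, map_ofNat]
          rw [Even.neg_pow ⟨j, hj⟩, mul_pow, show 2 * i = m by omega, show 2 * j = w - m by omega]
          ring
        rw [e]
        exact Submodule.smul_mem _ _ (Submodule.subset_span ⟨i, j, rfl⟩)
      · rw [Odd.neg_pow ho]
        have : px ^ m * -(c * py) ^ (w - m) * ((w.choose m : ℕ) : P2 k)
            + px ^ m * (c * py) ^ (w - m) * ((w.choose m : ℕ) : P2 k) = 0 := by ring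
        rw [this]
        exact Submodule.zero_mem _
    have h2 : ∀ F : P2 k, F ∈ Submodule.span k {F : P2 k | ∃ i j : ℕ, F = px ^ (2 * i) * py ^ (2 * j)} →
        l (alt F) = 0 := by
      intro F hF
      induction hF using Submodule.span_induction with
      | mem x hx =>
        obtain ⟨i, j, rfl⟩ := hx
        exact hl (alt_mem i j)
      | zero => simp
      | add a b _ _ ha hb => rw [map_add, map_add, ha, hb, add_zero]
      | smul r a _ ha => rw [map_smul, map_smul, ha, smul_zero]
    exact h2 _ this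
  have hc' : alt ((px + c * py) ^ w : P2 k) = - alt ((c * px + py) ^ w) := by
    rw [← alt_swap]
    have : ev2 py px ((c * px + py) ^ w) = (px + c * py) ^ w := by
      rw [map_pow, map_add, map_mul, ev2_px, ev2_py, hc, AlgHom.commutes, add_comm]
    rw [this]
  rw [ha, ← hc]
  rw [hc', map_neg] at hb
  linear_combination hb

theorem alt_mono_mem [CharZero k] {w : ℕ} (hw : Even w) (i : ℕ) (hi : i ≤ w) :
    alt (px ^ i * py ^ (w - i) : P2 k) ∈ Sp k := by
  by_contra hn
  obtain ⟨l, hl1, hl2⟩ := Submodule.exists_le_ker_of_notMem hn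
  have h0 : ∀ n : ℕ, l (alt ((algebraMap k (P2 k) n * px + py) ^ w)) = 0 := by
    intro n
    induction n with
    | zero =>
      have : (algebraMap k (P2 k) ((0 : ℕ) : k) * px + py) ^ w = px ^ (2 * 0) * py ^ (2 * (w / 2)) := by
        rw [Nat.cast_zero, map_zero, zero_mul, zero_add, mul_zero, pow_zero, one_mul,
          Nat.two_mul_div_two_of_even hw]
      rw [this]
      exact hl2 (alt_mem _ _)
    | succ n ih =>
      rw [phi_step hw l hl2]
      have : ((n + 1 : ℕ) : k) - 1 = n := by push_cast; ring
      rw [this]; exact ih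
  let p : k[X] := ∑ m ∈ Finset.range (w + 1), monomial m ((w.choose m : k) * l (alt (px ^ m * py ^ (w - m))))
  have hp : ∀ n : ℕ, p.eval (n : k) = 0 := by
    intro n
    rw [← h0 n, add_pow, map_sum, map_sum, eval_finsetSum]
    refine Finset.sum_congr rfl fun m _ => ?_
    rw [eval_monomial]
    have : (algebraMap k (P2 k) n * px) ^ m * py ^ (w - m) * ((w.choose m : ℕ) : P2 k) =
        ((w.choose m : k) * (n : k) ^ m) • (px ^ m * py ^ (w - m)) := by
      rw [Algebra.smul_def, map_mul, map_pow, map_natCast, map_natCast]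
      ring
    rw [this, map_smul, map_smul, smul_eq_mul]
    ring
  have hp0 : p = 0 := by
    apply Polynomial.eq_zero_of_infinite_isRoot
    have hinj : Function.Injective (fun n : ℕ => (n : k)) := Nat.cast_injective
    refine (Set.infinite_range_of_injective hinj).mono ?_
    rintro _ ⟨n, rfl⟩
    exact hp n
  have h1 := congrArg (fun q => coeff q i) hp0
  simp only [p, finsetSum_coeff, coeff_monomial, coeff_zero] at h1
  rw [Finset.sum_ite_eq' , if_pos (Finset.mem_range.mpr (by omega))] at h1
  rcases mul_eq_zero.mp h1 with h | h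
  · have : ((w.choose i : ℕ) : k) ≠ 0 := by
      exact_mod_cast (Nat.choose_pos hi).ne'
    exact this h
  · exact hl1 h

theorem mono_span (F : P2 k) :
    F ∈ Submodule.span k {F : P2 k | ∃ i j : ℕ, F = px ^ i * py ^ j} := by
  refine P2_ind (fun F => F ∈ Submodule.span k {F : P2 k | ∃ i j : ℕ, F = px ^ i * py ^ j})
    ?_ ?_ ?_ ?_ F
  · intro p q hp hq
    exact Submodule.add_mem _ hp hq
  · intro a
    rw [Algebra.algebraMap_eq_smul_one]
    exact Submodule.smul_mem _ _ (Submodule.subset_span ⟨0, 0, by simp⟩)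
  · intro p hp
    induction hp using Submodule.span_induction with
    | mem x hx =>
      obtain ⟨i, j, rfl⟩ := hx
      exact Submodule.subset_span ⟨i + 1, j, by ring⟩
    | zero => simp
    | add a b _ _ ha hb => rw [mul_add]; exact Submodule.add_mem _ ha hb
    | smul r a _ ha => rw [mul_smul_comm]; exact Submodule.smul_mem _ _ ha
  · intro p hp
    induction hp using Submodule.span_induction with
    | mem x hx =>
      obtain ⟨i, j, rfl⟩ := hx
      exact Submodule.subset_span ⟨i, j + 1, by ring⟩
    | zero => simp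
    | add a b _ _ ha hb => rw [mul_add]; exact Submodule.add_mem _ ha hb
    | smul r a _ ha => rw [mul_smul_comm]; exact Submodule.smul_mem _ _ ha

/-- Every even alternating polynomial is in the span of the `alt (x^(2i) y^(2j))`. -/
theorem mem_Sp [CharZero k] {G : P2 k} (h1 : ev2 py px G = -G) (h2 : ev2 pz py G = -G)
    (h3 : ev2 (-px) (-py) G = G) : G ∈ Sp k := by
  have hall : ∀ F : P2 k, alt (F + ev2 (-px) (-py) F) ∈ Sp k := by
    intro F
    induction mono_span F using Submodule.span_induction with
    | mem x hx =>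
      obtain ⟨i, j, rfl⟩ := hx
      have e : (px ^ i * py ^ j : P2 k) + ev2 (-px : P2 k) (-py) (px ^ i * py ^ j : P2 k) =
          (1 + (-1) ^ (i + j) : k) • (px ^ i * py ^ j) := by
        rw [map_mul, map_pow, map_pow, ev2_px, ev2_py, neg_pow (px : P2 k), neg_pow (py : P2 k), Algebra.smul_def,
          map_add, map_one, map_pow, map_neg, map_one, pow_add]
        ring
      rw [e, map_smul]
      rcases Nat.even_or_odd (i + j) with he | ho
      · have := alt_mono_mem (k := k) he i (by omega)
        rw [Nat.add_sub_cancel_left] at this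
        exact Submodule.smul_mem _ _ this
      · rw [ho.neg_one_pow]; simp
    | zero => simp
    | add a b _ _ ha hb =>
      have : a + b + ev2 (-px) (-py) (a + b) =
        (a + ev2 (-px) (-py) a) + (b + ev2 (-px) (-py) b) := by rw [map_add]; ring
      rw [this, map_add]; exact Submodule.add_mem _ ha hb
    | smul r a _ ha =>
      rw [map_smul, ← smul_add, map_smul]; exact Submodule.smul_mem _ _ ha
  have h4 := hall G
  rw [h3, map_add, alt_of_alternating h1 h2] at h4
  have h5 : (6 * G + 6 * G : P2 k) = (12 : k) • G := by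
    rw [Algebra.smul_def, map_ofNat]; ring
  rw [h5] at h4
  have h6 := Submodule.smul_mem _ (12 : k)⁻¹ h4
  rwa [smul_smul, inv_mul_cancel₀ (by norm_num), one_smul] at h6

end alt

end Pool.Agent.Helper392_GT
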