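import Pool.Agent.Helper392_GT.Defs

namespace Pool.Agent.Helper392_GT

open Polynomial

universe u

attribute [local instance 100] LieRing.ofAssociativeRing

section general

variable {k : Type u} [CommRing k]

theorem free_mem (S : LieSubalgebra k (F2 k)) (hx : FreeLieAlgebra.of k 0 ∈ S)
    (hy : FreeLieAlgebra.of k 1 ∈ S) (u : F2 k) : u ∈ S := by
  let f : Fin 2 → S := ![⟨_, hx⟩, ⟨_, hy⟩]
  let φ : F2 k →ₗ⁅k⁆ S := FreeLieAlgebra.lift k f
  have h : S.incl.comp φ = (LieHom.id : F2 k →ₗ⁅k⁆ F2 k) := by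
    ext i
    fin_cases i <;> simp [φ, f]
  have h2 := congrArg (fun g : F2 k →ₗ⁅k⁆ F2 k => g u) h
  simp only [LieHom.comp_apply, LieHom.coe_id, id_eq] at h2
  rw [← h2]
  exact (φ u).2

/-- induction over the free Lie algebra -/
theorem free_ind (Q : F2 k → Prop) (h0 : Q 0) (hadd : ∀ a b, Q a → Q b → Q (a + b))
    (hsmul : ∀ (c : k) a, Q a → Q (c • a)) (hlie : ∀ a b, Q a → Q b → Q ⁅a, b⁆)
    (hx : Q (FreeLieAlgebra.of k 0)) (hy : Q (FreeLieAlgebra.of k 1)) (u : F2 k) : Q u := by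
  let S : LieSubalgebra k (F2 k) :=
    { carrier := {u | Q u}
      zero_mem' := h0
      add_mem' := fun {a b} ha hb => hadd a b ha hb
      smul_mem' := fun c {a} ha => hsmul c a ha
      lie_mem' := fun {a b} ha hb => hlie a b ha hb }
  exact free_mem S hx hy u

theorem lie_ind {L : Type*} [LieRing L] [LieAlgebra k L] (I J : LieIdeal k L) (Q : L → Prop)
    (h0 : Q 0) (hadd : ∀ a b, Q a → Q b → Q (a + b)) (hsmul : ∀ (c : k) a, Q a → Q (c • a))
    (hlie : ∀ a ∈ I, ∀ b ∈ J, Q ⁅a, b⁆) {u : L} (hu : u ∈ ⁅I, J⁆) : Q u := by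
  have h := hu
  rw [← LieSubmodule.mem_toSubmodule, LieSubmodule.lieIdeal_oper_eq_linear_span'] at h
  clear hu
  induction h using Submodule.span_induction with
  | mem x hx =>
    obtain ⟨a, ha, b, hb, rfl⟩ := hx
    exact hlie a ha b hb
  | zero => exact h0
  | add a b _ _ ha hb => exact hadd a b ha hb
  | smul c a _ ha => exact hsmul c a ha

end general

section pext

variable {k : Type u} [CommRing k] {A : Type*} [CommRing A] [Algebra k A]
  {M : Type*} [AddCommGroup M] [Module k M]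

theorem poly_ind (Q : A[X] → Prop) (hadd : ∀ p q, Q p → Q q → Q (p + q))
    (hC : ∀ a, Q (C a)) (hX : ∀ p, Q p → Q (X * p)) (p : A[X]) : Q p := by
  induction p using Polynomial.induction_on' with
  | add p q hp hq => exact hadd p q hp hq
  | monomial n a =>
    induction n with
    | zero => simpa using hC a
    | succ n ih =>
      rw [← Polynomial.X_mul_monomial]
      exact hX _ ih

/-- extension of a linear map `φ : A → M` to `A[X]`, with `X` acting through `T` -/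
noncomputable def pext (T : Module.End k M) (φ : A →ₗ[k] M) : A[X] →ₗ[k] M where
  toFun q := q.sum fun i a => (T ^ i) (φ a)
  map_add' p q := Polynomial.sum_add_index _ _ _ (by simp) (by simp)
  map_smul' c p := by
    rw [Polynomial.sum_smul_index' _ _ _ (by simp)]
    simp only [map_smul, RingHom.id_apply, Polynomial.smul_sum]

theorem pext_apply (T : Module.End k M) (φ : A →ₗ[k] M) (q : A[X]) :
    pext T φ q = q.sum fun i a => (T ^ i) (φ a) := rfl

@[simp] theorem pext_monomial (T : Module.End k M) (φ : A →ₗ[k] M) (n : ℕ) (a : A) :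
    pext T φ (monomial n a) = (T ^ n) (φ a) := by
  rw [pext_apply, Polynomial.sum_monomial_index _ _ (by simp)]

@[simp] theorem pext_C (T : Module.End k M) (φ : A →ₗ[k] M) (a : A) :
    pext T φ (C a) = φ a := by
  rw [← monomial_zero_left, pext_monomial]; simp

theorem pext_X_mul (T : Module.End k M) (φ : A →ₗ[k] M) (q : A[X]) :
    pext T φ (X * q) = T (pext T φ q) := by
  induction q using Polynomial.induction_on' with
  | add p q hp hq => simp only [mul_add, map_add, hp, hq]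
  | monomial n a =>
    rw [Polynomial.X_mul_monomial, pext_monomial, pext_monomial, pow_succ']
    rfl

end pext

section struct

variable (k : Type u) [CommRing k]

/-- the generator `x` -/
noncomputable abbrev gx : F2 k := FreeLieAlgebra.of k 0
/-- the generator `y` -/
noncomputable abbrev gy : F2 k := FreeLieAlgebra.of k 1
/-- the commutator `[x, y]` -/
noncomputable abbrev gc : F2 k := ⁅gx k, gy k⁆

/-- the derived ideal -/
noncomputable abbrev D1 : LieIdeal k (F2 k) := LieAlgebra.derivedSeries k (F2 k) 1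
/-- the second derived ideal -/
noncomputable abbrev D2 : LieIdeal k (F2 k) := LieAlgebra.derivedSeries k (F2 k) 2
/-- `[L', L'']` -/
noncomputable abbrev DN : LieIdeal k (F2 k) := ⁅D1 k, D2 k⁆

theorem D1_eq : D1 k = ⁅(⊤ : LieIdeal k (F2 k)), (⊤ : LieIdeal k (F2 k))⁆ := rfl

theorem D2_eq : D2 k = ⁅D1 k, D1 k⁆ := rfl

variable {k}

theorem mem_D1 (a b : F2 k) : ⁅a, b⁆ ∈ D1 k :=
  LieSubmodule.lie_mem_lie (LieSubmodule.mem_top a) (LieSubmodule.mem_top b)

theorem mem_D2 {a b : F2 k} (ha : a ∈ D1 k) (hb : b ∈ D1 k) : ⁅a, b⁆ ∈ D2 k :=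
  LieSubmodule.lie_mem_lie ha hb

theorem mem_DN {a b : F2 k} (ha : a ∈ D1 k) (hb : b ∈ D2 k) : ⁅a, b⁆ ∈ DN k :=
  LieSubmodule.lie_mem_lie ha hb

theorem mem_DN' {a b : F2 k} (ha : a ∈ D2 k) (hb : b ∈ D1 k) : ⁅a, b⁆ ∈ DN k := by
  rw [← lie_skew]
  exact (DN k).neg_mem (mem_DN hb ha)

theorem D2_le_D1 : D2 k ≤ D1 k := LieSubmodule.lie_le_right _ _

theorem DN_le_D2 : DN k ≤ D2 k := LieSubmodule.lie_le_right _ _

variable (k)

/-- `f(x) ↦ f(ad x)[x,y]` -/
noncomputable def gam1 : k[X] →ₗ[k] F2 k :=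
  pext (LieAlgebra.ad k (F2 k) (gx k)) (LinearMap.toSpanSingleton k (F2 k) (gc k))

/-- `f(x,y) ↦ f(ad x, ad y)[x,y]`, with the powers of `ad y` to the left -/
noncomputable def gam : k[X][X] →ₗ[k] F2 k :=
  pext (LieAlgebra.ad k (F2 k) (gy k)) (gam1 k)

/-- the polynomial ring `k[x,y]`, sealed -/
def P2 : Type u := k[X][X]

noncomputable instance : CommRing (P2 k) := inferInstanceAs (CommRing k[X][X])
noncomputable instance : Algebra k (P2 k) := inferInstanceAs (Algebra k k[X][X])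

variable {k} in
/-- sealing -/
noncomputable def sl : k[X][X] ≃ₐ[k] P2 k := AlgEquiv.refl

variable {k} in
/-- the variable `x` -/
noncomputable def px : P2 k := sl (C X)

variable {k} in
/-- the variable `y` -/
noncomputable def py : P2 k := sl X

/-- `f(x,y) ↦ f(ad x, ad y)[x,y]`, with the powers of `ad y` to the left -/
noncomputable def gm : P2 k →ₗ[k] F2 k := gam k ∘ₗ (sl (k := k)).symm.toLinearMap

/-- `f ↦ [f(ad x, ad y)[x,y], [x,y]]` -/
noncomputable def bt0 : P2 k →ₗ[k] F2 k where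
  toFun f := ⁅gm k f, gc k⁆
  map_add' := by intros; simp
  map_smul' := by intros; simp

/-- extension by `ad x` -/
noncomputable def bt1 : (P2 k)[X] →ₗ[k] F2 k :=
  pext (LieAlgebra.ad k (F2 k) (gx k)) (bt0 k)

/-- extension by `ad y` -/
noncomputable def bt : (P2 k)[X][X] →ₗ[k] F2 k :=
  pext (LieAlgebra.ad k (F2 k) (gy k)) (bt1 k)

variable {k}

theorem gam1_X_mul (f : k[X]) : gam1 k (X * f) = ⁅gx k, gam1 k f⁆ := by
  rw [gam1, pext_X_mul]; rfl

theorem gam_X_mul (f : k[X][X]) : gam k (X * f) = ⁅gy k, gam k f⁆ := by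
  rw [gam, pext_X_mul]; rfl

theorem gam_C (f : k[X]) : gam k (C f) = gam1 k f := by
  rw [gam, pext_C]

theorem gam1_C (c : k) : gam1 k (C c) = c • gc k := by
  rw [gam1, pext_C]; rfl

theorem gam1_mem (f : k[X]) : gam1 k f ∈ D1 k := by
  refine poly_ind (fun f => gam1 k f ∈ D1 k) ?_ ?_ ?_ f
  · intro p q hp hq
    rw [map_add]; exact (D1 k).add_mem hp hq
  · intro a
    rw [gam1_C]; exact (D1 k).smul_mem _ (mem_D1 _ _)
  · intro p _
    rw [gam1_X_mul]; exact mem_D1 _ _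

theorem gam_mem (f : k[X][X]) : gam k f ∈ D1 k := by
  refine poly_ind (fun f => gam k f ∈ D1 k) ?_ ?_ ?_ f
  · intro p q hp hq
    rw [map_add]; exact (D1 k).add_mem hp hq
  · intro a
    rw [gam_C]; exact gam1_mem a
  · intro p _
    rw [gam_X_mul]; exact mem_D1 _ _

theorem gam_CX_mul (f : k[X][X]) : gam k (C X * f) - ⁅gx k, gam k f⁆ ∈ D2 k := by
  refine poly_ind (fun f => gam k (C X * f) - ⁅gx k, gam k f⁆ ∈ D2 k) ?_ ?_ ?_ f
  · intro p q hp hq
    have : gam k (C X * (p + q)) - ⁅gx k, gam k (p + q)⁆ =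
      (gam k (C X * p) - ⁅gx k, gam k p⁆) + (gam k (C X * q) - ⁅gx k, gam k q⁆) := by
      rw [mul_add, map_add, map_add, lie_add]; abel
    rw [this]
    exact (D2 k).add_mem hp hq
  · intro a
    rw [← C_mul, gam_C, gam_C, gam1_X_mul, sub_self]
    exact (D2 k).zero_mem
  · intro p hp
    have h1 : (C X : k[X][X]) * (X * p) = X * (C X * p) := by ring
    rw [h1, gam_X_mul, gam_X_mul, leibniz_lie (gx k) (gy k) (gam k p)]
    have : ⁅gy k, gam k (C X * p)⁆ - (⁅⁅gx k, gy k⁆, gam k p⁆ + ⁅gy k, ⁅gx k, gam k p⁆⁆) =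
      ⁅gy k, gam k (C X * p) - ⁅gx k, gam k p⁆⁆ - ⁅⁅gx k, gy k⁆, gam k p⁆ := by
      rw [lie_sub]; abel
    rw [this]
    exact (D2 k).sub_mem (LieSubmodule.lie_mem _ hp) (mem_D2 (mem_D1 _ _) (gam_mem p))

theorem P2_ind (Q : P2 k → Prop) (hadd : ∀ p q, Q p → Q q → Q (p + q))
    (hC : ∀ a : k, Q (algebraMap k (P2 k) a)) (hX : ∀ p, Q p → Q (px * p))
    (hY : ∀ p, Q p → Q (py * p)) (p : P2 k) : Q p := by
  refine poly_ind (A := k[X]) (fun p => Q (sl p)) ?_ ?_ ?_ p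
  · intro p q hp hq
    rw [map_add]; exact hadd _ _ hp hq
  · intro a
    refine poly_ind (A := k) (fun a => Q (sl (C a))) ?_ ?_ ?_ a
    · intro p q hp hq
      rw [map_add, map_add]; exact hadd _ _ hp hq
    · intro a
      exact hC a
    · intro p hp
      rw [C_mul, map_mul]; exact hX _ hp
  · intro p hp
    rw [map_mul]; exact hY _ hp

theorem gm_algebraMap (c : k) : gm k (algebraMap k (P2 k) c) = c • gc k := by
  have : gm k (algebraMap k (P2 k) c) = gam k (C (C c)) := rfl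
  rw [this, gam_C, gam1_C]

theorem gm_one : gm k 1 = gc k := by
  have := gm_algebraMap (k := k) 1
  rwa [map_one, one_smul] at this

theorem gm_py_mul (f : P2 k) : gm k (py * f) = ⁅gy k, gm k f⁆ :=
  gam_X_mul (k := k) f

theorem gm_px_mul (f : P2 k) : gm k (px * f) - ⁅gx k, gm k f⁆ ∈ D2 k :=
  gam_CX_mul (k := k) f

theorem gm_mem (f : P2 k) : gm k f ∈ D1 k := gam_mem (k := k) f

theorem bt0_apply (f : P2 k) : bt0 k f = ⁅gm k f, gc k⁆ := rfl

theorem bt1_X_mul (f : (P2 k)[X]) : bt1 k (X * f) = ⁅gx k, bt1 k f⁆ := by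
  rw [bt1, pext_X_mul]; rfl

theorem bt_X_mul (f : (P2 k)[X][X]) : bt k (X * f) = ⁅gy k, bt k f⁆ := by
  rw [bt, pext_X_mul]; rfl

theorem bt_C (f : (P2 k)[X]) : bt k (C f) = bt1 k f := by
  rw [bt, pext_C]

theorem bt1_C (f : P2 k) : bt1 k (C f) = ⁅gm k f, gc k⁆ := by
  rw [bt1, pext_C]; rfl

theorem bt1_mem (f : (P2 k)[X]) : bt1 k f ∈ D2 k := by
  refine poly_ind (fun f => bt1 k f ∈ D2 k) ?_ ?_ ?_ f
  · intro p q hp hq
    rw [map_add]; exact (D2 k).add_mem hp hq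
  · intro a
    rw [bt1_C]; exact mem_D2 (gm_mem a) (mem_D1 _ _)
  · intro p hp
    rw [bt1_X_mul]; exact LieSubmodule.lie_mem _ hp

theorem bt_mem (f : (P2 k)[X][X]) : bt k f ∈ D2 k := by
  refine poly_ind (fun f => bt k f ∈ D2 k) ?_ ?_ ?_ f
  · intro p q hp hq
    rw [map_add]; exact (D2 k).add_mem hp hq
  · intro a
    rw [bt_C]; exact bt1_mem a
  · intro p hp
    rw [bt_X_mul]; exact LieSubmodule.lie_mem _ hp

theorem bt_CX_mul (f : (P2 k)[X][X]) : bt k (C X * f) - ⁅gx k, bt k f⁆ ∈ DN k := by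
  refine poly_ind (fun f => bt k (C X * f) - ⁅gx k, bt k f⁆ ∈ DN k) ?_ ?_ ?_ f
  · intro p q hp hq
    have : bt k (C X * (p + q)) - ⁅gx k, bt k (p + q)⁆ =
      (bt k (C X * p) - ⁅gx k, bt k p⁆) + (bt k (C X * q) - ⁅gx k, bt k q⁆) := by
      rw [mul_add, map_add, map_add, lie_add]; abel
    rw [this]
    exact (DN k).add_mem hp hq
  · intro a
    rw [← C_mul, bt_C, bt_C, bt1_X_mul, sub_self]
    exact (DN k).zero_mem
  · intro p hp
    have h1 : (C X : (P2 k)[X][X]) * (X * p) = X * (C X * p) := by ring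
    rw [h1, bt_X_mul, bt_X_mul, leibniz_lie (gx k) (gy k) (bt k p)]
    have : ⁅gy k, bt k (C X * p)⁆ - (⁅⁅gx k, gy k⁆, bt k p⁆ + ⁅gy k, ⁅gx k, bt k p⁆⁆) =
      ⁅gy k, bt k (C X * p) - ⁅gx k, bt k p⁆⁆ - ⁅⁅gx k, gy k⁆, bt k p⁆ := by
      rw [lie_sub]; abel
    rw [this]
    exact (DN k).sub_mem (LieSubmodule.lie_mem _ hp) (mem_DN (mem_D1 _ _) (bt_mem p))

/-- `L' = k[x,y]·[x,y] + L''` -/
theorem exists_gam {u : F2 k} (hu : u ∈ D1 k) : ∃ f : P2 k, u - gm k f ∈ D2 k := by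
  -- the submodule J
  let Q : F2 k → Prop := fun u => ∃ f : P2 k, u - gm k f ∈ D2 k
  have Q0 : Q 0 := ⟨0, by simp⟩
  have Qadd : ∀ a b, Q a → Q b → Q (a + b) := by
    rintro a b ⟨f, hf⟩ ⟨g, hg⟩
    refine ⟨f + g, ?_⟩
    have : a + b - gm k (f + g) = (a - gm k f) + (b - gm k g) := by rw [map_add]; abel
    rw [this]; exact (D2 k).add_mem hf hg
  have Qsmul : ∀ (c : k) a, Q a → Q (c • a) := by
    rintro c a ⟨f, hf⟩
    refine ⟨c • f, ?_⟩
    rw [map_smul, ← smul_sub]; exact (D2 k).smul_mem _ hf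
  have Qx : ∀ a, Q a → Q ⁅gx k, a⁆ := by
    rintro a ⟨f, hf⟩
    refine ⟨px * f, ?_⟩
    have : ⁅gx k, a⁆ - gm k (px * f) =
      ⁅gx k, a - gm k f⁆ - (gm k (px * f) - ⁅gx k, gm k f⁆) := by rw [lie_sub]; abel
    rw [this]
    exact (D2 k).sub_mem (LieSubmodule.lie_mem _ hf) (gm_px_mul f)
  have Qy : ∀ a, Q a → Q ⁅gy k, a⁆ := by
    rintro a ⟨f, hf⟩
    refine ⟨py * f, ?_⟩
    rw [gm_py_mul, ← lie_sub]
    exact LieSubmodule.lie_mem _ hf
  have Qneg : ∀ a, Q a → Q (-a) := by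
    intro a ha
    simpa using Qsmul (-1) a ha
  have Qall : ∀ (u a : F2 k), Q a → Q ⁅u, a⁆ := by
    intro u
    refine free_ind (fun u => ∀ a, Q a → Q ⁅u, a⁆) ?_ ?_ ?_ ?_ Qx Qy u
    · intro a _; simpa using Q0
    · intro u v hu hv a ha
      rw [add_lie]; exact Qadd _ _ (hu a ha) (hv a ha)
    · intro c u hu a ha
      rw [smul_lie]; exact Qsmul _ _ (hu a ha)
    · intro u v hu hv a ha
      rw [lie_lie, sub_eq_add_neg]
      exact Qadd _ _ (hu _ (hv a ha)) (Qneg _ (hv _ (hu a ha)))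
  have QC : Q (gc k) := ⟨1, by
    rw [gm_one, sub_self]; exact (D2 k).zero_mem⟩
  have Bx : ∀ b, Q ⁅gx k, b⁆ := by
    intro b
    refine free_ind (fun b => Q ⁅gx k, b⁆) ?_ ?_ ?_ ?_ ?_ ?_ b
    · simpa using Q0
    · intro u v hu hv
      rw [lie_add]; exact Qadd _ _ hu hv
    · intro c u hu
      rw [lie_smul]; exact Qsmul _ _ hu
    · intro u v hu hv
      rw [leibniz_lie]
      refine Qadd _ _ ?_ (Qall _ _ hv)
      rw [← lie_skew]
      exact Qneg _ (Qall _ _ hu)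
    · simpa using Q0
    · exact QC
  have By : ∀ b, Q ⁅gy k, b⁆ := by
    intro b
    refine free_ind (fun b => Q ⁅gy k, b⁆) ?_ ?_ ?_ ?_ ?_ ?_ b
    · simpa using Q0
    · intro u v hu hv
      rw [lie_add]; exact Qadd _ _ hu hv
    · intro c u hu
      rw [lie_smul]; exact Qsmul _ _ hu
    · intro u v hu hv
      rw [leibniz_lie]
      refine Qadd _ _ ?_ (Qall _ _ hv)
      rw [← lie_skew]
      exact Qneg _ (Qall _ _ hu)
    · rw [← lie_skew]; exact Qneg _ QC
    · simpa using Q0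
  have Ball : ∀ (a b : F2 k), Q ⁅a, b⁆ := by
    intro a
    refine free_ind (fun a => ∀ b, Q ⁅a, b⁆) ?_ ?_ ?_ ?_ Bx By a
    · intro b; simpa using Q0
    · intro u v hu hv b
      rw [add_lie]; exact Qadd _ _ (hu b) (hv b)
    · intro c u hu b
      rw [smul_lie]; exact Qsmul _ _ (hu b)
    · intro u v hu hv b
      rw [lie_lie, sub_eq_add_neg]
      exact Qadd _ _ (hu _) (Qneg _ (hv _))
  exact lie_ind ⊤ ⊤ Q Q0 Qadd Qsmul (fun a _ b _ => Ball a b) hu

end struct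

end Pool.Agent.Helper392_GT
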