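import Pool.Agent.Helper392_GT.Rel
import Pool.Agent.Helper392_GT.Defs4

namespace Pool.Agent.Helper392_GT

open Polynomial

universe u v

set_option linter.unusedSimpArgs false
set_option linter.unusedVariables false

attribute [local instance 100] LieRing.ofAssociativeRing

section symb

variable {k : Type u} [CommRing k]

theorem symbolMap_monomial (e : Fin 4 →₀ ℕ) :
    symbolMap k (MvPolynomial.monomial e 1) = ⁅adxy k (e 0) (e 1), adxy k (e 2) (e 3)⁆ := by
  have := (MvPolynomial.basisMonomials (Fin 4) k).constr_basis k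
    (fun e => ⁅adxy k (e 0) (e 1), adxy k (e 2) (e 3)⁆) e
  rwa [MvPolynomial.coe_basisMonomials] at this

theorem gm_mono (i j : ℕ) : gm k (px ^ i * py ^ j) - adxy k i j ∈ D2 k := by
  induction i with
  | zero =>
    have : ∀ j, gm k (px ^ 0 * py ^ j) = adxy k 0 j := by
      intro j
      induction j with
      | zero => simp [adxy, gm_one]
      | succ j ih =>
        have e : (px ^ 0 * py ^ (j + 1) : P2 k) = py * (px ^ 0 * py ^ j) := by ring
        rw [e, gm_py_mul, ih, adxy, adxy, pow_zero, pow_succ']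
        rfl
    rw [this, sub_self]; exact (D2 k).zero_mem
  | succ i ih =>
    have e : (px ^ (i + 1) * py ^ j : P2 k) = px * (px ^ i * py ^ j) := by ring
    have e2 : adxy k (i + 1) j = ⁅gx k, adxy k i j⁆ := by
      rw [adxy, adxy, pow_succ']; rfl
    rw [e, e2]
    have : gm k (px * (px ^ i * py ^ j)) - ⁅gx k, adxy k i j⁆ =
        (gm k (px * (px ^ i * py ^ j)) - ⁅gx k, gm k (px ^ i * py ^ j)⁆) +
        ⁅gx k, gm k (px ^ i * py ^ j) - adxy k i j⁆ := by
      rw [lie_sub]; abel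
    rw [this]
    exact (D2 k).add_mem (gm_px_mul _) (LieSubmodule.lie_mem _ ih)

theorem adxy_mem (i j : ℕ) : adxy k i j ∈ D1 k := by
  have h := gm_mono (k := k) i j
  have : adxy k i j = gm k (px ^ i * py ^ j) - (gm k (px ^ i * py ^ j) - adxy k i j) := by abel
  rw [this]
  exact (D1 k).sub_mem (gm_mem _) (D2_le_D1 h)

theorem lie_congr_DN {a b a' b' : F2 k} (ha : a ∈ D1 k) (hb' : b' ∈ D1 k) (h1 : a - a' ∈ D2 k)
    (h2 : b - b' ∈ D2 k) : ⁅a, b⁆ - ⁅a', b'⁆ ∈ DN k := by
  have : ⁅a, b⁆ - ⁅a', b'⁆ = ⁅a, b - b'⁆ + ⁅a - a', b'⁆ := by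
    rw [lie_sub, sub_lie]; abel
  rw [this]
  exact (DN k).add_mem (mem_DN ha h2) (mem_DN' h1 hb')

theorem sg_eq' : sg (px : P2 k) = vs - vx ∧ sg (py : P2 k) = vt - vy := by
  constructor <;> simp [sg]

/-- the change of coordinates -/
noncomputable def iot : MvPolynomial (Fin 4) k →ₐ[k] K0 k :=
  MvPolynomial.aeval ![vx, vy, vs - vx, vt - vy]

theorem iot_mono (e : Fin 4 →₀ ℕ) : iot (MvPolynomial.monomial e (1 : k)) =
    C (C (px ^ e 0 * py ^ e 1)) * sg (px ^ e 2 * py ^ e 3) := by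
  have h := sg_eq' (k := k)
  rw [iot, MvPolynomial.aeval_monomial, map_one, one_mul]
  rw [Finsupp.prod_fintype _ _ (fun i => by simp)]
  rw [Fin.prod_univ_four]
  simp only [map_mul, map_pow, C_mul, C_pow, h.1, h.2]
  simp only [Matrix.cons_val]
  ring

theorem iot_bt (p : MvPolynomial (Fin 4) k) : bt k (iot p) - symbolMap k p ∈ DN k := by
  have hm : ∀ (e : Fin 4 →₀ ℕ) (a : k), bt k (iot (MvPolynomial.monomial e a)) -
      symbolMap k (MvPolynomial.monomial e a) ∈ DN k := by
    intro e a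
    have h1 : MvPolynomial.monomial e a = a • MvPolynomial.monomial e (1 : k) := by
      rw [MvPolynomial.smul_monomial, smul_eq_mul, mul_one]
    rw [h1, map_smul, map_smul, map_smul, ← smul_sub]
    refine (DN k).smul_mem _ ?_
    rw [symbolMap_monomial, iot_mono]
    have h2 := key_bt (px ^ e 0 * py ^ e 1 : P2 k) (px ^ e 2 * py ^ e 3)
    have h3 := lie_congr_DN (k := k) (gm_mem _) (adxy_mem _ _) (gm_mono (k := k) (e 0) (e 1))
      (gm_mono (k := k) (e 2) (e 3))
    have h4 := (DN k).add_mem h2 h3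
    rwa [sub_add_sub_cancel] at h4
  rw [p.as_sum, map_sum, map_sum, map_sum, ← Finset.sum_sub_distrib]
  exact (LieSubmodule.toSubmodule _).sum_mem fun e _ => hm e _

end symb

end Pool.Agent.Helper392_GT
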