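import Pool.Agent.Helper392_GT.Sym

namespace Pool.Agent.Helper392_GT

open Polynomial

universe u v

set_option linter.unusedSimpArgs false
set_option linter.unusedVariables false

attribute [local instance 100] LieRing.ofAssociativeRing

section sym2

variable {k : Type u} [Field k]

theorem transp_D {ψ : F2 k} (hp : Pentagon k ψ) (hψ : ψ ∈ D2 k) {Q : K0 k} (hE : Rel ψ Q) :
    ev4 (k := k) (vx : K0 k) (-vs) (-vy) vt Q = Q := by
  have hts := ts_ne (k := k)
  have h0 := relD (K := K0 k) hp (D2_le_D1 hψ) hE vx vy vs vt vx_ne vy_ne vs_sub_vx_ne vs_add_vy_ne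
  rw [ev4_id, map_mul, map_add, ev4_vt, ev4_vs] at h0
  have h3 : ((vt + vs) * (vt - vy)) * (ev4 (k := k) (vx : K0 k) (-vs) (-vy) vt Q - Q) = 0 := by
    linear_combination h0
  exact sub_eq_zero.mp ((mul_eq_zero.mp h3).resolve_left (mul_ne_zero hts (vt_sub_ne _)))

/-- all symmetries of a polynomial in four variables -/
structure Sy (Q : K0 k) : Prop where
  c01 : ∀ (K : Type u) [CommRing K] [Algebra k K] (a b s t : K),
    ev4 b a t s Q = - ev4 a b s t Q
  c02 : ∀ (K : Type u) [CommRing K] [Algebra k K] (a b s t : K),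
    ev4 (-a - b) b (-s - t) t Q = - ev4 a b s t Q
  tr : ∀ (K : Type u) [CommRing K] [Algebra k K] (a b s t : K),
    ev4 a (s - a) (a + b) (s + t - a - b) Q = ev4 a b s t Q

theorem sy_of {Q : K0 k} (hr : rr Q = -Q) (hk : kk Q = -Q) (hρ : rho Q = -Q)
    (hD : ev4 (k := k) (vx : K0 k) (-vs) (-vy) vt Q = Q) : Sy Q := by
  have r01 : ∀ (K : Type u) [CommRing K] [Algebra k K] (a b s t : K),
      ev4 (s - a) (t - b) s t Q = - ev4 a b s t Q := by
    intro K _ _ a b s t
    have := congrArg (ev4 (k := k) a b s t) hr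
    rw [rr, ev4_comp, map_neg] at this
    simpa using this
  have c01 : ∀ (K : Type u) [CommRing K] [Algebra k K] (a b s t : K),
      ev4 b a t s Q = - ev4 a b s t Q := by
    intro K _ _ a b s t
    have := congrArg (ev4 (k := k) a b s t) hk
    rw [kk, ev4_comp, map_neg] at this
    simpa using this
  have c02 : ∀ (K : Type u) [CommRing K] [Algebra k K] (a b s t : K),
      ev4 (-a - b) b (-s - t) t Q = - ev4 a b s t Q := by
    intro K _ _ a b s t
    have := congrArg (ev4 (k := k) a b s t) hρ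
    rw [rho, ev4_comp, map_neg] at this
    simpa using this
  have dd : ∀ (K : Type u) [CommRing K] [Algebra k K] (a b s t : K),
      ev4 a (-s) (-b) t Q = ev4 a b s t Q := by
    intro K _ _ a b s t
    have := congrArg (ev4 (k := k) a b s t) hD
    rw [ev4_comp] at this
    simpa using this
  have r02 : ∀ (K : Type u) [CommRing K] [Algebra k K] (a b s t : K),
      ev4 (-s) (-t) (-a) (-b) Q = - ev4 a b s t Q := by
    intro K _ _ a b s t
    have h1 := dd K a b s t
    have h2 := c01 K a (-s) (-b) t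
    have h3 := dd K (-s) a t (-b)
    rw [h3, h2, h1]
  have r12 : ∀ (K : Type u) [CommRing K] [Algebra k K] (a b s t : K),
      ev4 a b (a - s) (b - t) Q = - ev4 a b s t Q := by
    intro K _ _ a b s t
    have h1 := r01 K a b s t
    have h2 := r02 K (s - a) (t - b) s t
    have h3 := r01 K (-s) (-t) (-(s - a)) (-(t - b))
    rw [h2, h1] at h3
    have e1 : -(s - a) - -s = a := by ring
    have e2 : -(t - b) - -t = b := by ring
    have e3 : -(s - a) = a - s := by ring
    have e4 : -(t - b) = b - t := by ring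
    rw [e1, e2, e3, e4, neg_neg] at h3
    exact h3
  have c12 : ∀ (K : Type u) [CommRing K] [Algebra k K] (a b s t : K),
      ev4 a (-a - b) s (-s - t) Q = - ev4 a b s t Q := by
    intro K _ _ a b s t
    have h1 := c01 K a b s t
    have h2 := c02 K b a t s
    have h3 := c01 K (-b - a) a (-t - s) s
    rw [h2, h1] at h3
    have e1 : -b - a = -a - b := by ring
    have e2 : -t - s = -s - t := by ring
    rw [e1, e2, neg_neg] at h3
    exact h3
  refine ⟨c01, c02, ?_⟩
  intro K _ _ a b s t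
  have h1 := dd K a b s t
  have h2 := c12 K a (-s) (-b) t
  have h3 := r12 K a (-a - -s) (-b) (- -b - t)
  rw [h2, h1] at h3
  have e1 : -a - -s = s - a := by ring
  have e2 : a - -b = a + b := by ring
  have e3 : s - a - (- -b - t) = s + t - a - b := by ring
  rw [e1, e2, e3, neg_neg] at h3
  exact h3

/-- zero row and column sums -/
def ZS {K : Type u} [CommRing K] (N : Matrix (Fin 3) (Fin 3) K) : Prop :=
  (∀ i, ∑ j, N i j = 0) ∧ ∀ j, ∑ i, N i j = 0

/-- the value at an array -/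
noncomputable def vl {K : Type u} [CommRing K] [Algebra k K] (Q : K0 k)
    (N : Matrix (Fin 3) (Fin 3) K) : K :=
  ev4 (N 0 0) (N 0 1) (N 0 0 + N 1 0) (N 0 1 + N 1 1) Q

variable {K : Type u} [CommRing K] [Algebra k K]

theorem ZS.tr {N : Matrix (Fin 3) (Fin 3) K} (h : ZS N) : ZS N.transpose := ⟨h.2, h.1⟩

theorem ZS.col {N : Matrix (Fin 3) (Fin 3) K} (h : ZS N) (τ : Equiv.Perm (Fin 3)) :
    ZS (N.submatrix id τ) := by
  refine ⟨fun i => ?_, fun j => h.2 (τ j)⟩
  rw [← h.1 i]
  exact Equiv.sum_comp τ (fun j => N i j)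

theorem vl_tr {Q : K0 k} (hQ : Sy Q) {N : Matrix (Fin 3) (Fin 3) K} (h : ZS N) :
    vl Q N.transpose = vl Q N := by
  have := hQ.tr K (N 0 0) (N 0 1) (N 0 0 + N 1 0) (N 0 1 + N 1 1)
  rw [vl, vl, ← this]
  simp only [Matrix.transpose_apply]
  congr 2
  · ring
  · ring

theorem vl_swap {Q : K0 k} (hQ : Sy Q) {N : Matrix (Fin 3) (Fin 3) K} (h : ZS N)
    {x y : Fin 3} (hxy : x ≠ y) : vl Q (N.submatrix id (Equiv.swap x y)) = - vl Q N := by
  have h0 := h.1 0
  have h1 := h.1 1
  simp only [Fin.sum_univ_three] at h0 h1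
  have e0 : N 0 2 = -N 0 0 - N 0 1 := by linear_combination h0
  have e1 : N 1 2 = -N 1 0 - N 1 1 := by linear_combination h1
  have key01 : vl Q (N.submatrix id (Equiv.swap 0 1)) = - vl Q N := by
    rw [vl, vl, ← hQ.c01]
    simp [Matrix.submatrix_apply]
  have key02 : vl Q (N.submatrix id (Equiv.swap 0 2)) = - vl Q N := by
    rw [vl, vl, ← hQ.c02]
    simp only [Matrix.submatrix_apply, id, Equiv.swap_apply_left]
    have s1 : (Equiv.swap (0 : Fin 3) 2) 1 = 1 := by decide
    rw [s1, e0, e1]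
    congr 2
    ring
  have key12 : vl Q (N.submatrix id (Equiv.swap 1 2)) = - vl Q N := by
    have a1 := hQ.c01 K (N 0 0) (N 0 1) (N 0 0 + N 1 0) (N 0 1 + N 1 1)
    have a2 := hQ.c02 K (N 0 1) (N 0 0) (N 0 1 + N 1 1) (N 0 0 + N 1 0)
    have a3 := hQ.c01 K (-N 0 1 - N 0 0) (N 0 0) (-(N 0 1 + N 1 1) - (N 0 0 + N 1 0))
      (N 0 0 + N 1 0)
    rw [a2, a1, neg_neg] at a3
    rw [vl, vl, ← a3]
    simp only [Matrix.submatrix_apply, id, Equiv.swap_apply_left]
    have s1 : (Equiv.swap (1 : Fin 3) 2) 0 = 0 := by decide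
    have f1 : -N 0 0 - N 0 1 = -N 0 1 - N 0 0 := by ring
    have f2 : -N 0 0 - N 0 1 + (-N 1 0 - N 1 1) =
      -(N 0 1 + N 1 1) - (N 0 0 + N 1 0) := by ring
    rw [s1, e0, e1, f2, f1]
  fin_cases x <;> fin_cases y
  · exact absurd rfl hxy
  · exact key01
  · exact key02
  · rw [Equiv.swap_comm]; exact key01
  · exact absurd rfl hxy
  · exact key12
  · rw [Equiv.swap_comm]; exact key02
  · rw [Equiv.swap_comm]; exact key12
  · exact absurd rfl hxy

theorem vl_col {Q : K0 k} (hQ : Sy Q) (τ : Equiv.Perm (Fin 3)) {N : Matrix (Fin 3) (Fin 3) K}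
    (h : ZS N) : vl Q (N.submatrix id τ) = Equiv.Perm.sign τ • vl Q N := by
  refine Equiv.Perm.swap_induction_on (motive := fun τ => ∀ N : Matrix (Fin 3) (Fin 3) K, ZS N →
    vl Q (N.submatrix id τ) = Equiv.Perm.sign τ • vl Q N) τ ?_ ?_ N h
  · intro N _
    simp
  · intro f x y hxy ih N h
    have e : N.submatrix id (Equiv.swap x y * f) = (N.submatrix id (Equiv.swap x y)).submatrix id f := rfl
    rw [e, ih _ (h.col _), vl_swap hQ h hxy, Equiv.Perm.sign_mul, Equiv.Perm.sign_swap hxy]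
    simp

theorem vl_all {Q : K0 k} (hQ : Sy Q) (σ τ : Equiv.Perm (Fin 3)) {N : Matrix (Fin 3) (Fin 3) K}
    (h : ZS N) : vl Q (N.submatrix σ τ) = (Equiv.Perm.sign σ * Equiv.Perm.sign τ) • vl Q N := by
  have h1 : ZS (N.submatrix σ id) := (h.tr.col σ).tr
  have e : N.submatrix σ τ = (N.submatrix σ id).submatrix id τ := rfl
  have e2 : N.submatrix σ id = ((N.transpose).submatrix id σ).transpose := rfl
  rw [e, vl_col hQ τ h1, e2, vl_tr hQ (h.tr.col σ), vl_col hQ σ h.tr, vl_tr hQ h, smul_smul,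
    mul_comm]

end sym2

section final

variable {k : Type u} [Field k]

theorem genArray_ZS : ZS (genArray k) := by
  constructor
  · intro i
    fin_cases i <;> simp [genArray, Fin.sum_univ_three] <;> ring
  · intro j
    fin_cases j <;> simp [genArray, Fin.sum_univ_three] <;> ring

/-- the polynomial in the coordinates `x₁, y₁, x₂, y₂` -/
noncomputable def qq (Q : K0 k) : MvPolynomial (Fin 4) k :=
  ev4 (MvPolynomial.X 0) (MvPolynomial.X 1) (MvPolynomial.X 0 + MvPolynomial.X 2)
    (MvPolynomial.X 1 + MvPolynomial.X 3) Q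

theorem atArray_qq (Q : K0 k) (N : Matrix (Fin 3) (Fin 3) (MvPolynomial (Fin 4) k)) :
    atArray (qq Q) N = vl Q N := by
  rw [atArray, qq, ev4_comp, vl]
  simp

theorem vl_gen (Q : K0 k) : vl Q (genArray k) = qq Q := by
  rw [vl, qq]
  simp [genArray]

theorem iot_qq (P : K0 k) : iot (qq P) = P := by
  rw [qq, ev4_comp]
  have h0 : iot (MvPolynomial.X 0 : MvPolynomial (Fin 4) k) = vx := by simp [iot]
  have h1 : iot (MvPolynomial.X 1 : MvPolynomial (Fin 4) k) = vy := by simp [iot]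
  have h2 : iot (MvPolynomial.X 2 : MvPolynomial (Fin 4) k) = vs - vx := by simp [iot]
  have h3 : iot (MvPolynomial.X 3 : MvPolynomial (Fin 4) k) = vt - vy := by simp [iot]
  rw [map_add, map_add, h0, h1, h2, h3]
  have e1 : (vx + (vs - vx) : K0 k) = vs := by ring
  have e2 : (vy + (vt - vy) : K0 k) = vt := by ring
  rw [e1, e2, ev4_id]

/-- The symbol of a pentagon solution in `L''` has a symmetry group of order 72. -/
theorem hidden_symmetry [CharZero k] {ψ : F2 k} (hp : Pentagon k ψ) (hψ : ψ ∈ D2 k) :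
    ∃ q : MvPolynomial (Fin 4) k, ψ - symbolMap k (genArray k 2 2 * q) ∈ DN k ∧
      (∀ σ τ : Equiv.Perm (Fin 3), atArray q ((genArray k).submatrix σ τ) =
        (Equiv.Perm.sign σ * Equiv.Perm.sign τ) • q) ∧
      atArray q (genArray k).transpose = q := by
  obtain ⟨P, hP, hE⟩ := exists_P hψ
  obtain ⟨Q, hQ, hr, hk, hρ⟩ := exists_Q hp hψ hE
  have hR : Rel ψ Q := by rw [Rel, ← hQ]; exact hE
  have hS := sy_of hr hk hρ (transp_D hp hψ hR)
  have hlin : ∀ (c : k) (N : Matrix (Fin 3) (Fin 3) (MvPolynomial (Fin 4) k)),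
      atArray (c • qq Q) N = c • vl Q N := by
    intro c N
    rw [← atArray_qq, atArray, map_smul]; rfl
  refine ⟨(2 : k)⁻¹ • qq Q, ?_, ?_, ?_⟩
  · have h1 := iot_bt (qq P)
    rw [iot_qq] at h1
    have h2 : genArray k 2 2 * ((2 : k)⁻¹ • qq Q) = (2 : k)⁻¹ • qq P := by
      rw [mul_smul_comm, hQ]
      congr 1
      rw [qq, qq, map_mul, map_add, ev4_vt, ev4_vs]
      congr 1
      simp [genArray]
      ring
    rw [h2, map_smul]
    have h3 : ψ - (2 : k)⁻¹ • symbolMap k (qq P) =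
        (2 : k)⁻¹ • (((2 : k) • ψ - bt k P) + (bt k P - symbolMap k (qq P))) := by
      rw [sub_add_sub_cancel, smul_sub, smul_smul, inv_mul_cancel₀ two_ne_zero, one_smul]
    rw [h3]
    exact (DN k).smul_mem _ ((DN k).add_mem hP h1)
  · intro σ τ
    rw [hlin, vl_all hS σ τ genArray_ZS, vl_gen, smul_comm]
  · rw [hlin, vl_tr hS genArray_ZS, vl_gen]

end final

end Pool.Agent.Helper392_GT
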