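import Pool.Agent.Helper392_GT.QLevel

namespace Pool.Agent.Helper392_GT

open Polynomial

universe u v

set_option linter.unusedSimpArgs false
set_option linter.unusedVariables false

attribute [local instance 100] LieRing.ofAssociativeRing

section graded

variable {k : Type u} [CommRing k] {K : Type u} [CommRing K] [Algebra k K] {n : ℕ}

theorem word_graded {A B : Matrix (Fin n) (Fin n) K} (pos : Fin n → ℕ)
    (hA : ∀ i j, pos j ≠ pos i → A i j = 0) (hB : ∀ i j, pos j ≠ pos i + 1 → B i j = 0)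
    (w : FreeMonoid (Fin 2)) : ∀ i j, pos j ≠ pos i + w.toList.count 1 →
      (FreeMonoid.lift ![A, B] w) i j = 0 := by
  induction w using FreeMonoid.recOn with
  | one =>
    intro i j hij
    rw [map_one]
    have : i ≠ j := by
      rintro rfl
      simp at hij
    exact Matrix.one_apply_ne this
  | of_mul l w ih =>
    intro i j hij
    rw [MonoidHom.map_mul, FreeMonoid.lift_eval_of, Matrix.mul_apply]
    rw [FreeMonoid.toList_of_mul] at hij
    refine Finset.sum_eq_zero fun m _ => ?_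
    by_cases hm : pos j = pos m + w.toList.count 1
    · fin_cases l
      · have h1 : pos m ≠ pos i := by
          intro h
          apply hij
          rw [hm, h]; simp
        have := hA i m h1
        change A i m * _ = 0
        rw [this, zero_mul]
      · have h1 : pos m ≠ pos i + 1 := by
          intro h
          apply hij
          rw [hm, h]; simp; omega
        have := hB i m h1
        change B i m * _ = 0
        rw [this, zero_mul]
    · rw [ih m j hm, mul_zero]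

theorem subst_graded {A B : Matrix (Fin n) (Fin n) K} (pos : Fin n → ℕ)
    (hA : ∀ i j, pos j ≠ pos i → A i j = 0) (hB : ∀ i j, pos j ≠ pos i + 1 → B i j = 0)
    {d : ℕ} {ψ : F2 k} (hd : DepthGE k d ψ) (i j : Fin n) (hij : pos j < pos i + d) :
    subst k A B ψ i j = 0 := by
  rw [subst_eq_sum, Finsupp.sum, Matrix.sum_apply]
  refine Finset.sum_eq_zero fun w hw => ?_
  have hw' : d ≤ w.toList.count 1 := by
    by_contra hlt
    have := hd w (not_le.mp hlt)
    exact (Finsupp.mem_support_iff.mp hw) this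
  rw [Matrix.smul_apply, word_graded pos hA hB w i j (by omega), smul_zero]

/-- `ad(x)^m y` -/
noncomputable def vm (k : Type u) [CommRing k] (m : ℕ) : F2 k :=
  ((LieAlgebra.ad k (F2 k) (gx k)) ^ m) (gy k)

theorem vm_succ (m : ℕ) : vm k (m + 1) = ⁅gx k, vm k m⁆ := by
  rw [vm, pow_succ']; rfl

theorem vm_entry {A B : Matrix (Fin 4) (Fin 4) K} (hA : ∀ i j, i ≠ j → A i j = 0) (m : ℕ)
    (i j : Fin 4) : subst k A B (vm k m) i j = (A i i - A j j) ^ m * B i j := by
  induction m with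
  | zero =>
    rw [vm, pow_zero, pow_zero, one_mul]
    change subst k A B (gy k) i j = _
    rw [subst_y]
  | succ m ih =>
    rw [vm_succ, LieHom.map_lie, subst_x, Ring.lie_def, Matrix.sub_apply, Matrix.mul_apply,
      Matrix.mul_apply]
    rw [Finset.sum_eq_single i, Finset.sum_eq_single j, ih]
    · ring
    · intro l _ hl
      rw [hA l j hl, mul_zero]
    · simp
    · intro l _ hl
      rw [hA i l (Ne.symm hl), zero_mul]
    · simp

end graded

section der

variable {k : Type u} [CommRing k]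

/-- the Lie algebra of dual numbers over `L` -/
def DualL (L : Type u) : Type u := L × L

instance (L : Type u) [LieRing L] : AddCommGroup (DualL L) := inferInstanceAs (AddCommGroup (L × L))

instance (L : Type u) [LieRing L] : LieRing (DualL L) where
  bracket x y := (⁅x.1, y.1⁆, ⁅x.1, y.2⁆ + ⁅x.2, y.1⁆)
  add_lie x y z := by
    refine Prod.ext ?_ ?_
    · change ⁅x.1 + y.1, z.1⁆ = ⁅x.1, z.1⁆ + ⁅y.1, z.1⁆
      rw [add_lie]
    · change ⁅x.1 + y.1, z.2⁆ + ⁅x.2 + y.2, z.1⁆ =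
        (⁅x.1, z.2⁆ + ⁅x.2, z.1⁆) + (⁅y.1, z.2⁆ + ⁅y.2, z.1⁆)
      rw [add_lie, add_lie]; abel
  lie_add x y z := by
    refine Prod.ext ?_ ?_
    · change ⁅x.1, y.1 + z.1⁆ = ⁅x.1, y.1⁆ + ⁅x.1, z.1⁆
      rw [lie_add]
    · change ⁅x.1, y.2 + z.2⁆ + ⁅x.2, y.1 + z.1⁆ =
        (⁅x.1, y.2⁆ + ⁅x.2, y.1⁆) + (⁅x.1, z.2⁆ + ⁅x.2, z.1⁆)
      rw [lie_add, lie_add]; abel
  lie_self x := by
    refine Prod.ext ?_ ?_
    · change ⁅x.1, x.1⁆ = 0
      rw [lie_self]
    · change ⁅x.1, x.2⁆ + ⁅x.2, x.1⁆ = 0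
      rw [← lie_skew x.2 x.1]; abel
  leibniz_lie x y z := by
    refine Prod.ext ?_ ?_
    · change ⁅x.1, ⁅y.1, z.1⁆⁆ = ⁅⁅x.1, y.1⁆, z.1⁆ + ⁅y.1, ⁅x.1, z.1⁆⁆
      rw [leibniz_lie]
    · change ⁅x.1, ⁅y.1, z.2⁆ + ⁅y.2, z.1⁆⁆ + ⁅x.2, ⁅y.1, z.1⁆⁆ =
        (⁅⁅x.1, y.1⁆, z.2⁆ + ⁅⁅x.1, y.2⁆ + ⁅x.2, y.1⁆, z.1⁆)
          + (⁅y.1, ⁅x.1, z.2⁆ + ⁅x.2, z.1⁆⁆ + ⁅y.2, ⁅x.1, z.1⁆⁆)
      rw [lie_add, lie_add, add_lie, leibniz_lie x.1 y.1 z.2, leibniz_lie x.1 y.2 z.1,
        leibniz_lie x.2 y.1 z.1]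
      abel

instance (L : Type u) [LieRing L] [LieAlgebra k L] : LieAlgebra k (DualL L) :=
  { (inferInstanceAs (Module k (L × L)) : Module k (DualL L)) with
    lie_smul := fun t x y => by
      refine Prod.ext ?_ ?_
      · change ⁅x.1, t • y.1⁆ = t • ⁅x.1, y.1⁆
        rw [lie_smul]
      · change ⁅x.1, t • y.2⁆ + ⁅x.2, t • y.1⁆ = t • (⁅x.1, y.2⁆ + ⁅x.2, y.1⁆)
        rw [lie_smul, lie_smul, smul_add] }

/-- a derivation of the free Lie algebra with prescribed values on the generators -/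
theorem exists_der (z : F2 k) : ∃ D : LieDerivation k (F2 k) (F2 k), D (gx k) = 0 ∧ D (gy k) = z := by
  let φ : F2 k →ₗ⁅k⁆ DualL (F2 k) :=
    FreeLieAlgebra.lift k ![((gx k, 0) : DualL (F2 k)), ((gy k, z) : DualL (F2 k))]
  let p1 : DualL (F2 k) →ₗ⁅k⁆ F2 k :=
    { toFun := fun x => x.1
      map_add' := fun _ _ => rfl
      map_smul' := fun _ _ => rfl
      map_lie' := fun {_ _} => rfl }
  let p2 : DualL (F2 k) →ₗ[k] F2 k :=
    { toFun := fun x => x.2
      map_add' := fun _ _ => rfl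
      map_smul' := fun _ _ => rfl }
  have h1 : ∀ u, (φ u).1 = u := by
    intro u
    have : p1.comp φ = LieHom.id := by
      ext i
      fin_cases i <;> simp [φ] <;> rfl
    exact congrArg (fun f : F2 k →ₗ⁅k⁆ F2 k => f u) this
  refine ⟨{ toLinearMap := p2 ∘ₗ (φ : F2 k →ₗ[k] DualL (F2 k)), leibniz' := ?_ }, ?_, ?_⟩
  · intro a b
    change (φ ⁅a, b⁆).2 = ⁅a, (φ b).2⁆ - ⁅b, (φ a).2⁆
    rw [LieHom.map_lie]
    change ⁅(φ a).1, (φ b).2⁆ + ⁅(φ a).2, (φ b).1⁆ = _
    rw [h1, h1, ← lie_skew b (φ a).2]; abel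
  · change (φ (gx k)).2 = 0
    simp [φ]
  · change (φ (gy k)).2 = z
    simp [φ]

end der

section T

variable {k : Type u} [Field k]

noncomputable abbrev tA (k : Type u) [Field k] : Matrix (Fin 4) (Fin 4) (P2 k) :=
  mkM 0 (-px) 0 (-px - py) 0 0 0 0 0
noncomputable abbrev tB (k : Type u) [Field k] : Matrix (Fin 4) (Fin 4) (P2 k) :=
  mkM 0 0 0 0 1 0 1 0 0

/-- the depth two symbol -/
noncomputable def TT (ψ : F2 k) : P2 k := subst k (tA k) (tB k) ψ 0 3

theorem TT_add (a b : F2 k) : TT (a + b) = TT a + TT b := by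
  simp only [TT, map_add, Matrix.add_apply]
theorem TT_sub (a b : F2 k) : TT (a - b) = TT a - TT b := by
  simp only [TT, map_sub, Matrix.sub_apply]
theorem TT_smul (c : k) (a : F2 k) : TT (c • a) = c • TT a := by
  simp only [TT, map_smul, Matrix.smul_apply]
theorem TT_zero : TT (0 : F2 k) = 0 := by
  simp only [TT, map_zero, Matrix.zero_apply]

theorem TT_eq {ψ : F2 k} (hp : Pentagon k ψ) (hψ : ψ ∈ D2 k) {P : (P2 k)[X][X]}
    (hE : Entry ψ P) (hd : DepthGE k 2 ψ) :
    TT ψ = - (px * py * pz) * ev2 px pz (cf P 1 0) := by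
  obtain ⟨c00, c01, hii, hiii, hiv, hv⟩ := q_props hp hψ hE hd
  have h1 := hii px pz
  rw [TT, entry_mk hE]
  have s1 : (0 : P2 k) - -px = px := by ring
  have s2 : (0 : P2 k) - (-px - py) = -pz := by rw [pz]; ring
  have s3 : (-px : P2 k) - (-px - py) = py := by ring
  simp only [s1, s2, s3, sub_zero, sub_self, mul_zero, mul_one, zero_mul, add_zero]
  linear_combination (px * py) * h1

theorem TT_mem [CharZero k] {ψ : F2 k} (hp : Pentagon k ψ) (hd : DepthGE k 2 ψ) :
    TT ψ ∈ Sp k := by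
  have hψ := mem_D2_of_depth hp hd
  obtain ⟨P, _, hE⟩ := exists_P hψ
  obtain ⟨c00, c01, hii, hiii, hiv, hv⟩ := q_props hp hψ hE hd
  rw [TT_eq hp hψ hE hd]
  have hv' : ∀ a b : P2 k, ev2 (-a - b) b (cf P 1 0) = - ev2 a b (cf P 1 0) := by
    intro a b
    have := congrArg (ev2 a b : P2 k →ₐ[k] P2 k) hv
    rw [ev2_ev2, ev2_pz, ev2_py, map_neg] at this
    exact this
  have hiv' : ∀ a b : P2 k, ev2 b a (cf P 1 0) = - ev2 a b (cf P 1 0) := by
    intro a b
    have := congrArg (ev2 a b : P2 k →ₐ[k] P2 k) hiv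
    rw [ev2_ev2, ev2_py, ev2_px, map_neg] at this
    exact this
  have hiii' : ∀ a b : P2 k, ev2 (-a) (-b) (cf P 1 0) = - ev2 a b (cf P 1 0) := by
    intro a b
    have := congrArg (ev2 a b : P2 k →ₐ[k] P2 k) hiii
    rw [ev2_ev2, map_neg, map_neg, ev2_py, ev2_px, map_neg] at this
    exact this
  apply mem_Sp
  · simp only [map_mul, map_neg, ev2_ev2, ev2_px, ev2_py, ev2_pz, e_yxz]
    have := hv' px pz
    rw [e_xzy] at this
    rw [this]
    ring
  · simp only [map_mul, map_neg, ev2_ev2, ev2_px, ev2_py, ev2_pz, e_zyx]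
    rw [hiv' px pz]
    ring
  · simp only [map_mul, map_neg, ev2_ev2, ev2_px, ev2_py, ev2_pz]
    have e : (- -(px : P2 k) - -(py : P2 k) : P2 k) = -pz := by rw [pz]; ring
    rw [e, hiii' px pz]
    ring

theorem mem_lcs2_of_TT [CharZero k] {ψ : F2 k} (hp : Pentagon k ψ) (hd : DepthGE k 2 ψ)
    (hT : TT ψ = 0) : ψ ∈ LieSubmodule.lcs 2 (D2 k) := by
  have hψ := mem_D2_of_depth hp hd
  obtain ⟨P, hP, hE⟩ := exists_P hψ
  obtain ⟨c00, c01, hii, hiii, hiv, hv⟩ := q_props hp hψ hE hd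
  rw [TT_eq hp hψ hE hd] at hT
  have hz : (pz : P2 k) ≠ 0 := by
    intro h
    apply sum_ne (k := k)
    rw [pz] at h
    linear_combination -h
  have h1 : ev2 (px : P2 k) pz (cf P 1 0) = 0 := by
    refine (mul_eq_zero.mp hT).resolve_left ?_
    exact neg_ne_zero.mpr (mul_ne_zero (mul_ne_zero px_ne py_ne) hz)
  have h2 : cf P 1 0 = 0 := by
    have := congrArg (ev2 px pz : P2 k →ₐ[k] P2 k) h1
    rw [ev2_ev2, ev2_px, ev2_pz, e_xzy, ev2_id, map_zero] at this
    exact this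
  have hb := bt_lcs P 2 (by
    intro i j hij
    rcases Nat.lt_or_ge (i + j) 1 with h | h
    · have : i = 0 ∧ j = 0 := by omega
      obtain ⟨rfl, rfl⟩ := this
      exact c00
    · have : (i = 1 ∧ j = 0) ∨ (i = 0 ∧ j = 1) := by omega
      rcases this with ⟨rfl, rfl⟩ | ⟨rfl, rfl⟩
      · exact h2
      · rw [c01]; exact h2)
  have e : ψ = (2 : k)⁻¹ • bt k P + (2 : k)⁻¹ • ((2 : k) • ψ - bt k P) := by
    rw [smul_sub, smul_smul, inv_mul_cancel₀ two_ne_zero, one_smul]; abel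
  rw [e]
  exact add_mem (SMulMemClass.smul_mem _ hb) (SMulMemClass.smul_mem _ (DN_le_lcs2 hP))

/-- an element of `𝔤𝔯𝔱₁` whose `(0,1)` entry vanishes has depth at least two -/
theorem depth_two_of_entry [CharZero k] {φ : F2 k} (hg : IsGRT k φ)
    (h0 : subst k (tA k) (tB k) φ 0 1 = 0) : DepthGE k 2 φ := by
  obtain ⟨c, _, hd⟩ := depth1_reduce hg
  have hA := mkM_dia (0 : P2 k) (-px) 0 (-px - py) 0 0 0 0 0
  have hB := mkM_dia (0 : P2 k) 0 0 0 1 0 1 0 0
  have hz := subst_graded (k := k) (A := tA k) (B := tB k) ![0, 1, 0, 2]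
    (by intro i j h; fin_cases i <;> fin_cases j <;> first | rfl | exact absurd rfl h)
    (by intro i j h; fin_cases i <;> fin_cases j <;> first | rfl | exact absurd rfl h)
    hd 0 1 (by decide)
  rw [map_sub, Matrix.sub_apply, h0, zero_sub, neg_eq_zero] at hz
  have h1 := (gm_entries (k := k) hA hB (sl (C c))).1
  have h2 : gm k (sl (C c)) = gam1 k c := by
    have : gm k (sl (C c)) = gam k (C c) := rfl
    rw [this, gam_C]
  rw [h2, hz, mkM_lie] at h1
  simp only [mkM_00, mkM_01, mkM_11] at h1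
  have e1 : (0 : P2 k) - -px = px := by ring
  have e2 : (0 : P2 k) - 0 = 0 := by ring
  rw [e1, e2, ev2_zero] at h1
  have e3 : c0 (sl (C c)) = c := by simp [c0]
  rw [e3, mul_one, zero_mul, sub_zero] at h1
  have h3 : aeval (px : P2 k) c = 0 := (mul_eq_zero.mp h1.symm).resolve_right px_ne
  have h4 : c = 0 := by
    have := congrArg c0 h3
    rw [c0_aeval, c0_px, aeval_X_left_apply] at this
    rw [this]; simp [c0]
  rw [h4, map_zero, sub_zero] at hd
  exact hd

end T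

end Pool.Agent.Helper392_GT
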