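import Pool.Agent.Helper392_GT.Fun

namespace Pool.Agent.Helper392_GT

open Polynomial

universe u v

set_option linter.unusedSimpArgs false
set_option linter.unusedVariables false

section upper

variable {k : Type u} [Field k]

theorem gen_comp_neg {R : Type*} [CommRing R] (p : R[X]) (j : ℕ) :
    (p.comp (-X)).coeff j = (-1) ^ j * p.coeff j := by
  have : (-X : R[X]) = C (-1) * X := by simp
  rw [this, comp_C_mul_X_coeff, mul_comm]

theorem cf_negt (Z : K0 k) (i j : ℕ) :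
    cf (ev4 (vx : K0 k) vy vs (-vt) Z) i j = ((-1 : k) ^ j) • cf Z i j := by
  let ν : K0 k →ₐ[k] K0 k := (aeval (R := (P2 k)[X]) (-X : K0 k)).restrictScalars k
  have h1 : ν = ev4 (vx : K0 k) vy vs (-vt) := by
    apply K0_hom_ext <;> simp [ν]
  have h2 : ev4 (vx : K0 k) vy vs (-vt) Z = Z.comp (-X) := by
    rw [← h1]; rfl
  rw [h2, cf, gen_comp_neg, Algebra.smul_def]
  have e1 : ((-1 : (P2 k)[X]) ^ j) = C (algebraMap k (P2 k) ((-1) ^ j)) := by
    rw [map_pow, map_neg, map_one, C_pow]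
    congr 1
    rw [C_neg, C_1]
  rw [e1, coeff_C_mul]
  rfl

theorem cf_negy (Z : K0 k) (i j : ℕ) :
    cf (ev4 (vx : K0 k) (-vy) vs vt Z) i j = ev2 (px : P2 k) (-py) (cf Z i j) := by
  have h := cf_map (ev2 (px : P2 k) (-py)) Z i j
  have e : (C (C (-py)) : K0 k) = -vy := by rw [C_neg, C_neg]
  rw [ev2_px, ev2_py, e] at h
  rw [← h, cf]

theorem parA_cf {n r : ℕ} {Θ : K0 k} (h : Lf n r Θ) (i j : ℕ) :
    ev2 (px : P2 k) (-py) (cf (tA' Θ) i j) = ((-1 : k) ^ (j + 1)) • cf (tA' Θ) i j := by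
  have h1 := h.parA (vx : K0 k) vy vs (-vt)
  have e : (- -vt : K0 k) = vt := by ring
  rw [e] at h1
  rw [← cf_negy, h1]
  have e2 : cf (-ev4 (vx : K0 k) vy vs (-vt) (tA' Θ)) i j =
      -cf (ev4 (vx : K0 k) vy vs (-vt) (tA' Θ)) i j := by simp [cf]
  rw [e2, cf_negt, pow_succ, mul_neg_one, neg_smul]

theorem parB_cf {n r : ℕ} {Θ : K0 k} (h : Lf n r Θ) (i j : ℕ) :
    ev2 (px : P2 k) (-py) (cf (tB' Θ) i j) = ((-1 : k) ^ j) • cf (tB' Θ) i j := by
  have h1 := h.parB (vx : K0 k) vy vs (-vt)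
  have e : (- -vt : K0 k) = vt := by ring
  rw [e] at h1
  rw [← cf_negy, h1, cf_negt]

/-- divisibility of a specialised form -/
theorem spec_dvd {R : Type v} [CommRing R] [Algebra k R] {r : ℕ} {Z : K0 k} (hZ : Fm r Z)
    (Φ : K0 k →ₐ[k] R) {d : R} (h1 : d ∣ Φ vs)
    (h2 : ∀ i ≤ r, d ^ i ∣ Φ (C (C (cf Z (r - i) i)))) : d ^ r ∣ Φ Z := by
  rw [← hZ.ld_eq, ld_eq_sum, map_sum]
  refine Finset.dvd_sum fun a ha => ?_
  rw [Finset.mem_range] at ha
  rw [map_mul, map_mul, map_pow, map_pow]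
  have h3 := h2 (r - a) (by omega)
  rw [show r - (r - a) = a by omega] at h3
  have h4 : d ^ (r - a) * d ^ a ∣ Φ (C (C (cf Z a (r - a)))) * Φ vs ^ a :=
    mul_dvd_mul h3 (pow_dvd_pow_of_dvd h1 a)
  rw [← pow_add, show r - a + a = r by omega] at h4
  exact h4.mul_right _

theorem EE_sum_eq : EE (vs + vt : K0 k) = C (py - px) * (C Fq + C (px + py) * X) := by
  rw [map_add, EE_eq, EE_eq, ev4_vs, ev4_vt]
  have e1 : (C de : (P2 k)[X]) = C ga + C (py - px) * C Fq := by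
    rw [← C_mul, ← C_add]; congr 1; rw [de, ga]; ring
  have e2 : (C al : (P2 k)[X]) = C be + C (py - px) * C (px + py) := by
    rw [← C_mul, ← C_add]; congr 1; rw [al, be]; ring
  rw [e1, e2]; ring

theorem EE_vt_eq : EE (vt : K0 k) =
    C py * (-C (px * (px + py) * (2 * px + py)) + C (2 * px + py) * X) := by
  rw [EE_eq, ev4_vt]
  have e1 : (C ga : (P2 k)[X]) = C py * C (px * (px + py) * (2 * px + py)) := by
    rw [← C_mul]; congr 1; rw [ga, Fq]; ring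
  have e2 : (C al : (P2 k)[X]) = C py * C (2 * px + py) := by
    rw [← C_mul]; congr 1
  rw [e1, e2]; ring

theorem two_pow_unit [CharZero k] {G p : P2 k} {n r : ℕ} (h : p ^ r ∣ 2 ^ n * G) : p ^ r ∣ G := by
  obtain ⟨c, hc⟩ := h
  refine ⟨algebraMap k (P2 k) ((2 ^ n)⁻¹) * c, ?_⟩
  have e : algebraMap k (P2 k) ((2 ^ n)⁻¹) * 2 ^ n = 1 := by
    have : (2 : P2 k) ^ n = algebraMap k (P2 k) (2 ^ n) := by rw [map_pow, map_ofNat]
    rw [this, ← map_mul, inv_mul_cancel₀ (pow_ne_zero _ two_ne_zero), map_one]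
  calc G = (algebraMap k (P2 k) ((2 ^ n)⁻¹) * 2 ^ n) * G := by rw [e, one_mul]
    _ = algebraMap k (P2 k) ((2 ^ n)⁻¹) * (2 ^ n * G) := by ring
    _ = p ^ r * (algebraMap k (P2 k) ((2 ^ n)⁻¹) * c) := by rw [hc]; ring

theorem coeff_dvd_of {p : P2 k} {r n : ℕ} {F : (P2 k)[X]} [CharZero k]
    (h : (C p) ^ r ∣ 2 ^ n * F) (j : ℕ) : p ^ r ∣ F.coeff j := by
  rw [← C_pow, C_dvd_iff_dvd_coeff] at h
  have h1 := h j
  have e : (2 ^ n * F).coeff j = 2 ^ n * F.coeff j := by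
    have : (2 : (P2 k)[X]) ^ n = C (2 ^ n) := by rw [C_pow, C_two']
    rw [this, coeff_C_mul]
  rw [e] at h1
  exact two_pow_unit h1

theorem EE_dvdA [CharZero k] {n r : ℕ} {Θ : K0 k} (h : Lf n r Θ)
    (h1 : ∀ i ≤ r, py ^ i ∣ cf (tA' Θ) (r - i) i) (j : ℕ) : (py - px) ^ r ∣ (EE Θ).coeff j := by
  refine coeff_dvd_of (n := n) ?_ j
  have h2 := congrArg EE (h.backA (vx : K0 k) vy vs vt)
  rw [ev4_id, map_mul, map_mul, map_pow, map_pow, map_ofNat, ev4_comp] at h2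
  rw [← h2]
  refine Dvd.dvd.mul_left ?_ _
  refine spec_dvd h.fmA _ ?_ ?_
  · rw [ev4_vs, EE_sum_eq]; exact dvd_mul_right _ _
  · intro i hi
    rw [ev4_CC]
    have h3 := _root_.map_dvd (ev2 (k := k) (EE (vx + vy : K0 k)) (EE (vy - vx : K0 k))) (h1 i hi)
    rw [map_pow, ev2_py] at h3
    have e : EE (vy - vx : K0 k) = C (py - px) := by
      rw [map_sub, EE_CC, EE_CC, C_sub]
    rw [e] at h3 ⊢
    exact h3

theorem EE_dvdB [CharZero k] {n r : ℕ} {Θ : K0 k} (h : Lf n r Θ)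
    (h1 : ∀ i ≤ r, py ^ i ∣ cf (tB' Θ) (r - i) i) (j : ℕ) : py ^ r ∣ (EE Θ).coeff j := by
  refine coeff_dvd_of (n := n) ?_ j
  have h2 := congrArg EE (h.backB (vx : K0 k) vy vs vt)
  rw [ev4_id, map_mul, map_mul, map_pow, map_pow, map_ofNat, ev4_comp] at h2
  rw [← h2]
  refine Dvd.dvd.mul_left ?_ _
  refine spec_dvd h.fmB _ ?_ ?_
  · rw [ev4_vs, EE_vt_eq]; exact dvd_mul_right _ _
  · intro i hi
    rw [ev4_CC]
    have h3 := _root_.map_dvd (ev2 (k := k) (EE (2 * vx + vy : K0 k)) (EE (vy : K0 k))) (h1 i hi)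
    rw [map_pow, ev2_py] at h3
    have e : EE (vy : K0 k) = C py := EE_CC py
    rw [e] at h3 ⊢
    exact h3

/-- the homogeneous part as a linear map -/
noncomputable def ldl (r : ℕ) : K0 k →ₗ[k] K0 k where
  toFun := ld r
  map_add' := ld_add r
  map_smul' c Q := ld_smul r c Q

/-- the linear functionals -/
noncomputable def ell (r i l : ℕ) : K0 k →ₗ[k] k :=
  (leval (R := k) 1) ∘ₗ ((lcoeff k[X] l).restrictScalars k) ∘ₗ (sl (k := k)).symm.toLinearMap ∘ₗ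
    ((lcoeff (P2 k) (r - i)).restrictScalars k) ∘ₗ ((lcoeff (P2 k)[X] i).restrictScalars k) ∘ₗ
    (if (i + l) % 2 = 1 then (tA' (k := k)).toLinearMap else (tB' (k := k)).toLinearMap) ∘ₗ ldl r

theorem ell_apply (r i l : ℕ) (Q : K0 k) : ell r i l Q =
    (((sl (k := k)).symm (cf (if (i + l) % 2 = 1 then tA' (ld r Q) else tB' (ld r Q)) (r - i) i)).coeff
      l).eval 1 := by
  unfold ell
  split_ifs <;> rfl

theorem lf01 : lf (0 : k) 1 = py := by rw [lf, map_zero, map_one, zero_mul, one_mul, zero_add]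
theorem lf11 : lf (-1 : k) 1 = py - px := by rw [lf, map_neg, map_one]; ring

theorem upper [CharZero k] {n r : ℕ} {Q : K0 k} (hΘ : Lf n r (ld r Q))
    (hz : ∀ i ≤ r, ∀ l < i, ell r i l Q = 0) :
    ∃ g : ℕ → P2 k, (∀ i ≤ r, OA (g i) ∧
      X ^ (5 + 3 * (r - i) + 5 * i) * sc (g i) = X ^ n * C (g i)) ∧
      ld r Q = ∑ i ∈ Finset.range (r + 1), C (C (g i)) * w3 ^ (r - i) * w5 ^ i := by
  have hA : ∀ i ≤ r, py ^ i ∣ cf (tA' (ld r Q)) (r - i) i := by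
    intro i hi
    refine py_pow_dvd (cf_hom hΘ.fmA hΘ.hmA (r - i) i) (parA_cf hΘ (r - i) i) ?_
    intro l hl hpar
    have h := hz i hi l hl
    rw [ell_apply, if_pos (by omega)] at h
    exact h
  have hB : ∀ i ≤ r, py ^ i ∣ cf (tB' (ld r Q)) (r - i) i := by
    intro i hi
    refine py_pow_dvd (cf_hom hΘ.fmB hΘ.hmB (r - i) i) (parB_cf hΘ (r - i) i) ?_
    intro l hl hpar
    have h := hz i hi l hl
    rw [ell_apply, if_neg (by omega)] at h
    exact h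
  have hdvd : (C (Dp ^ r) : (P2 k)[X]) ∣ EE (ld r Q) := by
    rw [C_dvd_iff_dvd_coeff]
    intro j
    refine six_dvd ?_ ?_ ?_ ?_
    · exact pm_of (EE_swap hΘ j)
    · exact pm_of (EE_rot hΘ j)
    · rw [lf01]; exact EE_dvdB hΘ hB j
    · rw [lf11]; exact EE_dvdA hΘ hA j
  obtain ⟨Ψ, hΨ⟩ := hdvd
  rw [C_pow] at hΨ
  refine ⟨fun i => Ψ.coeff i, fun i hi => ⟨⟨coef_swap hΘ hΨ i, coef_rot hΘ hΨ i,
    coef_par hΘ hΨ i⟩, ?_⟩, ?_⟩
  · have := coef_hom hΘ hΨ i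
    rwa [show 5 + 3 * r + 2 * i = 5 + 3 * (r - i) + 5 * i by omega] at this
  · have h3 := (hz_main r Q).2
    have hne : (C (C Dp) ^ r : K0 k) ≠ 0 := pow_ne_zero _ (by
      rw [Ne, C_eq_zero, C_eq_zero]; exact Dp_ne)
    refine mul_left_cancel₀ hne ?_
    rw [h3, Finset.mul_sum]
    refine Finset.sum_congr rfl fun i _ => ?_
    rw [hΨ, ← C_pow, coeff_C_mul, C_mul, C_mul, C_pow, C_pow]
    ring

end upper

end Pool.Agent.Helper392_GT
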