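import Pool.Agent.Helper392_GT.Act2
import Pool.Agent.Helper392_GT.Defs3

namespace Pool.Agent.Helper392_GT

open Polynomial

universe u v

set_option linter.unusedSimpArgs false
set_option linter.unusedVariables false

attribute [local instance 100] LieRing.ofAssociativeRing

section wt

variable {k : Type u} [CommRing k]

theorem gx_wt : gx k ∈ wt k 1 := Submodule.subset_span (Or.inl rfl)
theorem gy_wt : gy k ∈ wt k 1 := Submodule.subset_span (Or.inr rfl)

theorem x_lie_wt {n : ℕ} {u : F2 k} (hu : u ∈ wt k n) : ⁅gx k, u⁆ ∈ wt k (n + 1) := by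
  rcases n with _ | n
  · have : u = 0 := hu
    rw [this, lie_zero]; exact Submodule.zero_mem _
  · exact Submodule.subset_span ⟨u, hu, Or.inl rfl⟩

theorem y_lie_wt {n : ℕ} {u : F2 k} (hu : u ∈ wt k n) : ⁅gy k, u⁆ ∈ wt k (n + 1) := by
  rcases n with _ | n
  · have : u = 0 := hu
    rw [this, lie_zero]; exact Submodule.zero_mem _
  · exact Submodule.subset_span ⟨u, hu, Or.inr rfl⟩

/-- induction on the weight -/
theorem wt_ind (Q : ℕ → F2 k → Prop) (h0 : ∀ n, Q n 0) (hadd : ∀ n a b, Q n a → Q n b → Q n (a + b))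
    (hsmul : ∀ n (c : k) a, Q n a → Q n (c • a)) (hx1 : Q 1 (gx k)) (hy1 : Q 1 (gy k))
    (hx : ∀ n u, u ∈ wt k n → Q n u → Q (n + 1) ⁅gx k, u⁆)
    (hy : ∀ n u, u ∈ wt k n → Q n u → Q (n + 1) ⁅gy k, u⁆) (n : ℕ) {u : F2 k}
    (hu : u ∈ wt k n) : Q n u := by
  induction n generalizing u with
  | zero =>
    have : u = 0 := hu
    rw [this]; exact h0 0
  | succ n ih =>
    rcases n with _ | n
    · change u ∈ Submodule.span k {FreeLieAlgebra.of k 0, FreeLieAlgebra.of k 1} at hu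
      induction hu using Submodule.span_induction with
      | mem x hxm =>
        rcases hxm with rfl | rfl
        · exact hx1
        · exact hy1
      | zero => exact h0 1
      | add a b _ _ ha hb => exact hadd 1 a b ha hb
      | smul c a _ ha => exact hsmul 1 c a ha
    · change u ∈ Submodule.span k {v | ∃ u ∈ wt k (n + 1), v = ⁅(FreeLieAlgebra.of k 0 : F2 k), u⁆ ∨
        v = ⁅(FreeLieAlgebra.of k 1 : F2 k), u⁆} at hu
      induction hu using Submodule.span_induction with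
      | mem x hxm =>
        obtain ⟨w, hw, rfl | rfl⟩ := hxm
        · exact hx (n + 1) w hw (ih hw)
        · exact hy (n + 1) w hw (ih hw)
      | zero => exact h0 _
      | add a b _ _ ha hb => exact hadd _ a b ha hb
      | smul c a _ ha => exact hsmul _ c a ha

theorem lie_wt {a b : ℕ} {u v : F2 k} (hu : u ∈ wt k a) (hv : v ∈ wt k b) :
    ⁅u, v⁆ ∈ wt k (a + b) := by
  refine wt_ind (fun a u => ∀ b v, v ∈ wt k b → ⁅u, v⁆ ∈ wt k (a + b)) ?_ ?_ ?_ ?_ ?_ ?_ ?_ a hu b v hv
  · intro n b v hv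
    rw [zero_lie]; exact Submodule.zero_mem _
  · intro n x y hx hy b v hv
    rw [add_lie]; exact Submodule.add_mem _ (hx b v hv) (hy b v hv)
  · intro n c x hx b v hv
    rw [smul_lie]; exact Submodule.smul_mem _ _ (hx b v hv)
  · intro b v hv
    rw [add_comm]; exact x_lie_wt hv
  · intro b v hv
    rw [add_comm]; exact y_lie_wt hv
  · intro n u hu h b v hv
    rw [lie_lie]
    refine Submodule.sub_mem _ ?_ ?_
    · have := x_lie_wt (h b v hv)
      rwa [show n + b + 1 = n + 1 + b by ring] at this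
    · have := h (b + 1) _ (x_lie_wt hv)
      rwa [show n + (b + 1) = n + 1 + b by ring] at this
  · intro n u hu h b v hv
    rw [lie_lie]
    refine Submodule.sub_mem _ ?_ ?_
    · have := y_lie_wt (h b v hv)
      rwa [show n + b + 1 = n + 1 + b by ring] at this
    · have := h (b + 1) _ (y_lie_wt hv)
      rwa [show n + (b + 1) = n + 1 + b by ring] at this

theorem der_wt {a : ℕ} {σ : F2 k} (hσ : σ ∈ wt k a) (D : LieDerivation k (F2 k) (F2 k))
    (hDx : D (gx k) = 0) (hDy : D (gy k) = ⁅gy k, σ⁆) {b : ℕ} {u : F2 k} (hu : u ∈ wt k b) :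
    D u ∈ wt k (a + b) := by
  refine wt_ind (fun b u => D u ∈ wt k (a + b)) ?_ ?_ ?_ ?_ ?_ ?_ ?_ b hu
  · intro n; rw [map_zero]; exact Submodule.zero_mem _
  · intro n x y hx hy
    rw [map_add]; exact Submodule.add_mem _ hx hy
  · intro n c x hx
    rw [map_smul]; exact Submodule.smul_mem _ _ hx
  · rw [hDx]; exact Submodule.zero_mem _
  · rw [hDy]; exact y_lie_wt hσ
  · intro n u hu h
    rw [LieDerivation.apply_lie_eq_sub, hDx, lie_zero, sub_zero]
    exact x_lie_wt h
  · intro n u hu h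
    rw [LieDerivation.apply_lie_eq_sub, hDy]
    refine Submodule.sub_mem _ (y_lie_wt h) ?_
    have := lie_wt hu (y_lie_wt hσ)
    rwa [show n + (a + 1) = a + (n + 1) by ring] at this

variable {K : Type u} [CommRing K] [Algebra k K]

theorem wt_scale {n : ℕ} {u : F2 k} (hu : u ∈ wt k n) (c : K) (A B : Matrix (Fin 4) (Fin 4) K) :
    subst k (c • A) (c • B) u = c ^ n • subst k A B u := by
  refine wt_ind (fun n u => subst k (c • A) (c • B) u = c ^ n • subst k A B u) ?_ ?_ ?_ ?_ ?_ ?_ ?_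
    n hu
  · intro n; simp
  · intro n x y hx hy
    rw [map_add, map_add, hx, hy, smul_add]
  · intro n r x hx
    rw [map_smul, map_smul, hx, smul_comm]
  · rw [subst_x, subst_x, pow_one]
  · rw [subst_y, subst_y, pow_one]
  · intro n u hu h
    rw [LieHom.map_lie, LieHom.map_lie, h, subst_x, subst_x]
    simp only [Ring.lie_def, mul_smul_comm, smul_mul_assoc, smul_sub, smul_smul, pow_succ]
    rw [mul_comm c]
  · intro n u hu h
    rw [LieHom.map_lie, LieHom.map_lie, h, subst_y, subst_y]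
    simp only [Ring.lie_def, mul_smul_comm, smul_mul_assoc, smul_sub, smul_smul, pow_succ]
    rw [mul_comm c]

end wt

section D2

variable {k : Type u} [CommRing k]

theorem der_D1 (D : LieDerivation k (F2 k) (F2 k)) {u : F2 k} (hu : u ∈ D1 k)
    (hDx : D (gx k) ∈ D1 k) (hDy : D (gy k) ∈ D1 k) : D u ∈ D1 k := by
  have hall : ∀ v, D v ∈ D1 k := by
    intro v
    refine free_ind (fun v => D v ∈ D1 k) ?_ ?_ ?_ ?_ hDx hDy v
    · rw [map_zero]; exact (D1 k).zero_mem
    · intro a b ha hb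
      rw [map_add]; exact (D1 k).add_mem ha hb
    · intro c a ha
      rw [map_smul]; exact (D1 k).smul_mem _ ha
    · intro a b ha hb
      rw [LieDerivation.apply_lie_eq_sub]
      exact (D1 k).sub_mem (mem_D1 _ _) (mem_D1 _ _)
  exact hall u

theorem der_D2 (D : LieDerivation k (F2 k) (F2 k)) {u : F2 k} (hu : u ∈ D2 k)
    (hDx : D (gx k) ∈ D1 k) (hDy : D (gy k) ∈ D1 k) : D u ∈ D2 k := by
  refine lie_ind (D1 k) (D1 k) (fun u => D u ∈ D2 k) ?_ ?_ ?_ ?_ hu
  · rw [map_zero]; exact (D2 k).zero_mem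
  · intro a b ha hb
    rw [map_add]; exact (D2 k).add_mem ha hb
  · intro c a ha
    rw [map_smul]; exact (D2 k).smul_mem _ ha
  · intro a ha b hb
    rw [LieDerivation.apply_lie_eq_sub]
    exact (D2 k).sub_mem (mem_D2 ha (der_D1 D hb hDx hDy)) (mem_D2 hb (der_D1 D ha hDx hDy))

theorem der_in_D2 (E : LieDerivation k (F2 k) (F2 k)) (hEx : E (gx k) = 0)
    (hEy : E (gy k) ∈ D2 k) (u : F2 k) : E u ∈ D2 k := by
  refine free_ind (fun u => E u ∈ D2 k) ?_ ?_ ?_ ?_ ?_ hEy u
  · rw [map_zero]; exact (D2 k).zero_mem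
  · intro a b ha hb
    rw [map_add]; exact (D2 k).add_mem ha hb
  · intro c a ha
    rw [map_smul]; exact (D2 k).smul_mem _ ha
  · intro a b ha hb
    rw [LieDerivation.apply_lie_eq_sub]
    exact (D2 k).sub_mem (LieSubmodule.lie_mem _ hb) (LieSubmodule.lie_mem _ ha)
  · rw [hEx]; exact (D2 k).zero_mem

theorem act_D2 {σ φ : F2 k} (hσ : σ ∈ D1 k) (hφ : φ ∈ D2 k) (D E : LieDerivation k (F2 k) (F2 k))
    (hDx : D (gx k) = 0) (hDy : D (gy k) = ⁅gy k, σ⁆) (hEx : E (gx k) = 0)
    (hEy : E (gy k) = ⁅gy k, φ⁆) : ⁅σ, φ⁆ + D φ - E σ ∈ D2 k := by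
  refine (D2 k).sub_mem ((D2 k).add_mem (LieSubmodule.lie_mem _ hφ) ?_) ?_
  · refine der_D2 D hφ ?_ ?_
    · rw [hDx]; exact (D1 k).zero_mem
    · rw [hDy]; exact mem_D1 _ _
  · refine der_in_D2 E hEx ?_ σ
    rw [hEy]; exact LieSubmodule.lie_mem _ hφ

end D2

end Pool.Agent.Helper392_GT
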